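import Mathlib
import Pool.Agent.MP_e97151_al.Basic

-- part MP_e97151_al.Tree
section

/-! R-trees: four point condition plus geodesics. Basic toolkit. -/

set_option autoImplicit false

namespace Pool.Agent.MP_e97151_al

class RT (Y : Type) [MetricSpace Y] : Prop where
  four : ∀ a b c d : Y, dist a b + dist c d ≤ max (dist a c + dist b d) (dist a d + dist b c)
  mid : ∀ (a b : Y) (t : ℝ), 0 ≤ t → t ≤ dist a b → ∃ p, dist a p = t ∧ dist p b = dist a b - t

section Metric
variable {Y : Type} [MetricSpace Y]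

/-- `p` lies between `a` and `b`. -/
def Btw (a p b : Y) : Prop := dist a p + dist p b = dist a b

/-- Gromov product of `a`, `b` at `x`. -/
noncomputable def gp (x a b : Y) : ℝ := (dist x a + dist x b - dist a b) / 2

theorem gp_comm (x a b : Y) : gp x a b = gp x b a := by
  unfold gp; rw [dist_comm a b]; ring

theorem gp_nonneg (x a b : Y) : 0 ≤ gp x a b := by
  unfold gp; have := dist_triangle_left a b x; linarith

theorem gp_le_left (x a b : Y) : gp x a b ≤ dist x a := by
  unfold gp; have := dist_triangle x a b; linarith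

theorem gp_le_right (x a b : Y) : gp x a b ≤ dist x b := by
  rw [gp_comm]; exact gp_le_left x b a

theorem gp_add (a b c : Y) : gp a b c + gp b a c = dist a b := by
  unfold gp; rw [dist_comm b a]; ring

theorem gp_self (x a : Y) : gp x a a = dist x a := by
  unfold gp; rw [dist_self]; ring

theorem gp_base (x a : Y) : gp x a x = 0 := by
  unfold gp; rw [dist_self, dist_comm a x]; ring

theorem btw_iff_gp (a m b : Y) : Btw a m b ↔ gp m a b = 0 := by
  unfold gp Btw; rw [dist_comm a m]; constructor <;> intro h <;> linarith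

theorem not_btw_iff (a m b : Y) : ¬ Btw a m b ↔ 0 < gp m a b := by
  rw [btw_iff_gp]; have := gp_nonneg m a b
  constructor
  · intro h; exact lt_of_le_of_ne this (Ne.symm h)
  · intro h; exact ne_of_gt h

theorem Btw.symm {a p b : Y} (h : Btw a p b) : Btw b p a := by
  unfold Btw at *; rw [dist_comm b p, dist_comm p a, dist_comm b a]; linarith

theorem btw_left (a b : Y) : Btw a a b := by unfold Btw; simp

theorem btw_right (a b : Y) : Btw a b b := by unfold Btw; simp

theorem Btw.eq_of_self {a p : Y} (h : Btw a p a) : p = a := by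
  unfold Btw at h; rw [dist_self, dist_comm a p] at h
  exact dist_eq_zero.mp (by linarith [dist_nonneg (x := p) (y := a)])

theorem Btw.le_left {a p b : Y} (h : Btw a p b) : dist a p ≤ dist a b := by
  unfold Btw at h; linarith [dist_nonneg (x := p) (y := b)]

theorem Btw.le_right {a p b : Y} (h : Btw a p b) : dist p b ≤ dist a b := by
  unfold Btw at h; linarith [dist_nonneg (x := a) (y := p)]

/-- `a p q b` in this order. -/
theorem Btw.trans_left {a p q b : Y} (h1 : Btw a q b) (h2 : Btw a p q) :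
    Btw a p b ∧ Btw p q b := by
  unfold Btw at *
  have := dist_triangle p q b
  have := dist_triangle a p b
  constructor <;> linarith

/-- `a p q b` in this order. -/
theorem Btw.trans_right {a p q b : Y} (h1 : Btw a p b) (h2 : Btw p q b) :
    Btw a q b ∧ Btw a p q := by
  unfold Btw at *
  have := dist_triangle a p q
  have := dist_triangle a q b
  constructor <;> linarith

variable [RT Y]

theorem gp_ultra (x a b c : Y) : min (gp x a b) (gp x b c) ≤ gp x a c := by
  have h := RT.four a c x b
  unfold gp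
  rw [dist_comm a x, dist_comm c b, dist_comm c x] at h
  rcases le_total (dist x a + dist b c) (dist a b + dist x c) with h1 | h1
  · rw [max_eq_right h1] at h
    exact le_trans (min_le_left _ _) (by linarith)
  · rw [max_eq_left h1] at h
    exact le_trans (min_le_right _ _) (by linarith)

theorem gp_pos_trans {x a b c : Y} (h1 : 0 < gp x a b) (h2 : 0 < gp x b c) : 0 < gp x a c :=
  lt_of_lt_of_le (lt_min h1 h2) (gp_ultra x a b c)

/-- The point at distance `t` (clamped to the segment) from `a` towards `b`. -/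
noncomputable def geo (a b : Y) (t : ℝ) : Y :=
  Classical.choose (RT.mid a b (max 0 (min t (dist a b))) (le_max_left _ _)
    (max_le dist_nonneg (min_le_right _ _)))

theorem geo_spec (a b : Y) (t : ℝ) :
    dist a (geo a b t) = max 0 (min t (dist a b)) ∧
      dist (geo a b t) b = dist a b - max 0 (min t (dist a b)) :=
  Classical.choose_spec (RT.mid a b (max 0 (min t (dist a b))) (le_max_left _ _)
    (max_le dist_nonneg (min_le_right _ _)))

theorem dist_geo_left {a b : Y} {t : ℝ} (h0 : 0 ≤ t) (h1 : t ≤ dist a b) :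
    dist a (geo a b t) = t := by
  rw [(geo_spec a b t).1, min_eq_left h1, max_eq_right h0]

theorem dist_geo_right {a b : Y} {t : ℝ} (h0 : 0 ≤ t) (h1 : t ≤ dist a b) :
    dist (geo a b t) b = dist a b - t := by
  rw [(geo_spec a b t).2, min_eq_left h1, max_eq_right h0]

theorem btw_geo (a b : Y) (t : ℝ) : Btw a (geo a b t) b := by
  unfold Btw; rw [(geo_spec a b t).1, (geo_spec a b t).2]; ring

/-- distance from a point of a segment to an arbitrary point -/
theorem Btw.dist_eq {a p b : Y} (h : Btw a p b) (k : Y) :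
    dist p k = max (dist a k - dist a p) (dist b k - dist p b) := by
  have h4 := RT.four a b p k
  unfold Btw at h
  rw [dist_comm b p] at h4
  apply le_antisymm
  · rcases le_total (dist a p + dist b k) (dist a k + dist p b) with h1 | h1
    · rw [max_eq_right h1] at h4
      exact le_trans (by linarith) (le_max_left _ _)
    · rw [max_eq_left h1] at h4
      exact le_trans (by linarith) (le_max_right _ _)
  · apply max_le
    · linarith [dist_triangle a p k]
    · have := dist_triangle b p k
      rw [dist_comm b p] at this; linarith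

theorem dist_geo {a b : Y} {t : ℝ} (h0 : 0 ≤ t) (h1 : t ≤ dist a b) (k : Y) :
    dist (geo a b t) k = max (dist a k - t) (dist b k - dist a b + t) := by
  rw [(btw_geo a b t).dist_eq k, dist_geo_left h0 h1, dist_geo_right h0 h1]
  congr 1; ring

theorem Btw.dist_btw {a p q b : Y} (hp : Btw a p b) (hq : Btw a q b) :
    dist p q = |dist a p - dist a q| := by
  rw [hp.dist_eq q, abs_eq_max_neg, max_comm]
  unfold Btw at hp hq
  rw [dist_comm b q]
  congr 1 <;> linarith

theorem Btw.unique {a p q b : Y} (hp : Btw a p b) (hq : Btw a q b) (h : dist a p = dist a q) :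
    p = q := by
  apply dist_eq_zero.mp; rw [hp.dist_btw hq, h]; simp

theorem Btw.eq_geo {a p b : Y} (hp : Btw a p b) : p = geo a b (dist a p) :=
  hp.unique (btw_geo a b _) (dist_geo_left dist_nonneg hp.le_left).symm

theorem eq_geo_of_dist {a p b : Y} {t : ℝ} (h1 : dist a p = t) (h2 : dist p b = dist a b - t) :
    p = geo a b t := by
  have : Btw a p b := by unfold Btw; linarith
  rw [← h1]; exact this.eq_geo

theorem geo_zero (a b : Y) : geo a b 0 = a :=
  (eq_geo_of_dist (dist_self a) (by simp)).symm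

theorem geo_dist (a b : Y) : geo a b (dist a b) = b :=
  (eq_geo_of_dist rfl (by simp)).symm

theorem geo_rev (a b : Y) (t : ℝ) : geo b a (dist a b - t) = geo a b t := by
  apply (btw_geo b a _).symm.unique (btw_geo a b t)
  have h1 := (geo_spec b a (dist a b - t)).2
  rw [dist_comm a (geo b a _), h1, (geo_spec a b t).1, dist_comm b a]
  have := dist_nonneg (x := a) (y := b)
  simp only [max_def, min_def]
  split_ifs <;> linarith

theorem dist_geo_geo {a b : Y} {s t : ℝ} (hs0 : 0 ≤ s) (hs1 : s ≤ dist a b) (ht0 : 0 ≤ t)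
    (ht1 : t ≤ dist a b) : dist (geo a b s) (geo a b t) = |s - t| := by
  rw [(btw_geo a b s).dist_btw (btw_geo a b t), dist_geo_left hs0 hs1, dist_geo_left ht0 ht1]

theorem geo_inj {a b : Y} {s t : ℝ} (hs0 : 0 ≤ s) (hs1 : s ≤ dist a b) (ht0 : 0 ≤ t)
    (ht1 : t ≤ dist a b) (h : geo a b s = geo a b t) : s = t := by
  rw [← dist_geo_left hs0 hs1, h, dist_geo_left ht0 ht1]

theorem dist_geo_geo_le (a b : Y) (s t : ℝ) : dist (geo a b s) (geo a b t) ≤ |s - t| := by
  rw [(btw_geo a b s).dist_btw (btw_geo a b t), (geo_spec a b s).1, (geo_spec a b t).1]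
  have := dist_nonneg (x := a) (y := b)
  rw [abs_le]
  have h1 := le_abs_self (s - t)
  have h2 := neg_abs_le (s - t)
  simp only [max_def, min_def]
  constructor <;> split_ifs <;> linarith

theorem continuous_geo (a b : Y) : Continuous (geo a b) :=
  (LipschitzWith.of_dist_le_mul (K := 1) (fun s t => by
    rw [NNReal.coe_one, one_mul, Real.dist_eq]; exact dist_geo_geo_le a b s t)).continuous

theorem btw_geo_geo {a b : Y} {s t u : ℝ} (hs0 : 0 ≤ s) (hst : s ≤ t) (htu : t ≤ u)
    (hu : u ≤ dist a b) : Btw (geo a b s) (geo a b t) (geo a b u) := by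
  unfold Btw
  rw [dist_geo_geo hs0 (by linarith) (by linarith) (by linarith),
    dist_geo_geo (by linarith) (by linarith) (by linarith) hu,
    dist_geo_geo hs0 (by linarith) (by linarith) hu,
    abs_of_nonpos (by linarith), abs_of_nonpos (by linarith), abs_of_nonpos (by linarith)]
  ring

theorem geo_sub {a b : Y} {s t u : ℝ} (hs0 : 0 ≤ s) (ht : t ≤ dist a b) (hu0 : 0 ≤ u)
    (hu : s + u ≤ t) : geo (geo a b s) (geo a b t) u = geo a b (s + u) := by
  have hb := btw_geo_geo (a := a) (b := b) hs0 (show s ≤ s + u by linarith) hu ht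
  rw [hb.eq_geo, dist_geo_geo hs0 (by linarith) (by linarith) (by linarith),
    abs_of_nonpos (by linarith)]
  congr 1; ring

theorem geo_eq_of_le_gp {a b c : Y} {t : ℝ} (h0 : 0 ≤ t) (h : t ≤ gp a b c) :
    geo a b t = geo a c t := by
  have h1 := gp_le_left a b c
  have h2 := gp_le_right a b c
  apply eq_geo_of_dist (dist_geo_left h0 (by linarith))
  rw [dist_geo h0 (by linarith)]
  unfold gp at h
  apply max_eq_left; linarith

theorem le_gp_of_btw {a b c p : Y} (h1 : Btw a p b) (h2 : Btw a p c) : dist a p ≤ gp a b c := by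
  unfold Btw at h1 h2; unfold gp
  have := dist_triangle_left b c p
  linarith

theorem le_gp_of_geo_eq {a b c : Y} {t : ℝ} (h0 : 0 ≤ t) (hb : t ≤ dist a b)
    (h : geo a b t = geo a c t) : t ≤ gp a b c := by
  have := le_gp_of_btw (btw_geo a b t) (h ▸ btw_geo a c t)
  rwa [dist_geo_left h0 hb] at this

theorem Btw.split {a p c : Y} (h : Btw a p c) (b : Y) : Btw a p b ∨ Btw b p c := by
  have h1 := h.dist_eq b
  rcases le_total (dist a b - dist a p) (dist c b - dist p c) with h2 | h2
  · rw [max_eq_right h2] at h1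
    right; unfold Btw; rw [dist_comm b p, dist_comm b c]; linarith
  · rw [max_eq_left h2] at h1
    left; unfold Btw; linarith

/-- concatenation of two segments that overlap in a nondegenerate segment -/
theorem Btw.concat {a b c d : Y} (h1 : Btw a b c) (h2 : Btw b c d) (hne : b ≠ c) :
    Btw a b d ∧ Btw a c d := by
  have hpos : 0 < dist b c := dist_pos.mpr hne
  have h4 := RT.four a c b d
  have t1 := dist_triangle a b d
  unfold Btw at *
  rw [dist_comm c b] at h4
  rcases le_total (dist a b + dist c d) (dist a d + dist b c) with h | h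
  · rw [max_eq_right h] at h4
    constructor <;> linarith
  · rw [max_eq_left h] at h4
    linarith

/-- two points on a segment are ordered -/
theorem Btw.order {a p q b : Y} (hp : Btw a p b) (hq : Btw a q b) (h : dist a p ≤ dist a q) :
    Btw a p q ∧ Btw p q b := by
  have := hp.dist_btw hq
  rw [abs_of_nonpos (by linarith)] at this
  unfold Btw at *
  constructor <;> linarith

/-- segments are convex -/
theorem Btw.convex {a p q b y : Y} (hp : Btw a p b) (hq : Btw a q b) (hy : Btw p y q) :
    Btw a y b := by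
  rcases le_total (dist a p) (dist a q) with h | h
  · obtain ⟨h1, h2⟩ := hp.order hq h
    exact (hp.trans_right (h2.trans_left hy).1).1
  · obtain ⟨h1, h2⟩ := hq.order hp h
    exact (hq.trans_right (h2.trans_left hy.symm).1).1

/-- median -/
noncomputable def med (a b c : Y) : Y := geo a b (gp a b c)

theorem btw_med1 (a b c : Y) : Btw a (med a b c) b := btw_geo _ _ _

theorem dist_med (a b c : Y) : dist a (med a b c) = gp a b c :=
  dist_geo_left (gp_nonneg _ _ _) (gp_le_left _ _ _)

theorem btw_med3 (a b c : Y) : Btw a (med a b c) c := by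
  unfold med; rw [geo_eq_of_le_gp (gp_nonneg a b c) le_rfl]; exact btw_geo _ _ _

theorem btw_med2 (a b c : Y) : Btw b (med a b c) c := by
  have h1 := btw_med1 a b c
  have h3 := btw_med3 a b c
  have h := dist_med a b c
  unfold Btw at *; unfold gp at h
  rw [dist_comm b]; linarith

theorem eq_med {a b c m : Y} (h1 : Btw a m b) (h2 : Btw b m c) (h3 : Btw a m c) :
    m = med a b c := by
  apply h1.unique (btw_med1 a b c)
  rw [dist_med]; unfold Btw at *; unfold gp
  rw [dist_comm b m] at h2; linarith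

/-- the projection of `k` to the segment `[a,b]` lies between any point of it and `k` -/
theorem Btw.btw_med {a y b : Y} (h : Btw a y b) (k : Y) : Btw y (med a b k) k := by
  rcases le_total (dist a y) (dist a (med a b k)) with h1 | h1
  · exact ((btw_med3 a b k).trans_left (h.order (btw_med1 a b k) h1).1).2
  · exact ((btw_med2 a b k).trans_left ((btw_med1 a b k).order h h1).2.symm).2

theorem eq_med_of_gp {a b k m : Y} (h : Btw a m b) (h1 : gp m a k = 0) (h2 : gp m b k = 0) :
    m = med a b k :=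
  eq_med h ((btw_iff_gp _ _ _).mpr h2) ((btw_iff_gp _ _ _).mpr h1)

/-- a median that lies on a segment is the projection of one of five points -/
theorem med_on {a b c p q : Y} (h : Btw p (med a b c) q) :
    ∃ k, (k = a ∨ k = b ∨ k = c) ∧ med a b c = med p q k := by
  by_contra hcon
  push Not at hcon
  have key : ∀ k, (k = a ∨ k = b ∨ k = c) →
      0 < gp (med a b c) p k ∨ 0 < gp (med a b c) q k := by
    intro k hk
    by_contra h2
    push Not at h2
    exact hcon k hk (eq_med_of_gp h (le_antisymm h2.1 (gp_nonneg _ _ _))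
      (le_antisymm h2.2 (gp_nonneg _ _ _)))
  have e1 := (btw_iff_gp _ _ _).mp (btw_med1 a b c)
  have e2 := (btw_iff_gp _ _ _).mp (btw_med2 a b c)
  have e3 := (btw_iff_gp _ _ _).mp (btw_med3 a b c)
  have tr : ∀ {r u v : Y}, 0 < gp (med a b c) r u → 0 < gp (med a b c) r v →
      0 < gp (med a b c) u v := by
    intro r u v h1 h2
    exact gp_pos_trans (by rw [gp_comm]; exact h1) h2
  rcases key a (Or.inl rfl) with ha | ha <;> rcases key b (Or.inr (Or.inl rfl)) with hb | hb <;>
    rcases key c (Or.inr (Or.inr rfl)) with hc | hc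
  all_goals first
    | exact absurd e1 (ne_of_gt (tr ha hb))
    | exact absurd e2 (ne_of_gt (tr hb hc))
    | exact absurd e3 (ne_of_gt (tr ha hc))

theorem gp_shift {a b c p : Y} (h1 : Btw a p b) (h2 : Btw a p c) :
    gp a b c = dist a p + gp p b c := by
  unfold Btw at *; unfold gp; linarith

/-- two long segments of equal length with close end points overlap along their middle parts -/
theorem geo_near {a b a' b' : Y} {η t : ℝ} (ha : dist a a' ≤ η) (hb : dist b b' ≤ η)
    (hd : dist a' b' = dist a b) (hD : η < dist a b) (ht0 : η ≤ t) (ht1 : t ≤ dist a b - η) :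
    geo a' b' t = geo a b (t + (dist a b' - dist a b)) ∧ |dist a b' - dist a b| ≤ η := by
  have h4 := RT.four a b a' b'
  have h4' := RT.four a b' a' b
  have t1 := dist_triangle a b b'
  have t2 := dist_triangle a b' b
  have t3 := dist_triangle a' a b
  have t4 := dist_triangle a a' b
  have n1 := dist_nonneg (x := a) (y := a')
  have n2 := dist_nonneg (x := b) (y := b')
  rw [dist_comm b' b] at t2 h4'
  rw [dist_comm a' a] at t3
  rw [dist_comm b a'] at h4
  rw [dist_comm b' a', hd] at h4'
  rw [hd] at h4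
  have e : dist a b' + dist a' b = 2 * dist a b := by
    apply le_antisymm
    · rcases le_total (dist a a' + dist b b') (dist a b + dist a b) with h | h
      · rw [max_eq_right h] at h4'; linarith
      · linarith
    · rcases le_total (dist a a' + dist b b') (dist a b' + dist a' b) with h | h
      · rw [max_eq_right h] at h4; linarith
      · rw [max_eq_left h] at h4; linarith
  refine ⟨?_, abs_le.mpr ⟨by linarith, by linarith⟩⟩
  have h0 : 0 ≤ t := by linarith
  have h1 : t ≤ dist a' b' := by linarith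
  apply eq_geo_of_dist
  · rw [dist_comm, dist_geo h0 h1, dist_comm a' a, dist_comm b' a, hd, max_eq_right (by linarith)]
    ring
  · rw [dist_geo h0 h1, dist_comm b' b, hd, max_eq_left (by linarith)]
    linarith

end Metric

section Action
variable {H Y : Type} [Group H] [MetricSpace Y] [MulAction H Y] [IsIsometricSMul H Y]

theorem Btw.smul {a p b : Y} (h : Btw a p b) (g : H) : Btw (g • a) (g • p) (g • b) := by
  unfold Btw at *; simpa only [dist_smul] using h

theorem btw_smul_iff {a p b : Y} (g : H) : Btw (g • a) (g • p) (g • b) ↔ Btw a p b := by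
  unfold Btw; simp only [dist_smul]

theorem gp_smul (g : H) (x a b : Y) : gp (g • x) (g • a) (g • b) = gp x a b := by
  unfold gp; simp only [dist_smul]

theorem dist_inv_smul (g : H) (a b : Y) : dist a (g⁻¹ • b) = dist (g • a) b := by
  rw [← dist_smul g, smul_inv_smul]

variable [RT Y]

theorem smul_geo (g : H) (a b : Y) (t : ℝ) : g • geo a b t = geo (g • a) (g • b) t := by
  apply ((btw_geo a b t).smul g).unique (btw_geo _ _ t)
  rw [dist_smul, (geo_spec a b t).1, (geo_spec _ _ t).1, dist_smul]

theorem smul_med (g : H) (a b c : Y) : g • med a b c = med (g • a) (g • b) (g • c) := by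
  unfold med; rw [smul_geo, gp_smul]

theorem fix_btw {g : H} {a p b : Y} (ha : g • a = a) (hb : g • b = b) (hp : Btw a p b) :
    g • p = p := by
  rw [hp.eq_geo, smul_geo, ha, hb]

/-- an element that moves both ends of a long segment a little translates its middle part -/
theorem smul_geo_near {g : H} {a b : Y} {η t : ℝ} (ha : dist a (g • a) ≤ η)
    (hb : dist b (g • b) ≤ η) (hD : η < dist a b) (ht0 : η ≤ t) (ht1 : t ≤ dist a b - η) :
    g • geo a b t = geo a b (t + (dist a (g • b) - dist a b)) ∧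
      |dist a (g • b) - dist a b| ≤ η := by
  rw [smul_geo]
  exact geo_near ha hb (dist_smul g a b) hD ht0 ht1

/-- two such elements commute on a nondegenerate arc -/
theorem comm_arc {u w : H} {a b : Y} {η : ℝ} (hua : dist a (u • a) ≤ η) (hub : dist b (u • b) ≤ η)
    (hwa : dist a (w • a) ≤ η) (hwb : dist b (w • b) ≤ η) (hD : 4 * η < dist a b) :
    ∃ p q : Y, p ≠ q ∧ ((w * u)⁻¹ * (u * w)) • p = p ∧ ((w * u)⁻¹ * (u * w)) • q = q := by
  have h0 : 0 ≤ η := le_trans dist_nonneg hua
  have key : ∀ t, 2 * η ≤ t → t ≤ dist a b - 2 * η →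
      ((w * u)⁻¹ * (u * w)) • geo a b t = geo a b t := by
    intro t h1 h2
    obtain ⟨e1, b1⟩ := smul_geo_near (t := t) hua hub (by linarith) (by linarith) (by linarith)
    obtain ⟨e2, b2⟩ := smul_geo_near (t := t) hwa hwb (by linarith) (by linarith) (by linarith)
    rw [abs_le] at b1 b2
    obtain ⟨e3, -⟩ := smul_geo_near (t := t + (dist a (w • b) - dist a b)) hua hub (by linarith)
      (by linarith) (by linarith)
    obtain ⟨e4, -⟩ := smul_geo_near (t := t + (dist a (u • b) - dist a b)) hwa hwb (by linarith)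
      (by linarith) (by linarith)
    rw [mul_smul, inv_smul_eq_iff, mul_smul, mul_smul, e1, e2, e3, e4]
    congr 1; ring
  refine ⟨geo a b (2 * η), geo a b (dist a b - 2 * η), ?_, key _ le_rfl (by linarith),
    key _ (by linarith) le_rfl⟩
  intro h
  have := geo_inj (by linarith) (by linarith) (by linarith) (by linarith) h
  linarith

theorem dist_pow_smul {g : H} {y : Y} (h : dist y ((g * g) • y) = 2 * dist y (g • y)) (n : ℕ) :
    dist y (g ^ n • y) = n * dist y (g • y) := by
  by_cases h0 : g • y = y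
  · have : g ^ n • y = y := by
      induction n with
      | zero => simp
      | succ n ih => rw [pow_succ, mul_smul, h0, ih]
    rw [this, h0]; simp
  have hb : Btw y (g • y) ((g * g) • y) := by
    unfold Btw; rw [h, mul_smul, dist_smul]; ring
  have key : ∀ n : ℕ, dist y (g ^ n • y) = n * dist y (g • y) ∧
      Btw y (g ^ n • y) (g ^ (n + 1) • y) := by
    intro n
    induction n with
    | zero => simp [btw_left]
    | succ n ih =>
      have e : dist (g ^ n • y) (g ^ (n + 1) • y) = dist y (g • y) := by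
        rw [pow_succ, mul_smul, dist_smul]
      constructor
      · have := ih.2; unfold Btw at this; rw [← this, ih.1, e]; push_cast; ring
      · have h2 := hb.smul (g ^ n)
        rw [← mul_smul, ← mul_smul, ← pow_succ, ← mul_assoc, ← pow_succ, ← pow_succ] at h2
        refine (ih.2.concat h2 ?_).2
        intro h3
        rw [h3, dist_self] at e
        exact h0 (dist_eq_zero.mp e.symm).symm
  exact (key n).1

theorem dist_zpow_smul {g : H} {y : Y} (h : dist y ((g * g) • y) = 2 * dist y (g • y)) (n : ℤ) :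
    dist y (g ^ n • y) = |(n : ℝ)| * dist y (g • y) := by
  obtain ⟨m, rfl | rfl⟩ := Int.eq_nat_or_neg n
  · rw [zpow_natCast, dist_pow_smul h]; simp
  · rw [zpow_neg, zpow_natCast, dist_inv_smul, dist_comm, dist_pow_smul h]; simp

end Action

/-- a group acting by isometries on an R-tree with a base point -/
structure TAct (H : Type) [Group H] where
  Y : Type
  [met : MetricSpace Y]
  [act : MulAction H Y]
  [iso : IsIsometricSMul H Y]
  [rt : RT Y]
  x : Y

attribute [instance] TAct.met TAct.act TAct.iso TAct.rt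

end Pool.Agent.MP_e97151_al

end

-- part MP_e97151_al.Ax
section

/-! Properties of the limit tree. -/

set_option autoImplicit false

namespace Pool.Agent.MP_e97151_al

def Hull (H : Type) {Y : Type} [Group H] [MetricSpace Y] [MulAction H Y] (x : Y) : Prop :=
  ∀ y : Y, ∃ g : H, Btw x y (g • x)

def ArcTriv (H Y : Type) [Group H] [MulAction H Y] : Prop :=
  ∀ (h : H) (a b : Y), a ≠ b → h • a = a → h • b = b → h = 1

def Ax1 (H Y : Type) [Group H] [MulAction H Y] : Prop :=
  ∀ (u w : H) (a b : Y), a ≠ b → u • a = a → u • b = b → w • a = a → w • b = b → Commute u w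

def AxC (H Y : Type) [Group H] [MulAction H Y] : Prop :=
  ∀ (w c : H) (a b : Y), w ≠ 1 → a ≠ b → w • a = a → w • b = b → Commute c w → c • a = a

def Cyc (H Y : Type) [Group H] [MetricSpace Y] [MulAction H Y] : Prop :=
  ∀ (w : H) (a b : Y) (η : ℝ), w ≠ 1 → dist a (w • a) ≤ η → dist b (w • b) ≤ η →
    10 * η < dist a b → ∃ κ : H → ℤ,
      (∀ c d, Commute c w → Commute d w → κ (c * d) = κ c + κ d) ∧
      ∀ c, Commute c w → κ c = 0 → c = 1

/-- homomorphisms to finite groups are determined by the generators that fix the base point -/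
def Dens {H Y : Type} [Group H] [MulAction H Y] (x : Y) (S : Finset H) : Prop :=
  ∀ (Γ : Type) [Group Γ] [Finite Γ] (α β : H →* Γ), (∀ s ∈ S, s • x = x → α s = β s) → α = β

def Gen {H : Type} [Group H] (S : Finset H) : Prop :=
  ∀ g : H, ∃ l : List H, (∀ a ∈ l, a ∈ S) ∧ l.prod = g

end Pool.Agent.MP_e97151_al

end

-- part MP_e97151_al.Y2
section

/-! Arc stabilisers of the limit tree are trivial. -/

set_option autoImplicit false

namespace Pool.Agent.MP_e97151_al

variable {H Y : Type} [Group H] [MetricSpace Y] [MulAction H Y] [IsIsometricSMul H Y] [RT Y]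

set_option linter.unusedSectionVars false

open MeasureTheory

/-- a conjugate of `w` that commutes with `w` is `w` or its inverse -/
theorem y2_conj (hcyc : Cyc H Y) {w : H} (hw : w ≠ 1) {a b : Y} (hab : a ≠ b) (ha : w • a = a)
    (hb : w • b = b) (g : H) (hc : Commute (g * w * g⁻¹) w) :
    g * w * g⁻¹ = w ∨ g * w * g⁻¹ = w⁻¹ := by
  obtain ⟨κ, hadd, hker⟩ := hcyc w a b 0 hw (by rw [ha]; simp) (by rw [hb]; simp)
    (by simpa using dist_pos.mpr hab)
  have h1 : κ 1 = 0 := by
    have := hadd 1 1 (Commute.one_left w) (Commute.one_left w)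
    rw [one_mul] at this; omega
  have hinv : ∀ c, Commute c w → κ c⁻¹ = - κ c := by
    intro c hc
    have := hadd c c⁻¹ hc hc.inv_left
    rw [mul_inv_cancel, h1] at this; omega
  have hinj : ∀ c d, Commute c w → Commute d w → κ c = κ d → c = d := by
    intro c d hc hd e
    have := hker (c * d⁻¹) (hc.mul_left hd.inv_left) (by
      rw [hadd c d⁻¹ hc hd.inv_left, hinv d hd]; omega)
    exact mul_inv_eq_one.mp this
  have hcomm : ∀ c d, Commute c w → Commute d w → Commute c d := by
    intro c d hc hd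
    apply hinj _ _ (hc.mul_left hd) (hd.mul_left hc)
    rw [hadd c d hc hd, hadd d c hd hc]; ring
  have hpow : ∀ c, Commute c w → ∀ n : ℕ, κ (c ^ n) = n * κ c := by
    intro c hc n
    induction n with
    | zero => simp [h1]
    | succ n ih => rw [pow_succ, hadd _ _ (hc.pow_left n) hc, ih]; push_cast; ring
  have hzpow : ∀ c, Commute c w → ∀ n : ℤ, κ (c ^ n) = n * κ c := by
    intro c hc n
    obtain ⟨m, rfl | rfl⟩ := Int.eq_nat_or_neg n
    · rw [zpow_natCast, hpow c hc]
    · rw [zpow_neg, zpow_natCast, hinv _ (hc.pow_left m), hpow c hc]; ring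
  -- conjugation by `g` and by `g⁻¹` preserve the centraliser
  have hback : ∀ c, Commute c w → Commute (g⁻¹ * c * g) w := by
    intro c hc'
    have := (hcomm c _ hc' hc).eq
    unfold Commute SemiconjBy
    calc g⁻¹ * c * g * w = g⁻¹ * (c * (g * w * g⁻¹)) * g := by group
      _ = g⁻¹ * (g * w * g⁻¹ * c) * g := by rw [this]
      _ = w * (g⁻¹ * c * g) := by group
  have hfwd : ∀ c, Commute c w → Commute (g * c * g⁻¹) w := by
    intro c hc'
    have := (hcomm c _ hc' (hback w (Commute.refl w))).eq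
    unfold Commute SemiconjBy
    calc g * c * g⁻¹ * w = g * (c * (g⁻¹ * w * g)) * g⁻¹ := by group
      _ = g * (g⁻¹ * w * g * c) * g⁻¹ := by rw [this]
      _ = w * (g * c * g⁻¹) := by group
  have hprop : ∀ c, Commute c w → κ (g * c * g⁻¹) * κ w = κ (g * w * g⁻¹) * κ c := by
    intro c hc'
    have e : c ^ κ w = w ^ κ c := by
      apply hinj _ _ (hc'.zpow_left _) ((Commute.refl w).zpow_left _)
      rw [hzpow c hc', hzpow w (Commute.refl w)]; ring
    have e2 : (g * c * g⁻¹) ^ κ w = (g * w * g⁻¹) ^ κ c := by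
      rw [conj_zpow, conj_zpow, e]
    have := congrArg κ e2
    rw [hzpow _ (hfwd c hc'), hzpow _ hc] at this
    linarith
  have hex : ∃ n : ℕ, ∃ c, Commute c w ∧ c ≠ 1 ∧ (κ c).natAbs = n :=
    ⟨_, w, Commute.refl w, hw, rfl⟩
  classical
  obtain ⟨c, hc0, hc1, hcn⟩ := Nat.find_spec hex
  have hmin : ∀ d, Commute d w → d ≠ 1 → (κ c).natAbs ≤ (κ d).natAbs := by
    intro d hd hd1
    rw [hcn]; exact Nat.find_min' hex ⟨d, hd, hd1, rfl⟩
  have hpos : 0 < (κ c).natAbs := Int.natAbs_pos.mpr (fun e => hc1 (hker c hc0 e))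
  have e1 := congrArg Int.natAbs (hprop c hc0)
  have e2 := congrArg Int.natAbs (hprop _ (hback c hc0))
  have m1 := hmin _ (hfwd c hc0) (fun e => hc1 (by
    have : c = g⁻¹ * (g * c * g⁻¹) * g := by group
    rw [this, e]; group))
  have m2 := hmin _ (hback c hc0) (fun e => hc1 (by
    have : c = g * (g⁻¹ * c * g) * g⁻¹ := by group
    rw [this, e]; group))
  have e3 : g * (g⁻¹ * c * g) * g⁻¹ = c := by group
  rw [e3] at e2
  rw [Int.natAbs_mul, Int.natAbs_mul] at e1 e2
  have f1 : (κ w).natAbs ≤ (κ (g * w * g⁻¹)).natAbs := by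
    apply Nat.le_of_mul_le_mul_left _ hpos
    calc (κ c).natAbs * (κ w).natAbs ≤ (κ (g * c * g⁻¹)).natAbs * (κ w).natAbs :=
          Nat.mul_le_mul_right _ m1
      _ = _ := by rw [e1, mul_comm]
  have f2 : (κ (g * w * g⁻¹)).natAbs ≤ (κ w).natAbs := by
    apply Nat.le_of_mul_le_mul_left _ hpos
    calc (κ c).natAbs * (κ (g * w * g⁻¹)).natAbs
        ≤ (κ (g⁻¹ * c * g)).natAbs * (κ (g * w * g⁻¹)).natAbs := Nat.mul_le_mul_right _ m2
      _ = _ := by rw [e2, mul_comm]
  rcases Int.natAbs_eq_natAbs_iff.mp (le_antisymm f2 f1) with e | e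
  · left; exact hinj _ _ hc (Commute.refl w) e
  · right; apply hinj _ _ hc (Commute.refl w).inv_left
    rw [hinv w (Commute.refl w), e]

/-- elements commuting with `w` fix the arc -/
theorem y2_fix (hC : AxC H Y) {w : H} (hw : w ≠ 1) {a b p : Y} (hab : a ≠ b) (ha : w • a = a)
    (hb : w • b = b) (hp : Btw a p b) {c : H} (hc : Commute c w) : c • p = p :=
  fix_btw (hC w c a b hw hab ha hb hc) (hC w c b a hw hab.symm hb ha hc) hp

theorem y2_same (hC : AxC H Y) {w : H} (hw : w ≠ 1) {a b p : Y} (hab : a ≠ b) (ha : w • a = a)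
    (hb : w • b = b) (hp : Btw a p b) {k k' : H} (e : k * w * k⁻¹ = k' * w * k'⁻¹) :
    k • p = k' • p := by
  have hc : Commute (k'⁻¹ * k) w := by
    unfold Commute SemiconjBy
    calc k'⁻¹ * k * w = k'⁻¹ * (k * w * k⁻¹) * k := by group
      _ = k'⁻¹ * (k' * w * k'⁻¹) * k := by rw [e]
      _ = w * (k'⁻¹ * k) := by group
  have := y2_fix hC hw hab ha hb hp hc
  rw [mul_smul, inv_smul_eq_iff] at this
  exact this

theorem y2_countable {S : Finset H} (hgen : Gen S) : Countable H := by
  have : Function.Surjective (fun l : List S => (l.map Subtype.val).prod) := by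
    intro g
    obtain ⟨l, hl, rfl⟩ := hgen g
    refine ⟨l.attach.map (fun a => ⟨a.1, hl a.1 a.2⟩), ?_⟩
    simp [List.map_map, Function.comp_def]
  exact this.countable

theorem y2_family [Countable H] (h1 : Ax1 H Y) (hC : AxC H Y) (hcyc : Cyc H Y) {w : H}
    (hw : w ≠ 1) {a b : Y} (hab : a ≠ b) (ha : w • a = a) (hb : w • b = b) (x z : Y)
    (P : H → Prop) (hP : ∀ v, P v → P v⁻¹ → v = v⁻¹) :
    ∀ᵐ u : ℝ, {v : H | P v ∧ 0 ≤ u ∧ u ≤ dist a b ∧
      ∃ k : H, v = k * w * k⁻¹ ∧ Btw x (k • geo a b u) z}.Finite := by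
  let A : H → Set ℝ := fun v => {t | (P v ∧ ∃ k : H, v = k * w * k⁻¹) ∧ 0 ≤ t ∧ t ≤ dist x z ∧
    v • geo x z t = geo x z t}
  have hA : ∀ v, (A v).OrdConnected := by
    intro v
    refine ⟨fun t1 ht1 t2 ht2 t ht => ⟨ht1.1, ht1.2.1.trans ht.1, ht.2.trans ht2.2.2.1, ?_⟩⟩
    exact fix_btw ht1.2.2.2 ht2.2.2.2 (btw_geo_geo ht1.2.1 ht.1 ht.2 ht2.2.2.1)
  have hdisj : Pairwise (Function.onFun (AEDisjoint volume) A) := by
    intro v v' hne
    apply Set.Subsingleton.measure_zero
    intro t ht t' ht'
    by_contra htt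
    obtain ⟨⟨⟨pv, k, hk⟩, t0, t1, e1⟩, ⟨pv', k', hk'⟩, -, -, e2⟩ := ht
    obtain ⟨⟨-, t0', t1', e1'⟩, -, -, -, e2'⟩ := ht'
    have hne' : geo x z t ≠ geo x z t' := fun e => htt (geo_inj t0 t1 t0' t1' e)
    have hc := h1 v' v _ _ hne' e2 e2' e1 e1'
    have hv : v ≠ 1 := by
      intro e; apply hw
      have : w = k⁻¹ * v * k := by rw [hk]; group
      rw [this, e]; group
    have e : v' = (k' * k⁻¹) * v * (k' * k⁻¹)⁻¹ := by rw [hk, hk']; group
    rw [e] at hc
    rcases y2_conj hcyc hv hne' e1 e1' _ hc with h | h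
    · exact hne (by rw [e, h])
    · rw [← e] at h
      exact hne (by rw [h]; exact hP v pv (h ▸ pv'))
  have hsum : ∑' v, volume (A v) ≤ volume (Set.Icc (0 : ℝ) (dist x z)) := by
    rw [← measure_iUnion₀ hdisj (fun v => (hA v).measurableSet.nullMeasurableSet)]
    apply measure_mono
    intro t ht
    obtain ⟨v, hv⟩ := Set.mem_iUnion.mp ht
    exact ⟨hv.2.1, hv.2.2.1⟩
  let B : H → Set ℝ := fun v => {u | P v ∧ 0 ≤ u ∧ u ≤ dist a b ∧
      ∃ k : H, v = k * w * k⁻¹ ∧ Btw x (k • geo a b u) z}
  have hB : ∀ v, volume (B v) ≤ volume (A v) := by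
    intro v
    refine (Real.volume_le_diam _).trans (Metric.ediam_le ?_)
    rintro u ⟨pv, u0, u1, k, hk, hbt⟩ u' ⟨-, u0', u1', k', hk', hbt'⟩
    have e : k' • geo a b u' = k • geo a b u' :=
      y2_same hC hw hab ha hb (btw_geo a b u') (hk'.symm.trans hk)
    rw [e] at hbt'
    have mem : ∀ s, Btw x (k • geo a b s) z → dist x (k • geo a b s) ∈ A v := by
      intro s hs
      refine ⟨⟨pv, k, hk⟩, dist_nonneg, hs.le_left, ?_⟩
      rw [← hs.eq_geo, hk, mul_smul, mul_smul, inv_smul_smul, fix_btw ha hb (btw_geo a b s)]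
    have hd := hbt.dist_btw hbt'
    rw [dist_smul, dist_geo_geo u0 u1 u0' u1'] at hd
    have hsub := (hA v).uIcc_subset (mem u hbt) (mem u' hbt')
    refine le_trans ?_ (measure_mono hsub)
    rw [Real.volume_interval, edist_dist, Real.dist_eq, hd, abs_sub_comm]
  have hfin : ∑' v, volume (B v) ≠ ⊤ := by
    refine ne_top_of_le_ne_top ?_ ((ENNReal.tsum_le_tsum hB).trans hsum)
    rw [Real.volume_Icc]; exact ENNReal.ofReal_ne_top
  exact ae_finite_setOfPred_mem hfin

theorem generic_point (x : Y) (S : Finset H) (hgen : Gen S) (h1 : Ax1 H Y) (hC : AxC H Y)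
    (hcyc : Cyc H Y) (w : H) (hw : w ≠ 1) (a b : Y) (hab : a ≠ b) (ha : w • a = a) (hb : w • b = b)
    (E : Set Y) (hE : E.Countable) :
    ∃ p : Y, Btw a p b ∧ p ≠ a ∧ p ≠ b ∧ p ∉ E ∧
      ∀ s ∈ S, {y : Y | Btw x y (s • x) ∧ ∃ k : H, k • p = y}.Finite := by
  have := y2_countable hgen
  obtain ⟨f, hf⟩ := Countable.exists_injective_nat H
  have F1 := fun s : H => y2_family h1 hC hcyc hw hab ha hb x (s • x) (fun v => f v ≤ f v⁻¹)
    (fun v h h' => hf (le_antisymm h (by simpa using h')))
  have F2 := fun s : H => y2_family h1 hC hcyc hw hab ha hb x (s • x) (fun v => f v⁻¹ ≤ f v)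
    (fun v h h' => hf (le_antisymm (by simpa using h') h))
  have hbad : ({u : ℝ | (0 ≤ u ∧ u ≤ dist a b) ∧ geo a b u ∈ insert a (insert b E)}).Countable := by
    apply Set.MapsTo.countable_of_injOn (f := geo a b) (t := insert a (insert b E))
    · intro u hu; exact hu.2
    · intro u hu u' hu' e; exact geo_inj hu.1.1 hu.1.2 hu'.1.1 hu'.1.2 e
    · exact (hE.insert b).insert a
  have hall := (ae_all_iff.mpr F1).and ((ae_all_iff.mpr F2).and (hbad.ae_notMem volume))
  obtain ⟨u, hu, g1, g2, g3⟩ := Measure.exists_mem_of_measure_ne_zero_of_ae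
    (μ := volume) (s := Set.Icc (0 : ℝ) (dist a b)) (by
      rw [Real.volume_Icc]
      simpa using hab) (ae_restrict_of_ae hall)
  have g4 : geo a b u ∉ insert a (insert b E) := fun h => g3 ⟨hu, h⟩
  simp only [Set.mem_insert_iff, not_or] at g4
  refine ⟨geo a b u, btw_geo a b u, g4.1, g4.2.1, g4.2.2, fun s _ => ?_⟩
  have hfin := ((g1 s).union (g2 s)).biUnion
    (t := fun v => {y : Y | ∃ k : H, v = k * w * k⁻¹ ∧ k • geo a b u = y}) (fun v _ => by
      apply Set.Subsingleton.finite
      rintro y ⟨k, hk, rfl⟩ y' ⟨k', hk', rfl⟩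
      exact y2_same hC hw hab ha hb (btw_geo a b u) (hk.symm.trans hk'))
  refine hfin.subset ?_
  rintro y ⟨hy, k, rfl⟩
  simp only [Set.mem_iUnion]
  refine ⟨k * w * k⁻¹, ?_, k, rfl, rfl⟩
  rcases le_total (f (k * w * k⁻¹)) (f (k * w * k⁻¹)⁻¹) with h | h
  · exact Or.inl ⟨h, hu.1, hu.2, k, rfl, hy⟩
  · exact Or.inr ⟨h, hu.1, hu.2, k, rfl, hy⟩

theorem y2_cocycle (x : Y) (S : Finset H) (hd : Dens x S) (Q : Type) [Group Q] [Finite Q]
    (π : H →* Q) (δ : H → Q → ZMod 2) (hc : ∀ g h q, δ (g * h) q = δ g q + δ h ((π g)⁻¹ * q))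
    (h0 : ∀ s, s • x = x → ∀ q, δ s q = 0) : ∀ h q, δ h q = 0 := by
  let act : ∀ (d : H → Q → ZMod 2), (∀ q, d 1 q = 0) →
      (∀ g h q, d (g * h) q = d g q + d h ((π g)⁻¹ * q)) → MulAction H (Q × ZMod 2) :=
    fun d d1 dc =>
      { smul := fun h z => (π h * z.1, z.2 + d h (π h * z.1))
        one_smul := fun z => by
          change (π 1 * z.1, z.2 + d 1 (π 1 * z.1)) = z
          rw [d1]; simp
        mul_smul := fun g h z => by
          change (π (g * h) * z.1, z.2 + d (g * h) (π (g * h) * z.1)) =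
            (π g * (π h * z.1), z.2 + d h (π h * z.1) + d g (π g * (π h * z.1)))
          rw [dc, map_mul, mul_assoc, inv_mul_cancel_left]
          congr 1; ring }
  have d1 : ∀ q, δ 1 q = 0 := h0 1 (one_smul H x)
  have key := hd (Equiv.Perm (Q × ZMod 2))
    (@MulAction.toPermHom H (Q × ZMod 2) _ (act δ d1 hc))
    (@MulAction.toPermHom H (Q × ZMod 2) _ (act (fun _ _ => 0) (fun _ => rfl) (by simp))) (by
      intro s _ hs
      ext1 z
      change (π s * z.1, z.2 + δ s (π s * z.1)) = (π s * z.1, z.2 + 0)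
      rw [h0 s hs])
  intro h q
  have := congrArg (fun φ : H →* Equiv.Perm (Q × ZMod 2) => (φ h ((π h)⁻¹ * q, 0)).2) key
  change (0 : ZMod 2) + δ h (π h * ((π h)⁻¹ * q)) = 0 + 0 at this
  simpa using this

theorem y2_ncard {α : Type} {A B C : Set α} (hA : A.Finite) (hB : B.Finite)
    (h : ∀ y, y ∈ C ↔ (y ∈ A ∧ y ∉ B) ∨ (y ∈ B ∧ y ∉ A)) :
    (C.ncard : ZMod 2) = A.ncard + B.ncard := by
  have e : C = (A \ B) ∪ (B \ A) := Set.ext h
  have e1 := Set.ncard_inter_add_ncard_sdiff_eq_ncard A B hA
  have e2 := Set.ncard_inter_add_ncard_sdiff_eq_ncard B A hB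
  rw [e, Set.ncard_union_eq disjoint_sdiff_sdiff hA.sdiff hB.sdiff, ← e1, ← e2, Set.inter_comm B A]
  push_cast
  have : ∀ z : ZMod 2, z + z = 0 := by decide
  linear_combination (-1 : ZMod 2) * this ((A ∩ B).ncard : ZMod 2)

theorem y2_prop {A B C : Prop} (h : ¬ (A ∧ B ∧ C)) (s1 : C → A ∨ B) (s2 : A → C ∨ B)
    (s3 : B → A ∨ C) : C ↔ (A ∧ ¬ B) ∨ (B ∧ ¬ A) := by
  tauto

theorem y2_main (x : Y) (S : Finset H) (hgen : Gen S) (hrf : RF H) (hd : Dens x S)
    (h1 : Ax1 H Y) (hC : AxC H Y) (hcyc : Cyc H Y) {w : H} (hw : w ≠ 1) {a b : Y} (hab : a ≠ b)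
    (ha : w • a = a) (hb : w • b = b) {g : H} (hxa : Btw x a b) (hxb : Btw x b (g • x)) : False := by
  classical
  have := y2_countable hgen
  let E : Set Y := Set.range (fun t : H × H × H => med (t.1 • x) (t.2.1 • x) (t.2.2 • x)) ∪
    Set.range (fun u : H => geo x (u • x) (dist x (u • x) / 2))
  obtain ⟨p, hp, hpa, -, hpE, hfin⟩ := generic_point x S hgen h1 hC hcyc w hw a b hab ha hb E
    ((Set.countable_range _).union (Set.countable_range _))
  have hmed : ∀ k h₁ h₂ h₃ : H, k • p ≠ med (h₁ • x) (h₂ • x) (h₃ • x) := by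
    intro k h₁ h₂ h₃ e
    apply hpE; left
    refine ⟨(k⁻¹ * h₁, k⁻¹ * h₂, k⁻¹ * h₃), ?_⟩
    simp only [mul_smul]
    rw [← smul_med, ← e, inv_smul_smul]
  have hCr : ∀ h : H, {y : Y | Btw x y (h • x) ∧ ∃ k : H, k • p = y}.Finite := by
    intro h
    obtain ⟨l, hl, rfl⟩ := hgen h
    induction l with
    | nil =>
      refine (Set.finite_singleton x).subset ?_
      rintro y ⟨hy, -⟩
      rw [List.prod_nil, one_smul] at hy
      exact hy.eq_of_self
    | cons s l ih =>
      have ih' := ih (fun a ha => hl a (List.mem_cons_of_mem s ha))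
      refine ((hfin s (hl s List.mem_cons_self)).union (ih'.image (fun y => s • y))).subset ?_
      rintro y ⟨hy, k, rfl⟩
      rcases hy.split (s • x) with h | h
      · exact Or.inl ⟨h, k, rfl⟩
      · right
        refine ⟨(s⁻¹ * k) • p, ⟨?_, _, rfl⟩, by simp [mul_smul]⟩
        have := h.smul s⁻¹
        rw [List.prod_cons, mul_smul, inv_smul_smul, inv_smul_smul] at this
        rwa [mul_smul]
  have hwp : w • p = p := fix_btw ha hb hp
  obtain ⟨hxp, hxap⟩ := hxa.trans_right hp
  have hstab : ∀ u : H, u • p = p → Commute u w := by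
    intro u hu
    by_cases hbt : Btw x p (u • x)
    · exfalso; apply hpE; right
      refine ⟨u, ?_⟩
      have e : dist p (u • x) = dist x p := by
        conv_lhs => rw [← hu]
        rw [dist_smul, dist_comm]
      have e2 : dist x (u • x) / 2 = dist x p := by
        unfold Btw at hbt; linarith
      simp only
      rw [e2]; exact hbt.eq_geo.symm
    · have hpos := (not_btw_iff _ _ _).mp hbt
      have hpa' : 0 < dist p a := dist_pos.mpr hpa
      set t := min (gp p x (u • x)) (dist p a) with ht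
      have t0 : 0 < t := lt_min hpos hpa'
      have e1 : geo p x t = geo p (u • x) t := geo_eq_of_le_gp t0.le (min_le_left _ _)
      have e2 : geo p a t = geo p x t := geo_eq_of_le_gp t0.le
        ((min_le_right _ _).trans (le_gp_of_btw (btw_right p a) hxap.symm))
      have hne : p ≠ geo p a t := by
        intro e
        have := dist_geo_left (a := p) (b := a) t0.le (min_le_right _ _)
        rw [← e, dist_self] at this
        exact t0.ne this
      refine h1 u w p (geo p a t) hne hu ?_ hwp (fix_btw hwp ha (btw_geo p a t))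
      rw [e2, smul_geo, hu, e1]
  have hF : {c : H | ∃ k : H, Btw x (k • p) (g • x) ∧ c = k * w * k⁻¹ * w⁻¹}.Finite := by
    have := (hCr g).biUnion
      (t := fun y => {c : H | ∃ k : H, k • p = y ∧ c = k * w * k⁻¹ * w⁻¹}) (fun y _ => by
        apply Set.Subsingleton.finite
        rintro c ⟨k, hk, rfl⟩ c' ⟨k', hk', rfl⟩
        have hc := (hstab (k'⁻¹ * k) (by rw [mul_smul, hk, ← hk', inv_smul_smul])).eq
        calc k * w * k⁻¹ * w⁻¹ = k' * (k'⁻¹ * k * w) * k⁻¹ * w⁻¹ := by group
          _ = k' * (w * (k'⁻¹ * k)) * k⁻¹ * w⁻¹ := by rw [hc]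
          _ = k' * w * k'⁻¹ * w⁻¹ := by group)
    refine this.subset ?_
    rintro c ⟨k, hk, rfl⟩
    simp only [Set.mem_iUnion]
    exact ⟨k • p, ⟨hk, k, rfl⟩, k, rfl, rfl⟩
  obtain ⟨N, hN, hN', hNF⟩ := hrf.avoid hF
  let π : H →* H ⧸ N := QuotientGroup.mk' N
  let T : H → H ⧸ N → Set Y := fun h q => {y | Btw x y (h • x) ∧ ∃ k : H, k • p = y ∧ π k = q}
  have hT : ∀ h q, (T h q).Finite := fun h q =>
    (hCr h).subset (by rintro y ⟨hy, k, hk, -⟩; exact ⟨hy, k, hk⟩)
  have hzero := y2_cocycle x S hd (H ⧸ N) π (fun h q => ((T h q).ncard : ZMod 2)) (by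
      intro g' h q
      rw [← Set.ncard_image_of_injective (T h ((π g')⁻¹ * q)) (MulAction.injective g')]
      apply y2_ncard (hT g' q) ((hT h _).image _)
      intro y
      have him : y ∈ (fun y => g' • y) '' T h ((π g')⁻¹ * q) ↔
          Btw (g' • x) y ((g' * h) • x) ∧ ∃ k : H, k • p = y ∧ π k = q := by
        constructor
        · rintro ⟨y', ⟨hy, k, rfl, hk⟩, rfl⟩
          refine ⟨by rw [mul_smul]; exact hy.smul g', g' * k, mul_smul _ _ _, ?_⟩
          rw [map_mul, hk, mul_inv_cancel_left]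
        · rintro ⟨hy, k, rfl, hk⟩
          refine ⟨(g'⁻¹ * k) • p, ⟨?_, _, rfl, by rw [map_mul, map_inv, hk]⟩, by simp [mul_smul]⟩
          have := hy.smul g'⁻¹
          rw [mul_smul, inv_smul_smul, inv_smul_smul] at this
          rwa [mul_smul]
      rw [him]
      by_cases ho : ∃ k : H, k • p = y ∧ π k = q
      · have hnm : ¬ (Btw x y (g' • x) ∧ Btw (g' • x) y ((g' * h) • x) ∧ Btw x y ((g' * h) • x)) := by
          rintro ⟨b1, b2, b3⟩
          obtain ⟨k, rfl, -⟩ := ho
          apply hmed k 1 g' (g' * h)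
          rw [one_smul]; exact eq_med b1 b2 b3
        have s1 : Btw x y ((g' * h) • x) → Btw x y (g' • x) ∨ Btw (g' • x) y ((g' * h) • x) :=
          fun hh => hh.split _
        have s2 : Btw x y (g' • x) → Btw x y ((g' * h) • x) ∨ Btw (g' • x) y ((g' * h) • x) :=
          fun hh => (hh.split _).imp id Btw.symm
        have s3 : Btw (g' • x) y ((g' * h) • x) → Btw x y (g' • x) ∨ Btw x y ((g' * h) • x) :=
          fun hh => (hh.split _).imp Btw.symm id
        simp only [T, Set.mem_ofPred_eq, ho, and_true]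
        exact y2_prop hnm s1 s2 s3
      · simp [T, ho]) (by
      intro s hs q
      have : T s q = ∅ := by
        apply Set.eq_empty_of_forall_notMem
        rintro y ⟨hy, k, rfl, -⟩
        rw [hs] at hy
        apply hmed k 1 1 1
        rw [one_smul, hy.eq_of_self]
        exact eq_med (btw_left x x) (btw_left x x) (btw_left x x)
      simp [this]) g 1
  have hsing : T g 1 = {p} := by
    apply Set.eq_singleton_iff_unique_mem.mpr
    refine ⟨⟨(hxb.trans_left hxp).1, 1, one_smul _ _, map_one _⟩, ?_⟩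
    rintro y ⟨hy, k, rfl, hk⟩
    have hkN : k ∈ N := (QuotientGroup.eq_one_iff k).mp hk
    have hc : k * w * k⁻¹ * w⁻¹ ∈ N := by
      have := N.mul_mem hkN (hN.conj_mem _ (N.inv_mem hkN) w)
      simpa only [mul_assoc] using this
    have := hNF _ ⟨k, hy, rfl⟩ hc
    apply y2_fix hC hw hab ha hb hp
    unfold Commute SemiconjBy
    calc k * w = k * w * k⁻¹ * w⁻¹ * (w * k) := by group
      _ = w * k := by rw [this, one_mul]
  simp only [hsing, Set.ncard_singleton] at hzero
  exact absurd hzero (by decide)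

theorem arcTriv_of_axioms (x : Y) (S : Finset H) (hgen : Gen S) (hrf : RF H) (hd : Dens x S)
    (hh : Hull H x) (h1 : Ax1 H Y) (hC : AxC H Y) (hcyc : Cyc H Y) : ArcTriv H Y := by
  intro w a b hab ha hb
  by_contra hw
  have hm : w • med x a b = med x a b := fix_btw ha hb (btw_med2 x a b)
  by_cases e : med x a b = a
  · obtain ⟨g, hg⟩ := hh b
    exact y2_main x S hgen hrf hd h1 hC hcyc hw hab ha hb (e ▸ btw_med3 x a b) hg
  · obtain ⟨g, hg⟩ := hh a
    exact y2_main x S hgen hrf hd h1 hC hcyc hw e hm ha (btw_med1 x a b) hg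

end Pool.Agent.MP_e97151_al

end
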