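import Pool.Agent.MP_e97151_al.Basic
import Pool.Agent.MP_e97151_al.Mg.Y2
import Pool.Agent.MP_e97151_al.Count

-- part MP_e97151_al.Core0
section

/-! Windows on the arcs `[x, s x]`, bands, singular points. -/

set_option autoImplicit false
set_option linter.unusedSectionVars false

namespace Pool.Agent.MP_e97151_al

variable {H Y : Type} [Group H] [MetricSpace Y] [MulAction H Y] [IsIsometricSMul H Y] [RT Y]

/-- length of the arc `[x, s x]` -/
def len (x : Y) (s : H) : ℝ := dist x (s • x)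

/-- parametrisation of the arc `[x, s x]` -/
noncomputable def ga (x : Y) (s : H) (t : ℝ) : Y := geo x (s • x) t

/-- `k` maps the window `[b, b+l]` of the arc of `s` to the window `[b', b'+l]` of the arc of `s'` -/
def W (x : Y) (k s : H) (b : ℝ) (s' : H) (b' l : ℝ) : Prop :=
  0 ≤ l ∧ 0 ≤ b ∧ b + l ≤ len x s ∧ 0 ≤ b' ∧ b' + l ≤ len x s' ∧
    k • ga x s b = ga x s' b' ∧ k • ga x s (b + l) = ga x s' (b' + l)

def Ball (S : Finset H) (n : ℕ) : Set H :=
  {h | ∃ l : List H, (∀ a ∈ l, a ∈ S) ∧ l.length ≤ n ∧ l.prod = h}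

/-- the arcs `k [x, s x]` and `[x, s' x]` have end points at word distance at most `ρ` -/
def Band (S : Finset H) (ρ : ℕ) (k s s' : H) : Prop :=
  k ∈ Ball S ρ ∨ k * s ∈ Ball S ρ ∨ s'⁻¹ * k ∈ Ball S ρ ∨ s'⁻¹ * k * s ∈ Ball S ρ

/-- coordinates of the projections of nearby orbit points to the arc of `s` -/
def Sing (x : Y) (S : Finset H) (ρ : ℕ) (s : H) : Set ℝ :=
  {t | ∃ h : H, (h ∈ Ball S (ρ + 1) ∨ s⁻¹ * h ∈ Ball S (ρ + 1)) ∧ t = gp x (s • x) (h • x)}

/-- standing hypotheses of the core argument -/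
structure Hyp (x : Y) (S : Finset H) : Prop where
  symm : ∀ s ∈ S, s⁻¹ ∈ S
  gen : Gen S
  rf : RF H
  dens : Dens x S
  arc : ArcTriv H Y
  cyc : Cyc H Y

variable {x : Y} {S : Finset H}

theorem len_nonneg (x : Y) (s : H) : 0 ≤ len x s := dist_nonneg

theorem len_inv (x : Y) (s : H) : len x s⁻¹ = len x s := by
  unfold len; rw [dist_inv_smul, dist_comm]

theorem len_eq_zero {s : H} : len x s = 0 ↔ s • x = x := by
  unfold len; rw [dist_eq_zero, eq_comm]

theorem ga_zero (x : Y) (s : H) : ga x s 0 = x := geo_zero _ _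

theorem ga_len (x : Y) (s : H) : ga x s (len x s) = s • x := geo_dist _ _

theorem ga_inv (x : Y) (s : H) (t : ℝ) : ga x s⁻¹ (len x s - t) = s⁻¹ • ga x s t := by
  unfold ga len
  rw [smul_geo, inv_smul_smul, ← geo_rev (s⁻¹ • x) x t, dist_comm (s⁻¹ • x), dist_inv_smul,
    dist_comm (s • x)]

theorem continuous_ga (x : Y) (s : H) : Continuous (ga x s) := continuous_geo _ _

theorem dist_ga {s : H} {t u : ℝ} (ht0 : 0 ≤ t) (ht1 : t ≤ len x s) (hu0 : 0 ≤ u)
    (hu1 : u ≤ len x s) : dist (ga x s t) (ga x s u) = |t - u| := dist_geo_geo ht0 ht1 hu0 hu1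

theorem dist_x_ga {s : H} {t : ℝ} (ht0 : 0 ≤ t) (ht1 : t ≤ len x s) : dist x (ga x s t) = t :=
  dist_geo_left ht0 ht1

theorem ga_inj {s : H} {t u : ℝ} (ht0 : 0 ≤ t) (ht1 : t ≤ len x s) (hu0 : 0 ≤ u)
    (hu1 : u ≤ len x s) (h : ga x s t = ga x s u) : t = u := geo_inj ht0 ht1 hu0 hu1 h

theorem btw_ga (x : Y) (s : H) (t : ℝ) : Btw x (ga x s t) (s • x) := btw_geo _ _ _

theorem W.pt {k s s' : H} {b b' l u : ℝ} (h : W x k s b s' b' l) (h0 : 0 ≤ u) (h1 : u ≤ l) :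
    k • ga x s (b + u) = ga x s' (b' + u) := by
  obtain ⟨-, hb, hb1, hb', hb1', e1, e2⟩ := h
  have a1 : ga x s (b + u) = geo (ga x s b) (ga x s (b + l)) u :=
    (geo_sub hb hb1 h0 (by linarith)).symm
  have a2 : ga x s' (b' + u) = geo (ga x s' b') (ga x s' (b' + l)) u :=
    (geo_sub hb' hb1' h0 (by linarith)).symm
  rw [a1, a2, smul_geo, e1, e2]

/-- sub-window -/
theorem W.sub {k s s' : H} {b b' l u m : ℝ} (h : W x k s b s' b' l) (h0 : 0 ≤ u) (hm : 0 ≤ m)
    (h1 : u + m ≤ l) : W x k s (b + u) s' (b' + u) m := by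
  have p1 := h.pt h0 (by linarith)
  have p2 := h.pt (u := u + m) (by linarith) h1
  obtain ⟨-, hb, hb1, hb', hb1', -, -⟩ := h
  refine ⟨hm, by linarith, by linarith, by linarith, by linarith, p1, ?_⟩
  rw [add_assoc, add_assoc]; exact p2

/-- sub-window, with free coordinates -/
theorem W.sub' {k s s' : H} {b b' l c c' m : ℝ} (h : W x k s b s' b' l) (h0 : b ≤ c) (hm : 0 ≤ m)
    (h1 : c + m ≤ b + l) (hc : c' - c = b' - b) : W x k s c s' c' m := by
  have := h.sub (u := c - b) (m := m) (by linarith) hm (by linarith)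
  rwa [show b + (c - b) = c by ring, show b' + (c - b) = c' by linarith] at this

theorem W.refl {s : H} {b l : ℝ} (hl : 0 ≤ l) (hb : 0 ≤ b) (h1 : b + l ≤ len x s) :
    W x 1 s b s b l := ⟨hl, hb, h1, hb, h1, one_smul _ _, one_smul _ _⟩

theorem W.symm {k s s' : H} {b b' l : ℝ} (h : W x k s b s' b' l) : W x k⁻¹ s' b' s b l := by
  obtain ⟨hl, hb, hb1, hb', hb1', e1, e2⟩ := h
  exact ⟨hl, hb', hb1', hb, hb1, by rw [← e1, inv_smul_smul], by rw [← e2, inv_smul_smul]⟩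

theorem W.trans {k k' s s' s'' : H} {b b' b'' l : ℝ} (h : W x k s b s' b' l)
    (h' : W x k' s' b' s'' b'' l) : W x (k' * k) s b s'' b'' l := by
  obtain ⟨hl, hb, hb1, -, -, e1, e2⟩ := h
  obtain ⟨-, -, -, hb', hb1', e1', e2'⟩ := h'
  exact ⟨hl, hb, hb1, hb', hb1', by rw [mul_smul, e1, e1'], by rw [mul_smul, e2, e2']⟩

/-- reversal of both windows -/
theorem W.rev {k s s' : H} {b b' l : ℝ} (h : W x k s b s' b' l) :
    W x (s'⁻¹ * k * s) s⁻¹ (len x s - l - b) s'⁻¹ (len x s' - l - b') l := by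
  obtain ⟨hl, hb, hb1, hb', hb1', e1, e2⟩ := h
  refine ⟨hl, by linarith, by rw [len_inv]; linarith, by linarith, by rw [len_inv]; linarith, ?_, ?_⟩
  · rw [show len x s - l - b = len x s - (b + l) by ring,
      show len x s' - l - b' = len x s' - (b' + l) by ring, ga_inv, ga_inv, ← e2]
    simp [mul_smul]
  · rw [show len x s - l - b + l = len x s - b by ring,
      show len x s' - l - b' + l = len x s' - b' by ring, ga_inv, ga_inv, ← e1]
    simp [mul_smul]

theorem W.uniq (harc : ArcTriv H Y) {k k' s s' : H} {b b' l : ℝ} (hl : 0 < l)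
    (h : W x k s b s' b' l) (h' : W x k' s b s' b' l) : k = k' := by
  have h2 := h.trans h'.symm
  obtain ⟨-, hb, hb1, -, -, e1, e2⟩ := h2
  have := harc _ _ _ (fun e => by
    have := ga_inj hb (by linarith) (by linarith) hb1 e
    linarith) e1 e2
  exact (inv_mul_eq_one.mp this).symm

/-- the target position is determined by the element -/
theorem W.pos_eq {k s s' : H} {b b' b'' l l' : ℝ} (h : W x k s b s' b' l)
    (h' : W x k s b s' b'' l') : b' = b'' := by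
  obtain ⟨hl, -, -, hb', hb1', e1, -⟩ := h
  obtain ⟨hl', -, -, hb'', hb1'', e1', -⟩ := h'
  exact ga_inj hb' (by linarith) hb'' (by linarith) (e1.symm.trans e1')

/-- union of two windows for the same element and shift -/
theorem W.glue {k s s' : H} {b b' l c c' m : ℝ} (h : W x k s b s' b' l) (h' : W x k s c s' c' m)
    (hc : c' - c = b' - b) (hbc : b ≤ c + m) : W x k s b s' b' (c + m - b) := by
  obtain ⟨hl, hb, hb1, hb', hb1', e1, -⟩ := h
  obtain ⟨hm, hc0, hc1, hc', hc1', -, e2⟩ := h'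
  refine ⟨by linarith, hb, by linarith, hb', by linarith, e1, ?_⟩
  rw [show b + (c + m - b) = c + m by ring, show b' + (c + m - b) = c' + m by linarith]
  exact e2

theorem one_mem_ball (S : Finset H) (n : ℕ) : (1 : H) ∈ Ball S n := ⟨[], by simp, by simp, by simp⟩

theorem ball_mono {m n : ℕ} (h : m ≤ n) : Ball S m ⊆ Ball S n := by
  rintro g ⟨l, h1, h2, h3⟩; exact ⟨l, h1, le_trans h2 h, h3⟩

theorem mul_mem_ball {m n : ℕ} {g h : H} (hg : g ∈ Ball S m) (hh : h ∈ Ball S n) :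
    g * h ∈ Ball S (m + n) := by
  obtain ⟨l, h1, h2, rfl⟩ := hg
  obtain ⟨l', h1', h2', rfl⟩ := hh
  refine ⟨l ++ l', ?_, by simp; omega, by simp⟩
  intro a ha
  rcases List.mem_append.mp ha with h | h
  · exact h1 a h
  · exact h1' a h

theorem gen_mem_ball {s : H} (hs : s ∈ S) : s ∈ Ball S 1 := ⟨[s], by simpa, by simp, by simp⟩

theorem inv_mem_ball (hS : ∀ s ∈ S, s⁻¹ ∈ S) {n : ℕ} {g : H} (hg : g ∈ Ball S n) :
    g⁻¹ ∈ Ball S n := by
  obtain ⟨l, h1, h2, rfl⟩ := hg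
  refine ⟨(l.map (·⁻¹)).reverse, ?_, by simpa using h2, (List.prod_inv_reverse l).symm⟩
  intro a ha
  simp only [List.mem_reverse, List.mem_map] at ha
  obtain ⟨b, hb, rfl⟩ := ha
  exact hS b (h1 b hb)

theorem finite_ball (S : Finset H) (n : ℕ) : (Ball S n).Finite := by
  induction n with
  | zero =>
    refine (Set.finite_singleton 1).subset ?_
    rintro g ⟨l, -, h2, rfl⟩
    have : l = [] := List.length_eq_zero_iff.mp (by omega)
    simp [this]
  | succ n ih =>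
    refine ((Set.finite_singleton 1).union (S.finite_toSet.image2 (· * ·) ih)).subset ?_
    rintro g ⟨l, h1, h2, rfl⟩
    cases l with
    | nil => simp
    | cons a l =>
      right
      exact ⟨a, h1 a (by simp), l.prod, ⟨l, fun b hb => h1 b (by simp [hb]), by simpa using h2, rfl⟩,
        by simp⟩

theorem exists_mem_ball (hgen : Gen S) (g : H) : ∃ n, g ∈ Ball S n := by
  obtain ⟨l, h1, h2⟩ := hgen g; exact ⟨l.length, l, h1, le_rfl, h2⟩

theorem countable_of_gen (hgen : Gen S) : Countable H := by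
  have : (Set.univ : Set H) = ⋃ n, Ball S n := by
    ext g; simpa using exists_mem_ball hgen g
  exact Set.countable_univ_iff.mp (this ▸ Set.countable_iUnion fun n => (finite_ball S n).countable)

theorem Band.mono {ρ ρ' : ℕ} (h : ρ ≤ ρ') {k s s' : H} (hb : Band S ρ k s s') : Band S ρ' k s s' := by
  rcases hb with hb | hb | hb | hb
  · exact Or.inl (ball_mono h hb)
  · exact Or.inr (Or.inl (ball_mono h hb))
  · exact Or.inr (Or.inr (Or.inl (ball_mono h hb)))
  · exact Or.inr (Or.inr (Or.inr (ball_mono h hb)))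

theorem Band.refl (S : Finset H) (ρ : ℕ) (s : H) : Band S ρ 1 s s := Or.inl (one_mem_ball S ρ)

theorem Band.symm (hS : ∀ s ∈ S, s⁻¹ ∈ S) {ρ : ℕ} {k s s' : H} (hb : Band S ρ k s s') :
    Band S ρ k⁻¹ s' s := by
  rcases hb with hb | hb | hb | hb
  · exact Or.inl (inv_mem_ball hS hb)
  · exact Or.inr (Or.inr (Or.inl (by simpa using inv_mem_ball hS hb)))
  · exact Or.inr (Or.inl (by simpa using inv_mem_ball hS hb))
  · exact Or.inr (Or.inr (Or.inr (by simpa [mul_assoc] using inv_mem_ball hS hb)))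

theorem Band.rev {ρ : ℕ} {k s s' : H} (hb : Band S ρ k s s') :
    Band S ρ (s'⁻¹ * k * s) s⁻¹ s'⁻¹ := by
  rcases hb with hb | hb | hb | hb
  · exact Or.inr (Or.inr (Or.inr (by simpa [mul_assoc] using hb)))
  · exact Or.inr (Or.inr (Or.inl (by simpa [mul_assoc] using hb)))
  · exact Or.inr (Or.inl (by simpa [mul_assoc] using hb))
  · exact Or.inl hb

theorem sing_mono {ρ ρ' : ℕ} (h : ρ ≤ ρ') (s : H) : Sing x S ρ s ⊆ Sing x S ρ' s := by
  rintro t ⟨g, hg, rfl⟩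
  exact ⟨g, hg.imp (fun h' => ball_mono (by omega) h') (fun h' => ball_mono (by omega) h'), rfl⟩

theorem finite_sing (x : Y) (S : Finset H) (ρ : ℕ) (s : H) : (Sing x S ρ s).Finite := by
  refine (((finite_ball S (ρ + 1)).union ((finite_ball S (ρ + 1)).image (s * ·))).image
    (fun h => gp x (s • x) (h • x))).subset ?_
  rintro t ⟨g, hg | hg, rfl⟩
  · exact ⟨g, Or.inl hg, rfl⟩
  · exact ⟨g, Or.inr ⟨_, hg, by simp⟩, rfl⟩

theorem zero_mem_sing (x : Y) (S : Finset H) (ρ : ℕ) (s : H) : 0 ∈ Sing x S ρ s :=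
  ⟨1, Or.inl (one_mem_ball _ _), by rw [one_smul, gp_base]⟩

theorem len_mem_sing (x : Y) (S : Finset H) (ρ : ℕ) (s : H) : len x s ∈ Sing x S ρ s :=
  ⟨s, Or.inr (by simpa using one_mem_ball _ _), by rw [gp_self]; rfl⟩

theorem sing_bounds {ρ : ℕ} {s : H} {t : ℝ} (h : t ∈ Sing x S ρ s) : 0 ≤ t ∧ t ≤ len x s := by
  obtain ⟨g, -, rfl⟩ := h
  exact ⟨gp_nonneg _ _ _, gp_le_left _ _ _⟩

theorem sing_rev {ρ : ℕ} {s : H} {t : ℝ} (h : t ∈ Sing x S ρ s) : len x s - t ∈ Sing x S ρ s⁻¹ := by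
  obtain ⟨g, hg, rfl⟩ := h
  refine ⟨s⁻¹ * g, ?_, ?_⟩
  · rcases hg with hg | hg
    · right; simpa using hg
    · left; exact hg
  · rw [← gp_smul s x (s⁻¹ • x), smul_inv_smul, ← mul_smul, mul_inv_cancel_left]
    have := gp_add x (s • x) (g • x)
    unfold len; linarith

/-- a band extends to the right up to a point that is singular on both arcs -/
theorem band_end (hS : ∀ s ∈ S, s⁻¹ ∈ S) {ρ : ℕ} {k s s' : H} (hs : s ∈ S) (hs' : s' ∈ S)
    (hb : Band S ρ k s s') {b b' l : ℝ} (hl : 0 < l) (h : W x k s b s' b' l) :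
    ∃ z, b + l ≤ z ∧ z ∈ Sing x S ρ s ∧ z + b' - b ∈ Sing x S ρ s' ∧ W x k s b s' b' (z - b) := by
  have aux : ∀ {k s s' : H} {b b' : ℝ}, s ∈ S → s' ∈ S → Band S ρ k s s' → W x k s b s' b' l →
      b + gp (ga x s b) (s • x) ((k⁻¹ * s') • x) ∈ Sing x S ρ s := by
    intro k s s' b b' hs hs' hb h
    obtain ⟨hl0, hb0, hb1, hb0', hb1', e1, e2⟩ := h
    refine ⟨k⁻¹ * s', ?_, ?_⟩
    · rcases hb.symm hS with hb | hb | hb | hb
      · exact Or.inl (mul_mem_ball hb (gen_mem_ball hs'))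
      · exact Or.inl (ball_mono (by omega) hb)
      · exact Or.inr (by simpa [mul_assoc] using mul_mem_ball hb (gen_mem_ball hs'))
      · exact Or.inr (by simpa [mul_assoc] using ball_mono (by omega) hb)
    · have b1 : Btw x (ga x s b) (ga x s (b + l)) := by
        have := btw_geo_geo (a := x) (b := s • x) le_rfl hb0 (show b ≤ b + l by linarith) hb1
        rwa [geo_zero] at this
      have b2 : Btw (ga x s b) (ga x s (b + l)) ((k⁻¹ * s') • x) := by
        rw [← btw_smul_iff k, e1, e2, ← mul_smul, mul_inv_cancel_left]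
        have := btw_geo_geo (a := x) (b := s' • x) hb0' (show b' ≤ b' + l by linarith) hb1' le_rfl
        rwa [show geo x (s' • x) (len x s') = s' • x from geo_dist _ _] at this
      have b3 := (b1.concat b2 (fun e => by
        have := ga_inj hb0 (by linarith) (by linarith) hb1 e
        linarith)).1
      rw [gp_shift (btw_ga x s b) b3, dist_x_ga hb0 (by linarith)]
  have m1 := aux hs hs' hb h
  have m2 := aux hs' hs (hb.symm hS) h.symm
  have hW := h
  obtain ⟨hl0, hb0, hb1, hb0', hb1', e1, e2⟩ := h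
  set m := gp (ga x s b) (s • x) ((k⁻¹ * s') • x) with hm
  have em : gp (ga x s' b') (s' • x) ((k⁻¹⁻¹ * s) • x) = m := by
    rw [hm, ← gp_smul k (ga x s b), e1, gp_comm, inv_inv, ← mul_smul, ← mul_smul,
      mul_inv_cancel_left]
  rw [em] at m2
  have d1 : dist (ga x s b) (s • x) = len x s - b := dist_geo_right hb0 (by unfold len at hb1; linarith)
  have d2 : dist (ga x s b) ((k⁻¹ * s') • x) = len x s' - b' := by
    rw [← dist_smul k, e1, ← mul_smul, mul_inv_cancel_left]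
    exact dist_geo_right hb0' (by unfold len at hb1'; linarith)
  have g1 : ∀ u, 0 ≤ u → b + u ≤ len x s → geo (ga x s b) (s • x) u = ga x s (b + u) := by
    intro u h0 h1
    have := geo_sub (a := x) (b := s • x) hb0 le_rfl h0 h1
    rwa [geo_dist] at this
  have g2 : ∀ u, 0 ≤ u → b' + u ≤ len x s' →
      k • geo (ga x s b) ((k⁻¹ * s') • x) u = ga x s' (b' + u) := by
    intro u h0 h1
    have := geo_sub (a := x) (b := s' • x) hb0' le_rfl h0 h1
    rw [geo_dist] at this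
    rw [smul_geo, e1, ← mul_smul, mul_inv_cancel_left]
    exact this
  have hlm : l ≤ m := by
    apply le_gp_of_geo_eq hl0 (by linarith)
    rw [g1 l hl0 hb1]
    apply smul_left_cancel k
    rw [g2 l hl0 hb1', e2]
  have u1 : m ≤ len x s - b := d1 ▸ gp_le_left _ _ _
  have u2 : m ≤ len x s' - b' := d2 ▸ gp_le_right _ _ _
  refine ⟨b + m, by linarith, m1, by rw [show b + m + b' - b = b' + m by ring]; exact m2, ?_⟩
  rw [show b + m - b = m by ring]
  refine ⟨by linarith, hb0, by linarith, hb0', by linarith, e1, ?_⟩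
  rw [← g1 m (by linarith) (by linarith), geo_eq_of_le_gp (by linarith) hm.le,
    g2 m (by linarith) (by linarith)]

/-- a band extends to the left up to a point that is singular on both arcs -/
theorem band_start (hS : ∀ s ∈ S, s⁻¹ ∈ S) {ρ : ℕ} {k s s' : H} (hs : s ∈ S) (hs' : s' ∈ S)
    (hb : Band S ρ k s s') {b b' l : ℝ} (hl : 0 < l) (h : W x k s b s' b' l) :
    ∃ z, z ≤ b ∧ z ∈ Sing x S ρ s ∧ z + b' - b ∈ Sing x S ρ s' ∧
      W x k s z s' (z + b' - b) (b + l - z) := by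
  obtain ⟨z, h1, h2, h3, h4⟩ := band_end hS (hS s hs) (hS s' hs') hb.rev hl h.rev
  have h5 := h4.rev
  have h2' := sing_rev h2
  have h3' := sing_rev h3
  simp only [inv_inv, len_inv] at h5 h2' h3'
  refine ⟨len x s - z, by linarith, h2', ?_, ?_⟩
  · convert h3' using 1; ring
  · have e : s' * (s'⁻¹ * k * s) * s⁻¹ = k := by group
    rw [e] at h5
    have e1 : len x s - (z - (len x s - l - b)) - (len x s - l - b) = len x s - z := by ring
    have e2 : len x s' - (z - (len x s - l - b)) - (len x s' - l - b') = len x s - z + b' - b := by ring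
    have e3 : z - (len x s - l - b) = b + l - (len x s - z) := by ring
    rw [e1, e2, e3] at h5
    exact h5

/-- homomorphisms to a finite group are already rigid at a finite level -/
theorem rig (hS : ∀ s ∈ S, s⁻¹ ∈ S) (hgen : Gen S) (hd : Dens x S) (Γ : Type) [Group Γ] [Finite Γ]
    (θ : H →* Γ) : ∃ ρ : ℕ, ∀ ψ : H → Γ, (∀ s ∈ S, s • x = x → ψ s = θ s) →
      (∀ l : List H, (∀ a ∈ l, a ∈ S) → l.length ≤ ρ → l.prod = 1 → (l.map ψ).prod = 1) →
      ∀ s ∈ S, ψ s = θ s := by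
  classical
  have key : ∀ ψ : H → Γ, (∀ s ∈ S, s • x = x → ψ s = θ s) →
      (∀ l : List H, (∀ a ∈ l, a ∈ S) → l.prod = 1 → (l.map ψ).prod = 1) → ∀ s ∈ S, ψ s = θ s := by
    intro ψ h1 h2
    have hinv : ∀ s ∈ S, ψ s⁻¹ = (ψ s)⁻¹ := by
      intro s hs
      have := h2 [s, s⁻¹] (by simp [hs, hS s hs]) (by simp)
      simp only [List.map_cons, List.map_nil, List.prod_cons, List.prod_nil, mul_one] at this
      exact eq_inv_of_mul_eq_one_right this
    have wd : ∀ l l' : List H, (∀ a ∈ l, a ∈ S) → (∀ a ∈ l', a ∈ S) → l.prod = l'.prod →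
        (l.map ψ).prod = (l'.map ψ).prod := by
      intro l l' hl hl' e
      have h3 := h2 (l ++ (l'.map (·⁻¹)).reverse) (by
        intro a ha
        rcases List.mem_append.mp ha with h | h
        · exact hl a h
        · simp only [List.mem_reverse, List.mem_map] at h
          obtain ⟨b, hb, rfl⟩ := h
          exact hS b (hl' b hb)) (by rw [List.prod_append, ← List.prod_inv_reverse, e, mul_inv_cancel])
      have h4 : (((l'.map (·⁻¹)).reverse).map ψ).prod = ((l'.map ψ).prod)⁻¹ := by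
        rw [List.prod_inv_reverse, List.map_reverse, List.map_map, List.map_map]
        congr 2
        exact List.map_congr_left fun a ha => hinv a (hl' a ha)
      rw [List.map_append, List.prod_append, h4] at h3
      exact mul_inv_eq_one.mp h3
    choose wrd hw1 hw2 using hgen
    let α : H →* Γ := MonoidHom.mk' (fun g => ((wrd g).map ψ).prod) (by
      intro a b
      rw [← List.prod_append, ← List.map_append]
      refine wd _ _ (hw1 _) ?_ (by rw [List.prod_append, hw2, hw2, hw2])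
      intro c hc
      rcases List.mem_append.mp hc with h | h
      · exact hw1 _ c h
      · exact hw1 _ c h)
    have hα : ∀ s ∈ S, α s = ψ s := by
      intro s hs
      have := wd (wrd s) [s] (hw1 s) (by simpa) (by simp [hw2])
      show ((wrd s).map ψ).prod = ψ s
      simpa using this
    have := hd Γ α θ (fun s hs hx => by rw [hα s hs, h1 s hs hx])
    intro s hs
    rw [← hα s hs, this]
  have key2 : ∀ f : S → Γ, ∃ n : ℕ, ∀ ψ : H → Γ, (∀ s : S, ψ s = f s) →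
      (∀ s ∈ S, s • x = x → ψ s = θ s) →
      (∀ l : List H, (∀ a ∈ l, a ∈ S) → l.length ≤ n → l.prod = 1 → (l.map ψ).prod = 1) →
      ∀ s ∈ S, ψ s = θ s := by
    intro f
    by_cases hf : ∀ l : List H, (∀ a ∈ l, a ∈ S) → l.prod = 1 →
        (l.map (fun a => if h : a ∈ S then f ⟨a, h⟩ else 1)).prod = 1
    · refine ⟨0, fun ψ h0 h1 _ => key ψ h1 fun l hl e => ?_⟩
      rw [← hf l hl e]
      congr 1
      refine List.map_congr_left fun a ha => ?_
      rw [dif_pos (hl a ha), ← h0]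
    · push Not at hf
      obtain ⟨l, hl, e, hne⟩ := hf
      refine ⟨l.length, fun ψ h0 _ h2 => absurd ?_ hne⟩
      rw [← h2 l hl le_rfl e]
      congr 1
      refine List.map_congr_left fun a ha => ?_
      rw [dif_pos (hl a ha), ← h0]
  choose n hn using key2
  obtain ⟨ρ, hρ⟩ := (Set.finite_range n).bddAbove
  refine ⟨ρ, fun ψ h1 h2 => hn (fun s => ψ s) ψ (fun _ => rfl) h1 fun l hl hlen e => ?_⟩
  exact h2 l hl (le_trans hlen (hρ ⟨_, rfl⟩)) e

end Pool.Agent.MP_e97151_al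

end

-- part MP_e97151_al.Turn
section

/-! Finiteness of window classes; simple turns. -/

set_option autoImplicit false
set_option linter.unusedSectionVars false

namespace Pool.Agent.MP_e97151_al

variable {H Y : Type} [Group H] [MetricSpace Y] [MulAction H Y] [IsIsometricSMul H Y] [RT Y]

/-- every translate of an arc that arrives at the point `t` of the arc of `s` along the same germ
also leaves it along the same germ -/
def FS (x : Y) (S : Finset H) (s : H) (t : ℝ) : Prop :=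
  ∀ (k s' : H) (t' ε : ℝ), s' ∈ S → 0 < ε → W x k s (t - ε) s' (t' - ε) ε →
    ∃ ε', 0 < ε' ∧ W x k s t s' t' ε'

def Simple (x : Y) (S : Finset H) (s : H) (t : ℝ) : Prop :=
  FS x S s t ∧ FS x S s⁻¹ (len x s - t)

/-- same incoming germ up to the action -/
def BackEq (x : Y) (j j' : H × ℝ) : Prop :=
  ∃ (k : H) (ε : ℝ), 0 < ε ∧ W x k j.1 (j.2 - ε) j'.1 (j'.2 - ε) ε

/-- same two-sided germ up to the action -/
def TurnEq (x : Y) (j j' : H × ℝ) : Prop :=
  ∃ (k : H) (ε : ℝ), 0 < ε ∧ W x k j.1 (j.2 - ε) j'.1 (j'.2 - ε) (2 * ε)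

/-- `h` maps the outgoing germ at `t` to the reversed incoming germ -/
def Flip (x : Y) (s : H) (t : ℝ) (h : H) : Prop :=
  ∃ ε : ℝ, 0 < ε ∧ W x (s⁻¹ * h) s t s⁻¹ (len x s - t) ε

variable {x : Y} {S : Finset H}

theorem kappa_zpow {w : H} {κ : H → ℤ}
    (hκ : ∀ c d, Commute c w → Commute d w → κ (c * d) = κ c + κ d) {g : H} (hg : Commute g w)
    (n : ℤ) : κ (g ^ n) = n * κ g := by
  have h1 : κ 1 = 0 := by
    have := hκ 1 1 (Commute.one_left w) (Commute.one_left w)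
    rw [one_mul] at this; omega
  induction n using Int.induction_on with
  | zero => simp [h1]
  | succ n ih =>
    rw [zpow_add_one, hκ _ _ (hg.zpow_left _) hg, ih]; ring
  | pred n ih =>
    have e : g ^ (-(n : ℤ)) = g ^ (-(n : ℤ) - 1) * g := by
      rw [zpow_sub_one, inv_mul_cancel_right]
    rw [e, hκ _ _ (hg.zpow_left _) hg] at ih
    linarith

theorem W.self_move {g s : H} {b0 b' l : ℝ} (hl : 0 < l) (h : W x g s b0 s b' l)
    (hb : |b' - b0| ≤ l / 100) :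
    dist (ga x s b0) (g • ga x s b0) ≤ l / 100 ∧
      dist (ga x s (b0 + l)) (g • ga x s (b0 + l)) ≤ l / 100 ∧
      ∀ n : ℤ, dist (ga x s (b0 + l / 2)) (g ^ n • ga x s (b0 + l / 2)) = |(n : ℝ)| * |b' - b0| := by
  have p1 := h.pt (u := l / 2) (by linarith) (by linarith)
  have hb2 := abs_le.mp hb
  have p2 := h.pt (u := b' - b0 + l / 2) (by linarith) (by linarith)
  obtain ⟨-, h1, h2, h3, h4, e1, e2⟩ := h
  refine ⟨?_, ?_, ?_⟩
  · rw [e1, dist_ga h1 (by linarith) h3 (by linarith), abs_sub_comm]; exact hb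
  · rw [e2, dist_ga (by linarith) h2 (by linarith) h4,
      show b0 + l - (b' + l) = b0 - b' by ring, abs_sub_comm]; exact hb
  · have d1 : dist (ga x s (b0 + l / 2)) (g • ga x s (b0 + l / 2)) = |b' - b0| := by
      rw [p1, dist_ga (by linarith) (by linarith) (by linarith) (by linarith),
        show b0 + l / 2 - (b' + l / 2) = b0 - b' by ring, abs_sub_comm]
    have d2 : dist (ga x s (b0 + l / 2)) ((g * g) • ga x s (b0 + l / 2)) =
        2 * dist (ga x s (b0 + l / 2)) (g • ga x s (b0 + l / 2)) := by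
      rw [d1, mul_smul, p1, show b' + l / 2 = b0 + (b' - b0 + l / 2) by ring, p2,
        dist_ga (by linarith) (by linarith) (by linarith) (by linarith),
        show b0 + l / 2 - (b' + (b' - b0 + l / 2)) = 2 * (b0 - b') by ring, abs_mul, abs_sub_comm]
      norm_num
    intro n
    rw [dist_zpow_smul d2, d1]

theorem finite_occ_aux (hy : Hyp x S) (s : H) (b0 l : ℝ) (hl : 0 < l) :
    {b' : ℝ | |b' - b0| ≤ l / 100 ∧ ∃ g : H, W x g s b0 s b' l}.Finite := by
  by_cases hall : ∀ b' : ℝ, (|b' - b0| ≤ l / 100 ∧ ∃ g : H, W x g s b0 s b' l) → b' = b0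
  · exact (Set.finite_singleton b0).subset fun b' hb' => hall b' hb'
  push Not at hall
  obtain ⟨b1, ⟨hb1, w, hw⟩, hne⟩ := hall
  have hw1 : w ≠ 1 := by
    rintro rfl
    exact hne (hw.pos_eq (W.refl hl.le hw.2.1 hw.2.2.1))
  have hd : dist (ga x s b0) (ga x s (b0 + l)) = l := by
    obtain ⟨-, h1, h2, -⟩ := hw
    rw [dist_ga h1 (by linarith) (by linarith) h2, show b0 - (b0 + l) = -l by ring, abs_neg,
      abs_of_pos hl]
  obtain ⟨w1, w2, w3⟩ := hw.self_move hl hb1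
  obtain ⟨κ, hκ, hinj⟩ := hy.cyc w _ _ (l / 100) hw1 w1 w2 (by rw [hd]; linarith)
  have hA : κ w ≠ 0 := fun e => hw1 (hinj w (Commute.refl w) e)
  have hA' : (0 : ℝ) < |(κ w : ℝ)| := abs_pos.mpr (by exact_mod_cast hA)
  have hd1 : 0 < |b1 - b0| := abs_pos.mpr (sub_ne_zero.mpr hne)
  set δ : ℝ := |b1 - b0| / |(κ w : ℝ)| with hδ
  have hδ0 : 0 < δ := div_pos hd1 hA'
  refine ((Set.finite_Icc (-⌈l / 100 / δ⌉) ⌈l / 100 / δ⌉).image
    (fun n : ℤ => b0 + n * δ)).subset ?_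
  rintro b' ⟨hb', g, hg⟩
  obtain ⟨g1, g2, g3⟩ := hg.self_move hl hb'
  obtain ⟨p, q, hpq, hp, hq⟩ := comm_arc g1 g2 w1 w2 (by rw [hd]; linarith)
  have hc : Commute g w := (inv_mul_eq_one.mp (hy.arc _ p q hpq hp hq)).symm
  have e : g ^ κ w = w ^ κ g := by
    have h0 := hinj (g ^ κ w * w ^ (-κ g)) ((hc.zpow_left _).mul_left ((Commute.refl w).zpow_left _))
      (by rw [hκ _ _ (hc.zpow_left _) ((Commute.refl w).zpow_left _), kappa_zpow hκ hc,
        kappa_zpow hκ (Commute.refl w)]; ring)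
    rwa [zpow_neg, mul_inv_eq_one] at h0
  have e2 : |(κ w : ℝ)| * |b' - b0| = |(κ g : ℝ)| * |b1 - b0| := by
    rw [← g3, ← w3, e]
  have e3 : |b' - b0| = |(κ g : ℝ) * δ| := by
    rw [abs_mul, abs_of_pos hδ0, hδ]
    field_simp
    linarith
  have hb3 : |(κ g : ℝ)| ≤ ⌈l / 100 / δ⌉ := by
    refine le_trans ?_ (Int.le_ceil _)
    rw [le_div_iff₀ hδ0]
    rw [e3, abs_mul, abs_of_pos hδ0] at hb'
    exact hb'
  have hb4 : |κ g| ≤ ⌈l / 100 / δ⌉ := by exact_mod_cast hb3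
  have hb5 := abs_le.mp hb4
  rcases abs_eq_abs.mp e3 with e4 | e4
  · exact ⟨κ g, ⟨hb5.1, hb5.2⟩, by simp only; linarith⟩
  · exact ⟨-κ g, ⟨by linarith [hb5.2], by linarith [hb5.1]⟩, by simp only; push_cast; linarith⟩

/-- HINT. Otherwise for some `s'` and some interval `I` of length `η = l / 100` there are infinitely many
`b' ∈ I` (pigeonhole on `(s', ⌊b'/η⌋)`). Fix one, `b0`; for the others `g b' = k' k0⁻¹` has
`W x (g b') s' b0 s' b' l`, so it moves `ga s' b0` and `ga s' (b0 + l)` by `|b' - b0| ≤ η`; by `comm_arc` and `arc`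
these elements commute. Fix `b1 ≠ b0`, `w = g b1 ≠ 1`, `κ` from `cyc`, `A = κ w ≠ 0`. Then `g ^ A = w ^ (κ g)`
and at `y = ga s' (b0 + l/2)` `dist_zpow_smul` gives `|A| |b' - b0| = |κ g| |b1 - b0|`; so `|κ g|` is bounded and
`b'` takes finitely many values. -/
theorem finite_occ (hy : Hyp x S) (s : H) (b l : ℝ) (hl : 0 < l) :
    {p : H × ℝ | p.1 ∈ S ∧ ∃ k : H, W x k s b p.1 p.2 l}.Finite := by
  have hη : 0 < l / 100 := by linarith
  have piece : ∀ (s' : H) (n : ℤ), {p : H × ℝ | (∃ k : H, W x k s b p.1 p.2 l) ∧ p.1 = s' ∧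
      ⌊p.2 / (l / 100)⌋ = n}.Finite := by
    intro s' n
    rcases Set.eq_empty_or_nonempty {p : H × ℝ | (∃ k : H, W x k s b p.1 p.2 l) ∧ p.1 = s' ∧
      ⌊p.2 / (l / 100)⌋ = n} with h | ⟨⟨s0, b0⟩, ⟨k0, h0⟩, hs0, hn0⟩
    · rw [h]; exact Set.finite_empty
    simp only at h0 hs0 hn0
    subst hs0
    refine ((finite_occ_aux hy s0 b0 l hl).image (fun b' => (s0, b'))).subset ?_
    rintro ⟨s1, b1⟩ ⟨⟨k1, h1⟩, hs1, hn1⟩
    simp only at h1 hs1 hn1
    subst hs1
    refine ⟨b1, ⟨?_, _, h0.symm.trans h1⟩, rfl⟩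
    have := Int.abs_sub_lt_one_of_floor_eq_floor (hn1.trans hn0.symm)
    rw [← sub_div, abs_div, abs_of_pos hη, div_lt_one hη] at this
    exact this.le
  refine (S.finite_toSet.biUnion fun s' _ =>
    (Set.finite_Icc (0 : ℤ) ⌊len x s' / (l / 100)⌋).biUnion fun n _ => piece s' n).subset ?_
  rintro ⟨s', b'⟩ ⟨hs', k, hk⟩
  simp only [Set.mem_iUnion]
  refine ⟨s', hs', ⌊b' / (l / 100)⌋, ⟨?_, ?_⟩, ⟨k, hk⟩, rfl, rfl⟩
  · exact Int.floor_nonneg.mpr (div_nonneg hk.2.2.2.1 hη.le)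
  · refine Int.floor_le_floor (div_le_div_of_nonneg_right ?_ hη.le)
    have := hk.2.2.2.2.1
    simp only at this
    linarith

theorem FS.step {s g s' : H} {t t' : ℝ} (hfs : FS x S s t) (hs' : s' ∈ S) (h0 : 0 ≤ t)
    (h1 : t ≤ len x s) (h0' : 0 ≤ t') (h1' : t' ≤ len x s') (hm : ga x s t = g • ga x s' t')
    (hpos : 0 < gp (ga x s t) x (g • x)) : 0 < gp (ga x s t) (s • x) ((g * s') • x) := by
  set ε := gp (ga x s t) x (g • x) with hε
  have dm : dist (ga x s t) x = t := by rw [dist_comm, dist_x_ga h0 h1]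
  have dm' : dist (ga x s t) (g • x) = t' := by rw [hm, dist_smul, dist_comm, dist_x_ga h0' h1']
  have e1 : ε ≤ t := dm ▸ gp_le_left _ _ _
  have e2 : ε ≤ t' := dm' ▸ gp_le_right _ _ _
  have a1 : ga x s (t - ε) = geo (ga x s t) x ε := by
    apply eq_geo_of_dist
    · rw [dist_ga h0 h1 (by linarith) (by linarith), show t - (t - ε) = ε by ring, abs_of_pos hpos]
    · rw [dm, dist_comm, dist_x_ga (by linarith) (by linarith)]
  have a2 : g • ga x s' (t' - ε) = geo (ga x s t) (g • x) ε := by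
    apply eq_geo_of_dist
    · rw [hm, dist_smul, dist_ga h0' h1' (by linarith) (by linarith),
        show t' - (t' - ε) = ε by ring, abs_of_pos hpos]
    · rw [dm', dist_smul, dist_comm, dist_x_ga (by linarith) (by linarith)]
  have hW : W x g⁻¹ s (t - ε) s' (t' - ε) ε := by
    refine ⟨hpos.le, by linarith, by linarith, by linarith, by linarith, ?_, ?_⟩
    · rw [inv_smul_eq_iff, a1, a2]; exact geo_eq_of_le_gp hpos.le le_rfl
    · rw [inv_smul_eq_iff, sub_add_cancel, sub_add_cancel]; exact hm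
  obtain ⟨ε', hε', -, -, c1, -, c2, -, c3⟩ := hfs g⁻¹ s' t' ε hs' hpos hW
  rw [inv_smul_eq_iff] at c3
  have b1 : Btw (ga x s t) (ga x s (t + ε')) (s • x) := by
    have := btw_geo_geo (a := x) (b := s • x) h0 (show t ≤ t + ε' by linarith) c1 le_rfl
    rwa [show geo x (s • x) (len x s) = s • x from geo_dist _ _] at this
  have b2 : Btw (ga x s t) (ga x s (t + ε')) ((g * s') • x) := by
    rw [c3, hm, mul_smul, btw_smul_iff]
    have := btw_geo_geo (a := x) (b := s' • x) h0' (show t' ≤ t' + ε' by linarith) c2 le_rfl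
    rwa [show geo x (s' • x) (len x s') = s' • x from geo_dist _ _] at this
  have := le_gp_of_btw b1 b2
  rw [dist_ga h0 h1 (by linarith) c1, show t - (t + ε') = -ε' by ring, abs_neg,
    abs_of_pos hε'] at this
  linarith

/-- HINT. Let `m = ga s t`, `t = gp x (s x) (h x)`, so `m = med x (s x) (h x)` and
`gp m x (h x) = 0 = gp m (s x) (h x)`. If the turn is simple, show by induction on words (append a letter)
that `0 < gp m x (g x) ∨ 0 < gp m (s x) (g x)` for all `g`: if `m ∉ [g x, g s' x]` use `not_btw_iff` and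
`gp_pos_trans`; otherwise `m = g • ga s' t'` with `t' = dist (g x) m > 0`, and in the first case
`W x g⁻¹ s (t-ε) s' (t'-ε) ε` for `ε = gp m x (g x)` (`geo_eq_of_le_gp`), so `FS` gives a common initial segment
of `[m, s x]` and `[m, g s' x]`; in the second case use `FS` for `s⁻¹` with `k = g⁻¹ s`. -/
theorem not_simple_of_sing (hgen : Gen S) {ρ : ℕ} {s : H} {t : ℝ} (ht : t ∈ Sing x S ρ s)
    (h0 : 0 < t) (h1 : t < len x s) : ¬ Simple x S s t := by
  rintro ⟨f1, f2⟩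
  obtain ⟨h, -, hth⟩ := ht
  have key : ∀ l : List H, (∀ a ∈ l, a ∈ S) →
      0 < gp (ga x s t) x (l.prod • x) ∨ 0 < gp (ga x s t) (s • x) (l.prod • x) := by
    intro l
    induction l using List.reverseRecOn with
    | nil =>
      intro _
      left
      rw [List.prod_nil, one_smul, gp_self, dist_comm, dist_x_ga h0.le h1.le]; exact h0
    | append_singleton l s' ih =>
      intro hl
      have hs' : s' ∈ S := hl s' (by simp)
      have ih' := ih fun a ha => hl a (by simp [ha])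
      rw [List.prod_append, List.prod_singleton]
      generalize l.prod = g at ih' ⊢
      by_cases hb : Btw (g • x) (ga x s t) ((g * s') • x)
      · have hle := hb.le_left
        rw [mul_smul, dist_smul g x (s' • x)] at hle
        have hm : ga x s t = g • ga x s' (dist (g • x) (ga x s t)) := by
          have := hb.eq_geo
          rw [mul_smul, ← smul_geo] at this
          exact this
        rcases ih' with ih' | ih'
        · exact Or.inr (f1.step hs' h0.le h1.le dist_nonneg hle hm ih')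
        · left
          have hm' : ga x s⁻¹ (len x s - t) = (s⁻¹ * g) • ga x s' (dist (g • x) (ga x s t)) := by
            rw [ga_inv, mul_smul, ← hm]
          have := f2.step hs' (by linarith) (by rw [len_inv]; linarith) dist_nonneg hle hm' (by
            rw [ga_inv, ← gp_smul s, smul_inv_smul, ← mul_smul, mul_inv_cancel_left]; exact ih')
          rwa [ga_inv, mul_assoc, mul_smul s⁻¹, gp_smul] at this
      · have hb' := (not_btw_iff _ _ _).mp hb
        exact ih'.imp (fun h' => gp_pos_trans h' hb') (fun h' => gp_pos_trans h' hb')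
  obtain ⟨l, hl, rfl⟩ := hgen h
  have hm : ga x s t = med x (s • x) (l.prod • x) := by rw [hth]; rfl
  have z1 := (btw_iff_gp _ _ _).mp (btw_med3 x (s • x) (l.prod • x))
  have z2 := (btw_iff_gp _ _ _).mp (btw_med2 x (s • x) (l.prod • x))
  rw [← hm] at z1 z2
  rcases key l hl with h' | h' <;> linarith

end Pool.Agent.MP_e97151_al

end

-- part MP_e97151_al.CC0
section

/-! Windows in a finite cover, chains of moves, the finite graph of marked windows. -/

set_option autoImplicit false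
set_option linter.unusedSectionVars false

namespace Pool.Agent.MP_e97151_al

/-- start `b` of a window on the arc of `s`, on the sheet `q` -/
@[ext] structure Pos (H Q : Type) where
  s : H
  b : ℝ
  q : Q

variable {H Y Q : Type} [Group H] [MetricSpace Y] [MulAction H Y] [IsIsometricSMul H Y] [RT Y]
  [Group Q]

def Mv (x : Y) (S : Finset H) (ρ : ℕ) (π : H →* Q) (l : ℝ) (e e' : Pos H Q) : Prop :=
  e.s ∈ S ∧ e'.s ∈ S ∧ ∃ k, Band S ρ k e.s e'.s ∧ W x k e.s e.b e'.s e'.b l ∧ e'.q = π k * e.q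

def Ch (x : Y) (S : Finset H) (ρ : ℕ) (π : H →* Q) (l : ℝ) : Pos H Q → Pos H Q → Prop :=
  Relation.ReflTransGen (Mv x S ρ π l)

/-- reversal of a window of length `l` -/
def Pos.rv (x : Y) (π : H →* Q) (l : ℝ) (e : Pos H Q) : Pos H Q :=
  ⟨e.s⁻¹, len x e.s - l - e.b, (π e.s)⁻¹ * e.q⟩

def Pos.sh (e : Pos H Q) (u : ℝ) : Pos H Q := ⟨e.s, e.b + u, e.q⟩

/-- windows of length `r` with a singular end -/
def Om0 (x : Y) (S : Finset H) (ρ : ℕ) (Q : Type) (r : ℝ) : Set (Pos H Q) :=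
  {e | e.s ∈ S ∧ 0 ≤ e.b ∧ e.b + r ≤ len x e.s ∧ (e.b ∈ Sing x S ρ e.s ∨ e.b + r ∈ Sing x S ρ e.s)}

def Om (x : Y) (S : Finset H) (ρ : ℕ) (π : H →* Q) (r : ℝ) : Set (Pos H Q) :=
  {e | ∃ e0 ∈ Om0 x S ρ Q r, Ch x S ρ π r e0 e}

/-- marked windows that are not the last ones on their arc -/
def Om' (x : Y) (S : Finset H) (ρ : ℕ) (π : H →* Q) (r : ℝ) : Set (Pos H Q) :=
  {e | e ∈ Om x S ρ π r ∧ e.b + r < len x e.s}

/-- distance to the next marked window -/
noncomputable def gap (x : Y) (S : Finset H) (ρ : ℕ) (π : H →* Q) (r : ℝ) (e : Pos H Q) : ℝ :=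
  sInf {u | 0 < u ∧ e.sh u ∈ Om x S ρ π r}

noncomputable def nxt (x : Y) (S : Finset H) (ρ : ℕ) (π : H →* Q) (r : ℝ) (e : Pos H Q) : Pos H Q :=
  e.sh (gap x S ρ π r e)

/-- equivalence of edges -/
def EE (x : Y) (S : Finset H) (ρ : ℕ) (π : H →* Q) (r : ℝ) (e e' : Pos H Q) : Prop :=
  gap x S ρ π r e = gap x S ρ π r e' ∧ Ch x S ρ π (r + gap x S ρ π r e) e e'

/-- reversal of an edge -/
noncomputable def rve (x : Y) (S : Finset H) (ρ : ℕ) (π : H →* Q) (r : ℝ) (e : Pos H Q) : Pos H Q :=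
  (nxt x S ρ π r e).rv x π r

/-- sum of `f` over the marked windows `e.sh u`, `0 ≤ u < m` -/
noncomputable def FF (x : Y) (S : Finset H) (ρ : ℕ) (π : H →* Q) (r : ℝ) (f : Pos H Q → ZMod 2)
    (e : Pos H Q) (m : ℝ) : ZMod 2 :=
  ∑ᶠ u ∈ {u : ℝ | 0 ≤ u ∧ u < m ∧ e.sh u ∈ Om x S ρ π r}, f (e.sh u)

structure GoodR (x : Y) (S : Finset H) (ρ : ℕ) (π : H →* Q) (r : ℝ) : Prop where
  pos : 0 < r
  sep : ∀ s ∈ S, ∀ z ∈ Sing x S ρ s, ∀ z' ∈ Sing x S ρ s, z < z' → z + r < z'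
  stab : ∀ s ∈ S, ∀ t ∈ Sing x S ρ s, ∀ s' ∈ S, ∀ t' ∈ Sing x S ρ s', ∀ (q q' : Q) (ε : ℝ), 0 < ε →
    Ch x S ρ π (r + ε) ⟨s, t - r, q⟩ ⟨s', t' - r, q'⟩ →
    Ch x S ρ π (r + r) ⟨s, t - r, q⟩ ⟨s', t' - r, q'⟩
  nosym : ∀ e ∈ Om x S ρ π r, ¬ Ch x S ρ π r e (e.rv x π r)

/-- action on `Q × ZMod 2` by left multiplication on the first factor -/
def iotaQ (π : H →* Q) : H →* Equiv.Perm (Q × ZMod 2) where
  toFun h :=
    { toFun := fun p => (π h * p.1, p.2)
      invFun := fun p => ((π h)⁻¹ * p.1, p.2)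
      left_inv := by rintro ⟨q, e⟩; simp
      right_inv := by rintro ⟨q, e⟩; simp }
  map_one' := by ext ⟨q, e⟩ <;> simp
  map_mul' := by intro a b; ext ⟨q, e⟩ <;> simp [mul_assoc]

def tauQ (v : Q → ZMod 2) : Equiv.Perm (Q × ZMod 2) where
  toFun p := (p.1, p.2 + v p.1)
  invFun p := (p.1, p.2 - v p.1)
  left_inv := by rintro ⟨q, e⟩; simp
  right_inv := by rintro ⟨q, e⟩; simp

theorem iotaQ_apply (π : H →* Q) (h : H) (q : Q) (e : ZMod 2) : iotaQ π h (q, e) = (π h * q, e) := rfl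

theorem tauQ_apply (v : Q → ZMod 2) (q : Q) (e : ZMod 2) : tauQ v (q, e) = (q, e + v q) := rfl

variable {x : Y} {S : Finset H} {ρ : ℕ} {π : H →* Q}

theorem Pos.rv_rv (l : ℝ) (e : Pos H Q) : (e.rv x π l).rv x π l = e := by
  ext <;> simp [Pos.rv, len_inv]

theorem Pos.sh_zero (e : Pos H Q) : e.sh 0 = e := by ext <;> simp [Pos.sh]

theorem Pos.sh_sh (e : Pos H Q) (u v : ℝ) : (e.sh u).sh v = e.sh (u + v) := by
  ext <;> simp [Pos.sh, add_assoc]

theorem Pos.rv_sh (l u : ℝ) (e : Pos H Q) : (e.sh u).rv x π l = e.rv x π (l + u) := by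
  ext <;> simp [Pos.sh, Pos.rv]; ring

theorem Pos.sh_rv (l u : ℝ) (e : Pos H Q) : (e.rv x π (l + u)).sh u = e.rv x π l := by
  ext <;> simp [Pos.sh, Pos.rv]; ring

theorem Mv.symm (hS : ∀ s ∈ S, s⁻¹ ∈ S) {l : ℝ} {e e' : Pos H Q} (h : Mv x S ρ π l e e') :
    Mv x S ρ π l e' e := by
  obtain ⟨h1, h2, k, hb, hw, hq⟩ := h
  exact ⟨h2, h1, k⁻¹, hb.symm hS, hw.symm, by rw [hq, map_inv, inv_mul_cancel_left]⟩

theorem Mv.rv (hS : ∀ s ∈ S, s⁻¹ ∈ S) {l : ℝ} {e e' : Pos H Q} (h : Mv x S ρ π l e e') :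
    Mv x S ρ π l (e.rv x π l) (e'.rv x π l) := by
  obtain ⟨h1, h2, k, hb, hw, hq⟩ := h
  exact ⟨hS _ h1, hS _ h2, _, hb.rev, hw.rev, by simp [Pos.rv, hq, mul_assoc]⟩

theorem Mv.sub {l u m : ℝ} {e e' : Pos H Q} (h : Mv x S ρ π l e e') (h0 : 0 ≤ u) (hm : 0 ≤ m)
    (h1 : u + m ≤ l) : Mv x S ρ π m (e.sh u) (e'.sh u) := by
  obtain ⟨h1', h2, k, hb, hw, hq⟩ := h
  exact ⟨h1', h2, k, hb, hw.sub h0 hm h1, hq⟩

theorem Ch.symm (hS : ∀ s ∈ S, s⁻¹ ∈ S) {l : ℝ} {e e' : Pos H Q} (h : Ch x S ρ π l e e') :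
    Ch x S ρ π l e' e := by
  induction h with
  | refl => exact Relation.ReflTransGen.refl
  | tail _ h2 ih => exact Relation.ReflTransGen.head (h2.symm hS) ih

theorem Ch.trans {l : ℝ} {e e' e'' : Pos H Q} (h : Ch x S ρ π l e e') (h' : Ch x S ρ π l e' e'') :
    Ch x S ρ π l e e'' := Relation.ReflTransGen.trans h h'

theorem Ch.rv (hS : ∀ s ∈ S, s⁻¹ ∈ S) {l : ℝ} {e e' : Pos H Q} (h : Ch x S ρ π l e e') :
    Ch x S ρ π l (e.rv x π l) (e'.rv x π l) := by
  induction h with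
  | refl => exact Relation.ReflTransGen.refl
  | tail _ h2 ih => exact Relation.ReflTransGen.tail ih (h2.rv hS)

theorem Ch.sub {l u m : ℝ} {e e' : Pos H Q} (h : Ch x S ρ π l e e') (h0 : 0 ≤ u) (hm : 0 ≤ m)
    (h1 : u + m ≤ l) : Ch x S ρ π m (e.sh u) (e'.sh u) := by
  induction h with
  | refl => exact Relation.ReflTransGen.refl
  | tail _ h2 ih => exact Relation.ReflTransGen.tail ih (h2.sub h0 hm h1)

theorem Ch.shorten {l m : ℝ} {e e' : Pos H Q} (h : Ch x S ρ π l e e') (hm : 0 ≤ m) (h1 : m ≤ l) :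
    Ch x S ρ π m e e' := by
  have := h.sub (u := 0) le_rfl hm (by linarith)
  rwa [Pos.sh_zero, Pos.sh_zero] at this

theorem Ch.exists_W {l : ℝ} {e e' : Pos H Q} (h : Ch x S ρ π l e e') (hs : e.s ∈ S) (hl : 0 ≤ l)
    (h0 : 0 ≤ e.b) (h1 : e.b + l ≤ len x e.s) :
    e'.s ∈ S ∧ ∃ k, W x k e.s e.b e'.s e'.b l ∧ e'.q = π k * e.q := by
  induction h with
  | refl => exact ⟨hs, 1, W.refl hl h0 h1, by simp⟩
  | tail _ h2 ih =>
    obtain ⟨-, k, hw, hq⟩ := ih
    obtain ⟨-, h3, k', -, hw', hq'⟩ := h2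
    exact ⟨h3, k' * k, hw.trans hw', by rw [hq', hq, map_mul, mul_assoc]⟩

theorem Om.ch {r : ℝ} {e e' : Pos H Q} (he : e ∈ Om x S ρ π r) (h : Ch x S ρ π r e e') :
    e' ∈ Om x S ρ π r := by
  obtain ⟨e0, h0, h1⟩ := he; exact ⟨e0, h0, h1.trans h⟩

theorem Om.of_om0 {r : ℝ} {e : Pos H Q} (he : e ∈ Om0 x S ρ Q r) : e ∈ Om x S ρ π r :=
  ⟨e, he, Relation.ReflTransGen.refl⟩

theorem Om.range {r : ℝ} (hr : 0 ≤ r) {e : Pos H Q} (he : e ∈ Om x S ρ π r) :
    e.s ∈ S ∧ 0 ≤ e.b ∧ e.b + r ≤ len x e.s := by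
  obtain ⟨e0, ⟨h1, h2, h3, -⟩, h⟩ := he
  obtain ⟨h4, k, hw, -⟩ := h.exists_W h1 hr h2 h3
  exact ⟨h4, hw.2.2.2.1, hw.2.2.2.2.1⟩

theorem Om0.rv (hS : ∀ s ∈ S, s⁻¹ ∈ S) {r : ℝ} {e : Pos H Q} (he : e ∈ Om0 x S ρ Q r) :
    e.rv x π r ∈ Om0 x S ρ Q r := by
  obtain ⟨h1, h2, h3, h4⟩ := he
  refine ⟨hS _ h1, by simp only [Pos.rv]; linarith, by simp only [Pos.rv, len_inv]; linarith, ?_⟩
  rcases h4 with h4 | h4
  · right; have := sing_rev h4
    simp only [Pos.rv]; convert this using 1; ring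
  · left; have := sing_rev h4
    simp only [Pos.rv]; convert this using 1; ring

theorem Om.rv (hS : ∀ s ∈ S, s⁻¹ ∈ S) {r : ℝ} {e : Pos H Q} (he : e ∈ Om x S ρ π r) :
    e.rv x π r ∈ Om x S ρ π r := by
  obtain ⟨e0, h0, h1⟩ := he; exact ⟨_, Om0.rv hS h0, h1.rv hS⟩

end Pool.Agent.MP_e97151_al

end

-- part MP_e97151_al.CC1
section

/-! The finite graph of marked windows. -/

set_option autoImplicit false
set_option linter.unusedSectionVars false

namespace Pool.Agent.MP_e97151_al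

variable {H Y Q : Type} [Group H] [MetricSpace Y] [MulAction H Y] [IsIsometricSMul H Y] [RT Y]
  [Group Q]
variable {x : Y} {S : Finset H} {ρ : ℕ} {π : H →* Q} {r : ℝ}

theorem cc1_finite_pos [Finite Q] {T : Set (H × ℝ)} (hT : T.Finite) :
    {e : Pos H Q | (e.s, e.b) ∈ T}.Finite := by
  refine ((hT.prod (Set.finite_univ (α := Q))).image
    (fun p : (H × ℝ) × Q => (⟨p.1.1, p.1.2, p.2⟩ : Pos H Q))).subset ?_
  intro e he
  exact ⟨((e.s, e.b), e.q), ⟨he, Set.mem_univ _⟩, rfl⟩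

theorem cc1_finite_singpairs (x : Y) (S : Finset H) (ρ : ℕ) :
    {p : H × ℝ | p.1 ∈ S ∧ p.2 ∈ Sing x S ρ p.1}.Finite := by
  refine (S.finite_toSet.biUnion
    (fun s _ => (Set.finite_singleton s).prod (finite_sing x S ρ s))).subset ?_
  rintro ⟨s, t⟩ ⟨h1, h2⟩
  simp only [Set.mem_iUnion]
  exact ⟨s, h1, rfl, h2⟩

theorem cc1_finite_om0 [Finite Q] (x : Y) (S : Finset H) (ρ : ℕ) (r : ℝ) :
    (Om0 x S ρ Q r).Finite := by
  have h1 := cc1_finite_singpairs x S ρ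
  refine (cc1_finite_pos (Q := Q) (h1.union (h1.image (fun p => (p.1, p.2 - r))))).subset ?_
  rintro e ⟨hs, -, -, h | h⟩
  · exact Or.inl ⟨hs, h⟩
  · exact Or.inr ⟨(e.s, e.b + r), ⟨hs, h⟩, by simp⟩

theorem cc1_sh_inj (e : Pos H Q) : Function.Injective e.sh := by
  intro u v h
  have := congrArg Pos.b h
  simpa [Pos.sh] using this

/-- HINT. `Om0` is finite (`finite_sing`), use `Ch.exists_W` and `finite_occ`. -/
theorem finite_om [Finite Q] (hy : Hyp x S) (hr : 0 < r) : (Om x S ρ π r).Finite := by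
  refine ((cc1_finite_om0 (Q := Q) x S ρ r).biUnion
    (fun e0 _ => cc1_finite_pos (Q := Q) (finite_occ hy e0.s e0.b r hr))).subset ?_
  rintro e ⟨e0, h0, hc⟩
  simp only [Set.mem_iUnion]
  obtain ⟨hs, k, hw, -⟩ := hc.exists_W h0.1 hr.le h0.2.1 h0.2.2.1
  exact ⟨e0, h0, hs, k, hw⟩

theorem cc1_finite_sh [Finite Q] (hy : Hyp x S) (hr : 0 < r) (e : Pos H Q) :
    {u : ℝ | e.sh u ∈ Om x S ρ π r}.Finite :=
  (finite_om hy hr).preimage (cc1_sh_inj e).injOn

/-- HINT. There are finitely many marked triples `(s,t,q)`. For each pair such that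
`∃ a b > 0, Ch (a + b) ⟨s, t-a, q⟩ ⟨s', t'-a, q'⟩` fix witnesses; take `r0` below all of them and below all gaps of singular points; any `r ∈ (0,r0)` has `sep` and `stab`
(`Ch.sub`). Choose `r` outside the countable set of all `dist (ga s z) (h • ga s z)`, `z ∈ Sing s`: a symmetric `e ∈ Om` gives a symmetric `e0 ∈ Om0` (`Ch.rv`, `Ch.symm`), and by
`Ch.exists_W`, `ga_inv` the element `s k` exchanges `ga s b` and `ga s (b + r)`. -/
theorem exists_goodR [Finite Q] (hy : Hyp x S) (ρ : ℕ) (π : H →* Q) : ∃ r, GoodR x S ρ π r := by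
  have hP := cc1_finite_singpairs x S ρ
  have hM := cc1_finite_pos (Q := Q) hP
  have e1 : ∀ᶠ r in nhdsWithin (0 : ℝ) (Set.Ioi 0), ∀ p ∈ ({p : H × ℝ | p.1 ∈ S ∧ p.2 ∈ Sing x S ρ p.1} ×ˢ
      {p : H × ℝ | p.1 ∈ S ∧ p.2 ∈ Sing x S ρ p.1}), p.1.2 < p.2.2 → p.1.2 + r < p.2.2 := by
    rw [Filter.eventually_all_finite (hP.prod hP)]
    intro p _
    by_cases h : p.1.2 < p.2.2
    · filter_upwards [Ioo_mem_nhdsGT (show (0 : ℝ) < p.2.2 - p.1.2 by linarith)] with r hr _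
      linarith [hr.2]
    · exact Filter.Eventually.of_forall fun r h' => absurd h' h
  have e2 : ∀ᶠ r in nhdsWithin (0 : ℝ) (Set.Ioi 0),
      ∀ p ∈ ({e : Pos H Q | (e.s, e.b) ∈ {p : H × ℝ | p.1 ∈ S ∧ p.2 ∈ Sing x S ρ p.1}} ×ˢ
      {e : Pos H Q | (e.s, e.b) ∈ {p : H × ℝ | p.1 ∈ S ∧ p.2 ∈ Sing x S ρ p.1}}),
      (∃ a b : ℝ, 0 < a ∧ 0 < b ∧ Ch x S ρ π (a + b) (p.1.sh (-a)) (p.2.sh (-a))) →
        Ch x S ρ π (r + r) (p.1.sh (-r)) (p.2.sh (-r)) := by
    rw [Filter.eventually_all_finite (hM.prod hM)]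
    intro p _
    by_cases h : ∃ a b : ℝ, 0 < a ∧ 0 < b ∧ Ch x S ρ π (a + b) (p.1.sh (-a)) (p.2.sh (-a))
    · obtain ⟨a, b, ha, hb, hc⟩ := h
      filter_upwards [Ioo_mem_nhdsGT (lt_min ha hb)] with r hr _
      have h1 := lt_of_lt_of_le hr.2 (min_le_left _ _)
      have h2 := lt_of_lt_of_le hr.2 (min_le_right _ _)
      have := hc.sub (u := a - r) (m := r + r) (by linarith) (by linarith [hr.1]) (by linarith)
      rwa [Pos.sh_sh, Pos.sh_sh, show -a + (a - r) = -r by ring] at this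
    · exact Filter.Eventually.of_forall fun r h' => absurd h' h
  obtain ⟨δ, hδ, hsub⟩ := mem_nhdsGT_iff_exists_Ioo_subset.mp (e1.and e2)
  have : Countable H := countable_of_gen hy.gen
  have hC : ((fun p : (H × ℝ) × H => dist (ga x p.1.1 p.1.2) (p.2 • ga x p.1.1 p.1.2)) ''
      ({p : H × ℝ | p.1 ∈ S ∧ p.2 ∈ Sing x S ρ p.1} ×ˢ Set.univ)).Countable :=
    (hP.countable.prod Set.countable_univ).image _
  have hex : ∃ r ∈ Set.Ioo (0 : ℝ) δ, r ∉ ((fun p : (H × ℝ) × H =>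
      dist (ga x p.1.1 p.1.2) (p.2 • ga x p.1.1 p.1.2)) ''
      ({p : H × ℝ | p.1 ∈ S ∧ p.2 ∈ Sing x S ρ p.1} ×ˢ Set.univ)) := by
    by_contra hcon
    push Not at hcon
    have h1 : (Set.Ioo (0 : ℝ) δ).Countable := hC.mono hcon
    have h2 := h1.measure_zero MeasureTheory.volume
    rw [Real.volume_Ioo] at h2
    have h3 : (0 : ℝ) < δ := hδ
    simp at h2
    linarith
  obtain ⟨r, hr, hrC⟩ := hex
  obtain ⟨g1, g2⟩ := hsub hr
  refine ⟨r, hr.1, ?_, ?_, ?_⟩
  · intro s hs z hz z' hz' hlt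
    exact g1 ((s, z), (s, z')) ⟨⟨hs, hz⟩, ⟨hs, hz'⟩⟩ hlt
  · intro s hs t ht s' hs' t' ht' q q' ε hε hc
    have a1 : ∀ (s : H) (t : ℝ) (q : Q), (⟨s, t - r, q⟩ : Pos H Q) = (⟨s, t, q⟩ : Pos H Q).sh (-r) := by
      intro s t q; ext <;> simp [Pos.sh]; ring
    rw [a1, a1] at hc ⊢
    exact g2 (⟨s, t, q⟩, ⟨s', t', q'⟩) ⟨⟨hs, ht⟩, ⟨hs', ht'⟩⟩ ⟨r, ε, hr.1, hε, hc⟩
  · rintro e ⟨e0, h0, hc0⟩ hc
    have hc1 : Ch x S ρ π r e0 (e0.rv x π r) :=
      (hc0.trans hc).trans ((hc0.rv hy.symm).symm hy.symm)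
    obtain ⟨hs, hb0, hb1, hsing⟩ := h0
    obtain ⟨-, k, hw, -⟩ := hc1.exists_W hs hr.1.le hb0 hb1
    obtain ⟨-, -, -, -, -, w1, w2⟩ := hw
    simp only [Pos.rv] at w1 w2
    rw [show len x e0.s - r - e0.b = len x e0.s - (e0.b + r) by ring, ga_inv] at w1
    rw [show len x e0.s - r - e0.b + r = len x e0.s - e0.b by ring, ga_inv] at w2
    have v1 : (e0.s * k) • ga x e0.s e0.b = ga x e0.s (e0.b + r) := by
      rw [mul_smul, w1, smul_inv_smul]
    have v2 : (e0.s * k) • ga x e0.s (e0.b + r) = ga x e0.s e0.b := by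
      rw [mul_smul, w2, smul_inv_smul]
    have hd : dist (ga x e0.s e0.b) (ga x e0.s (e0.b + r)) = r := by
      rw [dist_ga hb0 (by linarith [hr.1]) (by linarith [hr.1]) hb1,
        abs_of_nonpos (by linarith [hr.1])]
      ring
    apply hrC
    rcases hsing with h | h
    · exact ⟨((e0.s, e0.b), e0.s * k), ⟨⟨hs, h⟩, Set.mem_univ _⟩, by simp only; rw [v1, hd]⟩
    · exact ⟨((e0.s, e0.b + r), e0.s * k), ⟨⟨hs, h⟩, Set.mem_univ _⟩, by
        simp only; rw [v2, dist_comm, hd]⟩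

/-- HINT. The set is finite and contains `len - r - b` (the last window is in `Om0`). -/
theorem gap_spec [Finite Q] (hy : Hyp x S) (hr : 0 < r) {e : Pos H Q} (he : e ∈ Om' x S ρ π r) :
    0 < gap x S ρ π r e ∧ nxt x S ρ π r e ∈ Om x S ρ π r ∧
      ∀ u, 0 < u → e.sh u ∈ Om x S ρ π r → gap x S ρ π r e ≤ u := by
  have hfin : {u : ℝ | 0 < u ∧ e.sh u ∈ Om x S ρ π r}.Finite :=
    (cc1_finite_sh hy hr e).subset fun u hu => hu.2
  obtain ⟨hs, hb0, -⟩ := Om.range hr.le he.1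
  have hlt := he.2
  have hne : {u : ℝ | 0 < u ∧ e.sh u ∈ Om x S ρ π r}.Nonempty := by
    refine ⟨len x e.s - r - e.b, by linarith, Om.of_om0 ⟨hs, ?_, ?_, Or.inr ?_⟩⟩
    · simp only [Pos.sh]; linarith
    · simp only [Pos.sh]; linarith
    · simp only [Pos.sh]
      rw [show e.b + (len x e.s - r - e.b) + r = len x e.s by ring]
      exact len_mem_sing x S ρ e.s
  have hmem := hne.csInf_mem hfin
  exact ⟨hmem.1, hmem.2, fun u h1 h2 => csInf_le hfin.bddBelow ⟨h1, h2⟩⟩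

theorem cc1_step [Finite Q] (hy : Hyp x S) (hr : 0 < r) {e e' : Pos H Q} (he : e ∈ Om' x S ρ π r)
    {ε : ℝ} (hε : 0 < ε) (h : Mv x S ρ π (r + ε) e e') :
    e' ∈ Om' x S ρ π r ∧ gap x S ρ π r e' ≤ gap x S ρ π r e ∧
      Mv x S ρ π (r + gap x S ρ π r e) e e' := by
  have hc : Ch x S ρ π (r + ε) e e' := Relation.ReflTransGen.single h
  obtain ⟨hs, hs', k, hb, hw, hq⟩ := h
  have he' : e' ∈ Om' x S ρ π r :=
    ⟨Om.ch he.1 (hc.shorten hr.le (by linarith)), by linarith [hw.2.2.2.2.1]⟩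
  obtain ⟨z, hz1, hz2, -, hz4⟩ := band_end hy.symm hs hs' hb (by linarith) hw
  obtain ⟨g0, g1, g2⟩ := gap_spec hy hr he
  have hb0 : 0 ≤ e.b := hw.2.1
  have hle : gap x S ρ π r e ≤ z - r - e.b := by
    refine g2 _ (by linarith) (Om.of_om0 ⟨hs, ?_, ?_, Or.inr ?_⟩)
    · simp only [Pos.sh]; linarith
    · simp only [Pos.sh]; linarith [(sing_bounds hz2).2]
    · simp only [Pos.sh]
      rw [show e.b + (z - r - e.b) + r = z by ring]
      exact hz2
  have hmv : Mv x S ρ π (r + gap x S ρ π r e) e e' :=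
    ⟨hs, hs', k, hb, hz4.sub' le_rfl (by linarith) (by linarith) rfl, hq⟩
  refine ⟨he', ?_, hmv⟩
  refine (gap_spec hy hr he').2.2 _ g0 (Om.ch g1 (Relation.ReflTransGen.single ?_))
  exact hmv.sub g0.le hr.le (by linarith)

/-- HINT. One step: `band_end` gives a singular `z ≥ b + r + ε`, the window ending at `z` is in `Om0`, so `gap e ≤ z - r - b` and the move works for the length
`r + gap e`; then `e'.sh (gap e) ∈ Om`, so `gap e' ≤ gap e`; symmetric. Induction along the chain. -/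
theorem ext_lemma [Finite Q] (hy : Hyp x S) (hr : 0 < r) {e e' : Pos H Q} (he : e ∈ Om' x S ρ π r)
    {ε : ℝ} (hε : 0 < ε) (h : Ch x S ρ π (r + ε) e e') :
    e' ∈ Om' x S ρ π r ∧ EE x S ρ π r e e' := by
  induction h with
  | refl => exact ⟨he, rfl, Relation.ReflTransGen.refl⟩
  | tail _ h2 ih =>
    obtain ⟨hb, hg, hc⟩ := ih
    obtain ⟨a1, a2, a3⟩ := cc1_step hy hr hb hε h2
    obtain ⟨-, a4, -⟩ := cc1_step hy hr a1 hε (h2.symm hy.symm)
    exact ⟨a1, hg.trans (le_antisymm a4 a2), Relation.ReflTransGen.tail hc (hg ▸ a3)⟩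

theorem EE.refl (e : Pos H Q) : EE x S ρ π r e e := ⟨rfl, Relation.ReflTransGen.refl⟩

theorem EE.symm (hS : ∀ s ∈ S, s⁻¹ ∈ S) {e e' : Pos H Q} (h : EE x S ρ π r e e') :
    EE x S ρ π r e' e := ⟨h.1.symm, h.1 ▸ h.2.symm hS⟩

theorem EE.trans {e e' e'' : Pos H Q} (h : EE x S ρ π r e e') (h' : EE x S ρ π r e' e'') :
    EE x S ρ π r e e'' := ⟨h.1.trans h'.1, h.2.trans (h.1 ▸ h'.2)⟩

theorem rve_spec [Finite Q] (hy : Hyp x S) (hr : 0 < r) {e : Pos H Q} (he : e ∈ Om' x S ρ π r) :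
    rve x S ρ π r e ∈ Om' x S ρ π r ∧ gap x S ρ π r (rve x S ρ π r e) = gap x S ρ π r e ∧
      nxt x S ρ π r (rve x S ρ π r e) = e.rv x π r ∧ rve x S ρ π r (rve x S ρ π r e) = e := by
  obtain ⟨g0, g1, g2⟩ := gap_spec hy hr he
  obtain ⟨hs, hb0, -⟩ := Om.range hr.le he.1
  have hrv : rve x S ρ π r e = e.rv x π (r + gap x S ρ π r e) := Pos.rv_sh _ _ _
  have h1 : rve x S ρ π r e ∈ Om' x S ρ π r := by
    refine ⟨Om.rv hy.symm g1, ?_⟩
    rw [hrv]; simp only [Pos.rv, len_inv]; linarith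
  obtain ⟨k0, k1, k2⟩ := gap_spec hy hr h1
  have h2 : (rve x S ρ π r e).sh (gap x S ρ π r e) = e.rv x π r := by rw [hrv, Pos.sh_rv]
  have h3 : gap x S ρ π r (rve x S ρ π r e) = gap x S ρ π r e := by
    apply le_antisymm (k2 _ g0 (h2 ▸ Om.rv hy.symm he.1))
    by_contra hlt
    push Not at hlt
    have h4 := Om.rv hy.symm k1
    have h5 : (nxt x S ρ π r (rve x S ρ π r e)).rv x π r =
        e.sh (gap x S ρ π r e - gap x S ρ π r (rve x S ρ π r e)) := by
      unfold nxt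
      generalize gap x S ρ π r (rve x S ρ π r e) = g'
      rw [hrv]
      ext <;> simp [Pos.rv, Pos.sh, len_inv]
      ring
    rw [h5] at h4
    have := g2 _ (by linarith) h4
    linarith
  have h6 : nxt x S ρ π r (rve x S ρ π r e) = e.rv x π r := by
    unfold nxt; rw [h3, h2]
  refine ⟨h1, h3, h6, ?_⟩
  show (nxt x S ρ π r (rve x S ρ π r e)).rv x π r = e
  rw [h6, Pos.rv_rv]

theorem EE.rve [Finite Q] (hy : Hyp x S) (hr : 0 < r) {e e' : Pos H Q} (he : e ∈ Om' x S ρ π r)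
    (h : EE x S ρ π r e e') : EE x S ρ π r (rve x S ρ π r e) (rve x S ρ π r e') := by
  have he' := (ext_lemma hy hr he (gap_spec hy hr he).1 h.2).1
  have a1 := (rve_spec hy hr he).2.1
  have a2 := (rve_spec hy hr he').2.1
  refine ⟨by rw [a1, a2, h.1], ?_⟩
  have b1 : Pool.Agent.MP_e97151_al.rve x S ρ π r e = e.rv x π (r + gap x S ρ π r e) :=
    Pos.rv_sh _ _ _
  have b2 : Pool.Agent.MP_e97151_al.rve x S ρ π r e' = e'.rv x π (r + gap x S ρ π r e') :=
    Pos.rv_sh _ _ _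
  rw [a1, b1, b2, ← h.1]
  exact h.2.rv hy.symm

theorem EE.src [Finite Q] (hy : Hyp x S) (hr : 0 < r) {e e' : Pos H Q} (he : e ∈ Om' x S ρ π r)
    (h : EE x S ρ π r e e') :
    Ch x S ρ π r e e' ∧ Ch x S ρ π r (nxt x S ρ π r e) (nxt x S ρ π r e') := by
  have g0 := (gap_spec hy hr he).1
  refine ⟨h.2.shorten hr.le (by linarith), ?_⟩
  unfold nxt
  rw [← h.1]
  exact h.2.sub g0.le hr.le (by linarith)

theorem FF_zero (f : Pos H Q → ZMod 2) (e : Pos H Q) : FF x S ρ π r f e 0 = 0 := by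
  unfold FF
  have : {u : ℝ | 0 ≤ u ∧ u < 0 ∧ e.sh u ∈ Om x S ρ π r} = ∅ := by
    ext u
    simp only [Set.mem_ofPred_eq, Set.mem_empty_iff_false, iff_false]
    rintro ⟨h1, h2, -⟩
    linarith
  rw [this, finsum_mem_empty]

theorem cc1_finite_idx [Finite Q] (hy : Hyp x S) (hr : 0 < r) (e : Pos H Q) (m : ℝ) :
    {u : ℝ | 0 ≤ u ∧ u < m ∧ e.sh u ∈ Om x S ρ π r}.Finite :=
  (cc1_finite_sh hy hr e).subset fun _ hu => hu.2.2

theorem FF_add_fun [Finite Q] (hy : Hyp x S) (hr : 0 < r) (f f' : Pos H Q → ZMod 2) (e : Pos H Q)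
    (m : ℝ) : FF x S ρ π r (f + f') e m = FF x S ρ π r f e m + FF x S ρ π r f' e m := by
  unfold FF
  rw [← finsum_mem_add_distrib (cc1_finite_idx hy hr e m)]
  rfl

theorem FF_add [Finite Q] (hy : Hyp x S) (hr : 0 < r) (f : Pos H Q → ZMod 2) (e : Pos H Q)
    {m n : ℝ} (hm : 0 ≤ m) (hn : 0 ≤ n) :
    FF x S ρ π r f e (m + n) = FF x S ρ π r f e m + FF x S ρ π r f (e.sh m) n := by
  unfold FF
  have h1 : {u : ℝ | 0 ≤ u ∧ u < m + n ∧ e.sh u ∈ Om x S ρ π r} =
      {u : ℝ | 0 ≤ u ∧ u < m ∧ e.sh u ∈ Om x S ρ π r} ∪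
        (fun u => m + u) '' {u : ℝ | 0 ≤ u ∧ u < n ∧ (e.sh m).sh u ∈ Om x S ρ π r} := by
    ext u
    simp only [Set.mem_ofPred_eq, Set.mem_union, Set.mem_image]
    constructor
    · rintro ⟨a1, a2, a3⟩
      by_cases h : u < m
      · exact Or.inl ⟨a1, h, a3⟩
      · refine Or.inr ⟨u - m, ⟨by linarith, by linarith, ?_⟩, by ring⟩
        rwa [Pos.sh_sh, show m + (u - m) = u by ring]
    · rintro (⟨a1, a2, a3⟩ | ⟨v, ⟨a1, a2, a3⟩, rfl⟩)
      · exact ⟨a1, by linarith, a3⟩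
      · exact ⟨by linarith, by linarith, by rwa [Pos.sh_sh] at a3⟩
  rw [h1, finsum_mem_union ?_ (cc1_finite_idx hy hr e m) ((cc1_finite_idx hy hr _ n).image _),
    finsum_mem_image (add_right_injective m).injOn]
  · simp only [Pos.sh_sh]
  · rw [Set.disjoint_left]
    rintro u ⟨-, a2, -⟩ ⟨v, ⟨a1, -, -⟩, rfl⟩
    simp only at a2
    linarith

theorem FF_gap [Finite Q] (hy : Hyp x S) (hr : 0 < r) (f : Pos H Q → ZMod 2) {e : Pos H Q}
    (he : e ∈ Om' x S ρ π r) : FF x S ρ π r f e (gap x S ρ π r e) = f e := by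
  unfold FF
  obtain ⟨g0, -, g2⟩ := gap_spec hy hr he
  have : {u : ℝ | 0 ≤ u ∧ u < gap x S ρ π r e ∧ e.sh u ∈ Om x S ρ π r} = {0} := by
    ext u
    simp only [Set.mem_ofPred_eq, Set.mem_singleton_iff]
    constructor
    · rintro ⟨a1, a2, a3⟩
      by_contra hne
      have := g2 u (lt_of_le_of_ne a1 (Ne.symm hne)) a3
      linarith
    · rintro rfl
      exact ⟨le_rfl, g0, by rw [Pos.sh_zero]; exact he.1⟩
  rw [this, finsum_mem_singleton, Pos.sh_zero]

/-- HINT. One move: the index sets agree (`Mv.sub`, `Om.ch`) and the terms agree by `ext_lemma` with `ε = m - u`. -/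
theorem FF_ch [Finite Q] (hy : Hyp x S) (hr : 0 < r) (f : Pos H Q → ZMod 2)
    (hf : ∀ e ∈ Om' x S ρ π r, ∀ e', EE x S ρ π r e e' → f e' = f e) {e e' : Pos H Q} {m : ℝ}
    (hm : 0 ≤ m) (h : Ch x S ρ π (r + m) e e') : FF x S ρ π r f e m = FF x S ρ π r f e' m := by
  rcases Relation.ReflTransGen.cases_head h with rfl | ⟨c, hc, -⟩
  · rfl
  obtain ⟨-, -, k, -, hw, -⟩ := hc
  have hlen : e.b + (r + m) ≤ len x e.s := hw.2.2.1
  unfold FF
  refine finsum_mem_congr ?_ ?_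
  · ext u
    simp only [Set.mem_ofPred_eq]
    refine and_congr_right fun a1 => and_congr_right fun a2 => ?_
    have hu := h.sub a1 hr.le (by linarith)
    exact ⟨fun a3 => Om.ch a3 hu, fun a3 => Om.ch a3 (hu.symm hy.symm)⟩
  · rintro u ⟨a1, a2, a3⟩
    have hu := h.sub a1 hr.le (by linarith)
    have b1 : e.sh u ∈ Om' x S ρ π r :=
      ⟨Om.ch a3 (hu.symm hy.symm), by simp only [Pos.sh]; linarith⟩
    have hv := h.sub (m := r + (m - u)) a1 (by linarith) (by linarith)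
    exact (hf _ b1 _ (ext_lemma hy hr b1 (by linarith) hv).2).symm

theorem cc1_rv_map [Finite Q] (hy : Hyp x S) (hr : 0 < r) {e : Pos H Q} {m : ℝ}
    (he' : e.sh m ∈ Om x S ρ π r) {u : ℝ} (h0 : 0 ≤ u) (h1 : u < m) (h2 : e.sh u ∈ Om x S ρ π r) :
    e.sh u ∈ Om' x S ρ π r ∧ 0 ≤ m - u - gap x S ρ π r (e.sh u) ∧
      m - u - gap x S ρ π r (e.sh u) < m ∧
      ((e.sh m).rv x π r).sh (m - u - gap x S ρ π r (e.sh u)) = rve x S ρ π r (e.sh u) := by
  have hlen := (Om.range hr.le he').2.2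
  have b1 : e.sh u ∈ Om' x S ρ π r := ⟨h2, by simp only [Pos.sh] at hlen ⊢; linarith⟩
  obtain ⟨g0, -, g2⟩ := gap_spec hy hr b1
  have := g2 (m - u) (by linarith) (by rwa [Pos.sh_sh, show u + (m - u) = m by ring])
  refine ⟨b1, by linarith, by linarith, ?_⟩
  unfold rve nxt
  generalize gap x S ρ π r (e.sh u) = g
  ext <;> simp [Pos.rv, Pos.sh]
  ring

/-- HINT. The bijection `u ↦ m - u - gap (e.sh u)` (given by `rve`); or induction on the number of marked windows. -/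
theorem FF_rv [Finite Q] (hy : Hyp x S) (hr : 0 < r) (f : Pos H Q → ZMod 2)
    (hf : ∀ e ∈ Om' x S ρ π r, f (rve x S ρ π r e) = f e) {e : Pos H Q} {m : ℝ} (hm : 0 ≤ m)
    (he : e ∈ Om x S ρ π r) (he' : e.sh m ∈ Om x S ρ π r) :
    FF x S ρ π r f e m = FF x S ρ π r f ((e.sh m).rv x π r) m := by
  have c1 : ((e.sh m).rv x π r).sh m = e.rv x π r := by rw [Pos.rv_sh, Pos.sh_rv]
  have c2 : ((e.sh m).rv x π r).sh m ∈ Om x S ρ π r := c1 ▸ Om.rv hy.symm he
  have c3 : (((e.sh m).rv x π r).sh m).rv x π r = e := by rw [c1, Pos.rv_rv]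
  unfold FF
  refine finsum_mem_eq_of_bijOn (fun u => m - u - gap x S ρ π r (e.sh u)) ?_ ?_
  · refine Set.InvOn.bijOn (f' := fun v => m - v - gap x S ρ π r (((e.sh m).rv x π r).sh v))
      ⟨?_, ?_⟩ ?_ ?_
    · rintro u ⟨a1, a2, a3⟩
      obtain ⟨b1, -, -, b4⟩ := cc1_rv_map hy hr he' a1 a2 a3
      simp only
      rw [b4, (rve_spec hy hr b1).2.1]
      ring
    · rintro v ⟨a1, a2, a3⟩
      obtain ⟨b1, -, -, b4⟩ := cc1_rv_map hy hr c2 a1 a2 a3
      rw [c3] at b4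
      simp only
      rw [b4, (rve_spec hy hr b1).2.1]
      ring
    · rintro u ⟨a1, a2, a3⟩
      obtain ⟨b1, b2, b3, b4⟩ := cc1_rv_map hy hr he' a1 a2 a3
      exact ⟨b2, b3, b4 ▸ (rve_spec hy hr b1).1.1⟩
    · rintro v ⟨a1, a2, a3⟩
      obtain ⟨b1, b2, b3, b4⟩ := cc1_rv_map hy hr c2 a1 a2 a3
      rw [c3] at b4
      exact ⟨b2, b3, b4 ▸ (rve_spec hy hr b1).1.1⟩
  · rintro u ⟨a1, a2, a3⟩
    obtain ⟨b1, -, -, b4⟩ := cc1_rv_map hy hr he' a1 a2 a3
    rw [b4, hf _ b1]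

end Pool.Agent.MP_e97151_al

end

-- part MP_e97151_al.Level
section

/-! The level lemma: potentials along arcs that are compatible with bands kill short relators. -/

set_option autoImplicit false
set_option linter.unusedSectionVars false

namespace Pool.Agent.MP_e97151_al

variable {H Y : Type} [Group H] [MetricSpace Y] [MulAction H Y] [IsIsometricSMul H Y] [RT Y]

/-- a point between two vertices of a path lies on one of the arcs between them -/
theorem path_cover (p : ℕ → Y) (a b : ℕ) (hab : a < b) {y : Y} (h : Btw (p a) y (p b)) :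
    ∃ l, a ≤ l ∧ l < b ∧ Btw (p l) y (p (l + 1)) := by
  induction b with
  | zero => omega
  | succ b ih =>
    rcases Nat.lt_or_ge a b with h1 | h1
    · rcases h.split (p b) with h2 | h2
      · obtain ⟨l, e1, e2, e3⟩ := ih h1 h2
        exact ⟨l, e1, by omega, e3⟩
      · exact ⟨b, by omega, by omega, h2⟩
    · have e : a = b := by omega
      subst e
      exact ⟨a, le_rfl, by omega, h⟩

/-- HINT. Strong induction on `j - i`. First: `Btw (p a) y (p b)` with `a < b` implies `Btw (p l) y (p (l+1))` for some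
`a ≤ l < b` (`Btw.split`). For `i < j` let `m = med (p i) (p (i+1)) (p j)`; it lies on arc `i`, on arc `j`
(`Btw.btw_med` gives `Btw y m (p j)`), and on `[p (i+1), p j]`; if `j = i+1` then `m = p (i+1)`, otherwise `m` is on an arc `l` with
`i < l < j`. So `ξ i m = ξ j m`; propagate to `y`. -/
theorem tree_lemma {Γ : Type} (n : ℕ) (p : ℕ → Y) (B : Set Y) (ξ : ℕ → Y → Γ)
    (hB : ∀ i j, i < n → j < n → med (p i) (p (i + 1)) (p j) ∈ B)
    (hc : ∀ i, i + 1 < n → ξ i (p (i + 1)) = ξ (i + 1) (p (i + 1)))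
    (hp : ∀ i j, i < n → j < n → ∀ y ∈ B, ∀ y' ∈ B, Btw (p i) y (p (i + 1)) →
      Btw (p j) y (p (j + 1)) → Btw (p i) y' (p (i + 1)) → Btw (p j) y' (p (j + 1)) →
      ξ i y = ξ j y → ξ i y' = ξ j y') :
    ∀ i j, i < n → j < n → ∀ y ∈ B, Btw (p i) y (p (i + 1)) → Btw (p j) y (p (j + 1)) →
      ξ i y = ξ j y := by
  have key : ∀ d i j, i < j → j < n → j - i = d → ∀ y ∈ B, Btw (p i) y (p (i + 1)) →
      Btw (p j) y (p (j + 1)) → ξ i y = ξ j y := by
    intro d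
    induction d using Nat.strong_induction_on with
    | _ d ih =>
      intro i j hij hj hd y hy hi1 hj1
      have hi : i < n := by omega
      have hmB := hB i j hi hj
      have m1 := btw_med1 (p i) (p (i + 1)) (p j)
      have m2 := btw_med2 (p i) (p (i + 1)) (p j)
      have m3 : Btw (p j) (med (p i) (p (i + 1)) (p j)) (p (j + 1)) :=
        (hj1.trans_left (hi1.btw_med (p j)).symm).1
      refine hp i j hi hj _ hmB y hy m1 m3 hi1 hj1 ?_
      rcases Nat.lt_or_ge (i + 1) j with h | h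
      · obtain ⟨l, h1, h2, h3⟩ := path_cover p (i + 1) j h m2
        rw [ih (l - i) (by omega) i l (by omega) (by omega) rfl _ hmB m1 h3,
          ih (j - l) (by omega) l j h2 hj rfl _ hmB h3 m3]
      · have e : j = i + 1 := by omega
        subst e
        rw [m2.eq_of_self]
        exact hc i hj
  intro i j hi hj y hy hi1 hj1
  rcases lt_trichotomy i j with h | h | h
  · exact key _ i j h hj rfl y hy hi1 hj1
  · rw [h]
  · exact (key _ j i h hi rfl y hy hj1 hi1).symm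

variable {x : Y} {S : Finset H}

/-- `y` lies on the arc `g [x, s x]` and its coordinate there is singular -/
def OnS (x : Y) (S : Finset H) (ρ : ℕ) (g s : H) (y : Y) : Prop :=
  Btw (g • x) y ((g * s) • x) ∧ dist (g • x) y ∈ Sing x S ρ s

theorem dist_arc (x : Y) (g s : H) : dist (g • x) ((g * s) • x) = len x s := by
  rw [mul_smul, dist_smul]; rfl

theorem eq_ga_of_btw {g s : H} {y : Y} (h : Btw (g • x) y ((g * s) • x)) :
    y = g • ga x s (dist (g • x) y) := by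
  unfold ga
  rw [smul_geo, ← mul_smul]
  exact h.eq_geo

theorem dist_rev {g s : H} {y : Y} (h : Btw (g • x) y ((g * s) • x)) :
    dist ((g * s) • x) y = len x s - dist (g • x) y := by
  have := dist_arc x g s
  unfold Btw at h
  rw [dist_comm ((g * s) • x) y]; linarith

theorem OnS.rev {ρ : ℕ} {g s : H} {y : Y} (h : OnS x S ρ g s y) : OnS x S ρ (g * s) s⁻¹ y := by
  refine ⟨?_, ?_⟩
  · rw [mul_inv_cancel_right]; exact h.1.symm
  · rw [dist_rev h.1]; exact sing_rev h.2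

theorem onS_ga {ρ : ℕ} (g : H) {s : H} {t : ℝ} (ht : t ∈ Sing x S ρ s) :
    OnS x S ρ g s (g • ga x s t) ∧ dist (g • x) (g • ga x s t) = t := by
  have e : dist (g • x) (g • ga x s t) = t := by
    rw [dist_smul]; exact dist_x_ga (sing_bounds ht).1 (sing_bounds ht).2
  refine ⟨⟨?_, by rw [e]; exact ht⟩, e⟩
  rw [mul_smul]; exact (btw_ga x s t).smul g

theorem Band.rev_right {ρ : ℕ} {k s s' : H} (hb : Band S ρ k s s') :
    Band S ρ (s'⁻¹ * k) s s'⁻¹ := by
  rcases hb with hb | hb | hb | hb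
  · exact Or.inr (Or.inr (Or.inl (by simpa [mul_assoc] using hb)))
  · exact Or.inr (Or.inr (Or.inr (by simpa [mul_assoc] using hb)))
  · exact Or.inl hb
  · exact Or.inr (Or.inl hb)

/-- the increment of the potential along the arc `g [x, s x]` -/
noncomputable def Dl (x : Y) {Γ : Type} [Group Γ] (ι : H →* Γ) (C : H → ℝ → Γ) (g s : H)
    (y y' : Y) : Γ :=
  ι g * ((C s (dist (g • x) y))⁻¹ * C s (dist (g • x) y')) * (ι g)⁻¹

theorem dl_swap {Γ : Type} [Group Γ] (ι : H →* Γ) (C : H → ℝ → Γ) (g s : H) (y y' : Y) :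
    Dl x ι C g s y' y = (Dl x ι C g s y y')⁻¹ := by
  unfold Dl; group

theorem dl_rev {ρ : ℕ} {Γ : Type} [Group Γ] {ι : H →* Γ} {C : H → ℝ → Γ} {ψ : H → Γ}
    (hrev : ∀ s ∈ S, ∀ t ∈ Sing x S ρ s, C s⁻¹ (len x s - t) = (ψ s)⁻¹ * C s t * ι s)
    {g s : H} (hs : s ∈ S) {y y' : Y} (h : OnS x S ρ g s y) (h' : OnS x S ρ g s y') :
    Dl x ι C (g * s) s⁻¹ y y' = Dl x ι C g s y y' := by
  unfold Dl
  rw [dist_rev h.1, dist_rev h'.1, hrev s hs _ h.2, hrev s hs _ h'.2, map_mul]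
  group

/-- increments agree on two arcs forming a band -/
theorem dl_band (hS : ∀ s ∈ S, s⁻¹ ∈ S) {ρ : ℕ} {Γ : Type} [Group Γ] {ι : H →* Γ} {C : H → ℝ → Γ}
    {ψ : H → Γ}
    (hrev : ∀ s ∈ S, ∀ t ∈ Sing x S ρ s, C s⁻¹ (len x s - t) = (ψ s)⁻¹ * C s t * ι s)
    (hband : ∀ s ∈ S, ∀ s' ∈ S, ∀ k, Band S ρ k s s' → ∀ t t' l, 0 < l → W x k s t s' t' l →
      t ∈ Sing x S ρ s → t + l ∈ Sing x S ρ s → t' ∈ Sing x S ρ s' → t' + l ∈ Sing x S ρ s' →
      ι k * ((C s t)⁻¹ * C s (t + l)) = ((C s' t')⁻¹ * C s' (t' + l)) * ι k)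
    {g s g' s' : H} (hs : s ∈ S) (hs' : s' ∈ S) (hb : Band S ρ (g'⁻¹ * g) s s') {y y' : Y}
    (h1 : OnS x S ρ g s y) (h2 : OnS x S ρ g s y') (h1' : OnS x S ρ g' s' y)
    (h2' : OnS x S ρ g' s' y') : Dl x ι C g s y y' = Dl x ι C g' s' y y' := by
  have same : ∀ {g' s' : H} {y y' : Y}, s' ∈ S → Band S ρ (g'⁻¹ * g) s s' → OnS x S ρ g s y →
      OnS x S ρ g s y' → OnS x S ρ g' s' y → OnS x S ρ g' s' y' →
      dist (g • x) y < dist (g • x) y' → dist (g' • x) y ≤ dist (g' • x) y' →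
      Dl x ι C g s y y' = Dl x ι C g' s' y y' := by
    intro g' s' y y' hs' hb h1 h2 h1' h2' hlt hle
    have d1 := h1.1.dist_btw h2.1
    have d2 := h1'.1.dist_btw h2'.1
    rw [abs_of_nonpos (by linarith)] at d1 d2
    have a1 : dist (g • x) y + dist y y' = dist (g • x) y' := by linarith
    have a2 : dist (g' • x) y + dist y y' = dist (g' • x) y' := by linarith
    have hW : W x (g'⁻¹ * g) s (dist (g • x) y) s' (dist (g' • x) y) (dist y y') := by
      refine ⟨dist_nonneg, dist_nonneg, by rw [a1]; exact (sing_bounds h2.2).2, dist_nonneg,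
        by rw [a2]; exact (sing_bounds h2'.2).2, ?_, ?_⟩
      · rw [mul_smul, ← eq_ga_of_btw h1.1, inv_smul_eq_iff]; exact eq_ga_of_btw h1'.1
      · rw [a1, a2, mul_smul, ← eq_ga_of_btw h2.1, inv_smul_eq_iff]; exact eq_ga_of_btw h2'.1
    have e := hband s hs s' hs' _ hb _ _ _ (by linarith) hW h1.2 (by rw [a1]; exact h2.2) h1'.2
      (by rw [a2]; exact h2'.2)
    rw [a1, a2, map_mul, map_inv] at e
    unfold Dl
    generalize (C s (dist (g • x) y))⁻¹ * C s (dist (g • x) y') = A at e ⊢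
    generalize (C s' (dist (g' • x) y))⁻¹ * C s' (dist (g' • x) y') = A' at e ⊢
    have e2 : A' = (ι g')⁻¹ * ι g * A * ((ι g')⁻¹ * ι g)⁻¹ := by rw [e]; group
    rw [e2]; group
  have lt : ∀ {y y' : Y}, OnS x S ρ g s y → OnS x S ρ g s y' → OnS x S ρ g' s' y →
      OnS x S ρ g' s' y' → dist (g • x) y < dist (g • x) y' →
      Dl x ι C g s y y' = Dl x ι C g' s' y y' := by
    intro y y' h1 h2 h1' h2' hlt
    rcases le_total (dist (g' • x) y) (dist (g' • x) y') with h | h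
    · exact same hs' hb h1 h2 h1' h2' hlt h
    · rw [← dl_rev hrev hs' h1' h2']
      refine same (hS s' hs') ?_ h1 h2 h1'.rev h2'.rev hlt ?_
      · rw [mul_inv_rev, mul_assoc]; exact hb.rev_right
      · rw [dist_rev h1'.1, dist_rev h2'.1]; linarith
  rcases lt_trichotomy (dist (g • x) y) (dist (g • x) y') with h | h | h
  · exact lt h1 h2 h1' h2' h
  · have e : y = y' := h1.1.unique h2.1 h
    subst e
    unfold Dl; group
  · rw [dl_swap ι C g s y' y, dl_swap ι C g' s' y' y, lt h2 h1 h2' h1' h]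

/-- the potentials along a short edge path agree at common points with singular coordinates -/
theorem seq_level (hS : ∀ s ∈ S, s⁻¹ ∈ S) {ρ : ℕ} {Γ : Type} [Group Γ] {ι : H →* Γ} {C : H → ℝ → Γ}
    {ψ : H → Γ} (hψ : ∀ s ∈ S, ψ s = C s (len x s) * ι s) (h0 : ∀ s ∈ S, C s 0 = 1)
    (hrev : ∀ s ∈ S, ∀ t ∈ Sing x S ρ s, C s⁻¹ (len x s - t) = (ψ s)⁻¹ * C s t * ι s)
    (hband : ∀ s ∈ S, ∀ s' ∈ S, ∀ k, Band S ρ k s s' → ∀ t t' l, 0 < l → W x k s t s' t' l →
      t ∈ Sing x S ρ s → t + l ∈ Sing x S ρ s → t' ∈ Sing x S ρ s' → t' + l ∈ Sing x S ρ s' →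
      ι k * ((C s t)⁻¹ * C s (t + l)) = ((C s' t')⁻¹ * C s' (t' + l)) * ι k)
    (n : ℕ) (hn : n ≤ ρ + 2) (g s : ℕ → H) (u : ℕ → Γ) (hs : ∀ i, i < n → s i ∈ S)
    (hg : ∀ i, i < n → g (i + 1) = g i * s i) (hu : ∀ i, i < n → u (i + 1) = u i * ψ (s i))
    {i j : ℕ} (hi : i < n) (hj : j < n) {y : Y} (h1 : OnS x S ρ (g i) (s i) y)
    (h2 : OnS x S ρ (g j) (s j) y) :
    u i * C (s i) (dist (g i • x) y) * (ι (g i))⁻¹ =
      u j * C (s j) (dist (g j • x) y) * (ι (g j))⁻¹ := by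
  have ball : ∀ a d, a + d ≤ n → (g a)⁻¹ * g (a + d) ∈ Ball S d := by
    intro a d
    induction d with
    | zero => intro _; simpa using one_mem_ball S 0
    | succ d ih =>
      intro h
      rw [← add_assoc, hg _ (by omega), ← mul_assoc]
      exact mul_mem_ball (ih (by omega)) (gen_mem_ball (hs _ (by omega)))
  have ball1 : ∀ a b r, a ≤ b → b ≤ n → b - a ≤ r → (g a)⁻¹ * g b ∈ Ball S r := by
    intro a b r h1 h2 h3
    have := ball a (b - a) (by omega)
    rw [show a + (b - a) = b by omega] at this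
    exact ball_mono h3 this
  have ball2 : ∀ a b r, a ≤ b → b ≤ n → b - a ≤ r → (g b)⁻¹ * g a ∈ Ball S r := by
    intro a b r h1 h2 h3
    simpa using inv_mem_ball hS (ball1 a b r h1 h2 h3)
  have band : ∀ a b, a < n → b < n → Band S ρ ((g b)⁻¹ * g a) (s a) (s b) := by
    intro a b ha hb
    rcases lt_trichotomy a b with h | h | h
    · refine Or.inr (Or.inl ?_)
      rw [mul_assoc, ← hg a ha]
      exact ball2 (a + 1) b ρ (by omega) (by omega) (by omega)
    · subst h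
      left; simpa using one_mem_ball S ρ
    · refine Or.inr (Or.inr (Or.inl ?_))
      rw [← mul_assoc, ← mul_inv_rev, ← hg b hb]
      exact ball1 (b + 1) a ρ (by omega) (by omega) (by omega)
  have proj : ∀ a c, a < n → c ≤ n →
      gp (g a • x) (g (a + 1) • x) (g c • x) ∈ Sing x S ρ (s a) := by
    intro a c ha hc
    refine ⟨(g a)⁻¹ * g c, ?_, ?_⟩
    · rcases Nat.lt_or_ge a c with h | h
      · right
        rw [← mul_assoc, ← mul_inv_rev, ← hg a ha]
        exact ball1 (a + 1) c (ρ + 1) (by omega) hc (by omega)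
      · left
        exact ball2 c a (ρ + 1) h (by omega) (by omega)
    · rw [← gp_smul (g a) x, ← mul_smul, ← mul_smul, ← hg a ha, mul_inv_cancel_left]
  have hB : ∀ a b, a < n → b < n → ∀ c, c < n →
      Btw (g c • x) (med (g a • x) (g (a + 1) • x) (g b • x)) (g (c + 1) • x) →
      dist (g c • x) (med (g a • x) (g (a + 1) • x) (g b • x)) ∈ Sing x S ρ (s c) := by
    intro a b ha hb c hc h
    obtain ⟨k, hk, e⟩ := med_on h
    rw [e, dist_med]
    rcases hk with rfl | rfl | rfl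
    · exact proj c a hc (by omega)
    · exact proj c (a + 1) hc (by omega)
    · exact proj c b hc (by omega)
  have prop : ∀ a b, a < n → b < n → ∀ z z' : Y, OnS x S ρ (g a) (s a) z → OnS x S ρ (g b) (s b) z →
      OnS x S ρ (g a) (s a) z' → OnS x S ρ (g b) (s b) z' →
      u a * C (s a) (dist (g a • x) z) * (ι (g a))⁻¹ =
        u b * C (s b) (dist (g b • x) z) * (ι (g b))⁻¹ →
      u a * C (s a) (dist (g a • x) z') * (ι (g a))⁻¹ =
        u b * C (s b) (dist (g b • x) z') * (ι (g b))⁻¹ := by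
    intro a b ha hb z z' q1 q2 q3 q4 e
    have e1 := dl_band hS hrev hband (hs a ha) (hs b hb) (band a b ha hb) q1 q3 q2 q4
    have e2 : ∀ c, u c * C (s c) (dist (g c • x) z') * (ι (g c))⁻¹ =
        u c * C (s c) (dist (g c • x) z) * (ι (g c))⁻¹ * Dl x ι C (g c) (s c) z z' := by
      intro c; unfold Dl; group
    rw [e2 a, e2 b, e, e1]
  have tl := tree_lemma n (fun i => g i • x)
    {z | ∀ c, c < n → Btw (g c • x) z (g (c + 1) • x) → dist (g c • x) z ∈ Sing x S ρ (s c)}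
    (fun c z => u c * C (s c) (dist (g c • x) z) * (ι (g c))⁻¹)
    (fun a b ha hb => hB a b ha hb)
    (by
      intro a ha
      have ha' : a < n := by omega
      show u a * C (s a) (dist (g a • x) (g (a + 1) • x)) * (ι (g a))⁻¹ =
        u (a + 1) * C (s (a + 1)) (dist (g (a + 1) • x) (g (a + 1) • x)) * (ι (g (a + 1)))⁻¹
      rw [dist_self, h0 _ (hs _ ha), hu a ha', hg a ha', dist_arc, hψ _ (hs a ha'), map_mul]
      group)
    (by
      intro a b ha hb z hz z' hz' q1 q2 q3 q4 e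
      refine prop a b ha hb z z' ⟨?_, hz a ha q1⟩ ⟨?_, hz b hb q2⟩ ⟨?_, hz' a ha q3⟩
        ⟨?_, hz' b hb q4⟩ e
      · rw [← hg a ha]; exact q1
      · rw [← hg b hb]; exact q2
      · rw [← hg a ha]; exact q3
      · rw [← hg b hb]; exact q4)
  have b1 : Btw (g i • x) y (g (i + 1) • x) := by rw [hg i hi]; exact h1.1
  have b2 : Btw (g j • x) y (g (j + 1) • x) := by rw [hg j hj]; exact h2.1
  have m1 := btw_med1 (g i • x) (g (i + 1) • x) (g j • x)
  have m3 : Btw (g j • x) (med (g i • x) (g (i + 1) • x) (g j • x)) (g (j + 1) • x) :=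
    (b2.trans_left (b1.btw_med (g j • x)).symm).1
  have e := tl i j hi hj _ (hB i j hi hj) m1 m3
  refine prop i j hi hj _ y ⟨?_, hB i j hi hj i hi m1⟩ ⟨?_, hB i j hi hj j hj m3⟩ h1 h2 e
  · rw [← hg i hi]; exact m1
  · rw [← hg j hj]; exact m3

/-- the first and the last arc of a short word -/
theorem two_arcs (hS : ∀ s ∈ S, s⁻¹ ∈ S) {ρ : ℕ} {Γ : Type} [Group Γ] {ι : H →* Γ} {C : H → ℝ → Γ}
    {ψ : H → Γ} (hψ : ∀ s ∈ S, ψ s = C s (len x s) * ι s) (h0 : ∀ s ∈ S, C s 0 = 1)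
    (hrev : ∀ s ∈ S, ∀ t ∈ Sing x S ρ s, C s⁻¹ (len x s - t) = (ψ s)⁻¹ * C s t * ι s)
    (hband : ∀ s ∈ S, ∀ s' ∈ S, ∀ k, Band S ρ k s s' → ∀ t t' l, 0 < l → W x k s t s' t' l →
      t ∈ Sing x S ρ s → t + l ∈ Sing x S ρ s → t' ∈ Sing x S ρ s' → t' + l ∈ Sing x S ρ s' →
      ι k * ((C s t)⁻¹ * C s (t + l)) = ((C s' t')⁻¹ * C s' (t' + l)) * ι k)
    {a b : H} (ha : a ∈ S) (hb : b ∈ S) (κ : List H) (hκ : ∀ c ∈ κ, c ∈ S) (hl : κ.length ≤ ρ)
    {t t' : ℝ} (ht : t ∈ Sing x S ρ b) (ht' : t' ∈ Sing x S ρ a)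
    (e : (a * κ.prod) • ga x b t = ga x a t') :
    ψ a * (κ.map ψ).prod * C b t = C a t' * ι (a * κ.prod) := by
  set l : List H := a :: (κ ++ [b]) with hldef
  have hlen : l.length = κ.length + 2 := by simp [hldef]
  have hmem : ∀ c ∈ l, c ∈ S := by
    intro c hc
    simp only [hldef, List.mem_cons, List.mem_append, List.not_mem_nil, or_false] at hc
    rcases hc with rfl | hc | rfl
    · exact ha
    · exact hκ c hc
    · exact hb
  have htake : ∀ i, i < l.length → l.take (i + 1) = l.take i ++ [l.getD i 1] := by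
    intro i hi
    rw [List.take_add_one, List.getD_eq_getElem?_getD, List.getElem?_eq_getElem hi]
    simp
  have hlast : l.take (κ.length + 1) = a :: κ := by simp [hldef]
  have hlast' : l.getD (κ.length + 1) 1 = b := by simp [hldef]
  have hfirst : l.getD 0 1 = a := by simp [hldef]
  obtain ⟨o1, d1⟩ := onS_ga (1 : H) ht'
  obtain ⟨o2, d2⟩ := onS_ga (a * κ.prod) ht
  rw [one_smul _ (ga x a t')] at o1 d1
  rw [e] at o2 d2
  have := seq_level hS hψ h0 hrev hband l.length (by omega) (fun i => (l.take i).prod)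
    (fun i => l.getD i 1) (fun i => ((l.take i).map ψ).prod)
    (by
      intro i hi
      apply hmem
      rw [List.getD_eq_getElem?_getD, List.getElem?_eq_getElem hi]
      simp)
    (by intro i hi; simp only [htake i hi, List.prod_append, List.prod_singleton])
    (by
      intro i hi
      simp only [htake i hi, List.map_append, List.prod_append, List.map_singleton,
        List.prod_singleton])
    (i := 0) (j := κ.length + 1) (by omega) (by omega) (y := ga x a t')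
    (by simpa only [List.take_zero, List.prod_nil, hfirst] using o1)
    (by simpa only [hlast, hlast', List.prod_cons] using o2)
  simp only [List.take_zero, List.prod_nil, List.map_nil, hfirst, hlast, hlast', List.prod_cons,
    List.map_cons, d1, d2, map_one] at this
  rw [one_mul, inv_one, mul_one] at this
  rw [this]; group

/-- HINT. First `ψ s⁻¹ = (ψ s)⁻¹` (`hrev` at `t = 0`). For a word `w` and a letter `s` put
`Ξ w s y = (w.map ψ).prod * C s (dist (w.prod • x) y) * (ι w.prod)⁻¹`; by `hrev`, `Ξ (w ++ [s]) s⁻¹ y = Ξ w s y` when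
`y` is on the arc with singular coordinate. For a list `l` in `S` of length `n ≤ ρ + 2` let `p i = (l.take i).prod • x`,
`ξ i = Ξ (l.take i) l[i]`, `B` = points whose coordinate on every arc containing them is in `Sing`. Medians of
vertices are in `B` (`med_on`, and `(l.take i).prod⁻¹ * (l.take a).prod` is in the ball or in `l[i]` times the ball).
Propagation: two points on arcs `i`, `j` occur in the same or in the opposite order; in the second case replace
arc `j` by its reverse; the element `g_j⁻¹ g_i` (or `s_j⁻¹ g_j⁻¹ g_i`) is a `Band` because the word strictly between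
the two letters has length `≤ ρ`; apply `hband`. `tree_lemma` with `y = x = p 0 = p n` gives the first claim. For the second claim treat
the four cases of `Band` with the lists `s'⁻¹ :: κ ++ [s]`, `s'⁻¹ :: κ ++ [s⁻¹]`, `s' :: κ ++ [s]`,
`s' :: κ ++ [s⁻¹]` (and `w = κ`, `κ ++ [s⁻¹]`, `s' :: κ`, `s' :: κ ++ [s⁻¹]`): apply `tree_lemma` at a median of vertices lying on
both the first and the last arc (e.g. the left end of the overlap, see the proof of `band_end` / `band_start`, or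
`med` of three of the four end points), then move to `t` with `hband`. -/
theorem level (hS : ∀ s ∈ S, s⁻¹ ∈ S) (ρ : ℕ) {Γ : Type} [Group Γ] (ι : H →* Γ) (C : H → ℝ → Γ)
    (ψ : H → Γ) (hψ : ∀ s ∈ S, ψ s = C s (len x s) * ι s) (h0 : ∀ s ∈ S, C s 0 = 1)
    (hrev : ∀ s ∈ S, ∀ t ∈ Sing x S ρ s, C s⁻¹ (len x s - t) = (ψ s)⁻¹ * C s t * ι s)
    (hband : ∀ s ∈ S, ∀ s' ∈ S, ∀ k, Band S ρ k s s' → ∀ t t' l, 0 < l → W x k s t s' t' l →
      t ∈ Sing x S ρ s → t + l ∈ Sing x S ρ s → t' ∈ Sing x S ρ s' → t' + l ∈ Sing x S ρ s' →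
      ι k * ((C s t)⁻¹ * C s (t + l)) = ((C s' t')⁻¹ * C s' (t' + l)) * ι k) :
    (∀ w : List H, (∀ a ∈ w, a ∈ S) → w.length ≤ ρ → w.prod = 1 → (w.map ψ).prod = 1) ∧
    (∀ s ∈ S, ∀ s' ∈ S, ∀ k, Band S ρ k s s' → ∀ t t' l, 0 < l → W x k s t s' t' l →
      t ∈ Sing x S ρ s → t' ∈ Sing x S ρ s' → ∃ w : List H, (∀ a ∈ w, a ∈ S) ∧ w.prod = k ∧
        (w.map ψ).prod * C s t = C s' t' * ι k) := by
  have hinv : ∀ s ∈ S, ψ s⁻¹ = (ψ s)⁻¹ := by
    intro s hs
    have e := hrev s hs 0 (zero_mem_sing x S ρ s)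
    rw [sub_zero, h0 s hs] at e
    rw [hψ _ (hS s hs), len_inv, e, map_inv]
    group
  constructor
  · intro w hw hl e
    cases w with
    | nil => simp
    | cons a w' =>
      have ha : a ∈ S := hw a (by simp)
      have := two_arcs hS hψ h0 hrev hband ha ha (a :: w') hw hl (zero_mem_sing x S ρ a)
        (len_mem_sing x S ρ a) (by rw [e, mul_one, ga_zero, ga_len])
      rw [e, mul_one a, h0 a ha, ← hψ a ha, mul_one] at this
      exact mul_eq_left.mp this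
  · have base : ∀ s ∈ S, ∀ s' ∈ S, ∀ k, s'⁻¹ * k ∈ Ball S ρ → ∀ t t', k • ga x s t = ga x s' t' →
        t ∈ Sing x S ρ s → t' ∈ Sing x S ρ s' → ∃ w : List H, (∀ a ∈ w, a ∈ S) ∧ w.prod = k ∧
          (w.map ψ).prod * C s t = C s' t' * ι k := by
      intro s hs s' hs' k hk t t' e ht ht'
      obtain ⟨κ, h1, h2, h3⟩ := hk
      have ek : s' * κ.prod = k := by rw [h3]; group
      refine ⟨s' :: κ, ?_, by rw [List.prod_cons, ek], ?_⟩
      · intro a ha
        rcases List.mem_cons.mp ha with rfl | ha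
        · exact hs'
        · exact h1 a ha
      · have := two_arcs hS hψ h0 hrev hband hs' hs κ h1 h2 ht ht' (by rw [ek, e])
        rw [ek] at this
        rw [List.map_cons, List.prod_cons, this]
    have revL : ∀ s ∈ S, ∀ s' k : H, ∀ t t' : ℝ, t ∈ Sing x S ρ s →
        (∃ w : List H, (∀ a ∈ w, a ∈ S) ∧ w.prod = k * s ∧
          (w.map ψ).prod * C s⁻¹ (len x s - t) = C s' t' * ι (k * s)) →
        ∃ w : List H, (∀ a ∈ w, a ∈ S) ∧ w.prod = k ∧ (w.map ψ).prod * C s t = C s' t' * ι k := by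
      rintro s hs s' k t t' ht ⟨w, h1, h2, h3⟩
      refine ⟨w ++ [s⁻¹], ?_, by simp [h2], ?_⟩
      · intro a ha
        rcases List.mem_append.mp ha with ha | ha
        · exact h1 a ha
        · rw [List.mem_singleton.mp ha]; exact hS s hs
      · rw [hrev s hs t ht, map_mul] at h3
        rw [List.map_append, List.prod_append, List.map_singleton, List.prod_singleton, hinv s hs]
        apply mul_right_cancel (b := ι s)
        rw [mul_assoc (C s' t'), ← h3]; group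
    have revR : ∀ s' ∈ S, ∀ s k : H, ∀ t t' : ℝ, t' ∈ Sing x S ρ s' →
        (∃ w : List H, (∀ a ∈ w, a ∈ S) ∧ w.prod = s'⁻¹ * k ∧
          (w.map ψ).prod * C s t = C s'⁻¹ (len x s' - t') * ι (s'⁻¹ * k)) →
        ∃ w : List H, (∀ a ∈ w, a ∈ S) ∧ w.prod = k ∧ (w.map ψ).prod * C s t = C s' t' * ι k := by
      rintro s' hs' s k t t' ht' ⟨w, h1, h2, h3⟩
      refine ⟨s' :: w, ?_, by simp [h2], ?_⟩
      · intro a ha
        rcases List.mem_cons.mp ha with rfl | ha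
        · exact hs'
        · exact h1 a ha
      · rw [hrev s' hs' t' ht', map_mul, map_inv] at h3
        rw [List.map_cons, List.prod_cons, mul_assoc, h3]; group
    intro s hs s' hs' k hb t t' l _ hW ht ht'
    have e : k • ga x s t = ga x s' t' := hW.2.2.2.2.2.1
    rcases hb with hb | hb | hb | hb
    · refine revR s' hs' s k t t' ht' (base s hs _ (hS s' hs') _ (by simpa using hb) _ _ ?_ ht
        (sing_rev ht'))
      rw [ga_inv, mul_smul, e]
    · refine revR s' hs' s k t t' ht' (revL s hs _ _ t _ ht (base _ (hS s hs) _ (hS s' hs') _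
        (by simpa [mul_assoc] using hb) _ _ ?_ (sing_rev ht) (sing_rev ht')))
      rw [ga_inv, ga_inv, mul_smul, mul_smul, smul_inv_smul, e]
    · exact base s hs s' hs' k hb t t' e ht ht'
    · refine revL s hs _ _ t _ ht (base _ (hS s hs) _ hs' _ (by simpa [mul_assoc] using hb) _ _ ?_
        (sing_rev ht) ht')
      rw [ga_inv, mul_smul, smul_inv_smul, e]

end Pool.Agent.MP_e97151_al

end

-- part MP_e97151_al.CC2
section

/-! Every solution of the turn equations comes from a potential. -/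

set_option autoImplicit false
set_option linter.unusedSectionVars false

namespace Pool.Agent.MP_e97151_al

variable {H Y Q : Type} [Group H] [MetricSpace Y] [MulAction H Y] [IsIsometricSMul H Y] [RT Y]
  [Group Q]
variable {x : Y} {S : Finset H} {ρ : ℕ} {π : H →* Q} {r : ℝ}

/-- the potential -/
noncomputable def UU (x : Y) (S : Finset H) (ρ : ℕ) (π : H →* Q) (r : ℝ) (f g : Pos H Q → ZMod 2)
    (e : Pos H Q) : ZMod 2 :=
  g ⟨e.s, 0, e.q⟩ + FF x S ρ π r f ⟨e.s, 0, e.q⟩ e.b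

open Classical in
/-- values at singular points -/
noncomputable def aa (x : Y) (S : Finset H) (ρ : ℕ) (π : H →* Q) (r : ℝ) (f g : Pos H Q → ZMod 2)
    (s : H) (q : Q) (t : ℝ) : ZMod 2 :=
  if t = 0 then 0 else UU x S ρ π r f g ⟨s, t - r, q⟩ + g (Pos.rv x π r ⟨s, t - r, q⟩)

/-- contribution of a stretch -/
noncomputable def DD (x : Y) (S : Finset H) (ρ : ℕ) (π : H →* Q) (r : ℝ) (f g : Pos H Q → ZMod 2)
    (e : Pos H Q) (m : ℝ) : ZMod 2 :=
  g e + FF x S ρ π r f e m + g ((e.sh m).rv x π r)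

theorem z2_add_self (a : ZMod 2) : a + a = 0 := by
  revert a; decide

theorem z2_sub (a b : ZMod 2) : a - b = a + b := by
  revert a b; decide

theorem UU_sh [Finite Q] (hy : Hyp x S) (hr : 0 < r) (f g : Pos H Q → ZMod 2) (e : Pos H Q)
    (hb : 0 ≤ e.b) {m : ℝ} (hm : 0 ≤ m) :
    UU x S ρ π r f g (e.sh m) = UU x S ρ π r f g e + FF x S ρ π r f e m := by
  have h := FF_add (ρ := ρ) (π := π) hy hr f ⟨e.s, 0, e.q⟩ hb hm
  have e1 : (⟨e.s, 0, e.q⟩ : Pos H Q).sh e.b = e := by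
    ext <;> simp [Pos.sh]
  rw [e1] at h
  show g ⟨e.s, 0, e.q⟩ + FF x S ρ π r f ⟨e.s, 0, e.q⟩ (e.b + m) = _
  rw [h, UU, add_assoc]

theorem UU_zero (f g : Pos H Q → ZMod 2) (s : H) (q : Q) :
    UU x S ρ π r f g ⟨s, 0, q⟩ = g ⟨s, 0, q⟩ := by
  show g ⟨s, 0, q⟩ + FF x S ρ π r f ⟨s, 0, q⟩ 0 = _
  rw [FF_zero, add_zero]

theorem aa_zero (f g : Pos H Q → ZMod 2) (s : H) (q : Q) : aa x S ρ π r f g s q 0 = 0 := by
  simp [aa]

theorem aa_pos (f g : Pos H Q → ZMod 2) (s : H) (q : Q) {t : ℝ} (ht : 0 < t) :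
    aa x S ρ π r f g s q t =
      UU x S ρ π r f g ⟨s, t - r, q⟩ + g (Pos.rv x π r ⟨s, t - r, q⟩) := by
  simp [aa, ht.ne']

theorem aa_lt [Finite Q] (hy : Hyp x S) (hr : GoodR x S ρ π r) (f g : Pos H Q → ZMod 2)
    (hcon : ∀ s ∈ S, ∀ t ∈ Sing x S ρ s, 0 < t → t < len x s → ∀ q : Q,
      g (Pos.rv x π r ⟨s, t - r, q⟩) + g ⟨s, t, q⟩ + FF x S ρ π r f ⟨s, t - r, q⟩ r = 0)
    {s : H} (hs : s ∈ S) {t : ℝ} (ht : t ∈ Sing x S ρ s) (hlt : t < len x s) (q : Q) :
    aa x S ρ π r f g s q t = UU x S ρ π r f g ⟨s, t, q⟩ + g ⟨s, t, q⟩ := by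
  rcases (sing_bounds ht).1.eq_or_lt with h0 | h0
  · subst h0
    rw [aa_zero, UU_zero, z2_add_self]
  · have hrt : 0 + r < t := hr.sep s hs 0 (zero_mem_sing x S ρ s) t ht h0
    have h1 := UU_sh (ρ := ρ) (π := π) hy hr.pos f g ⟨s, t - r, q⟩ (by show 0 ≤ t - r; linarith)
      hr.pos.le
    have e1 : (⟨s, t - r, q⟩ : Pos H Q).sh r = ⟨s, t, q⟩ := by
      ext <;> simp [Pos.sh]
    rw [e1] at h1
    have h2 := hcon s hs t ht h0 hlt q
    rw [aa_pos f g s q h0, h1]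
    clear h1
    generalize UU x S ρ π r f g ⟨s, t - r, q⟩ = A at *
    generalize g (Pos.rv x π r ⟨s, t - r, q⟩) = B at *
    generalize g ⟨s, t, q⟩ = C at *
    generalize FF x S ρ π r f ⟨s, t - r, q⟩ r = D at *
    revert A B C D
    decide

theorem aa_add [Finite Q] (hy : Hyp x S) (hr : GoodR x S ρ π r) (f g : Pos H Q → ZMod 2)
    (hcon : ∀ s ∈ S, ∀ t ∈ Sing x S ρ s, 0 < t → t < len x s → ∀ q : Q,
      g (Pos.rv x π r ⟨s, t - r, q⟩) + g ⟨s, t, q⟩ + FF x S ρ π r f ⟨s, t - r, q⟩ r = 0)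
    {s : H} (hs : s ∈ S) {t u : ℝ} (ht : t ∈ Sing x S ρ s) (hu : u ∈ Sing x S ρ s) (hlt : t < u)
    (q : Q) :
    aa x S ρ π r f g s q t + aa x S ρ π r f g s q u = DD x S ρ π r f g ⟨s, t, q⟩ (u - r - t) := by
  have h0 := (sing_bounds ht).1
  have h1 := (sing_bounds hu).2
  have hrt : t + r < u := hr.sep s hs t ht u hu hlt
  have h2 := UU_sh (ρ := ρ) (π := π) hy hr.pos f g ⟨s, t, q⟩ h0 (m := u - r - t) (by linarith)
  have e1 : (⟨s, t, q⟩ : Pos H Q).sh (u - r - t) = ⟨s, u - r, q⟩ := by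
    ext <;> simp [Pos.sh]
  rw [e1] at h2
  rw [aa_lt hy hr f g hcon hs ht (by linarith) q, aa_pos f g s q (by linarith), h2, DD, e1]
  generalize UU x S ρ π r f g ⟨s, t, q⟩ = A
  generalize g (Pos.rv x π r ⟨s, u - r, q⟩) = B
  generalize g ⟨s, t, q⟩ = C
  generalize FF x S ρ π r f ⟨s, t, q⟩ (u - r - t) = D
  revert A B C D
  decide

theorem DD_ch [Finite Q] (hy : Hyp x S) (hr : 0 < r) (f g : Pos H Q → ZMod 2)
    (hfE : ∀ e ∈ Om' x S ρ π r, ∀ e', EE x S ρ π r e e' → f e' = f e)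
    (hg : ∀ e ∈ Om x S ρ π r, ∀ e', Ch x S ρ π r e e' → g e' = g e)
    {e e' : Pos H Q} {m : ℝ} (hm : 0 ≤ m) (he : e ∈ Om x S ρ π r) (he' : e.sh m ∈ Om x S ρ π r)
    (h : Ch x S ρ π (r + m) e e') : DD x S ρ π r f g e m = DD x S ρ π r f g e' m := by
  unfold DD
  rw [FF_ch hy hr f hfE hm h, hg e he e' (h.shorten hr.le (by linarith)),
    hg _ (Om.rv hy.symm he') _ ((h.sub hm hr.le (by linarith)).rv hy.symm)]

theorem DD_rv [Finite Q] (hy : Hyp x S) (hr : 0 < r) (f g : Pos H Q → ZMod 2)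
    (hfr : ∀ e ∈ Om' x S ρ π r, f (rve x S ρ π r e) = f e)
    {e : Pos H Q} {m : ℝ} (hm : 0 ≤ m) (he : e ∈ Om x S ρ π r) (he' : e.sh m ∈ Om x S ρ π r) :
    DD x S ρ π r f g e m = DD x S ρ π r f g ((e.sh m).rv x π r) m := by
  unfold DD
  rw [← FF_rv hy hr f hfr hm he he']
  have e1 : (((e.sh m).rv x π r).sh m).rv x π r = e := by
    rw [Pos.rv_sh r m e, Pos.sh_rv, Pos.rv_rv]
  rw [e1]
  ring

theorem om_start {s : H} (hs : s ∈ S) {t : ℝ} (ht : t ∈ Sing x S ρ s) (h : t + r ≤ len x s) (q : Q) :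
    (⟨s, t, q⟩ : Pos H Q) ∈ Om x S ρ π r :=
  Om.of_om0 ⟨hs, (sing_bounds ht).1, h, Or.inl ht⟩

theorem om_end {s : H} (hs : s ∈ S) {t : ℝ} (ht : t ∈ Sing x S ρ s) (h : r ≤ t) (q : Q) :
    (⟨s, t - r, q⟩ : Pos H Q) ∈ Om x S ρ π r :=
  Om.of_om0 ⟨hs, by show 0 ≤ t - r; linarith,
    by show t - r + r ≤ len x s; linarith [(sing_bounds ht).2],
    Or.inr (by show t - r + r ∈ Sing x S ρ s; rwa [sub_add_cancel])⟩

theorem tauQ_inv_apply (v : Q → ZMod 2) (q : Q) (e : ZMod 2) : (tauQ v)⁻¹ (q, e) = (q, e - v q) := rfl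

theorem iotaQ_inv_apply (π : H →* Q) (h : H) (q : Q) (e : ZMod 2) :
    (iotaQ π h)⁻¹ (q, e) = ((π h)⁻¹ * q, e) := rfl

theorem aa_rev [Finite Q] (hy : Hyp x S) (hr : GoodR x S ρ π r) (f g : Pos H Q → ZMod 2)
    (hfr : ∀ e ∈ Om' x S ρ π r, f (rve x S ρ π r e) = f e)
    (hcon : ∀ s ∈ S, ∀ t ∈ Sing x S ρ s, 0 < t → t < len x s → ∀ q : Q,
      g (Pos.rv x π r ⟨s, t - r, q⟩) + g ⟨s, t, q⟩ + FF x S ρ π r f ⟨s, t - r, q⟩ r = 0)
    {s : H} (hs : s ∈ S) {t : ℝ} (ht : t ∈ Sing x S ρ s) (q : Q) :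
    aa x S ρ π r f g s⁻¹ q (len x s - t) =
      aa x S ρ π r f g s (π s * q) t + aa x S ρ π r f g s (π s * q) (len x s) := by
  rcases (sing_bounds ht).2.eq_or_lt with h1 | h1
  · rw [h1, sub_self, aa_zero, z2_add_self]
  · have hl := len_mem_sing x S ρ s
    have hrt : t + r < len x s := hr.sep s hs t ht _ hl h1
    have h2 := aa_add hy hr f g hcon (hy.symm s hs) (zero_mem_sing x S ρ s⁻¹) (sing_rev ht)
      (by linarith) q
    rw [aa_zero, zero_add] at h2
    have e1 : (⟨s, t, π s * q⟩ : Pos H Q).sh (len x s - r - t) = ⟨s, len x s - r, π s * q⟩ := by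
      ext <;> simp [Pos.sh]
    have e2 : Pos.rv x π r (⟨s, len x s - r, π s * q⟩ : Pos H Q) = ⟨s⁻¹, 0, q⟩ := by
      ext <;> simp [Pos.rv]
    rw [h2, aa_add hy hr f g hcon hs ht hl h1, DD_rv hy hr.pos f g hfr (m := len x s - r - t)
      (by linarith) (om_start hs ht hrt.le _) (by
        rw [e1]; exact om_end hs hl (by linarith [(sing_bounds ht).1]) _), e1, e2]
    congr 1
    ring

theorem aa_band [Finite Q] (hy : Hyp x S) (hr : GoodR x S ρ π r) (f g : Pos H Q → ZMod 2)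
    (hfE : ∀ e ∈ Om' x S ρ π r, ∀ e', EE x S ρ π r e e' → f e' = f e)
    (hg : ∀ e ∈ Om x S ρ π r, ∀ e', Ch x S ρ π r e e' → g e' = g e)
    (hcon : ∀ s ∈ S, ∀ t ∈ Sing x S ρ s, 0 < t → t < len x s → ∀ q : Q,
      g (Pos.rv x π r ⟨s, t - r, q⟩) + g ⟨s, t, q⟩ + FF x S ρ π r f ⟨s, t - r, q⟩ r = 0)
    {s s' k : H} (hs : s ∈ S) (hs' : s' ∈ S) (hb : Band S ρ k s s') {t t' l : ℝ} (hl : 0 < l)
    (hw : W x k s t s' t' l) (h1 : t ∈ Sing x S ρ s) (h2 : t + l ∈ Sing x S ρ s)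
    (h3 : t' ∈ Sing x S ρ s') (h4 : t' + l ∈ Sing x S ρ s') (q : Q) :
    aa x S ρ π r f g s q t + aa x S ρ π r f g s q (t + l) =
      aa x S ρ π r f g s' (π k * q) t' + aa x S ρ π r f g s' (π k * q) (t' + l) := by
  have hrt : t + r < t + l := hr.sep s hs t h1 _ h2 (by linarith)
  rw [aa_add hy hr f g hcon hs h1 h2 (by linarith), aa_add hy hr f g hcon hs' h3 h4 (by linarith),
    show t + l - r - t = l - r by ring, show t' + l - r - t' = l - r by ring]
  have e1 : (⟨s, t, q⟩ : Pos H Q).sh (l - r) = ⟨s, t + l - r, q⟩ := by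
    ext <;> simp [Pos.sh]; ring
  refine DD_ch hy hr.pos f g hfE hg (by linarith)
    (om_start hs h1 (by linarith [(sing_bounds h2).2]) _)
    (by rw [e1]; exact om_end hs h2 (by linarith [(sing_bounds h1).1]) _) ?_
  refine Relation.ReflTransGen.single ⟨hs, hs', k, hb, ?_, rfl⟩
  rw [show r + (l - r) = l by ring]
  exact hw

/-- HINT. `U e = g ⟨s,0,q⟩ + FF f ⟨s,0,q⟩ b`. For singular `t` let `a s q t = if t = 0 then 0 else U ⟨s,t-r,q⟩ + g (rv ⟨s,t-r,q⟩)`; by `hcon` and `FF_add`,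
`a s q t = U ⟨s,t,q⟩ + g ⟨s,t,q⟩` for singular `t < len s`, and for singular `t1 < t2`:
`a t1 + a t2 = g ⟨s,t1,q⟩ + FF f ⟨s,t1,q⟩ (t2 - r - t1) + g (rv ⟨s,t2-r,q⟩)` (`sep`). This expression is invariant under a band (`FF_ch`, `hg`, `Mv.sub`, `Mv.rv`)
and under reversal (`FF_rv`). Apply `level` with `ι = iotaQ π`, `C s t = tauQ (fun q => a s q t)`; by `hrig`, `ψ = ι` on `S`, i.e. `a s q (len s) = 0`, which gives
`U (rv e) = U e`. For a move `e → e'` use `band_start`, the second part of `level` at the left end `z` (it says `a s q z = a s' (π k * q) z'`) and `FF_ch` from `z` to `b`. -/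
theorem potential [Finite Q] (hy : Hyp x S) (hr : GoodR x S ρ π r)
    (hrig : ∀ ψ : H → Equiv.Perm (Q × ZMod 2), (∀ s ∈ S, s • x = x → ψ s = iotaQ π s) →
      (∀ w : List H, (∀ a ∈ w, a ∈ S) → w.length ≤ ρ → w.prod = 1 → (w.map ψ).prod = 1) →
      ∀ s ∈ S, ψ s = iotaQ π s)
    (f g : Pos H Q → ZMod 2)
    (hfE : ∀ e ∈ Om' x S ρ π r, ∀ e', EE x S ρ π r e e' → f e' = f e)
    (hfr : ∀ e ∈ Om' x S ρ π r, f (rve x S ρ π r e) = f e)
    (hg : ∀ e ∈ Om x S ρ π r, ∀ e', Ch x S ρ π r e e' → g e' = g e)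
    (hcon : ∀ s ∈ S, ∀ t ∈ Sing x S ρ s, 0 < t → t < len x s → ∀ q : Q,
      g (Pos.rv x π r ⟨s, t - r, q⟩) + g ⟨s, t, q⟩ + FF x S ρ π r f ⟨s, t - r, q⟩ r = 0) :
    ∃ U : Pos H Q → ZMod 2,
      (∀ e ∈ Om x S ρ π r, ∀ e', Ch x S ρ π r e e' → U e' = U e) ∧
      (∀ e ∈ Om x S ρ π r, U (e.rv x π r) = U e) ∧
      (∀ e ∈ Om' x S ρ π r, f e = U e + U (nxt x S ρ π r e)) ∧
      (∀ (s : H) (q : Q), g ⟨s, 0, q⟩ = U ⟨s, 0, q⟩) ∧
      ∀ s ∈ S, ∀ t ∈ Sing x S ρ s, 0 < t → t < len x s → ∀ q : Q,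
        g ⟨s, t, q⟩ + U ⟨s, t, q⟩ =
          g (Pos.rv x π r ⟨s, t - r, q⟩) + U (Pos.rv x π r ⟨s, t - r, q⟩) := by
  classical
  have hS := hy.symm
  set C : H → ℝ → Equiv.Perm (Q × ZMod 2) := fun s t => tauQ (fun q => aa x S ρ π r f g s q t)
    with hC
  have hC0 : ∀ s, C s 0 = 1 := by
    intro s
    ext ⟨q, e⟩ <;> simp [hC, tauQ_apply, aa_zero]
  obtain ⟨L1, L2⟩ := level (x := x) hS ρ (iotaQ π) C (fun s => C s (len x s) * iotaQ π s)
    (fun _ _ => rfl) (fun s _ => hC0 s)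
    (by
      intro s hs t ht
      refine Equiv.ext ?_
      rintro ⟨q, e⟩
      simp only [hC, mul_inv_rev, Equiv.Perm.mul_apply, iotaQ_apply, tauQ_apply, tauQ_inv_apply,
        iotaQ_inv_apply, inv_mul_cancel_left]
      rw [aa_rev hy hr f g hfr hcon hs ht q, z2_sub, add_assoc])
    (by
      intro s hs s' hs' k hb t t' l hl hw h1 h2 h3 h4
      refine Equiv.ext ?_
      rintro ⟨q, e⟩
      simp only [hC, Equiv.Perm.mul_apply, iotaQ_apply, tauQ_apply, tauQ_inv_apply]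
      have := aa_band hy hr f g hfE hg hcon hs hs' hb hl hw h1 h2 h3 h4 q
      rw [z2_sub, z2_sub, add_assoc, add_assoc, add_comm (aa x S ρ π r f g s q (t + l)), this,
        add_comm (aa x S ρ π r f g s' (π k * q) (t' + l))])
  have hψ := hrig (fun s => C s (len x s) * iotaQ π s)
    (fun s _ hx => by
      show C s (len x s) * iotaQ π s = _
      rw [len_eq_zero.mpr hx, hC0, one_mul]) L1
  have hlen : ∀ s ∈ S, ∀ q, aa x S ρ π r f g s q (len x s) = 0 := by
    intro s hs q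
    have h1 : C s (len x s) = 1 := by
      have := hψ s hs
      simpa using this
    have h2 := congrArg (fun p : Equiv.Perm (Q × ZMod 2) => (p (q, 0)).2) h1
    simpa [hC, tauQ_apply] using h2
  have hlev : ∀ s ∈ S, ∀ s' ∈ S, ∀ k, Band S ρ k s s' → ∀ t t' l, 0 < l → W x k s t s' t' l →
      t ∈ Sing x S ρ s → t' ∈ Sing x S ρ s' → ∀ q,
      aa x S ρ π r f g s q t = aa x S ρ π r f g s' (π k * q) t' := by
    intro s hs s' hs' k hb t t' l hl hw h1 h2 q
    obtain ⟨w, hw1, hw2, hw3⟩ := L2 s hs s' hs' k hb t t' l hl hw h1 h2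
    have e1 : (w.map (fun s => C s (len x s) * iotaQ π s)).prod = iotaQ π k := by
      rw [← hw2, map_list_prod]
      congr 1
      exact List.map_congr_left fun a ha => hψ a (hw1 a ha)
    rw [e1] at hw3
    have h3 := congrArg (fun p : Equiv.Perm (Q × ZMod 2) => (p (q, 0)).2) hw3
    simpa [hC, tauQ_apply, iotaQ_apply] using h3
  have hrv : ∀ e ∈ Om x S ρ π r, UU x S ρ π r f g (e.rv x π r) = UU x S ρ π r f g e := by
    rintro ⟨s, b, q⟩ he
    obtain ⟨hs, hb0, hb1⟩ := Om.range hr.pos.le he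
    simp only at hs hb0 hb1
    have hl := len_mem_sing x S ρ s
    have hp := hr.pos
    have h1 := aa_add hy hr f g hcon hs (zero_mem_sing x S ρ s) hl (by linarith) q
    rw [aa_zero, hlen s hs q, add_zero, DD] at h1
    have e1 : (⟨s, 0, q⟩ : Pos H Q).sh (len x s - r - 0) = ⟨s, len x s - r, q⟩ := by
      ext <;> simp [Pos.sh]
    have e2 : Pos.rv x π r (⟨s, len x s - r, q⟩ : Pos H Q) = ⟨s⁻¹, 0, (π s)⁻¹ * q⟩ := by
      ext <;> simp [Pos.rv]
    have e3 : (⟨s, b, q⟩ : Pos H Q).sh (len x s - r - b) = ⟨s, len x s - r, q⟩ := by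
      ext <;> simp [Pos.sh]
    have e4 : (⟨s, 0, q⟩ : Pos H Q).sh b = ⟨s, b, q⟩ := by
      ext <;> simp [Pos.sh]
    have h2 := FF_add (ρ := ρ) (π := π) hy hp f ⟨s, 0, q⟩ hb0 (n := len x s - r - b) (by linarith)
    have h3 := FF_rv hy hp f hfr (m := len x s - r - b) (by linarith) he
      (by rw [e3]; exact om_end hs hl (by linarith) _)
    rw [e3, e2] at h3
    rw [e4, h3, show b + (len x s - r - b) = len x s - r - 0 by ring] at h2
    rw [e1, e2, h2] at h1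
    clear h2 h3
    show g ⟨s⁻¹, 0, (π s)⁻¹ * q⟩ + FF x S ρ π r f ⟨s⁻¹, 0, (π s)⁻¹ * q⟩ (len x s - r - b) =
      g ⟨s, 0, q⟩ + FF x S ρ π r f ⟨s, 0, q⟩ b
    generalize g ⟨s⁻¹, 0, (π s)⁻¹ * q⟩ = A at *
    generalize FF x S ρ π r f ⟨s⁻¹, 0, (π s)⁻¹ * q⟩ (len x s - r - b) = B at *
    generalize g ⟨s, 0, q⟩ = D at *
    generalize FF x S ρ π r f ⟨s, 0, q⟩ b = E at *
    revert h1
    revert A B D E
    decide
  have hmv : ∀ e e' : Pos H Q, Mv x S ρ π r e e' →
      UU x S ρ π r f g e' = UU x S ρ π r f g e := by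
    rintro ⟨s, b, q⟩ ⟨s', b', q'⟩ ⟨hs, hs', k, hb, hw, hq⟩
    simp only at hs hs' hb hw hq
    subst hq
    have hp := hr.pos
    obtain ⟨z, hz1, hz2, hz3, hz4⟩ := band_start hS hs hs' hb hp hw
    have hw1 : b + r ≤ len x s := hw.2.2.1
    have hw2 : b' + r ≤ len x s' := hw.2.2.2.2.1
    have h1 := hlev s hs s' hs' k hb z _ _ (by linarith) hz4 hz2 hz3 q
    rw [aa_lt hy hr f g hcon hs hz2 (by linarith), aa_lt hy hr f g hcon hs' hz3 (by linarith)] at h1
    have hch : Ch x S ρ π (r + (b - z)) ⟨s, z, q⟩ ⟨s', z + b' - b, π k * q⟩ := by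
      refine Relation.ReflTransGen.single ⟨hs, hs', k, hb, ?_, rfl⟩
      rw [show r + (b - z) = b + r - z by ring]
      exact hz4
    rw [hg _ (om_start hs hz2 (by linarith) q) _ (hch.shorten hp.le (by linarith))] at h1
    have h2 := add_right_cancel h1
    have h3 := UU_sh (ρ := ρ) (π := π) hy hp f g ⟨s, z, q⟩ (sing_bounds hz2).1 (m := b - z)
      (by linarith)
    have h4 := UU_sh (ρ := ρ) (π := π) hy hp f g ⟨s', z + b' - b, π k * q⟩ (sing_bounds hz3).1
      (m := b - z) (by linarith)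
    have e1 : (⟨s, z, q⟩ : Pos H Q).sh (b - z) = ⟨s, b, q⟩ := by
      ext <;> simp [Pos.sh]
    have e2 : (⟨s', z + b' - b, π k * q⟩ : Pos H Q).sh (b - z) = ⟨s', b', π k * q⟩ := by
      ext <;> simp [Pos.sh]
    rw [e1] at h3
    rw [e2] at h4
    rw [h3, h4, h2, FF_ch hy hp f hfE (by linarith) hch]
  refine ⟨UU x S ρ π r f g, ?_, hrv, ?_, fun s q => (UU_zero f g s q).symm, ?_⟩
  · intro e _ e' h
    induction h with
    | refl => rfl
    | tail _ h2 ih => rw [hmv _ _ h2, ih]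
  · intro e he
    have h1 := gap_spec hy hr.pos he
    have h2 := UU_sh (ρ := ρ) (π := π) hy hr.pos f g e (Om.range hr.pos.le he.1).2.1 h1.1.le
    rw [FF_gap hy hr.pos f he] at h2
    rw [nxt, h2, ← add_assoc, z2_add_self, zero_add]
  · intro s hs t ht h0 h1 q
    have hrt : 0 + r < t := hr.sep s hs 0 (zero_mem_sing x S ρ s) t ht h0
    rw [hrv _ (om_end hs ht (by linarith) q), add_comm, ← aa_lt hy hr f g hcon hs ht h1 q,
      aa_pos f g s q h0, add_comm]

end Pool.Agent.MP_e97151_al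

end

-- part MP_e97151_al.CC3
section

/-! The Euler characteristic count in a finite cover without flips. -/

set_option autoImplicit false
set_option linter.unusedSectionVars false

namespace Pool.Agent.MP_e97151_al

variable {H Y : Type} [Group H] [MetricSpace Y] [MulAction H Y] [IsIsometricSMul H Y] [RT Y]
variable {x : Y} {S : Finset H}

section Aux
variable {Q : Type} [Group Q] {ρ : ℕ} {π : H →* Q} {r : ℝ}

/-- the window that ends at the given position -/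
def bk (r : ℝ) (e : Pos H Q) : Pos H Q := ⟨e.s, e.b - r, e.q⟩

/-- marked interior positions -/
def TS (x : Y) (S : Finset H) (ρ : ℕ) (Q : Type) : Set (Pos H Q) :=
  {e | e.s ∈ S ∧ e.b ∈ Sing x S ρ e.s ∧ 0 < e.b ∧ e.b < len x e.s}

theorem bk_sh (e : Pos H Q) : (bk r e).sh r = e := by
  ext <;> simp [Pos.sh, bk]

theorem bk_rv0 (e : Pos H Q) : bk r (e.rv x π 0) = e.rv x π r := by
  ext <;> simp [Pos.rv, bk]; ring

theorem bk_rv0' (e : Pos H Q) : bk r (e.rv x π 0) = (bk r e).rv x π (r + r) := by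
  ext <;> simp [Pos.rv, bk]; ring

theorem rv_bk (e : Pos H Q) : (bk r e).rv x π r = e.rv x π 0 := by
  ext <;> simp [Pos.rv, bk]

theorem TS.rv0 (hy : Hyp x S) {e : Pos H Q} (he : e ∈ TS x S ρ Q) : e.rv x π 0 ∈ TS x S ρ Q := by
  obtain ⟨h1, h2, h3, h4⟩ := he
  refine ⟨hy.symm _ h1, ?_, ?_, ?_⟩
  · have := sing_rev h2
    simpa [Pos.rv] using this
  · simp only [Pos.rv]; linarith
  · simp only [Pos.rv, len_inv]; linarith

theorem TS.om (hr : GoodR x S ρ π r) {e : Pos H Q} (he : e ∈ TS x S ρ Q) : e ∈ Om x S ρ π r := by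
  obtain ⟨h1, h2, h3, h4⟩ := he
  exact Om.of_om0 ⟨h1, h3.le, (hr.sep _ h1 _ h2 _ (len_mem_sing x S ρ _) h4).le, Or.inl h2⟩

theorem TS.bk (hr : GoodR x S ρ π r) {e : Pos H Q} (he : e ∈ TS x S ρ Q) :
    bk r e ∈ Om' x S ρ π r := by
  obtain ⟨h1, h2, h3, h4⟩ := he
  have := hr.sep _ h1 _ (zero_mem_sing x S ρ _) _ h2 h3
  have e1 : (Pool.Agent.MP_e97151_al.bk r e).b + r = e.b := by
    simp [Pool.Agent.MP_e97151_al.bk]
  refine ⟨Om.of_om0 ⟨h1, ?_, ?_, Or.inr ?_⟩, ?_⟩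
  · simp only [Pool.Agent.MP_e97151_al.bk]; linarith
  · rw [e1]; exact h4.le
  · rw [e1]; exact h2
  · rw [e1]; exact h4

theorem cc3_F1 (hy : Hyp x S) (hr : GoodR x S ρ π r)
    (hN : ∀ s ∈ S, ∀ t : ℝ, 0 < t → t < len x s → ¬ Simple x S s t → ∀ h, Flip x s t h → π h ≠ 1)
    {e : Pos H Q} (he : e ∈ TS x S ρ Q) : ¬ Ch x S ρ π r e (e.rv x π 0) := by
  intro h
  have ho := Om.range hr.pos.le (TS.om hr he)
  obtain ⟨-, k, hw, hq⟩ := h.exists_W he.1 hr.pos.le ho.2.1 ho.2.2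
  apply hN e.s he.1 e.b he.2.2.1 he.2.2.2 (not_simple_of_sing hy.gen he.2.1 he.2.2.1 he.2.2.2)
    (e.s * k)
  · refine ⟨r, hr.pos, ?_⟩
    simpa [Pos.rv] using hw
  · simp only [Pos.rv] at hq
    rw [map_mul, ← mul_right_cancel hq, mul_inv_cancel]

theorem cc3_stab [Finite Q] (hy : Hyp x S) (hr : GoodR x S ρ π r) {a b : Pos H Q}
    (ha : a ∈ TS x S ρ Q) (hb : b ∈ TS x S ρ Q) (h : EE x S ρ π r (bk r a) (bk r b)) :
    Ch x S ρ π (r + r) (bk r a) (bk r b) :=
  hr.stab _ ha.1 _ ha.2.1 _ hb.1 _ hb.2.1 _ _ _ (gap_spec hy hr.pos (TS.bk hr ha)).1 h.2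

theorem cc3_half {a b : Pos H Q} (hr : 0 < r) (h : Ch x S ρ π (r + r) (bk r a) (bk r b)) :
    Ch x S ρ π r a b := by
  have := h.sub (u := r) (m := r) hr.le hr.le le_rfl
  rwa [bk_sh, bk_sh] at this

def sV (hy : Hyp x S) (ρ : ℕ) (π : H →* Q) (r : ℝ) : Setoid (Om x S ρ π r) :=
  ⟨fun a b => Ch x S ρ π r a.1 b.1, fun _ => Relation.ReflTransGen.refl, fun h => h.symm hy.symm,
    fun h h' => h.trans h'⟩

def sE (hy : Hyp x S) (ρ : ℕ) (π : H →* Q) (r : ℝ) : Setoid (Om' x S ρ π r) :=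
  ⟨fun a b => EE x S ρ π r a.1 b.1, fun _ => EE.refl _, fun h => h.symm hy.symm,
    fun h h' => h.trans h'⟩

def sT (hy : Hyp x S) (ρ : ℕ) (π : H →* Q) (r : ℝ) : Setoid (TS x S ρ Q) :=
  ⟨fun a b => EE x S ρ π r (bk r a.1) (bk r b.1), fun _ => EE.refl _, fun h => h.symm hy.symm,
    fun h h' => h.trans h'⟩

open Classical in
noncomputable def extE (hy : Hyp x S) (f : Quotient (sE hy ρ π r) → ZMod 2) (e : Pos H Q) :
    ZMod 2 := if h : e ∈ Om' x S ρ π r then f (Quotient.mk _ ⟨e, h⟩) else 0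

open Classical in
noncomputable def extV (hy : Hyp x S) (g : Quotient (sV hy ρ π r) → ZMod 2) (e : Pos H Q) :
    ZMod 2 := if h : e ∈ Om x S ρ π r then g (Quotient.mk _ ⟨e, h⟩) else 0

theorem extE_mk (hy : Hyp x S) (f : Quotient (sE hy ρ π r) → ZMod 2) {e : Pos H Q}
    (h : e ∈ Om' x S ρ π r) : extE hy f e = f (Quotient.mk _ ⟨e, h⟩) := dif_pos h

theorem extV_mk (hy : Hyp x S) (g : Quotient (sV hy ρ π r) → ZMod 2) {e : Pos H Q}
    (h : e ∈ Om x S ρ π r) : extV hy g e = g (Quotient.mk _ ⟨e, h⟩) := dif_pos h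

theorem extE_add (hy : Hyp x S) (f f' : Quotient (sE hy ρ π r) → ZMod 2) :
    extE hy (f + f') = extE hy f + extE hy f' := by
  funext e
  simp only [extE, Pi.add_apply]
  split_ifs <;> simp

theorem extV_add (hy : Hyp x S) (g g' : Quotient (sV hy ρ π r) → ZMod 2) (e : Pos H Q) :
    extV hy (g + g') e = extV hy g e + extV hy g' e := by
  simp only [extV, Pi.add_apply]
  split_ifs <;> simp

theorem extE_ee [Finite Q] (hy : Hyp x S) (hr : 0 < r) (f : Quotient (sE hy ρ π r) → ZMod 2) :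
    ∀ e ∈ Om' x S ρ π r, ∀ e', EE x S ρ π r e e' → extE hy f e' = extE hy f e := by
  intro e he e' h
  have he' := (ext_lemma hy hr he (gap_spec hy hr he).1 h.2).1
  rw [extE_mk hy f he, extE_mk hy f he']
  congr 1
  exact (Quotient.sound (s := sE hy ρ π r) (a := ⟨e, he⟩) (b := ⟨e', he'⟩) h).symm

theorem extV_ch (hy : Hyp x S) (g : Quotient (sV hy ρ π r) → ZMod 2) :
    ∀ e ∈ Om x S ρ π r, ∀ e', Ch x S ρ π r e e' → extV hy g e' = extV hy g e := by
  intro e he e' h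
  have he' := Om.ch he h
  rw [extV_mk hy g he, extV_mk hy g he']
  congr 1
  exact (Quotient.sound (s := sV hy ρ π r) (a := ⟨e, he⟩) (b := ⟨e', he'⟩) h).symm

/-- the turn equation at a marked position -/
noncomputable def tq (hy : Hyp x S) (a : Pos H Q) (f : Quotient (sE hy ρ π r) → ZMod 2)
    (g : Quotient (sV hy ρ π r) → ZMod 2) : ZMod 2 :=
  extV hy g ((bk r a).rv x π r) + extV hy g a + FF x S ρ π r (extE hy f) (bk r a) r

theorem tq_eq [Finite Q] (hy : Hyp x S) (hr : GoodR x S ρ π r) {a b : Pos H Q}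
    (ha : a ∈ TS x S ρ Q) (hb : b ∈ TS x S ρ Q) (h : EE x S ρ π r (bk r a) (bk r b))
    (f : Quotient (sE hy ρ π r) → ZMod 2) (g : Quotient (sV hy ρ π r) → ZMod 2) :
    tq hy a f g = tq hy b f g := by
  have h2 := cc3_stab hy hr ha hb h
  have h3 := (h2.shorten hr.pos.le (by linarith [hr.pos])).rv hy.symm
  unfold tq
  rw [extV_ch hy g _ (Om.rv hy.symm (TS.bk hr ha).1) _ h3,
    extV_ch hy g _ (TS.om hr ha) _ (cc3_half hr.pos h2),
    FF_ch hy hr.pos _ (extE_ee hy hr.pos f) hr.pos.le h2]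

theorem tq_rv [Finite Q] (hy : Hyp x S) (hr : GoodR x S ρ π r) {a : Pos H Q}
    (ha : a ∈ TS x S ρ Q) (f : Quotient (sE hy ρ π r) → ZMod 2)
    (g : Quotient (sV hy ρ π r) → ZMod 2)
    (hf : ∀ e ∈ Om' x S ρ π r, extE hy f (rve x S ρ π r e) = extE hy f e) :
    tq hy (a.rv x π 0) f g = tq hy a f g := by
  unfold tq
  rw [FF_rv hy hr.pos _ hf hr.pos.le (TS.bk hr ha).1 (by rw [bk_sh]; exact TS.om hr ha), bk_sh,
    bk_rv0, Pos.rv_rv, rv_bk]
  ring

theorem euler_aux [Finite Q] (hy : Hyp x S) (hr : GoodR x S ρ π r) (hT : ∃ s ∈ S, s • x ≠ x)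
    (hrig : ∀ ψ : H → Equiv.Perm (Q × ZMod 2), (∀ s ∈ S, s • x = x → ψ s = iotaQ π s) →
      (∀ w : List H, (∀ a ∈ w, a ∈ S) → w.length ≤ ρ → w.prod = 1 → (w.map ψ).prod = 1) →
      ∀ s ∈ S, ψ s = iotaQ π s)
    (hN : ∀ s ∈ S, ∀ t : ℝ, 0 < t → t < len x s → ¬ Simple x S s t → ∀ h, Flip x s t h → π h ≠ 1) :
    False := by
  classical
  have hp := hr.pos
  have fin1 : Finite (Om x S ρ π r) := (finite_om hy hp).to_subtype
  have fin2 : Finite (Om' x S ρ π r) :=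
    ((finite_om hy hp).subset (fun e he => he.1)).to_subtype
  let iV : Quotient (sV hy ρ π r) → Quotient (sV hy ρ π r) :=
    Quotient.map (fun a => ⟨a.1.rv x π r, Om.rv hy.symm a.2⟩) (fun _ _ h => Ch.rv hy.symm h)
  let rE : Quotient (sE hy ρ π r) → Quotient (sE hy ρ π r) :=
    Quotient.map (fun a => ⟨rve x S ρ π r a.1, (rve_spec hy hp a.2).1⟩)
      (fun a _ h => EE.rve hy hp a.2 h)
  let src : Quotient (sE hy ρ π r) → Quotient (sV hy ρ π r) :=
    Quotient.map (fun a => ⟨a.1, a.2.1⟩) (fun a _ h => (EE.src hy hp a.2 h).1)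
  let tgt : Quotient (sE hy ρ π r) → Quotient (sV hy ρ π r) :=
    Quotient.map (fun a => ⟨nxt x S ρ π r a.1, (gap_spec hy hp a.2).2.1⟩)
      (fun a _ h => (EE.src hy hp a.2 h).2)
  let j : Quotient (sT hy ρ π r) → Quotient (sE hy ρ π r) :=
    Quotient.map (fun a => ⟨bk r a.1, TS.bk hr a.2⟩) (fun _ _ h => h)
  have hj : Function.Injective j := by
    intro a b
    induction a using Quotient.inductionOn with | _ a => ?_
    induction b using Quotient.inductionOn with | _ b => ?_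
    intro h
    have h2 := Quotient.exact (s := sE hy ρ π r) (a := ⟨bk r a.1, TS.bk hr a.2⟩)
      (b := ⟨bk r b.1, TS.bk hr b.2⟩) h
    exact Quotient.sound h2
  have fin3 : Finite (Quotient (sT hy ρ π r)) := Finite.of_injective j hj
  let bT : Quotient (sT hy ρ π r) → Quotient (sT hy ρ π r) :=
    Quotient.map (fun a => ⟨a.1.rv x π 0, TS.rv0 hy a.2⟩) (fun a b h => by
      have h2 := (cc3_stab hy hr a.2 b.2 h).rv hy.symm
      rw [← bk_rv0', ← bk_rv0'] at h2
      exact (ext_lemma hy hp (TS.bk hr (TS.rv0 hy a.2)) hp h2).2)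
  let D : Set (Quotient (sV hy ρ π r)) :=
    {v | ∃ a : Om x S ρ π r, Quotient.mk _ a = v ∧ a.1.b ∈ Sing x S ρ a.1.s}
  let En : Set (Quotient (sV hy ρ π r)) :=
    {v | ∃ a : Om x S ρ π r, Quotient.mk _ a = v ∧ a.1.b = 0}
  let mT : TS x S ρ Q → Quotient (sV hy ρ π r) := fun a => Quotient.mk _ ⟨a.1, TS.om hr a.2⟩
  let σ : Quotient (sV hy ρ π r) → Quotient (sV hy ρ π r) := fun d =>
    if h : ∃ a, mT a = d then mT ⟨h.choose.1.rv x π 0, TS.rv0 hy h.choose.2⟩ else d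
  have hσ : ∀ d ∈ D, d ∉ En → ∃ a, mT a = d ∧ σ d = mT ⟨a.1.rv x π 0, TS.rv0 hy a.2⟩ := by
    rintro d ⟨a, ha, hs⟩ hn
    have ho := Om.range hp.le a.2
    have h : ∃ a, mT a = d := ⟨⟨a.1, ho.1, hs,
      lt_of_le_of_ne ho.2.1 (fun e => hn ⟨a, ha, e.symm⟩), by linarith [ho.2.2]⟩, ha⟩
    exact ⟨h.choose, h.choose_spec, dif_pos h⟩
  have hfr : ∀ f : Quotient (sE hy ρ π r) → ZMod 2, (∀ e, f (rE e) = f e) →
      ∀ e ∈ Om' x S ρ π r, extE hy f (rve x S ρ π r e) = extE hy f e := by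
    intro f hf e he
    rw [extE_mk hy f he, extE_mk hy f (rve_spec hy hp he).1]
    exact hf (Quotient.mk _ ⟨e, he⟩)
  have hout : ∀ (a : TS x S ρ Q) (f : Quotient (sE hy ρ π r) → ZMod 2)
      (g : Quotient (sV hy ρ π r) → ZMod 2),
      tq hy (Quotient.out (Quotient.mk (sT hy ρ π r) a)).1 f g = tq hy a.1 f g := by
    intro a f g
    have h2 := Quotient.exact (Quotient.out_eq (Quotient.mk (sT hy ρ π r) a))
    exact tq_eq hy hr (Subtype.prop _) a.2 h2 f g
  refine count iV ?_ ?_ rE ?_ bT ?_ ?_ src tgt D En ?_ ?_ j hj ?_ ?_ σ ?_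
    (fun τ f g => tq hy (Quotient.out τ).1 f g) ?_ ?_ ?_
  · intro v
    induction v using Quotient.inductionOn with | _ a => ?_
    exact congrArg (Quotient.mk _) (Subtype.ext (Pos.rv_rv r a.1))
  · intro v
    induction v using Quotient.inductionOn with | _ a => ?_
    intro h
    exact hr.nosym a.1 a.2 (Quotient.exact h.symm)
  · intro v
    induction v using Quotient.inductionOn with | _ a => ?_
    exact congrArg (Quotient.mk _) (Subtype.ext (rve_spec hy hp a.2).2.2.2)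
  · intro v
    induction v using Quotient.inductionOn with | _ a => ?_
    exact congrArg (Quotient.mk _) (Subtype.ext (Pos.rv_rv 0 a.1))
  · intro v
    induction v using Quotient.inductionOn with | _ a => ?_
    intro h
    exact cc3_F1 hy hr hN a.2
      (cc3_half hp (cc3_stab hy hr a.2 (TS.rv0 hy a.2) (Quotient.exact h.symm)))
  · rintro v ⟨a, ha, h0⟩
    exact ⟨a, ha, h0 ▸ zero_mem_sing x S ρ _⟩
  · obtain ⟨s, hs, hx⟩ := hT
    have hl : 0 < len x s := lt_of_le_of_ne (len_nonneg x s) (fun e => hx (len_eq_zero.mp e.symm))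
    exact ⟨_, ⟨⟨s, 0, 1⟩, Om.of_om0 ⟨hs, le_rfl,
      (hr.sep s hs _ (zero_mem_sing x S ρ s) _ (len_mem_sing x S ρ s) hl).le,
      Or.inl (zero_mem_sing x S ρ s)⟩⟩, rfl, rfl⟩
  · intro τ
    induction τ using Quotient.inductionOn with | _ a => ?_
    refine ⟨⟨(bk r a.1).rv x π r, Om.rv hy.symm (TS.bk hr a.2).1⟩, rfl, ?_⟩
    simp only [rv_bk]
    exact (TS.rv0 (π := π) hy a.2).2.1
  · intro v
    induction v using Quotient.inductionOn with | _ a => ?_
    intro h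
    by_cases h1 : a.1.b + r < len x a.1.s
    · exact ⟨Quotient.mk _ ⟨a.1, a.2, h1⟩, rfl⟩
    · exfalso; apply h
      refine ⟨⟨a.1.rv x π r, Om.rv hy.symm a.2⟩, rfl, ?_⟩
      have ho := Om.range hp.le a.2
      have e : (a.1.rv x π r).b = 0 := by simp only [Pos.rv]; linarith [ho.2.2]
      simp only [e]
      exact zero_mem_sing x S ρ _
  · intro d hd hn
    obtain ⟨a, ha, e⟩ := hσ d hd hn
    rw [e, ← ha]
    refine ⟨⟨_, rfl, (TS.rv0 (π := π) hy a.2).2.1⟩, fun h => ?_⟩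
    exact cc3_F1 hy hr hN a.2 (Quotient.exact h.symm)
  · intro τ f f' g g'
    simp only [tq]
    rw [extV_add, extV_add, extE_add, FF_add_fun hy hp]
    ring
  · intro τ f g hf
    induction τ using Quotient.inductionOn with | _ a => ?_
    exact ((hout ⟨a.1.rv x π 0, TS.rv0 hy a.2⟩ f g).trans
      (tq_rv hy hr a.2 f g (hfr f hf))).trans (hout a f g).symm
  · intro f g hf hc
    obtain ⟨U, u1, u2, u3, u4, u5⟩ := potential hy hr hrig (extE hy f) (extV hy g)
      (extE_ee hy hp f) (hfr f hf) (extV_ch hy g) (fun s hs t ht t0 t1 q =>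
        (hout ⟨⟨s, t, q⟩, hs, ht, t0, t1⟩ f g).symm.trans (hc _))
    refine ⟨Quotient.lift (fun a : Om x S ρ π r => U a.1) (fun a b h => (u1 a.1 a.2 b.1 h).symm),
      ?_, ?_, ?_, ?_⟩
    · intro v
      induction v using Quotient.inductionOn with | _ a => ?_
      exact u2 a.1 a.2
    · intro v
      induction v using Quotient.inductionOn with | _ a => ?_
      exact (extE_mk hy f a.2).symm.trans (u3 a.1 a.2)
    · rintro d ⟨⟨⟨s, b, q⟩, ha⟩, rfl, h0⟩
      simp only at h0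
      subst h0
      exact (extV_mk hy g ha).symm.trans (u4 s q)
    · intro d hd hn
      obtain ⟨a, ha, e⟩ := hσ d hd hn
      rw [e, ← ha]
      have h := u5 a.1.s a.2.1 a.1.b a.2.2.1 a.2.2.2.1 a.2.2.2.2 a.1.q
      change extV hy g a.1 + U a.1 =
        extV hy g ((bk r a.1).rv x π r) + U ((bk r a.1).rv x π r) at h
      rw [rv_bk, extV_mk hy g (TS.om hr a.2), extV_mk hy g (TS.om hr (TS.rv0 hy a.2))] at h
      exact h

end Aux

theorem euler (hy : Hyp x S) (hT : ∃ s ∈ S, s • x ≠ x) (N : Subgroup H) [N.Normal] [N.FiniteIndex]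
    (hN : ∀ s ∈ S, ∀ t : ℝ, 0 < t → t < len x s → ¬ Simple x S s t → ∀ h, Flip x s t h → h ∉ N) :
    False := by
  obtain ⟨ρ, hrig⟩ := rig hy.symm hy.gen hy.dens (Equiv.Perm ((H ⧸ N) × ZMod 2))
    (iotaQ (QuotientGroup.mk' N))
  obtain ⟨r, hr⟩ := exists_goodR hy ρ (QuotientGroup.mk' N)
  exact euler_aux hy hr hT hrig (fun s hs t t0 t1 hs' h hf e =>
    hN s hs t t0 t1 hs' h hf ((QuotientGroup.eq_one_iff h).mp e))

end Pool.Agent.MP_e97151_al

end
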