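import Pool.Agent.MP_e97151_al.Mg.CC3

-- part MP_e97151_al.Ins0
section

/-! Crossing systems: finite families of labelled points on the arcs, closed under bands. -/

set_option autoImplicit false
set_option linter.unusedSectionVars false

namespace Pool.Agent.MP_e97151_al

/-- a point `c` of the arc of `s` with a label `k` and an orientation `e` -/
@[ext] structure Cx (H : Type) where
  s : H
  c : ℝ
  k : H
  e : Bool

variable {H Y : Type} [Group H] [MetricSpace Y] [MulAction H Y] [IsIsometricSMul H Y] [RT Y]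

def Cx.rev (x : Y) (e : Cx H) : Cx H := ⟨e.s⁻¹, len x e.s - e.c, e.s⁻¹ * e.k, !e.e⟩

/-- move along a band -/
def CM (x : Y) (S : Finset H) (ρ : ℕ) (e e' : Cx H) : Prop :=
  e.s ∈ S ∧ e'.s ∈ S ∧ e'.e = e.e ∧ ∃ (g : H) (δ : ℝ), 0 < δ ∧ Band S ρ g e.s e'.s ∧
    W x g e.s (e.c - δ) e'.s (e'.c - δ) (2 * δ) ∧ e'.k = g * e.k

def Stp (x : Y) (S : Finset H) (ρ : ℕ) (e e' : Cx H) : Prop := CM x S ρ e e' ∨ e' = e.rev x

def Rel (x : Y) (S : Finset H) (ρ : ℕ) : Cx H → Cx H → Prop := Relation.ReflTransGen (Stp x S ρ)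

structure XS (x : Y) (S : Finset H) (ρ : ℕ) (X : Set (Cx H)) : Prop where
  fin : X.Finite
  mem : ∀ e ∈ X, e.s ∈ S ∧ 0 < e.c ∧ e.c < len x e.s ∧ e.c ∉ Sing x S ρ e.s
  func : ∀ e ∈ X, ∀ e' ∈ X, e.s = e'.s → e.c = e'.c → e = e'
  rev : ∀ e ∈ X, e.rev x ∈ X
  cm : ∀ e ∈ X, ∀ e', CM x S ρ e e' → e' ∈ X

/-- `l s` lists the points of `X` on the arc of `s` in increasing order -/
def IsLst (X : Set (Cx H)) (l : H → List (Cx H)) : Prop :=
  ∀ s, (l s).Pairwise (fun e e' => e.c < e'.c) ∧ ∀ e, e ∈ l s ↔ e ∈ X ∧ e.s = s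

def First (X : Set (Cx H)) (e : Cx H) : Prop := e ∈ X ∧ ∀ e' ∈ X, e'.s = e.s → e.c ≤ e'.c

/-- `e'` is the next point after `e` on the same arc -/
def Nx (X : Set (Cx H)) (e e' : Cx H) : Prop :=
  e ∈ X ∧ e' ∈ X ∧ e'.s = e.s ∧ e.c < e'.c ∧ ∀ e'' ∈ X, e''.s = e.s → e.c < e''.c → e'.c ≤ e''.c

/-- orientations alternate along the arcs, starting with `ε` -/
structure Alt (X : Set (Cx H)) (ε : Bool) : Prop where
  first : ∀ e, First X e → e.e = ε
  nx : ∀ e e', Nx X e e' → e'.e = !e.e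

/-- action on the `false` half of `Q × Bool` by left multiplication -/
def iotaF {Q : Type} [Group Q] (π : H →* Q) : H →* Equiv.Perm (Q × Bool) where
  toFun h :=
    { toFun := fun p => (if p.2 then p.1 else π h * p.1, p.2)
      invFun := fun p => (if p.2 then p.1 else (π h)⁻¹ * p.1, p.2)
      left_inv := by rintro ⟨q, _ | _⟩ <;> simp
      right_inv := by rintro ⟨q, _ | _⟩ <;> simp }
  map_one' := by ext ⟨q, _ | _⟩ <;> simp
  map_mul' := by intro a b; ext ⟨q, _ | _⟩ <;> simp [mul_assoc]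

def swapZ (Q : Type) : Equiv.Perm (Q × Bool) where
  toFun p := (p.1, !p.2)
  invFun p := (p.1, !p.2)
  left_inv := by rintro ⟨q, b⟩; simp
  right_inv := by rintro ⟨q, b⟩; simp

theorem iotaF_true {Q : Type} [Group Q] (π : H →* Q) (h : H) (q : Q) :
    iotaF π h (q, true) = (q, true) := rfl

theorem iotaF_false {Q : Type} [Group Q] (π : H →* Q) (h : H) (q : Q) :
    iotaF π h (q, false) = (π h * q, false) := rfl

theorem swapZ_apply (Q : Type) (q : Q) (b : Bool) : swapZ Q (q, b) = (q, !b) := rfl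

theorem swapZ_mul_self (Q : Type) : swapZ Q * swapZ Q = 1 := by
  ext ⟨q, b⟩ <;> simp [swapZ_apply]

variable {x : Y} {S : Finset H} {ρ : ℕ}

theorem Cx.rev_rev (e : Cx H) : (e.rev x).rev x = e := by
  ext <;> simp [Cx.rev, len_inv]

theorem CM.symm (hS : ∀ s ∈ S, s⁻¹ ∈ S) {e e' : Cx H} (h : CM x S ρ e e') : CM x S ρ e' e := by
  obtain ⟨h1, h2, h3, g, δ, hδ, hb, hw, hk⟩ := h
  exact ⟨h2, h1, h3.symm, g⁻¹, δ, hδ, hb.symm hS, hw.symm, by rw [hk, inv_mul_cancel_left]⟩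

theorem CM.rev (hS : ∀ s ∈ S, s⁻¹ ∈ S) {e e' : Cx H} (h : CM x S ρ e e') :
    CM x S ρ (e.rev x) (e'.rev x) := by
  obtain ⟨h1, h2, h3, g, δ, hδ, hb, hw, hk⟩ := h
  refine ⟨hS _ h1, hS _ h2, by simp [Cx.rev, h3], e'.s⁻¹ * g * e.s, δ, hδ, hb.rev, ?_, ?_⟩
  · have := hw.rev
    rw [show len x e.s - 2 * δ - (e.c - δ) = len x e.s - e.c - δ by ring,
      show len x e'.s - 2 * δ - (e'.c - δ) = len x e'.s - e'.c - δ by ring] at this
    exact this
  · simp [Cx.rev, hk, mul_assoc]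

theorem CM.mono {ρ' : ℕ} (hρ : ρ ≤ ρ') {e e' : Cx H} (h : CM x S ρ e e') : CM x S ρ' e e' := by
  obtain ⟨h1, h2, h3, g, δ, hδ, hb, hw, hk⟩ := h
  exact ⟨h1, h2, h3, g, δ, hδ, hb.mono hρ, hw, hk⟩

/-- a point in the interior of a band can be moved -/
theorem CM.of_W {g s s' : H} {b b' l c : ℝ} (hs : s ∈ S) (hs' : s' ∈ S) (hb : Band S ρ g s s')
    (hw : W x g s b s' b' l) (h1 : b < c) (h2 : c < b + l) (k : H) (ε : Bool) :
    CM x S ρ ⟨s, c, k, ε⟩ ⟨s', c + b' - b, g * k, ε⟩ := by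
  have m1 := min_le_left (c - b) (b + l - c)
  have m2 := min_le_right (c - b) (b + l - c)
  have m3 : 0 < min (c - b) (b + l - c) := lt_min (by linarith) (by linarith)
  refine ⟨hs, hs', rfl, g, min (c - b) (b + l - c), m3, hb, ?_, rfl⟩
  exact hw.sub' (by simp only; linarith) (by linarith) (by simp only; linarith) (by simp only; ring)

theorem Stp.symm (hS : ∀ s ∈ S, s⁻¹ ∈ S) {e e' : Cx H} (h : Stp x S ρ e e') : Stp x S ρ e' e := by
  rcases h with h | rfl
  · exact Or.inl (h.symm hS)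
  · exact Or.inr (Cx.rev_rev e).symm

theorem Rel.symm (hS : ∀ s ∈ S, s⁻¹ ∈ S) {e e' : Cx H} (h : Rel x S ρ e e') : Rel x S ρ e' e := by
  induction h with
  | refl => exact Relation.ReflTransGen.refl
  | tail _ h2 ih => exact Relation.ReflTransGen.head (h2.symm hS) ih

theorem XS.rel {X : Set (Cx H)} (hX : XS x S ρ X) {e e' : Cx H} (he : e ∈ X) (h : Rel x S ρ e e') :
    e' ∈ X := by
  induction h with
  | refl => exact he
  | tail _ h2 ih =>
    rcases h2 with h2 | rfl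
    · exact hX.cm _ ih _ h2
    · exact hX.rev _ ih

theorem XS.mono {ρ' : ℕ} (hρ : ρ ≤ ρ') {X : Set (Cx H)} (hX : XS x S ρ' X) : XS x S ρ X :=
  ⟨hX.fin, fun e he => ⟨(hX.mem e he).1, (hX.mem e he).2.1, (hX.mem e he).2.2.1,
    fun h => (hX.mem e he).2.2.2 (sing_mono hρ _ h)⟩, hX.func, hX.rev,
    fun e he e' h => hX.cm e he e' (h.mono hρ)⟩

theorem Nx.unique {X : Set (Cx H)} (hX : XS x S ρ X) {e e' e'' : Cx H} (h : Nx X e e')
    (h' : Nx X e e'') : e' = e'' :=
  hX.func _ h.2.1 _ h'.2.1 (h.2.2.1.trans h'.2.2.1.symm)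
    (le_antisymm (h.2.2.2.2 _ h'.2.1 h'.2.2.1 h'.2.2.2.1) (h'.2.2.2.2 _ h.2.1 h.2.2.1 h.2.2.2.1))

theorem Nx.rev {X : Set (Cx H)} (hX : XS x S ρ X) {e e' : Cx H} (h : Nx X e e') :
    Nx X (e'.rev x) (e.rev x) := by
  obtain ⟨h1, h2, h3, h4, h5⟩ := h
  refine ⟨hX.rev _ h2, hX.rev _ h1, by simp [Cx.rev, h3], by simp only [Cx.rev, h3]; linarith, ?_⟩
  intro f hf hs hc
  simp only [Cx.rev, h3] at hs hc ⊢
  by_contra hlt
  have := h5 (f.rev x) (hX.rev _ hf) (by simp [Cx.rev, hs])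
    (by simp only [Cx.rev, hs, len_inv]; linarith)
  simp only [Cx.rev, hs, len_inv] at this
  linarith

theorem exists_first {X : Set (Cx H)} (hX : XS x S ρ X) {e : Cx H} (he : e ∈ X) :
    ∃ f, First X f ∧ f.s = e.s := by
  obtain ⟨f, ⟨hf1, hf2⟩, hmin⟩ := Set.exists_min_image {f ∈ X | f.s = e.s} (·.c)
    (hX.fin.subset (fun _ h => h.1)) ⟨e, he, rfl⟩
  exact ⟨f, ⟨hf1, fun e' he' hs => hmin e' ⟨he', hs.trans hf2⟩⟩, hf2⟩

/-- a point that is not the last one on its arc has a next point -/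
theorem exists_nx_or_last {X : Set (Cx H)} (hX : XS x S ρ X) {e : Cx H} (he : e ∈ X) :
    (∃ e', Nx X e e') ∨ First X (e.rev x) := by
  by_cases h : ∃ f ∈ X, f.s = e.s ∧ e.c < f.c
  · left
    obtain ⟨f, ⟨hf1, hf2, hf3⟩, hmin⟩ := Set.exists_min_image {f ∈ X | f.s = e.s ∧ e.c < f.c} (·.c)
      (hX.fin.subset (fun _ h => h.1)) (by obtain ⟨f, h1, h2⟩ := h; exact ⟨f, h1, h2⟩)
    exact ⟨f, he, hf1, hf2, hf3, fun e'' h1 h2 h3 => hmin e'' ⟨h1, h2, h3⟩⟩
  · right
    push Not at h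
    refine ⟨hX.rev _ he, fun f hf hs => ?_⟩
    simp only [Cx.rev] at hs ⊢
    have := h (f.rev x) (hX.rev _ hf) (by simp [Cx.rev, hs])
    simp only [Cx.rev, hs, len_inv] at this
    linarith

theorem Alt.exists_nx {X : Set (Cx H)} (hX : XS x S ρ X) {ε : Bool} (ha : Alt X ε) {e : Cx H}
    (he : e ∈ X) (hε : e.e = ε) : ∃ e', Nx X e e' := by
  rcases exists_nx_or_last hX he with h | h
  · exact h
  · have := ha.first _ h
    simp [Cx.rev, hε] at this

theorem exists_lst {X : Set (Cx H)} (hX : XS x S ρ X) : ∃ l, IsLst X l := by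
  classical
  refine ⟨fun s => ((hX.fin.toFinset.filter (fun e => e.s = s)).toList).mergeSort
    (fun e e' => decide (e.c ≤ e'.c)), fun s => ?_⟩
  have hm : ∀ e, e ∈ ((hX.fin.toFinset.filter (fun e => e.s = s)).toList).mergeSort
      (fun e e' => decide (e.c ≤ e'.c)) ↔ e ∈ X ∧ e.s = s := by
    intro e; simp
  refine ⟨?_, hm⟩
  have h1 := List.pairwise_mergeSort (le := fun e e' : Cx H => decide (e.c ≤ e'.c))
    (fun a b c h1 h2 => by simp only [decide_eq_true_eq] at *; exact le_trans h1 h2)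
    (fun a b => by simpa using le_total a.c b.c)
    ((hX.fin.toFinset.filter (fun e => e.s = s)).toList)
  have h2 : (((hX.fin.toFinset.filter (fun e => e.s = s)).toList).mergeSort
      (fun e e' => decide (e.c ≤ e'.c))).Nodup :=
    (List.mergeSort_perm _ _).nodup_iff.mpr (Finset.nodup_toList _)
  refine List.Pairwise.imp_of_mem ?_ (h1.and h2)
  intro a b ha hb h
  rw [hm] at ha hb
  exact lt_of_le_of_ne (by simpa using h.1)
    (fun e => h.2 (hX.func a ha.1 b hb.1 (ha.2.trans hb.2.symm) e))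

theorem IsLst.nil {X : Set (Cx H)} (hX : XS x S ρ X) {l : H → List (Cx H)} (hl : IsLst X l) {s : H}
    (hs : s • x = x) : l s = [] := by
  apply List.eq_nil_iff_forall_not_mem.mpr
  intro e he
  obtain ⟨h1, h2⟩ := ((hl s).2 e).mp he
  obtain ⟨-, h3, h4, -⟩ := hX.mem e h1
  rw [h2, len_eq_zero.mpr hs] at h4
  linarith

end Pool.Agent.MP_e97151_al

end

-- part MP_e97151_al.Ins
section

/-! Insertion of group elements at the points of a crossing system. -/

set_option autoImplicit false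
set_option linter.unusedSectionVars false

namespace Pool.Agent.MP_e97151_al

variable {H Y : Type} [Group H] [MetricSpace Y] [MulAction H Y] [IsIsometricSMul H Y] [RT Y]
variable {x : Y} {S : Finset H} {ρ : ℕ}

/-- two strictly increasing lists with the same members are equal -/
theorem ins_eq_of_mem {L L' : List (Cx H)} (h : L.Pairwise (fun e e' => e.c < e'.c))
    (h' : L'.Pairwise (fun e e' => e.c < e'.c)) (hm : ∀ e, e ∈ L ↔ e ∈ L') : L = L' := by
  have n1 : L.Nodup := h.imp (fun {a b} hab e => by rw [e] at hab; exact lt_irrefl _ hab)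
  have n2 : L'.Nodup := h'.imp (fun {a b} hab e => by rw [e] at hab; exact lt_irrefl _ hab)
  have hp : L.Perm L' := (List.perm_ext_iff_of_nodup n1 n2).mpr hm
  exact List.Perm.eq_of_pairwise (fun a b _ _ h1 h2 => absurd h1 (lt_asymm h2)) h h' hp

open Classical in
/-- the members of `L` whose coordinate satisfies `P` -/
noncomputable def insSel (L : List (Cx H)) (P : ℝ → Prop) : List (Cx H) :=
  L.filter (fun e => decide (P e.c))

theorem mem_insSel {L : List (Cx H)} {P : ℝ → Prop} {e : Cx H} :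
    e ∈ insSel L P ↔ e ∈ L ∧ P e.c := by
  unfold insSel; simp

theorem insSel_pw {L : List (Cx H)} (h : L.Pairwise (fun e e' => e.c < e'.c)) (P : ℝ → Prop) :
    (insSel L P).Pairwise (fun e e' => e.c < e'.c) := by
  unfold insSel; exact h.filter _

theorem insSel_split {L : List (Cx H)} (h : L.Pairwise (fun e e' => e.c < e'.c))
    {P Q R : ℝ → Prop} (hQR : ∀ a b, Q a → R b → a < b)
    (hP : ∀ e ∈ L, P e.c ↔ Q e.c ∨ R e.c) : insSel L P = insSel L Q ++ insSel L R := by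
  apply ins_eq_of_mem (insSel_pw h P)
  · rw [List.pairwise_append]
    exact ⟨insSel_pw h Q, insSel_pw h R, fun a ha b hb =>
      hQR _ _ (mem_insSel.mp ha).2 (mem_insSel.mp hb).2⟩
  · intro e
    rw [List.mem_append, mem_insSel, mem_insSel, mem_insSel]
    constructor
    · rintro ⟨h1, h2⟩
      rcases (hP e h1).mp h2 with h3 | h3
      · exact Or.inl ⟨h1, h3⟩
      · exact Or.inr ⟨h1, h3⟩
    · rintro (⟨h1, h2⟩ | ⟨h1, h2⟩)
      · exact ⟨h1, (hP e h1).mpr (Or.inl h2)⟩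
      · exact ⟨h1, (hP e h1).mpr (Or.inr h2)⟩

theorem insSel_all {L : List (Cx H)} {P : ℝ → Prop} (hP : ∀ e ∈ L, P e.c) : insSel L P = L := by
  unfold insSel
  exact List.filter_eq_self.mpr (fun e he => by simpa using hP e he)

theorem insSel_none {L : List (Cx H)} {P : ℝ → Prop} (hP : ∀ e ∈ L, ¬ P e.c) :
    insSel L P = [] := by
  apply List.eq_nil_iff_forall_not_mem.mpr
  intro e he
  exact hP e (mem_insSel.mp he).1 (mem_insSel.mp he).2

theorem insSel_single {X : Set (Cx H)} {l : H → List (Cx H)} (hX : XS x S ρ X) (hl : IsLst X l)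
    {e : Cx H} (he : e ∈ X) : insSel (l e.s) (fun c => c = e.c) = [e] := by
  apply ins_eq_of_mem (insSel_pw (hl e.s).1 _) (List.pairwise_singleton _ _)
  intro f
  rw [mem_insSel, (hl e.s).2, List.mem_singleton]
  constructor
  · rintro ⟨⟨h1, h2⟩, h3⟩
    exact hX.func f h1 e he h2 h3
  · rintro rfl
    exact ⟨⟨he, rfl⟩, rfl⟩

theorem insSel_rev {X : Set (Cx H)} {l : H → List (Cx H)} (hX : XS x S ρ X) (hl : IsLst X l)
    (s : H) (t : ℝ) : insSel (l s⁻¹) (fun c => c < len x s - t) =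
      ((insSel (l s) (fun c => t < c)).map (Cx.rev x)).reverse := by
  apply ins_eq_of_mem (insSel_pw (hl s⁻¹).1 _)
  · rw [List.pairwise_reverse, List.pairwise_map]
    refine List.Pairwise.imp_of_mem ?_ (insSel_pw (hl s).1 (fun c => t < c))
    intro a b ha hb hab
    have h1 := (((hl s).2 a).mp (mem_insSel.mp ha).1).2
    have h2 := (((hl s).2 b).mp (mem_insSel.mp hb).1).2
    simp only [Cx.rev, h1, h2]
    linarith
  · intro e
    rw [mem_insSel, (hl s⁻¹).2, List.mem_reverse, List.mem_map]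
    constructor
    · rintro ⟨⟨h1, h2⟩, h3⟩
      refine ⟨e.rev x, ?_, Cx.rev_rev e⟩
      rw [mem_insSel, (hl s).2]
      refine ⟨⟨hX.rev e h1, by simp [Cx.rev, h2]⟩, ?_⟩
      simp only [Cx.rev, h2, len_inv]
      linarith
    · rintro ⟨f, hf, rfl⟩
      rw [mem_insSel, (hl s).2] at hf
      obtain ⟨⟨h1, h2⟩, h3⟩ := hf
      refine ⟨⟨hX.rev f h1, by simp [Cx.rev, h2]⟩, ?_⟩
      simp only [Cx.rev, h2]
      linarith

theorem insSel_band (hS : ∀ s ∈ S, s⁻¹ ∈ S) {X : Set (Cx H)} {l : H → List (Cx H)}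
    (hX : XS x S ρ X) (hl : IsLst X l) {s s' k : H} (hs : s ∈ S) (hs' : s' ∈ S)
    (hb : Band S ρ k s s') {t t' m : ℝ} (hw : W x k s t s' t' m) (ht : t ∈ Sing x S ρ s)
    (ht' : t' ∈ Sing x S ρ s') :
    (∀ f ∈ insSel (l s) (fun c => t ≤ c ∧ c < t + m), f ∈ X ∧
      CM x S ρ f ⟨s', f.c + t' - t, k * f.k, f.e⟩) ∧
    insSel (l s') (fun c => t' ≤ c ∧ c < t' + m) =
      (insSel (l s) (fun c => t ≤ c ∧ c < t + m)).map
        (fun f => ⟨s', f.c + t' - t, k * f.k, f.e⟩) := by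
  have key : ∀ f ∈ insSel (l s) (fun c => t ≤ c ∧ c < t + m), f ∈ X ∧
      CM x S ρ f ⟨s', f.c + t' - t, k * f.k, f.e⟩ := by
    intro f hf
    rw [mem_insSel, (hl s).2] at hf
    obtain ⟨⟨h1, h2⟩, h3, h4⟩ := hf
    have h5 : t < f.c := lt_of_le_of_ne h3 (fun e => (hX.mem f h1).2.2.2 (by rw [h2, ← e]; exact ht))
    have := CM.of_W hs hs' hb hw h5 h4 f.k f.e
    have e : (⟨s, f.c, f.k, f.e⟩ : Cx H) = f := by rw [← h2]
    rw [e] at this
    exact ⟨h1, this⟩
  refine ⟨key, ?_⟩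
  apply ins_eq_of_mem (insSel_pw (hl s').1 _)
  · rw [List.pairwise_map]
    refine (insSel_pw (hl s).1 _).imp ?_
    intro a b hab
    simp only
    linarith
  · intro e
    rw [List.mem_map]
    constructor
    · intro he
      rw [mem_insSel, (hl s').2] at he
      obtain ⟨⟨h1, h2⟩, h3, h4⟩ := he
      have h5 : t' < e.c :=
        lt_of_le_of_ne h3 (fun h => (hX.mem e h1).2.2.2 (by rw [h2, ← h]; exact ht'))
      have := CM.of_W hs' hs (hb.symm hS) hw.symm h5 h4 e.k e.e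
      have e1 : (⟨s', e.c, e.k, e.e⟩ : Cx H) = e := by rw [← h2]
      rw [e1] at this
      refine ⟨⟨s, e.c + t - t', k⁻¹ * e.k, e.e⟩, ?_, ?_⟩
      · rw [mem_insSel, (hl s).2]
        exact ⟨⟨hX.cm e h1 _ this, rfl⟩, by simp only; linarith, by simp only; linarith⟩
      · ext
        · exact h2.symm
        · simp only; ring
        · simp
        · rfl
    · rintro ⟨f, hf, rfl⟩
      obtain ⟨h1, h2⟩ := key f hf
      rw [mem_insSel] at hf
      rw [mem_insSel, (hl s').2]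
      exact ⟨⟨hX.cm f h1 _ h2, rfl⟩, by simp only; linarith [hf.2.1], by simp only; linarith [hf.2.2]⟩

theorem ins_prod_conj {Γ : Type} [Group Γ] {α : Type} (L : List α) (f g : α → Γ) (a : Γ)
    (h : ∀ e ∈ L, a * f e = g e * a) : a * (L.map f).prod = (L.map g).prod * a := by
  induction L with
  | nil => simp
  | cons e L ih =>
    simp only [List.map_cons, List.prod_cons]
    rw [← mul_assoc, h e (by simp), mul_assoc, ih (fun f hf => h f (by simp [hf])), mul_assoc]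

theorem ins_prod_rev {Γ : Type} [Group Γ] {α : Type} (L : List α) (f g : α → Γ) (a : Γ)
    (h : ∀ e ∈ L, g e = a⁻¹ * (f e)⁻¹ * a) :
    (L.map g).reverse.prod = a⁻¹ * ((L.map f).prod)⁻¹ * a := by
  induction L with
  | nil => simp
  | cons e L ih =>
    simp only [List.map_cons, List.prod_cons, List.reverse_cons, List.prod_append, List.prod_nil]
    rw [ih (fun f hf => h f (by simp [hf])), h e (by simp)]
    group

/-- `I e = ι e.k * ζ e * (ι e.k)⁻¹`, `C s t` is the product of the `I e` over the points before `t`,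
`D e = C e.s e.c * ι e.k`; apply `level`. -/
theorem ins (hS : ∀ s ∈ S, s⁻¹ ∈ S) {X : Set (Cx H)} {l : H → List (Cx H)} (hX : XS x S ρ X)
    (hl : IsLst X l) {Γ : Type} [Group Γ] (ι : H →* Γ) (ζ : Cx H → Γ)
    (hζ : ∀ e ∈ X, ∀ e', CM x S ρ e e' → ζ e' = ζ e) (hζr : ∀ e ∈ X, ζ (e.rev x) = (ζ e)⁻¹)
    (ψ : H → Γ) (hψ : ∀ s, ψ s = ((l s).map (fun e => ι e.k * ζ e * (ι e.k)⁻¹)).prod * ι s) :
    (∀ w : List H, (∀ a ∈ w, a ∈ S) → w.length ≤ ρ → w.prod = 1 → (w.map ψ).prod = 1) ∧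
    ∃ D : Cx H → Γ,
      (∀ e ∈ X, ∀ e', CM x S ρ e e' → ∃ w : List H, (∀ a ∈ w, a ∈ S) ∧ w.prod * e.k = e'.k ∧
        (w.map ψ).prod * D e = D e') ∧
      (∀ e ∈ X, ψ e.s * D (e.rev x) = D e * ζ e) ∧
      (∀ e, First X e → D e = ι e.k) ∧
      (∀ e e', Nx X e e' → D e' = D e * ζ e * (ι e.k)⁻¹ * ι e'.k) := by
  set I : Cx H → Γ := fun e => ι e.k * ζ e * (ι e.k)⁻¹ with hI
  let Pr : H → (ℝ → Prop) → Γ := fun s P => ((insSel (l s) P).map I).prod
  let C : H → ℝ → Γ := fun s t => Pr s (fun c => c < t)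
  have split : ∀ s (P Q R : ℝ → Prop), (∀ a b, Q a → R b → a < b) →
      (∀ e ∈ l s, P e.c ↔ Q e.c ∨ R e.c) → Pr s P = Pr s Q * Pr s R := by
    intro s P Q R h1 h2
    simp only [Pr]
    rw [insSel_split (hl s).1 h1 h2, List.map_append, List.prod_append]
  have hfull : ∀ s, ψ s = Pr s (fun _ => True) * ι s := by
    intro s
    simp only [Pr]
    rw [insSel_all (fun _ _ => trivial), hψ]
  have hone : ∀ e ∈ X, Pr e.s (fun c => c = e.c) = I e := by
    intro e he
    simp only [Pr]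
    rw [insSel_single hX hl he]
    simp
  have hrev0 : ∀ s t, C s⁻¹ (len x s - t) = (ι s)⁻¹ * (Pr s (fun c => t < c))⁻¹ * ι s := by
    intro s t
    simp only [C, Pr]
    rw [insSel_rev hX hl, List.map_reverse, List.map_map]
    apply ins_prod_rev
    intro e he
    obtain ⟨h1, h2⟩ := ((hl s).2 e).mp (mem_insSel.mp he).1
    simp only [Function.comp, hI, hζr e h1]
    simp only [Cx.rev, h2, map_mul, map_inv]
    group
  have hband0 : ∀ s ∈ S, ∀ s' ∈ S, ∀ k, Band S ρ k s s' → ∀ t t' m, W x k s t s' t' m →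
      t ∈ Sing x S ρ s → t' ∈ Sing x S ρ s' →
      ι k * ((C s t)⁻¹ * C s (t + m)) = ((C s' t')⁻¹ * C s' (t' + m)) * ι k := by
    intro s hs s' hs' k hb t t' m hw ht ht'
    have hm : 0 ≤ m := hw.1
    have e : ∀ s t, (C s t)⁻¹ * C s (t + m) = Pr s (fun c => t ≤ c ∧ c < t + m) := by
      intro s t
      have : C s (t + m) = C s t * Pr s (fun c => t ≤ c ∧ c < t + m) := by
        apply split
        · intro a b h1 h2; linarith [h2.1]
        · intro e _
          constructor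
          · intro h
            rcases lt_or_ge e.c t with h' | h'
            · exact Or.inl h'
            · exact Or.inr ⟨h', h⟩
          · rintro (h | h)
            · linarith
            · exact h.2
      rw [this, inv_mul_cancel_left]
    rw [e, e]
    obtain ⟨k1, k2⟩ := insSel_band hS hX hl hs hs' hb hw ht ht'
    simp only [Pr]
    rw [k2, List.map_map]
    apply ins_prod_conj
    intro f hf
    obtain ⟨h1, h2⟩ := k1 f hf
    simp only [Function.comp, hI, hζ f h1 _ h2, map_mul]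
    group
  obtain ⟨L1, L2⟩ := level (x := x) hS ρ ι C ψ
    (by
      intro s _
      rw [hψ]
      simp only [C, Pr]
      rw [insSel_all]
      intro e he
      obtain ⟨h1, h2⟩ := ((hl s).2 e).mp he
      rw [← h2]; exact (hX.mem e h1).2.2.1)
    (by
      intro s _
      simp only [C, Pr]
      rw [insSel_none]
      · simp
      intro e he
      obtain ⟨h1, -⟩ := ((hl s).2 e).mp he
      exact not_lt.mpr (hX.mem e h1).2.1.le)
    (by
      intro s _ t ht
      have : Pr s (fun _ => True) = C s t * Pr s (fun c => t < c) := by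
        apply split
        · intro a b h1 h2; linarith
        · intro e he
          obtain ⟨h1, h2⟩ := ((hl s).2 e).mp he
          have hne : e.c ≠ t := fun h => (hX.mem e h1).2.2.2 (by rw [h2, h]; exact ht)
          simpa using lt_or_gt_of_ne hne
      rw [hrev0, hfull, this]
      group)
    (fun s hs s' hs' k hb t t' m _ hw ht _ ht' _ => hband0 s hs s' hs' k hb t t' m hw ht ht')
  refine ⟨L1, fun e => C e.s e.c * ι e.k, ?_, ?_, ?_, ?_⟩
  · intro e he e' hcm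
    obtain ⟨hs, hs', -, g, δ, hδ, hb, hw, hk⟩ := hcm
    obtain ⟨z, hz, hz1, hz2, hw2⟩ := band_start hS hs hs' hb (by linarith) hw
    obtain ⟨w, hw3, hw4, hw5⟩ := L2 _ hs _ hs' g hb _ _ _ (by linarith) hw2 hz1 hz2
    have hw6 : W x g e.s z e'.s (z + (e'.c - δ) - (e.c - δ)) (e.c - z) :=
      hw2.sub' le_rfl (by linarith) (by linarith) rfl
    have h7 := hband0 _ hs _ hs' g hb _ _ _ hw6 hz1 hz2
    rw [show z + (e.c - z) = e.c by ring,
      show z + (e'.c - δ) - (e.c - δ) + (e.c - z) = e'.c by ring] at h7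
    refine ⟨w, hw3, by rw [hw4, hk], ?_⟩
    simp only
    calc (w.map ψ).prod * (C e.s e.c * ι e.k)
        = ((w.map ψ).prod * C e.s z) * ((C e.s z)⁻¹ * C e.s e.c) * ι e.k := by group
      _ = C e'.s (z + (e'.c - δ) - (e.c - δ)) * (ι g * ((C e.s z)⁻¹ * C e.s e.c)) * ι e.k := by
          rw [hw5]; group
      _ = C e'.s e'.c * ι e'.k := by rw [h7, hk, map_mul]; group
  · intro e he
    have h1 : Pr e.s (fun _ => True) = Pr e.s (fun c => c ≤ e.c) * Pr e.s (fun c => e.c < c) := by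
      apply split
      · intro a b h1 h2; linarith
      · intro f _
        simpa using le_or_gt f.c e.c
    have h2 : Pr e.s (fun c => c ≤ e.c) = C e.s e.c * Pr e.s (fun c => c = e.c) := by
      apply split
      · intro a b h1 h2; linarith
      · intro f _
        exact le_iff_lt_or_eq
    have h3 := hrev0 e.s e.c
    show ψ e.s * (C e.s⁻¹ (len x e.s - e.c) * ι (e.s⁻¹ * e.k)) = C e.s e.c * ι e.k * ζ e
    rw [h3, hfull, h1, h2, hone e he, map_mul, map_inv]
    simp only [hI]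
    group
  · intro e he
    have : C e.s e.c = 1 := by
      simp only [C, Pr]
      rw [insSel_none]
      · simp
      intro f hf
      obtain ⟨h1, h2⟩ := ((hl e.s).2 f).mp hf
      exact not_lt.mpr (he.2 f h1 h2)
    simp only [this, one_mul]
  · rintro e e' ⟨h1, h2, h3, h4, h5⟩
    have : C e.s e'.c = C e.s e.c * Pr e.s (fun c => c = e.c) := by
      apply split
      · intro a b h1 h2; linarith
      · intro f hf
        obtain ⟨k1, k2⟩ := ((hl e.s).2 f).mp hf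
        constructor
        · intro h
          rcases lt_trichotomy f.c e.c with h' | h' | h'
          · exact Or.inl h'
          · exact Or.inr h'
          · exact absurd (h5 f k1 k2 h') (not_le.mpr h)
        · rintro (h | h)
          · linarith
          · linarith
    simp only
    rw [h3, this, hone e h1]
    simp only [hI]
    group

end Pool.Agent.MP_e97151_al

end

-- part MP_e97151_al.AP1
section

/-! Near and far side of a crossing system that is a single class. -/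

set_option autoImplicit false
set_option linter.unusedSectionVars false

namespace Pool.Agent.MP_e97151_al

variable {H Y : Type} [Group H] [MetricSpace Y] [MulAction H Y] [IsIsometricSMul H Y] [RT Y]
variable {x : Y} {S : Finset H} {ρ : ℕ}

theorem ap1_swap_ne (Q : Type) [Group Q] : swapZ Q ≠ 1 := by
  intro h
  have := congrArg (fun σ : Equiv.Perm (Q × Bool) => σ (1, true)) h
  simp [swapZ_apply] at this

theorem ap1_swap_inv (Q : Type) : (swapZ Q)⁻¹ = swapZ Q :=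
  inv_eq_of_mul_eq_one_right (swapZ_mul_self Q)

theorem ap1_prod {Γ : Type} [Group Γ] (ι : H →* Γ) (ψ : H → Γ) (h : ∀ s ∈ S, ψ s = ι s)
    (w : List H) (hw : ∀ a ∈ w, a ∈ S) : (w.map ψ).prod = ι w.prod := by
  rw [map_list_prod]
  congr 1
  exact List.map_congr_left fun a ha => h a (hw a ha)

/-- permutations that fix the `true` half pointwise -/
def ap1Wt (Q : Type) : Subgroup (Equiv.Perm (Q × Bool)) where
  carrier := {σ | ∀ q, σ (q, true) = (q, true)}
  one_mem' := fun _ => rfl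
  mul_mem' := by
    intro a b ha hb q
    rw [Equiv.Perm.mul_apply, hb q, ha q]
  inv_mem' := by
    intro a ha q
    rw [Equiv.Perm.inv_eq_iff_eq, ha q]

theorem ap1_nx {X : Set (Cx H)} {s : H} {a b : Cx H} {L : List (Cx H)}
    (hp : (a :: b :: L).Pairwise (fun e e' => e.c < e'.c))
    (hm : ∀ e ∈ a :: b :: L, e ∈ X ∧ e.s = s)
    (hu : ∀ e ∈ a :: b :: L, ∀ e' ∈ X, e'.s = s → e.c < e'.c → e' ∈ a :: b :: L) : Nx X a b := by
  have ha := hm a (by simp)
  have hb := hm b (by simp)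
  rw [List.pairwise_cons, List.pairwise_cons] at hp
  refine ⟨ha.1, hb.1, hb.2.trans ha.2.symm, hp.1 b (by simp), ?_⟩
  intro e he hs hc
  have := hu a (by simp) e he (hs.trans ha.2) hc
  simp only [List.mem_cons] at this
  rcases this with rfl | rfl | h
  · exact absurd hc (lt_irrefl _)
  · exact le_rfl
  · exact (hp.2.1 e h).le

theorem ap1_tail {X : Set (Cx H)} {s : H} {a : Cx H} {L : List (Cx H)}
    (hp : (a :: L).Pairwise (fun e e' => e.c < e'.c))
    (hu : ∀ e ∈ a :: L, ∀ e' ∈ X, e'.s = s → e.c < e'.c → e' ∈ a :: L) :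
    ∀ e ∈ L, ∀ e' ∈ X, e'.s = s → e.c < e'.c → e' ∈ L := by
  intro e he e' he' hs hc
  rw [List.pairwise_cons] at hp
  rcases List.mem_cons.mp (hu e (by simp [he]) e' he' hs hc) with rfl | h
  · exact absurd (lt_trans (hp.1 e he) hc) (lt_irrefl _)
  · exact h

theorem ap1_I_true (k h : H) :
    (iotaF (MonoidHom.id H) k * swapZ H * (iotaF (MonoidHom.id H) k)⁻¹) (h, true) =
      (k * h, false) := by
  rw [← map_inv]
  rfl

theorem ap1_I_false (k h : H) :
    (iotaF (MonoidHom.id H) k * swapZ H * (iotaF (MonoidHom.id H) k)⁻¹) (h, false) =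
      (k⁻¹ * h, true) := by
  rw [← map_inv]
  rfl

theorem ap1_list {X : Set (Cx H)} (hX : XS x S ρ X) {ε : Bool} (halt : Alt X ε) (lam : Cx H → H)
    (h1 : ∀ e e', Nx X e e' → e.e = ε → e.k⁻¹ * e'.k = (lam e)⁻¹ * lam e') (s : H) :
    ∀ (n : ℕ) (L : List (Cx H)), L.length ≤ n → L.Pairwise (fun e e' => e.c < e'.c) →
      (∀ e ∈ L, e ∈ X ∧ e.s = s) →
      (∀ e ∈ L, ∀ e' ∈ X, e'.s = s → e.c < e'.c → e' ∈ L) →
      (∀ a L', L = a :: L' → a.e = ε) → ∀ h : H,
      (L.map (fun e => iotaF (MonoidHom.id H) e.k * swapZ H *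
        (iotaF (MonoidHom.id H) e.k)⁻¹)).prod (h, true) =
        ((L.map (fun e => if e.e = ε then (lam e)⁻¹ else lam e)).prod * h, true) := by
  intro n
  induction n with
  | zero =>
    intro L hL _ _ _ _ h
    have : L = [] := List.length_eq_zero_iff.mp (by omega)
    subst this
    simp
  | succ n ih =>
    intro L hL hp hm hu hh h
    match L, hL, hp, hm, hu, hh with
    | [], _, _, _, _, _ => simp
    | [a], _, _, hm, hu, hh =>
      exfalso
      have ha := hm a (by simp)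
      obtain ⟨b, hb⟩ := halt.exists_nx hX ha.1 (hh a [] rfl)
      have := hu a (by simp) b hb.2.1 (hb.2.2.1.trans ha.2) hb.2.2.2.1
      rw [List.mem_singleton] at this
      subst this
      exact lt_irrefl _ hb.2.2.2.1
    | a :: b :: L, hL, hp, hm, hu, hh =>
      have hab : Nx X a b := ap1_nx hp hm hu
      have hae : a.e = ε := hh a _ rfl
      have hbe : b.e = !ε := by rw [halt.nx _ _ hab, hae]
      have hp1 := (List.pairwise_cons.mp hp).2
      have hp2 := (List.pairwise_cons.mp hp1).2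
      have hu1 := ap1_tail hp hu
      have hu2 := ap1_tail hp1 hu1
      have hm1 : ∀ e ∈ b :: L, e ∈ X ∧ e.s = s := fun e he => hm e (List.mem_cons_of_mem _ he)
      have hm2 : ∀ e ∈ L, e ∈ X ∧ e.s = s := fun e he => hm1 e (List.mem_cons_of_mem _ he)
      have hh2 : ∀ c L', L = c :: L' → c.e = ε := by
        rintro c L' rfl
        rw [halt.nx _ _ (ap1_nx hp1 hm1 hu1), hbe, Bool.not_not]
      have key := ih L (by simp only [List.length_cons] at hL; omega) hp2 hm2 hu2 hh2 h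
      have hbne : ¬ b.e = ε := by rw [hbe]; cases ε <;> simp
      simp only [List.map_cons, List.prod_cons, if_pos hae, if_neg hbne]
      rw [Equiv.Perm.mul_apply, Equiv.Perm.mul_apply (iotaF (MonoidHom.id H) b.k * swapZ H * _), key,
        ap1_I_true, ap1_I_false, ← mul_assoc, h1 a b hab hae]
      simp only [mul_assoc]

/-- HINT. Apply `ins` with `ι = iotaF π`, `ζ = z = swapZ Q`; by `hrig` (and `IsLst.nil`) `ψ = ι` on `S`. Then
`E e = (ι e.k)⁻¹ * D e` is invariant under `CM` and `E (rev e) = E e * z`; so `E e = κ` or `κ * z` according to whether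
`e.e = e0.e`. A first point `f` has `E f = 1`; put `ε = f.e`: `E e = 1` if `e.e = ε` and `E e = z` otherwise, `z ≠ 1`.
For `Nx e e'` with `lab = e.k⁻¹ * e'.k`: `E e' = (ι lab)⁻¹ * E e * z * ι lab`. -/
theorem step1 (hS : ∀ s ∈ S, s⁻¹ ∈ S) {X : Set (Cx H)} (hX : XS x S ρ X) (e0 : Cx H) (he0 : e0 ∈ X)
    (hcl : ∀ e ∈ X, Rel x S ρ e0 e) {Q : Type} [Group Q] (π : H →* Q)
    (hrig : ∀ ψ : H → Equiv.Perm (Q × Bool), (∀ s ∈ S, s • x = x → ψ s = iotaF π s) →
      (∀ w : List H, (∀ a ∈ w, a ∈ S) → w.length ≤ ρ → w.prod = 1 → (w.map ψ).prod = 1) →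
      ∀ s ∈ S, ψ s = iotaF π s) :
    ∃ ε : Bool, Alt X ε ∧ ∀ e e', Nx X e e' → e.e = ε → π (e.k⁻¹ * e'.k) = 1 := by
  classical
  obtain ⟨l, hl⟩ := exists_lst hX
  obtain ⟨hrel, D, hcm, hrev, hfirst, hnx⟩ := ins hS hX hl (iotaF π) (fun _ => swapZ Q)
    (fun _ _ _ _ => rfl) (fun _ _ => (ap1_swap_inv Q).symm)
    (fun s => ((l s).map (fun e => iotaF π e.k * swapZ Q * (iotaF π e.k)⁻¹)).prod * iotaF π s)
    (fun _ => rfl)
  have hψ := hrig _ (fun s _ hs => by simp [hl.nil hX hs]) hrel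
  obtain ⟨f, hf, -⟩ := exists_first hX he0
  have key : ∀ e, Rel x S ρ f e →
      (iotaF π e.k)⁻¹ * D e = if e.e = f.e then 1 else swapZ Q := by
    intro e he
    induction he with
    | refl => simp [hfirst f hf]
    | @tail a b hab h2 ih =>
      have ha : a ∈ X := hX.rel hf.1 hab
      rcases h2 with h2 | rfl
      · obtain ⟨w, hw1, hw2, hw3⟩ := hcm a ha b h2
        rw [ap1_prod (iotaF π) _ hψ w hw1] at hw3
        rw [h2.2.2.1, ← ih, ← hw3, ← hw2, map_mul]
        group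
      · have h3 := hrev a ha
        rw [hψ _ (hX.mem a ha).1] at h3
        have h4 : (iotaF π (a.rev x).k)⁻¹ * D (a.rev x) = (iotaF π a.k)⁻¹ * D a * swapZ Q := by
          rw [mul_assoc, ← h3]
          simp only [Cx.rev, map_mul, map_inv]
          group
        have hre : (a.rev x).e = !a.e := rfl
        rw [h4, ih, hre]
        by_cases h5 : a.e = f.e
        · have : ¬ (!a.e) = f.e := by rw [← h5]; cases a.e <;> simp
          rw [if_pos h5, if_neg this, one_mul]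
        · have : (!a.e) = f.e := by
            revert h5; cases a.e <;> cases f.e <;> simp
          rw [if_neg h5, if_pos this, swapZ_mul_self]
  have key' : ∀ e ∈ X, (iotaF π e.k)⁻¹ * D e = if e.e = f.e then 1 else swapZ Q :=
    fun e he => key e (Relation.ReflTransGen.trans ((hcl f hf.1).symm hS) (hcl e he))
  have hstep : ∀ e e', Nx X e e' → (iotaF π e'.k)⁻¹ * D e' =
      (iotaF π (e.k⁻¹ * e'.k))⁻¹ * ((iotaF π e.k)⁻¹ * D e) * swapZ Q * iotaF π (e.k⁻¹ * e'.k) := by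
    intro e e' h
    rw [hnx e e' h]
    simp only [map_mul, map_inv]
    group
  have hne : ∀ e e', Nx X e e' → e.e = f.e → ¬ e'.e = f.e := by
    intro e e' h he he'
    have h3 := hstep e e' h
    rw [key' e h.1, key' e' h.2.1, if_pos he, if_pos he'] at h3
    apply ap1_swap_ne Q
    have h4 : swapZ Q = iotaF π (e.k⁻¹ * e'.k) *
        ((iotaF π (e.k⁻¹ * e'.k))⁻¹ * 1 * swapZ Q * iotaF π (e.k⁻¹ * e'.k)) *
        (iotaF π (e.k⁻¹ * e'.k))⁻¹ := by group
    rw [h4, ← h3]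
    group
  refine ⟨f.e, ⟨?_, ?_⟩, ?_⟩
  · intro e he
    by_contra h
    have h3 := key' e he.1
    rw [if_neg h, hfirst e he, inv_mul_cancel] at h3
    exact ap1_swap_ne Q h3.symm
  · intro e e' h
    by_cases he : e.e = f.e
    · have := hne e e' h he
      rw [he]
      revert this; cases e'.e <;> cases f.e <;> simp
    · have h3 := hstep e e' h
      rw [key' e h.1, key' e' h.2.1, if_neg he, mul_assoc _ (swapZ Q) (swapZ Q), swapZ_mul_self,
        mul_one, inv_mul_cancel] at h3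
      have h4 : e'.e = f.e := by
        by_contra h5
        rw [if_neg h5] at h3
        exact ap1_swap_ne Q h3
      rw [h4]
      revert he; cases e.e <;> cases f.e <;> simp
  · intro e e' h he
    have h3 := hstep e e' h
    rw [key' e h.1, key' e' h.2.1, if_pos he, if_neg (hne e e' h he), mul_one, mul_assoc,
      eq_inv_mul_iff_mul_eq] at h3
    have h4 := congrArg (fun σ : Equiv.Perm (Q × Bool) => (σ (1, false)).1) h3
    simp only [Equiv.Perm.mul_apply, swapZ_apply, iotaF_false, Bool.not_false, iotaF_true,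
      mul_one] at h4
    exact h4.symm

/-- HINT. Apply `ins` with `Γ = Perm (H × Bool)`, `ι = iotaF (MonoidHom.id H)`, `ζ = z = swapZ H`. Let `Wt` be the subgroup
of permutations fixing every `(h, true)`; it contains `ι h`. Claim `ψ s ∈ Wt` for `s ∈ S`: the list `l s` splits into
consecutive pairs `e, e'` with `Nx X e e'`, `e.e = ε` (alternation, `Alt.exists_nx`), the product of the two inserted elements of
a pair maps `(h,true)` to `(e.k⁻¹ * e'.k * h, true) = ((lam e)⁻¹ * lam e' * h, true)`; so the whole product acts on the true part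
by left multiplication with the product in `h2` (induction on the list, two at a time, or with a near/far invariant).
Then `D e' ∈ Wt * D e` for `CM e e'`, `D (rev e) ∈ Wt * D e * z`, `D f ∈ Wt` for first points, so `D e ∈ Wt` if `e.e = ε` and
`D e * z ∈ Wt` otherwise (use the invariant `fun h => (D e)⁻¹ (h,true)`). For a first point `f` on the arc of `e0` and its next point `f'`,
`D f' = D f * z * ι lab` gives `z * ι lab * z ∈ Wt`, so `lab = 1`, so `f.k = f'.k`, contradicting `hp` and `ga_inj`. -/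
theorem step45 (hS : ∀ s ∈ S, s⁻¹ ∈ S) {X : Set (Cx H)} {l : H → List (Cx H)} (hX : XS x S ρ X)
    (hl : IsLst X l) (e0 : Cx H) (he0 : e0 ∈ X) (hcl : ∀ e ∈ X, Rel x S ρ e0 e) (ε : Bool)
    (halt : Alt X ε) (p : Y) (hp : ∀ e ∈ X, e.k • p = ga x e.s e.c) (lam : Cx H → H)
    (h1 : ∀ e e', Nx X e e' → e.e = ε → e.k⁻¹ * e'.k = (lam e)⁻¹ * lam e')
    (h2 : ∀ s ∈ S, ((l s).map (fun e => if e.e = ε then (lam e)⁻¹ else lam e)).prod = 1) :
    False := by
  classical
  obtain ⟨-, D, hcm, hrev, hfirst, hnx⟩ := ins hS hX hl (iotaF (MonoidHom.id H)) (fun _ => swapZ H)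
    (fun _ _ _ _ => rfl) (fun _ _ => (ap1_swap_inv H).symm)
    (fun s => ((l s).map (fun e => iotaF (MonoidHom.id H) e.k * swapZ H *
      (iotaF (MonoidHom.id H) e.k)⁻¹)).prod * iotaF (MonoidHom.id H) s)
    (fun _ => rfl)
  have hψ : ∀ s ∈ S, ((l s).map (fun e => iotaF (MonoidHom.id H) e.k * swapZ H *
      (iotaF (MonoidHom.id H) e.k)⁻¹)).prod * iotaF (MonoidHom.id H) s ∈ ap1Wt H := by
    intro s hs h
    rw [Equiv.Perm.mul_apply, iotaF_true,
      ap1_list hX halt lam h1 s _ (l s) le_rfl (hl s).1 (fun e he => ((hl s).2 e).mp he)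
        (fun e _ e' he' hs' _ => ((hl s).2 e').mpr ⟨he', hs'⟩) ?_ h, h2 s hs, one_mul]
    intro a L' hL
    have ha := ((hl s).2 a).mp (by rw [hL]; simp)
    refine halt.first a ⟨ha.1, fun e' he' hs' => ?_⟩
    have h3 := ((hl s).2 e').mpr ⟨he', hs'.trans ha.2⟩
    have h4 := (hl s).1
    rw [hL] at h3 h4
    rcases List.mem_cons.mp h3 with rfl | h5
    · exact le_rfl
    · exact ((List.pairwise_cons.mp h4).1 e' h5).le
  obtain ⟨f, hf, -⟩ := exists_first hX he0
  have hfe : f.e = ε := halt.first f hf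
  have key : ∀ e, Rel x S ρ f e → ∀ h : H, (D e)⁻¹ (h, true) = (h, decide (e.e = ε)) := by
    intro e he
    induction he with
    | refl =>
      intro h
      rw [hfirst f hf, ← map_inv, iotaF_true]
      simp [hfe]
    | @tail a b hab h3 ih =>
      intro h
      have ha : a ∈ X := hX.rel hf.1 hab
      rcases h3 with h3 | rfl
      · obtain ⟨w, hw1, -, hw3⟩ := hcm a ha b h3
        rw [h3.2.2.1, ← ih h, ← hw3, mul_inv_rev, Equiv.Perm.mul_apply]
        congr 1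
        refine (ap1Wt H).inv_mem (Subgroup.list_prod_mem _ ?_) h
        intro σ hσ
        obtain ⟨s, hs, rfl⟩ := List.mem_map.mp hσ
        exact hψ s (hw1 s hs)
      · have h4 := hrev a ha
        rw [← eq_inv_mul_iff_mul_eq] at h4
        rw [h4, mul_inv_rev, mul_inv_rev, inv_inv, ap1_swap_inv, Equiv.Perm.mul_apply,
          Equiv.Perm.mul_apply, hψ _ (hX.mem a ha).1 h, ih h, swapZ_apply]
        have hre : (a.rev x).e = !a.e := rfl
        rw [hre]
        cases a.e <;> cases ε <;> simp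
  obtain ⟨f', hf'⟩ := halt.exists_nx hX hf.1 hfe
  have h3 := key f' (Relation.ReflTransGen.trans ((hcl f hf.1).symm hS) (hcl f' hf'.2.1)) 1
  rw [Equiv.Perm.inv_eq_iff_eq, hnx f f' hf', hfirst f hf, halt.nx _ _ hf', hfe] at h3
  have h4 : decide ((!ε) = ε) = false := by cases ε <;> simp
  rw [h4, Equiv.Perm.mul_apply, iotaF_false, ap1_I_false] at h3
  have h5 : f'.k = f.k := by
    have := congrArg Prod.fst h3
    simp only [MonoidHom.id_apply, mul_one] at this
    exact (inv_mul_eq_one.mp this.symm).symm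
  have h6 := hp f hf.1
  have h7 := hp f' hf'.2.1
  rw [h5, h6, hf'.2.2.1] at h7
  obtain ⟨-, a1, a2, -⟩ := hX.mem f hf.1
  obtain ⟨-, b1, b2, -⟩ := hX.mem f' hf'.2.1
  rw [hf'.2.2.1] at b2
  exact absurd (ga_inj a1.le a2.le b1.le b2.le h7) hf'.2.2.2.1.ne

end Pool.Agent.MP_e97151_al

end

-- part MP_e97151_al.AP2
section

/-! Two abstract lemmas: rigidity for free targets and existence of potentials. -/

set_option autoImplicit false
set_option linter.unusedSectionVars false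

namespace Pool.Agent.MP_e97151_al

open Pointwise

/-- rigidity over the group with two elements gives rigidity over free groups -/
theorem free_rig {H : Type} [Group H] (S : Finset H) (P : H → Prop) (R : List H → Prop)
    (hrig : ∀ ψ : H → Multiplicative (ZMod 2), (∀ s ∈ S, P s → ψ s = 1) →
      (∀ w : List H, (∀ a ∈ w, a ∈ S) → R w → (w.map ψ).prod = 1) → ∀ s ∈ S, ψ s = 1)
    (V : Type) (ψ : H → FreeGroup V) (h1 : ∀ s ∈ S, P s → ψ s = 1)
    (h2 : ∀ w : List H, (∀ a ∈ w, a ∈ S) → R w → (w.map ψ).prod = 1) : ∀ s ∈ S, ψ s = 1 := by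
  classical
  let G : Subgroup (FreeGroup V) := Subgroup.closure (ψ '' S)
  let φ : H → G := fun s => if h : s ∈ S then ⟨ψ s, Subgroup.subset_closure ⟨s, h, rfl⟩⟩ else 1
  have hφ : ∀ s ∈ S, (φ s : FreeGroup V) = ψ s := fun s h => by simp only [φ, dif_pos h]
  have key : ∀ χ : G →* Multiplicative (ZMod 2), ∀ g, χ g = 1 := by
    intro χ
    have h3 := hrig (fun s => χ (φ s)) (fun s hs hP => by
      have : φ s = 1 := Subtype.ext (by rw [hφ s hs, h1 s hs hP]; rfl)
      simp only [this, map_one]) (fun w hw hR => by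
      have e : (w.map φ).prod = 1 := by
        apply Subtype.ext
        have : ((w.map φ).prod : G) = G.subtype (w.map φ).prod := rfl
        rw [this, map_list_prod, List.map_map, List.map_congr_left (f := G.subtype ∘ φ)
          (g := ψ) (fun a ha => hφ a (hw a ha)), h2 w hw hR]
        rfl
      have := congrArg χ e
      rwa [map_list_prod, List.map_map, map_one] at this)
    rintro ⟨g, hg⟩
    induction hg using Subgroup.closure_induction with
    | mem x hx =>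
      obtain ⟨s, hs, rfl⟩ := hx
      have := h3 s hs
      simp only [φ, dif_pos (show s ∈ S from hs)] at this
      exact this
    | one => exact map_one χ
    | mul x y hx hy ihx ihy =>
      have := map_mul χ ⟨x, hx⟩ ⟨y, hy⟩
      rw [ihx, ihy, mul_one] at this
      exact this
    | inv x hx ih =>
      have := map_inv χ ⟨x, hx⟩
      rw [ih, inv_one] at this
      exact this
  have triv : MonoidHom.id G = 1 := by
    refine IsFreeGroup.ext_hom fun b => ?_
    have := key (IsFreeGroup.lift fun _ => Multiplicative.ofAdd 1) (IsFreeGroup.of b)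
    rw [IsFreeGroup.lift_of] at this
    exact absurd this (by decide)
  intro s hs
  have := DFunLike.congr_fun triv (φ s)
  rw [← hφ s hs]
  exact congrArg Subtype.val this

lemma walk_label {H V : Type} [Group H] (K : Set H) (N : Subgroup H) (Adj : V → H → V → Prop)
    (a : V → H) (hs : ∀ v g v', Adj v g v' → Adj v' g⁻¹ v)
    (hl : ∀ v g v', Adj v g v' → g ∈ N ∧ a v * g * (a v')⁻¹ ∈ K) {u v : V}
    (p : (SimpleGraph.fromRel fun v v' => ∃ g, Adj v g v').Walk u v) :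
    (∃ g ∈ N, a u * g * (a v)⁻¹ ∈ (insert 1 K) ^ p.length) ∧
      ∀ C : Finset V, (∀ v1 ∈ C, ∀ g v2, Adj v1 g v2 → v2 ∈ C) → u ∈ C →
        ∀ w ∈ p.support, w ∈ C := by
  induction p with
  | nil => exact ⟨⟨1, N.one_mem, by simp⟩, fun C _ hu w hw => by simp at hw; rwa [hw]⟩
  | @cons u w v h p ih =>
    obtain ⟨g, hg⟩ : ∃ g, Adj u g w := by
      rcases ((SimpleGraph.fromRel_adj _ _ _).1 h).2 with h' | ⟨g, h'⟩
      · exact h'
      · exact ⟨_, hs _ _ _ h'⟩
    obtain ⟨⟨g', hg1, hg2⟩, ih2⟩ := ih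
    refine ⟨⟨g * g', N.mul_mem (hl _ _ _ hg).1 hg1, ?_⟩, fun C hC hu z hz => ?_⟩
    · rw [SimpleGraph.Walk.length_cons, pow_succ']
      have := Set.mul_mem_mul (Set.mem_insert_of_mem 1 (hl _ _ _ hg).2) hg2
      convert this using 1
      group
    · rw [SimpleGraph.Walk.support_cons, List.mem_cons] at hz
      rcases hz with rfl | hz
      · exact hu
      · exact ih2 C hC (hC _ hu _ _ hg) z hz

/-- existence of potentials on graphs with small components -/
theorem pot {H : Type} [Group H] (K : Set H) (hK : K.Finite) (n : ℕ) :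
    ∃ F : Set H, F.Finite ∧ ∀ N : Subgroup H, N.Normal → (∀ g ∈ F, g ∈ N → g = 1) →
      ∀ (V : Type) (Adj : V → H → V → Prop) (a : V → H),
        (∀ v g v', Adj v g v' → Adj v' g⁻¹ v) →
        (∀ v g v', Adj v g v' → g ∈ N ∧ a v * g * (a v')⁻¹ ∈ K) →
        (∀ v, ∃ C : Finset V, C.card ≤ n ∧ v ∈ C ∧ ∀ v1 ∈ C, ∀ g v2, Adj v1 g v2 → v2 ∈ C) →
        ∃ Λ : V → H, ∀ v g v', Adj v g v' → g = (Λ v)⁻¹ * Λ v' := by
  classical
  have hB : ((insert 1 K : Set H) ^ n).Finite := by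
    induction n with
    | zero => simp
    | succ m ih => rw [pow_succ]; exact ih.mul (hK.insert 1)
  refine ⟨(insert 1 K) ^ n * K * ((insert 1 K) ^ n)⁻¹, (hB.mul hK).mul hB.inv,
    fun N hN hF V Adj a hs hl hC => ?_⟩
  let Γ : SimpleGraph V := SimpleGraph.fromRel fun v v' => ∃ g, Adj v g v'
  let root : V → V := fun v => (Γ.connectedComponentMk v).out
  have key : ∀ v, ∃ g ∈ N, a (root v) * g * (a v)⁻¹ ∈ (insert 1 K) ^ n := by
    intro v
    have hr : Γ.Reachable (root v) v :=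
      SimpleGraph.ConnectedComponent.exact (Γ.connectedComponentMk v).out_eq
    obtain ⟨p, hp⟩ := hr.exists_isPath
    obtain ⟨⟨g, hg1, hg2⟩, h2⟩ := walk_label K N Adj a hs hl p
    obtain ⟨C, c1, c2, c3⟩ := hC (root v)
    have hlen : p.length ≤ n := by
      have b1 : p.support.toFinset ⊆ C := fun w hw => h2 C c3 c2 w (List.mem_toFinset.1 hw)
      have b2 := Finset.card_le_card b1
      rw [List.toFinset_card_of_nodup hp.support_nodup, SimpleGraph.Walk.length_support] at b2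
      omega
    exact ⟨g, hg1, Set.pow_subset_pow_right (Set.mem_insert 1 K) hlen hg2⟩
  choose Λ h1 h2 using key
  refine ⟨Λ, fun v g v' h => ?_⟩
  have hr : root v = root v' := by
    by_cases e : v = v'
    · rw [e]
    · have : Γ.Adj v v' := (SimpleGraph.fromRel_adj _ _ _).2 ⟨e, Or.inl ⟨g, h⟩⟩
      simp only [root, SimpleGraph.ConnectedComponent.sound this.reachable]
  have m1 := Set.mul_mem_mul (Set.mul_mem_mul (h2 v) (hl _ _ _ h).2) (Set.inv_mem_inv.2 (h2 v'))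
  have e : a (root v) * Λ v * (a v)⁻¹ * (a v * g * (a v')⁻¹) *
      (a (root v') * Λ v' * (a v')⁻¹)⁻¹ = a (root v) * (Λ v * g * (Λ v')⁻¹) * (a (root v))⁻¹ := by
    rw [← hr]; group
  rw [e] at m1
  have m2 := hF _ m1 (hN.conj_mem _ (N.mul_mem (N.mul_mem (h1 v) (hl _ _ _ h).1)
    (N.inv_mem (h1 v'))) _)
  have m3 : Λ v * g * (Λ v')⁻¹ = 1 := by
    have : Λ v * g * (Λ v')⁻¹ =
        (a (root v))⁻¹ * (a (root v) * (Λ v * g * (Λ v')⁻¹) * (a (root v))⁻¹) * a (root v) := by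
      group
    rw [this, m2]; group
  calc g = (Λ v)⁻¹ * (Λ v * g * (Λ v')⁻¹) * Λ v' := by group
    _ = (Λ v)⁻¹ * Λ v' := by rw [m3]; group

end Pool.Agent.MP_e97151_al

end

-- part MP_e97151_al.AP3
section

/-! Finiteness at a fixed level: labels inside a class, and components of the far graph. -/

set_option autoImplicit false
set_option linter.unusedSectionVars false

namespace Pool.Agent.MP_e97151_al

variable {H Y : Type} [Group H] [MetricSpace Y] [MulAction H Y] [IsIsometricSMul H Y] [RT Y]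
variable {x : Y} {S : Finset H}

/-- the representative of `e` or its reversal with orientation `ε` -/
noncomputable def ori (x : Y) (ε : Bool) (e : Cx H) : Cx H := if e.e = ε then e else e.rev x

theorem ori_of_eq {ε : Bool} {e : Cx H} (h : e.e = ε) : ori x ε e = e := if_pos h

theorem ori_rev (ε : Bool) (e : Cx H) : ori x ε (e.rev x) = ori x ε e := by
  unfold ori
  by_cases h : e.e = ε
  · rw [if_pos h, if_neg, Cx.rev_rev]
    simp [Cx.rev, h]
  · rw [if_neg h, if_pos]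
    simp only [Cx.rev]
    cases hε : ε <;> cases he : e.e <;> simp_all

theorem ori_cm (hS : ∀ s ∈ S, s⁻¹ ∈ S) {ρ : ℕ} (ε : Bool) {e e' : Cx H} (h : CM x S ρ e e') :
    CM x S ρ (ori x ε e) (ori x ε e') := by
  unfold ori
  rw [h.2.2.1]
  split_ifs
  · exact h
  · exact h.rev hS

theorem ori_mem {ρ : ℕ} {X : Set (Cx H)} (hX : XS x S ρ X) (ε : Bool) {e : Cx H} (he : e ∈ X) :
    ori x ε e ∈ X := by
  unfold ori
  split_ifs
  · exact he
  · exact hX.rev _ he

theorem rel_ori (hS : ∀ s ∈ S, s⁻¹ ∈ S) {ρ : ℕ} (ε : Bool) {e e' : Cx H} (h : Rel x S ρ e e') :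
    Relation.ReflTransGen (CM x S ρ) (ori x ε e) (ori x ε e') := by
  induction h with
  | refl => exact Relation.ReflTransGen.refl
  | tail _ h2 ih =>
    rcases h2 with h2 | rfl
    · exact ih.tail (ori_cm hS ε h2)
    · rw [ori_rev]; exact ih

theorem rc_symm (hS : ∀ s ∈ S, s⁻¹ ∈ S) {ρ : ℕ} {e e' : Cx H}
    (h : Relation.ReflTransGen (CM x S ρ) e e') : Relation.ReflTransGen (CM x S ρ) e' e := by
  induction h with
  | refl => exact Relation.ReflTransGen.refl
  | tail _ h2 ih => exact Relation.ReflTransGen.head (h2.symm hS) ih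

theorem rc_rel {ρ : ℕ} {e e' : Cx H} (h : Relation.ReflTransGen (CM x S ρ) e e') :
    Rel x S ρ e e' := by
  induction h with
  | refl => exact Relation.ReflTransGen.refl
  | tail _ h2 ih => exact Relation.ReflTransGen.tail ih (Or.inl h2)

theorem rc_e {ρ : ℕ} {e e' : Cx H} (h : Relation.ReflTransGen (CM x S ρ) e e') : e'.e = e.e := by
  induction h with
  | refl => rfl
  | tail _ h2 ih => rw [h2.2.2.1, ih]

/-- move of a left germ along a band -/
def LG (x : Y) (S : Finset H) (ρ : ℕ) (e e' : Cx H) : Prop :=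
  e.s ∈ S ∧ e'.s ∈ S ∧ ∃ (g : H) (η : ℝ), 0 < η ∧ Band S ρ g e.s e'.s ∧
    W x g e.s (e.c - η) e'.s (e'.c - η) η ∧ e'.k = g * e.k

/-- labels in the class of the left germ at `z` -/
def KK (x : Y) (S : Finset H) (ρ : ℕ) (s : H) (z : ℝ) : Set H :=
  {k | ∃ e, Relation.ReflTransGen (LG x S ρ) ⟨s, z, 1, true⟩ e ∧ e.k = k}

theorem finite_lab (hy : Hyp x S) (s : H) (b l : ℝ) (hl : 0 < l) :
    {k : H | ∃ s' ∈ S, ∃ b', W x k s b s' b' l}.Finite := by
  refine ((finite_occ hy s b l hl).biUnion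
    (t := fun p => {k : H | W x k s b p.1 p.2 l}) fun p _ => ?_).subset ?_
  · exact Set.Subsingleton.finite fun k hk k' hk' => W.uniq hy.arc hl hk hk'
  · rintro k ⟨s', hs', b', hw⟩
    exact Set.mem_biUnion (x := (s', b')) ⟨hs', k, hw⟩ hw

theorem lg_back (hS : ∀ s ∈ S, s⁻¹ ∈ S) {ρ : ℕ} {C : Set (Cx H)}
    (hC : ∀ e ∈ C, ∀ e', CM x S ρ e e' → e' ∈ C) {δ : ℝ} (hδ : 0 < δ)
    (hg : ∀ e ∈ C, ∀ w ∈ Sing x S ρ e.s, ¬ (e.c ≤ w ∧ w < e.c + δ)) {f : Cx H} (hf : f ∈ C)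
    (hfs : f.s ∈ S) (h0 : 0 ≤ f.c) (h1 : f.c + δ ≤ len x f.s) {e : Cx H}
    (h : Relation.ReflTransGen (LG x S ρ) ⟨f.s, f.c + δ, 1, true⟩ e) :
    (⟨e.s, e.c - δ, e.k * f.k, f.e⟩ : Cx H) ∈ C ∧ e.s ∈ S ∧ W x e.k f.s f.c e.s (e.c - δ) δ := by
  induction h with
  | refl =>
    simp only [add_sub_cancel_right, one_mul]
    exact ⟨hf, hfs, W.refl hδ.le h0 h1⟩
  | @tail e1 e2 _ h2 ih =>
    obtain ⟨ih1, -, ih3⟩ := ih
    obtain ⟨hs1, hs2, g, η, hη, hb, hw, hk⟩ := h2
    obtain ⟨w, hw1, hw2, -, hw4⟩ := band_start hS hs1 hs2 hb hη hw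
    have hlt : w < e1.c - δ := by
      by_contra hn
      exact hg _ ih1 w hw2 ⟨by simpa using hn, by simp only; linarith⟩
    refine ⟨?_, hs2, ?_⟩
    · have := hC _ ih1 _ (CM.of_W hs1 hs2 hb hw4 hlt (by linarith) (e1.k * f.k) f.e)
      rw [show e1.c - δ + (w + (e2.c - η) - (e1.c - η)) - w = e2.c - δ by ring,
        ← mul_assoc, ← hk] at this
      exact this
    · rw [hk]
      exact ih3.trans (hw4.sub' hlt.le hδ.le (by linarith) (by ring))

theorem lg_forth (hS : ∀ s ∈ S, s⁻¹ ∈ S) {ρ : ℕ} {C : Set (Cx H)}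
    (hC : ∀ e ∈ C, ∀ e', CM x S ρ e e' → e' ∈ C) {δ : ℝ} (hδ : 0 < δ)
    (hg : ∀ e ∈ C, ∀ w ∈ Sing x S ρ e.s, ¬ (e.c ≤ w ∧ w < e.c + δ)) {f : Cx H} (hf : f ∈ C)
    {e : Cx H} (h : Relation.ReflTransGen (CM x S ρ) f e) :
    e ∈ C ∧ Relation.ReflTransGen (LG x S ρ) ⟨f.s, f.c + δ, 1, true⟩
      ⟨e.s, e.c + δ, e.k * f.k⁻¹, true⟩ := by
  induction h with
  | refl =>
    rw [mul_inv_cancel]
    exact ⟨hf, Relation.ReflTransGen.refl⟩
  | @tail e1 e2 _ h2 ih =>
    obtain ⟨ih1, ih2⟩ := ih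
    refine ⟨hC _ ih1 _ h2, ih2.tail ?_⟩
    obtain ⟨hs1, hs2, -, g, η, hη, hb, hw, hk⟩ := h2
    obtain ⟨z, hz1, hz2, -, hz4⟩ := band_end hS hs1 hs2 hb (by linarith) hw
    have hge : e1.c + δ ≤ z := by
      by_contra hn
      exact hg _ ih1 z hz2 ⟨by linarith, by linarith⟩
    refine ⟨hs1, hs2, g, δ, hδ, hb, ?_, by simp only [hk, mul_assoc]⟩
    exact hz4.sub' (by simp only; linarith) hδ.le (by simp only; linarith) (by simp only; ring)

theorem klemma (hy : Hyp x S) (ρ : ℕ) : ∃ K : Set H, K.Finite ∧ ∀ X : Set (Cx H), XS x S ρ X →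
    ∀ e0 ∈ X, ∃ a : H, ∀ e, Rel x S ρ e0 e → e.k * a⁻¹ ∈ K := by
  have hS := hy.symm
  let K0 : Set H := ⋃ s ∈ (S : Set H), ⋃ z ∈ Sing x S ρ s,
    {k | (KK x S ρ s z).Finite ∧ k ∈ KK x S ρ s z}
  have hK0 : K0.Finite := by
    refine S.finite_toSet.biUnion fun s _ => (finite_sing x S ρ s).biUnion fun z _ => ?_
    by_cases h : (KK x S ρ s z).Finite
    · exact h.subset fun k hk => hk.2
    · exact Set.finite_empty.subset fun k hk => h hk.1
  refine ⟨K0 ∪ Set.image2 (· * ·) (S : Set H) K0, hK0.union (S.finite_toSet.image2 _ hK0), ?_⟩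
  intro X hX e0 he0
  let C : Set (Cx H) := {e | Relation.ReflTransGen (CM x S ρ) (ori x true e0) e}
  have hCX : C ⊆ X := fun e he => hX.rel (ori_mem hX true he0) (rc_rel he)
  have hC : ∀ e ∈ C, ∀ e', CM x S ρ e e' → e' ∈ C := fun e he e' h =>
    Relation.ReflTransGen.tail he h
  let P : Set (Cx H × ℝ) := {p | p.1 ∈ C ∧ p.2 ∈ Sing x S ρ p.1.s ∧ p.1.c < p.2}
  have hP : P.Finite := by
    refine ((hX.fin.subset hCX).biUnion
      (t := fun e => (fun z => (e, z)) '' Sing x S ρ e.s) fun e _ =>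
        (finite_sing x S ρ e.s).image _).subset ?_
    rintro ⟨e, z⟩ ⟨h1, h2, -⟩
    exact Set.mem_biUnion (x := e) h1 ⟨z, h2, rfl⟩
  have h0C : ori x true e0 ∈ C := Relation.ReflTransGen.refl
  obtain ⟨⟨f, z⟩, ⟨hf, hz, hfz⟩, hmin⟩ := Set.exists_min_image P (fun p => p.2 - p.1.c) hP
    ⟨(ori x true e0, len x (ori x true e0).s), h0C, len_mem_sing _ _ _ _,
      (hX.mem _ (hCX h0C)).2.2.1⟩
  simp only at hf hz hfz hmin
  have hδ : 0 < z - f.c := by linarith
  have hg : ∀ e ∈ C, ∀ w ∈ Sing x S ρ e.s, ¬ (e.c ≤ w ∧ w < e.c + (z - f.c)) := by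
    rintro e he w hw ⟨h1, h2⟩
    have hne : e.c ≠ w := fun h => (hX.mem _ (hCX he)).2.2.2 (h ▸ hw)
    have := hmin (e, w) ⟨he, hw, lt_of_le_of_ne h1 hne⟩
    simp only at this
    linarith
  have hfX := hX.mem _ (hCX hf)
  have ez : f.c + (z - f.c) = z := by ring
  have hfin : (KK x S ρ f.s z).Finite := by
    refine (finite_lab hy f.s f.c (z - f.c) hδ).subset ?_
    rintro k ⟨e, he, rfl⟩
    rw [← ez] at he
    obtain ⟨-, h2, h3⟩ := lg_back hS hC hδ hg hf hfX.1 hfX.2.1.le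
      (by rw [ez]; exact (sing_bounds hz).2) he
    exact ⟨e.s, h2, _, h3⟩
  have key : ∀ e ∈ C, e.k * f.k⁻¹ ∈ K0 := by
    intro e he
    have h2 := (lg_forth hS hC hδ hg hf ((rc_symm hS hf).trans he)).2
    rw [ez] at h2
    exact Set.mem_biUnion (x := f.s) hfX.1 (Set.mem_biUnion (x := z) hz ⟨hfin, _, h2, rfl⟩)
  refine ⟨f.k, fun e he => ?_⟩
  have h1 := key _ (rel_ori hS true he)
  unfold ori at h1
  split_ifs at h1
  · exact Or.inl h1
  · refine Or.inr ⟨e.s, (hX.mem _ (hX.rel he0 he)).1, _, h1, ?_⟩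
    simp [Cx.rev, mul_assoc]

theorem shift (hS : ∀ s ∈ S, s⁻¹ ∈ S) {ρ : ℕ} {X : Set (Cx H)} (hX : XS x S ρ X) {e e' f : Cx H}
    (h : Nx X e e') (hclean : ∀ z ∈ Sing x S ρ e.s, ¬ (e.c < z ∧ z < e'.c)) (hm : CM x S ρ e f) :
    ∃ f', Nx X f f' ∧ CM x S ρ e' f' := by
  have hfX := hX.cm _ h.1 _ hm
  obtain ⟨he, he', hs, hc, hmin⟩ := h
  obtain ⟨hs1, hs2, -, g, δ, hδ, hb, hw, -⟩ := hm
  obtain ⟨z, hz1, hz2, -, hz4⟩ := band_end hS hs1 hs2 hb (by linarith) hw
  have hz : e'.c < z := by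
    have h1 : e'.c ≤ z := by
      by_contra hn
      exact hclean z hz2 ⟨by linarith, by linarith⟩
    refine lt_of_le_of_ne h1 fun h2 => (hX.mem _ he').2.2.2 ?_
    rw [hs, h2]; exact hz2
  have hcm := CM.of_W (c := e'.c) hs1 hs2 hb hz4 (by linarith) (by linarith) e'.k e'.e
  have e1 : (⟨e.s, e'.c, e'.k, e'.e⟩ : Cx H) = e' := by rw [← hs]
  rw [e1] at hcm
  refine ⟨_, ⟨hfX, hX.cm _ he' _ hcm, rfl, by simp only; linarith, ?_⟩, hcm⟩
  intro u hu hus huc
  by_contra hn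
  simp only [not_le] at hn
  have hcm2 := CM.of_W (c := u.c) hs2 hs1 (hb.symm hS) hz4.symm (by linarith) (by linarith) u.k u.e
  have e2 : (⟨f.s, u.c, u.k, u.e⟩ : Cx H) = u := by rw [← hus]
  rw [e2] at hcm2
  have := hmin _ (hX.cm _ hu _ hcm2) rfl (by simp only; linarith)
  simp only at this
  linarith

/-- class of a point at level `ρ` -/
def cls (x : Y) (S : Finset H) (ρ : ℕ) (e : Cx H) : Set (Cx H) := {e' | Rel x S ρ e e'}

/-- edges of the far graph -/
def FarAdj (x : Y) (S : Finset H) (ρ : ℕ) (X : Set (Cx H)) (ε : Bool) (v : Set (Cx H)) (g : H)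
    (v' : Set (Cx H)) : Prop :=
  ∃ e e', Nx X e e' ∧ e.e = ε ∧ v = cls x S ρ e ∧ v' = cls x S ρ e' ∧ g = e.k⁻¹ * e'.k

theorem cls_eq (hS : ∀ s ∈ S, s⁻¹ ∈ S) {ρ : ℕ} {e e' : Cx H} (h : Rel x S ρ e e') :
    cls x S ρ e = cls x S ρ e' := by
  ext u
  exact ⟨fun hu => Relation.ReflTransGen.trans (h.symm hS) hu,
    fun hu => Relation.ReflTransGen.trans h hu⟩

theorem rel_of_cls {ρ : ℕ} {e e' : Cx H} (h : cls x S ρ e = cls x S ρ e') : Rel x S ρ e e' := by
  have : e' ∈ cls x S ρ e' := Relation.ReflTransGen.refl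
  rw [← h] at this
  exact this

theorem cls_rev (hS : ∀ s ∈ S, s⁻¹ ∈ S) (ρ : ℕ) (e : Cx H) :
    cls x S ρ (e.rev x) = cls x S ρ e :=
  (cls_eq hS (Relation.ReflTransGen.single (Or.inr rfl))).symm

theorem chain_inv (hS : ∀ s ∈ S, s⁻¹ ∈ S) {ρ : ℕ} {X : Set (Cx H)} (hX : XS x S ρ X) {a a' : Cx H}
    (h : Nx X a a') (hclean : ∀ b b', Relation.ReflTransGen (CM x S ρ) a b → Nx X b b' →
      Rel x S ρ a' b' → ∀ z ∈ Sing x S ρ b.s, ¬ (b.c < z ∧ z < b'.c))
    {b : Cx H} (hb : Relation.ReflTransGen (CM x S ρ) a b) :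
    ∃ b', Nx X b b' ∧ Rel x S ρ a' b' := by
  induction hb with
  | refl => exact ⟨a', h, Relation.ReflTransGen.refl⟩
  | tail h1 h2 ih =>
    obtain ⟨b', h3, h4⟩ := ih
    obtain ⟨f', h5, h6⟩ := shift hS hX h3 (hclean _ _ h1 h3 h4) h2
    exact ⟨f', h5, Relation.ReflTransGen.tail h4 (Or.inl h6)⟩

/-- classes at which a far segment with a singular point starts -/
def Occ (x : Y) (S : Finset H) (ρ : ℕ) (X : Set (Cx H)) (ε : Bool) : Set (Set (Cx H)) :=
  {v | ∃ e e', Nx X e e' ∧ e.e = ε ∧ v = cls x S ρ e ∧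
    ∃ z ∈ Sing x S ρ e.s, e.c < z ∧ z < e'.c}

theorem rev_e_of_nx {X : Set (Cx H)} {ε : Bool} (ha : Alt X ε) {e e' : Cx H} (h : Nx X e e')
    (he : e.e = ε) : (e'.rev x).e = ε := by
  simp [Cx.rev, ha.nx _ _ h, he]

theorem FarAdj.symm (hS : ∀ s ∈ S, s⁻¹ ∈ S) {ρ : ℕ} {X : Set (Cx H)} {ε : Bool} (hX : XS x S ρ X)
    (ha : Alt X ε) {v v' : Set (Cx H)} {g : H} (h : FarAdj x S ρ X ε v g v') :
    ∃ g', FarAdj x S ρ X ε v' g' v := by
  obtain ⟨e, e', h1, h2, rfl, rfl, -⟩ := h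
  exact ⟨_, _, _, h1.rev hX, rev_e_of_nx ha h1 h2, (cls_rev hS ρ e').symm, (cls_rev hS ρ e).symm,
    rfl⟩

theorem far_unique (hS : ∀ s ∈ S, s⁻¹ ∈ S) {ρ : ℕ} {X : Set (Cx H)} {ε : Bool} (hX : XS x S ρ X)
    {v v' v'' : Set (Cx H)} {g g' : H} (hv : v ∉ Occ x S ρ X ε) (h : FarAdj x S ρ X ε v g v')
    (h' : FarAdj x S ρ X ε v g' v'') : v'' = v' := by
  obtain ⟨e, e', h1, h2, rfl, rfl, -⟩ := h
  obtain ⟨f, f', h3, h4, h5, rfl, -⟩ := h'
  have h6 := rel_ori hS ε (rel_of_cls h5)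
  rw [ori_of_eq h2, ori_of_eq h4] at h6
  obtain ⟨b', h7, h8⟩ := chain_inv hS hX h1 (fun b b' hb hn _ z hz hzz =>
    hv ⟨b, b', hn, (rc_e hb).trans h2, cls_eq hS (rc_rel hb), z, hz, hzz⟩) h6
  rw [h3.unique hX h7]
  exact (cls_eq hS h8).symm

theorem far_not_occ (hS : ∀ s ∈ S, s⁻¹ ∈ S) {ρ : ℕ} {X : Set (Cx H)} {ε : Bool} (hX : XS x S ρ X)
    (ha : Alt X ε) {v v' : Set (Cx H)} {g : H} (hv : v ∉ Occ x S ρ X ε)
    (h : FarAdj x S ρ X ε v g v') : v' ∉ Occ x S ρ X ε := by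
  obtain ⟨e, e', h1, h2, rfl, rfl, -⟩ := h
  rintro ⟨f, f', h3, h4, h5, z, hz, hzz⟩
  have h2' : (e'.rev x).e = ε := rev_e_of_nx ha h1 h2
  have h6 := rel_ori hS ε (rel_of_cls ((cls_rev hS ρ e').trans h5))
  rw [ori_of_eq h2', ori_of_eq h4] at h6
  have hclean : ∀ b b', Relation.ReflTransGen (CM x S ρ) (e'.rev x) b → Nx X b b' →
      Rel x S ρ (e.rev x) b' → ∀ z ∈ Sing x S ρ b.s, ¬ (b.c < z ∧ z < b'.c) := by
    rintro b b' hb hn hr w hw ⟨hw1, hw2⟩
    refine hv ⟨_, _, hn.rev hX, rev_e_of_nx ha hn ((rc_e hb).trans h2'), ?_, len x b.s - w, ?_, ?_, ?_⟩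
    · rw [cls_rev hS, ← cls_eq hS hr, cls_rev hS]
    · simp only [Cx.rev, hn.2.2.1]
      exact sing_rev hw
    · simp only [Cx.rev, hn.2.2.1]
      linarith
    · simp only [Cx.rev]
      linarith
  obtain ⟨b', h7, h8⟩ := chain_inv hS hX (h1.rev hX) hclean h6
  rw [h3.unique hX h7] at hzz
  exact hclean _ _ h6 h7 h8 z hz hzz

theorem nx_cover {ρ : ℕ} {X : Set (Cx H)} (hX : XS x S ρ X) {e e' f f' : Cx H} (h : Nx X e e')
    (h' : Nx X f f') (hs : f.s = e.s) {z : ℝ} (h1 : e.c < z) (h2 : z < e'.c) (h3 : f.c < z)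
    (h4 : z < f'.c) : f = e := by
  refine hX.func _ h'.1 _ h.1 hs (le_antisymm ?_ ?_)
  · by_contra hn
    have := h.2.2.2.2 _ h'.1 hs (not_le.mp hn)
    linarith
  · by_contra hn
    have := h'.2.2.2.2 _ h.1 hs.symm (not_le.mp hn)
    linarith

theorem comp_bound (hS : ∀ s ∈ S, s⁻¹ ∈ S) (ρ : ℕ) : ∃ n : ℕ, ∀ (X : Set (Cx H)) (ε : Bool),
    XS x S ρ X → Alt X ε → ∀ v : Set (Cx H), ∃ C : Finset (Set (Cx H)), C.card ≤ n ∧ v ∈ C ∧
      ∀ v1 ∈ C, ∀ g v2, FarAdj x S ρ X ε v1 g v2 → v2 ∈ C := by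
  classical
  have hT : {p : H × ℝ | p.1 ∈ S ∧ p.2 ∈ Sing x S ρ p.1}.Finite := by
    refine (S.finite_toSet.biUnion (t := fun s => (fun z => (s, z)) '' Sing x S ρ s) fun s _ =>
      (finite_sing x S ρ s).image _).subset ?_
    rintro ⟨s, z⟩ ⟨h1, h2⟩
    exact Set.mem_biUnion (x := s) h1 ⟨z, h2, rfl⟩
  refine ⟨hT.toFinset.card + 2, fun X ε hX ha v => ?_⟩
  by_cases hv : v ∈ Occ x S ρ X ε
  · let φ : H × ℝ → Set (Cx H) := fun p =>
      {u | ∃ e e', Nx X e e' ∧ e.s = p.1 ∧ e.c < p.2 ∧ p.2 < e'.c ∧ Rel x S ρ e u}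
    have hO : ∀ u ∈ Occ x S ρ X ε, u ∈ hT.toFinset.image φ := by
      rintro u ⟨e, e', h1, -, rfl, z, hz, hz1, hz2⟩
      refine Finset.mem_image.mpr ⟨(e.s, z), hT.mem_toFinset.mpr ⟨(hX.mem _ h1.1).1, hz⟩, ?_⟩
      ext u
      constructor
      · rintro ⟨f, f', h3, h4, h5, h6, h7⟩
        rw [nx_cover hX h1 h3 h4 hz1 hz2 h5 h6] at h7
        exact h7
      · intro hu
        exact ⟨e, e', h1, rfl, hz1, hz2, hu⟩
    refine ⟨(hT.toFinset.image φ).filter (· ∈ Occ x S ρ X ε), ?_,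
      Finset.mem_filter.mpr ⟨hO v hv, hv⟩, ?_⟩
    · exact le_trans (Finset.card_filter_le _ _) (le_trans Finset.card_image_le (by omega))
    · intro v1 h1 g v2 h2
      have h3 : v2 ∈ Occ x S ρ X ε := by
        by_contra hn
        obtain ⟨g', h4⟩ := h2.symm hS hX ha
        exact far_not_occ hS hX ha hn h4 (Finset.mem_filter.mp h1).2
      exact Finset.mem_filter.mpr ⟨hO _ h3, h3⟩
  · by_cases hex : ∃ g v', FarAdj x S ρ X ε v g v'
    · obtain ⟨g, v', h⟩ := hex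
      refine ⟨{v, v'}, le_trans Finset.card_le_two (by omega), by simp, ?_⟩
      intro v1 h1 g2 v2 h2
      simp only [Finset.mem_insert, Finset.mem_singleton] at h1 ⊢
      rcases h1 with rfl | rfl
      · exact Or.inr (far_unique hS hX hv h h2)
      · obtain ⟨g', h4⟩ := h.symm hS hX ha
        exact Or.inl (far_unique hS hX (far_not_occ hS hX ha hv h) h4 h2)
    · refine ⟨{v}, by simp, by simp, ?_⟩
      intro v1 h1 g v2 h2
      rw [Finset.mem_singleton.mp h1] at h2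
      exact absurd ⟨g, v2, h2⟩ hex

end Pool.Agent.MP_e97151_al

end

-- part MP_e97151_al.AP4
section

/-! At some level every window is equivalent to a window that meets a singular point. -/

set_option autoImplicit false
set_option linter.unusedSectionVars false

namespace Pool.Agent.MP_e97151_al

variable {H Y : Type} [Group H] [MetricSpace Y] [MulAction H Y] [IsIsometricSMul H Y] [RT Y]
variable {x : Y} {S : Finset H}

theorem ap4_cls_eq (hS : ∀ s ∈ S, s⁻¹ ∈ S) {ρ : ℕ} {e e' : Cx H} (h : Rel x S ρ e e') :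
    cls x S ρ e' = cls x S ρ e := by
  ext f
  constructor
  · intro hf; exact Relation.ReflTransGen.trans h hf
  · intro hf; exact Relation.ReflTransGen.trans (h.symm hS) hf

theorem ap4_cls_rev (hS : ∀ s ∈ S, s⁻¹ ∈ S) (ρ : ℕ) (e : Cx H) :
    cls x S ρ (e.rev x) = cls x S ρ e :=
  ap4_cls_eq hS (Relation.ReflTransGen.single (Or.inr rfl))

theorem ap4_cls_cm (hS : ∀ s ∈ S, s⁻¹ ∈ S) {ρ : ℕ} {e e' : Cx H} (h : CM x S ρ e e') :
    cls x S ρ e' = cls x S ρ e :=
  ap4_cls_eq hS (Relation.ReflTransGen.single (Or.inl h))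

theorem ap4_far_symm (hS : ∀ s ∈ S, s⁻¹ ∈ S) {ρ : ℕ} {X : Set (Cx H)} (hX : XS x S ρ X) {ε : Bool}
    (halt : Alt X ε) (v : Set (Cx H)) (g : H) (v' : Set (Cx H)) (h : FarAdj x S ρ X ε v g v') :
    FarAdj x S ρ X ε v' g⁻¹ v := by
  obtain ⟨e, e', hn, he, rfl, rfl, rfl⟩ := h
  refine ⟨e'.rev x, e.rev x, hn.rev hX, ?_, (ap4_cls_rev hS ρ e').symm, (ap4_cls_rev hS ρ e).symm, ?_⟩
  · have := halt.nx e e' hn
    simp [Cx.rev, this, he]
  · have := hn.2.2.1
    simp only [Cx.rev, this]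
    group

/-- HINT. `ρ` from `rig` for the trivial homomorphism to `Multiplicative (ZMod 2)`; `K` from `klemma`, `n` from `comp_bound`, `F` from `pot` for `K⁻¹ * K`.
With `a v` chosen by `klemma` for a class `v`, an edge has `a v * g * (a v')⁻¹ = (e.k * (a v)⁻¹)⁻¹ * (e'.k * (a v')⁻¹)`. Get `Λ`, `lam e = Λ (cls e)`.
Apply `ins` with `Γ = FreeGroup (Set (Cx H))`, trivial `ι`, `ζ e = if e.e = ε then of (cls e) else (of (cls e))⁻¹`, then `free_rig`, and map by
`FreeGroup.lift (fun v => (Λ v)⁻¹)`. -/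
theorem step23 (hy : Hyp x S) : ∃ (ρ : ℕ) (F : Set H), F.Finite ∧ ∀ N : Subgroup H, N.Normal →
    (∀ g ∈ F, g ∈ N → g = 1) → ∀ (X : Set (Cx H)) (l : H → List (Cx H)) (ε : Bool), XS x S ρ X →
      IsLst X l → Alt X ε → (∀ e e', Nx X e e' → e.e = ε → e.k⁻¹ * e'.k ∈ N) →
      ∃ lam : Cx H → H, (∀ e e', Nx X e e' → e.e = ε → e.k⁻¹ * e'.k = (lam e)⁻¹ * lam e') ∧
        ∀ s ∈ S, ((l s).map (fun e => if e.e = ε then (lam e)⁻¹ else lam e)).prod = 1 := by
  classical
  obtain ⟨ρ, hrig⟩ := rig hy.symm hy.gen hy.dens (Multiplicative (ZMod 2)) 1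
  obtain ⟨K, hK, hKl⟩ := klemma hy ρ
  obtain ⟨n, hn⟩ := comp_bound (x := x) hy.symm ρ
  obtain ⟨F, hF, hpot⟩ := pot (Set.image2 (fun u v : H => u⁻¹ * v) K K) (hK.image2 _ hK) n
  refine ⟨ρ, F, hF, ?_⟩
  intro N hN hav X l ε hX hl halt hfar
  have ha : ∀ v : Set (Cx H), ∃ a : H, ∀ e ∈ X, v = cls x S ρ e → e.k * a⁻¹ ∈ K := by
    intro v
    by_cases hv : ∃ e0 ∈ X, v = cls x S ρ e0
    · obtain ⟨e0, he0, rfl⟩ := hv
      obtain ⟨a, ha⟩ := hKl X hX e0 he0
      refine ⟨a, fun e _ hc => ha e ?_⟩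
      have : e ∈ cls x S ρ e := Relation.ReflTransGen.refl
      rw [← hc] at this
      exact this
    · exact ⟨1, fun e he hc => absurd ⟨e, he, hc⟩ hv⟩
  choose a ha using ha
  obtain ⟨Λ, hΛ⟩ := hpot N hN hav (Set (Cx H)) (FarAdj x S ρ X ε) a (ap4_far_symm hy.symm hX halt)
    (by
      rintro v g v' ⟨e, e', hnx, he, rfl, rfl, rfl⟩
      refine ⟨hfar e e' hnx he, _, ha _ e hnx.1 rfl, _, ha _ e' hnx.2.1 rfl, ?_⟩
      group)
    (hn X ε hX halt)
  refine ⟨fun e => Λ (cls x S ρ e), fun e e' hnx he => hΛ _ _ _ ⟨e, e', hnx, he, rfl, rfl, rfl⟩, ?_⟩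
  let ζ : Cx H → FreeGroup (Set (Cx H)) := fun e =>
    if e.e = ε then FreeGroup.of (cls x S ρ e) else (FreeGroup.of (cls x S ρ e))⁻¹
  let ψ : H → FreeGroup (Set (Cx H)) := fun s => ((l s).map ζ).prod
  have hins := (ins hy.symm hX hl (1 : H →* FreeGroup (Set (Cx H))) ζ
    (by
      intro e _ e' hcm
      simp only [ζ, ap4_cls_cm hy.symm hcm, hcm.2.2.1])
    (by
      intro e _
      simp only [ζ, ap4_cls_rev hy.symm ρ e]
      rcases e with ⟨s, c, k, b⟩
      cases b <;> cases ε <;> simp [Cx.rev])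
    ψ (by intro s; simp [ψ])).1
  have hψ := free_rig S (fun s => s • x = x) (fun w => w.length ≤ ρ ∧ w.prod = 1)
    (fun χ h1 h2 => hrig χ h1 (fun w hw hlen e => h2 w hw ⟨hlen, e⟩)) (Set (Cx H)) ψ
    (by
      intro s _ hs
      simp [ψ, hl.nil hX hs])
    (fun w hw hR => hins w hw hR.1 hR.2)
  intro s hs
  have h1 := congrArg (FreeGroup.lift (fun v => (Λ v)⁻¹)) (hψ s hs)
  rw [map_one, map_list_prod, List.map_map] at h1
  rw [← h1]
  congr 1
  refine List.map_congr_left fun e _ => ?_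
  simp only [ζ, Function.comp]
  split_ifs <;> simp

/-- the whole window moves along a band when it is free of singular points -/
theorem ap4_move (hS : ∀ s ∈ S, s⁻¹ ∈ S) {ρ : ℕ} {s0 : H} {b0 r θ : ℝ} (h0 : 0 < θ) (h1 : θ < r)
    (hfree : ∀ (k s' : H) (b' : ℝ), s' ∈ S → W x k s0 b0 s' b' r →
      ∀ z ∈ Sing x S ρ s', z < b' ∨ b' + r < z) {e e' : Cx H} (hcm : CM x S ρ e e')
    (hw : W x e.k s0 b0 e.s (e.c - θ) r) : W x e'.k s0 b0 e'.s (e'.c - θ) r := by
  obtain ⟨hs, hs', -, g, δ, hδ, hb, hg, hk⟩ := hcm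
  obtain ⟨z, z1, z2, -, z4⟩ := band_end hS hs hs' hb (by linarith) hg
  obtain ⟨y, y1, y2, -, y4⟩ := band_start hS hs hs' hb (by linarith) hg
  have hz : e.c - θ + r < z := by
    rcases hfree _ _ _ hs hw z z2 with h | h
    · linarith
    · exact h
  have hy : y < e.c - θ := by
    rcases hfree _ _ _ hs hw y y2 with h | h
    · exact h
    · linarith
  have g1 := y4.glue z4 (by ring) (by linarith)
  have g2 : W x g e.s (e.c - θ) e'.s (e'.c - θ) r :=
    g1.sub' hy.le (by linarith) (by linarith) (by ring)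
  rw [hk]
  exact hw.trans g2

/-- HINT. `Occ` = the finite set of `finite_occ`. Choose `θ ∈ (0,r)` with `2 θ ≠ len s - b - b'` for all `(s,b), (s⁻¹,b') ∈ Occ`.
`e0 = ⟨s0, b0 + θ, 1, true⟩`, `X` = its `Rel` class, `p = ga s0 (b0 + θ)`. Invariant along `Rel`: `e.s ∈ S` and
`W x e.k s0 b0 e.s (e.c - θ) r` if `e.e`, and the same statement for `rev e` if not. It is preserved by `CM` because the band extends over the whole
window (`band_end`, `band_start`, `W.glue`, `hfree`); for the second type use `CM.rev`. -/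
theorem exists_xs (hy : Hyp x S) (ρ : ℕ) (s0 : H) (b0 r : ℝ) (hs0 : s0 ∈ S) (hr : 0 < r) (hb0 : 0 ≤ b0)
    (hb1 : b0 + r ≤ len x s0)
    (hfree : ∀ (k s' : H) (b' : ℝ), s' ∈ S → W x k s0 b0 s' b' r →
      ∀ z ∈ Sing x S ρ s', z < b' ∨ b' + r < z) :
    ∃ (X : Set (Cx H)) (e0 : Cx H) (p : Y), XS x S ρ X ∧ e0 ∈ X ∧ (∀ e ∈ X, Rel x S ρ e0 e) ∧
      ∀ e ∈ X, e.k • p = ga x e.s e.c := by
  have hOcc := finite_occ hy s0 b0 r hr
  set Occ := {p : H × ℝ | p.1 ∈ S ∧ ∃ k : H, W x k s0 b0 p.1 p.2 r} with hOccdef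
  obtain ⟨θ, ⟨hθ0, hθ1⟩, hθ⟩ := (Set.Ioo_infinite hr).exists_notMem_finite
    (hOcc.image2 (fun p q : H × ℝ => (len x q.1 - p.2 - q.2) / 2) hOcc)
  let A : Set (Cx H) := {e | e.e = true ∧ e.s ∈ S ∧ W x e.k s0 b0 e.s (e.c - θ) r}
  have hAfunc : ∀ e ∈ A, ∀ e' ∈ A, e.s = e'.s → e.c = e'.c → e = e' := by
    intro e he e' he' h1 h2
    obtain ⟨a1, -, a3⟩ := he
    obtain ⟨b1, -, b3⟩ := he'
    rw [← h1, ← h2] at b3
    exact Cx.ext h1 h2 (W.uniq hy.arc hr a3 b3) (a1.trans b1.symm)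
  have hAocc : ∀ e ∈ A, (e.s, e.c - θ) ∈ Occ := fun e he => ⟨he.2.1, e.k, he.2.2⟩
  have hAfin : A.Finite := by
    refine Set.Finite.of_finite_image (f := fun e : Cx H => (e.s, e.c - θ)) (hOcc.subset ?_) ?_
    · rintro _ ⟨e, he, rfl⟩; exact hAocc e he
    · intro e he e' he' h
      simp only [Prod.mk.injEq] at h
      exact hAfunc e he e' he' h.1 (by linarith [h.2])
  have hAcm : ∀ e ∈ A, ∀ e', CM x S ρ e e' → e' ∈ A := fun e he e' h =>
    ⟨h.2.2.1.trans he.1, h.2.1, ap4_move hy.symm hθ0 hθ1 hfree h he.2.2⟩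
  have hAmem : ∀ e ∈ A, e.s ∈ S ∧ 0 < e.c ∧ e.c < len x e.s ∧ e.c ∉ Sing x S ρ e.s := by
    intro e he
    obtain ⟨-, a2, a3⟩ := he
    refine ⟨a2, by linarith [a3.2.2.2.1], by linarith [a3.2.2.2.2.1], fun h => ?_⟩
    rcases hfree _ _ _ a2 a3 _ h with h | h <;> linarith
  have hAp : ∀ e ∈ A, e.k • ga x s0 (b0 + θ) = ga x e.s e.c := by
    intro e he
    have := he.2.2.pt hθ0.le hθ1.le
    rwa [sub_add_cancel] at this
  have hcross : ∀ e ∈ A, ∀ f ∈ A, e.c ≠ len x f.s - f.c := by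
    intro e he f hf h
    refine hθ ⟨_, hAocc e he, _, hAocc f hf, ?_⟩
    simp only
    linarith
  let e0 : Cx H := ⟨s0, b0 + θ, 1, true⟩
  have he0 : e0 ∈ A := ⟨rfl, hs0, by
    simp only [e0, add_sub_cancel_right]
    exact W.refl hr.le hb0 hb1⟩
  have hinv : ∀ e, Rel x S ρ e0 e → e ∈ A ∨ ∃ f ∈ A, e = f.rev x := by
    intro e h
    induction h with
    | refl => exact Or.inl he0
    | tail _ h2 ih =>
      rcases h2 with h2 | rfl
      · rcases ih with ih | ⟨f, hf, rfl⟩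
        · exact Or.inl (hAcm _ ih _ h2)
        · have h3 := h2.rev hy.symm
          rw [Cx.rev_rev] at h3
          exact Or.inr ⟨_, hAcm _ hf _ h3, (Cx.rev_rev _).symm⟩
      · rcases ih with ih | ⟨f, hf, rfl⟩
        · exact Or.inr ⟨_, ih, rfl⟩
        · rw [Cx.rev_rev]; exact Or.inl hf
  refine ⟨{e | Rel x S ρ e0 e}, e0, ga x s0 (b0 + θ), ⟨?_, ?_, ?_, ?_, ?_⟩,
    Relation.ReflTransGen.refl, fun e he => he, ?_⟩
  · refine (hAfin.union (hAfin.image (Cx.rev x))).subset ?_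
    intro e he
    rcases hinv e he with h | ⟨f, hf, rfl⟩
    · exact Or.inl h
    · exact Or.inr ⟨f, hf, rfl⟩
  · intro e he
    rcases hinv e he with h | ⟨f, hf, rfl⟩
    · exact hAmem e h
    · obtain ⟨a1, a2, a3, a4⟩ := hAmem f hf
      refine ⟨hy.symm _ a1, by simp only [Cx.rev]; linarith,
        by simp only [Cx.rev, len_inv]; linarith, fun h => a4 ?_⟩
      have := sing_rev h
      simp only [Cx.rev, len_inv, inv_inv, sub_sub_cancel] at this
      exact this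
  · intro e he e' he' h1 h2
    rcases hinv e he with h | ⟨f, hf, rfl⟩ <;> rcases hinv e' he' with h' | ⟨f', hf', rfl⟩
    · exact hAfunc e h e' h' h1 h2
    · exact absurd h2 (hcross e h f' hf')
    · exact absurd h2.symm (hcross e' h' f hf)
    · simp only [Cx.rev, inv_inj] at h1 h2
      rw [hAfunc f hf f' hf' h1 (by rw [h1] at h2; linarith)]
  · intro e he
    exact Relation.ReflTransGen.tail he (Or.inr rfl)
  · intro e he e' h
    exact Relation.ReflTransGen.tail he (Or.inl h)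
  · intro e he
    rcases hinv e he with h | ⟨f, hf, rfl⟩
    · exact hAp e h
    · simp only [Cx.rev]
      rw [ga_inv, mul_smul, hAp f hf]

/-- every window is equivalent to a window that meets a singular point of level `ρ` -/
def NoFree (x : Y) (S : Finset H) (ρ : ℕ) : Prop :=
  ∀ (r : ℝ), 0 < r → ∀ s ∈ S, ∀ b : ℝ, 0 ≤ b → b + r ≤ len x s →
    ∃ (k s' : H) (b' : ℝ), s' ∈ S ∧ W x k s b s' b' r ∧ ∃ z ∈ Sing x S ρ s', b' ≤ z ∧ z ≤ b' + r

theorem exists_noFree (hy : Hyp x S) : ∃ ρ, NoFree x S ρ := by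
  obtain ⟨ρ1, F, hF, h23⟩ := step23 hy
  obtain ⟨N, hN, hN', hav⟩ := hy.rf.avoid hF
  obtain ⟨ρ2, hrig⟩ := rig hy.symm hy.gen hy.dens (Equiv.Perm ((H ⧸ N) × Bool))
    (iotaF (QuotientGroup.mk' N))
  refine ⟨max ρ1 ρ2, ?_⟩
  intro r hr s hs b hb0 hb1
  by_contra hcon
  push Not at hcon
  obtain ⟨X, e0, p, hX, he0, hcl, hp⟩ := exists_xs hy (max ρ1 ρ2) s b r hs hr hb0 hb1 (by
    intro k s' b' hs' hw z hz
    by_contra h
    push Not at h
    exact absurd (hcon k s' b' hs' hw z hz h.1) (not_lt.mpr h.2))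
  obtain ⟨ε, halt, hfar⟩ := step1 hy.symm hX e0 he0 hcl (QuotientGroup.mk' N) (fun ψ h1 h2 =>
    hrig ψ h1 fun w hw hlen e => h2 w hw (le_trans hlen (le_max_right _ _)) e)
  obtain ⟨l, hl⟩ := exists_lst hX
  obtain ⟨lam, h1, h2⟩ := h23 N hN hav X l ε (hX.mono (le_max_left _ _)) hl halt (by
    intro e e' h he
    exact (QuotientGroup.eq_one_iff _).mp (hfar e e' h he))
  exact step45 hy.symm hX hl e0 he0 hcl ε halt p hp lam h1 h2

end Pool.Agent.MP_e97151_al

end

-- part MP_e97151_al.MT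
section

/-! Mass transport: a bound for the branching of incoming germs. -/

set_option autoImplicit false
set_option linter.unusedSectionVars false

namespace Pool.Agent.MP_e97151_al

variable {H Y : Type} [Group H] [MetricSpace Y] [MulAction H Y] [IsIsometricSMul H Y] [RT Y]
variable {x : Y} {S : Finset H}

open MeasureTheory Set

/-- the measure-theoretic double count -/
theorem mt_measure {ι : Type} (I : Finset ι) (A : ι → Set ℝ) (hA : ∀ i ∈ I, MeasurableSet (A i))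
    (c : ι → ℝ) (Z : Set ℝ) (hZ : ∀ i ∈ I, ∀ σ ∈ A i, c i - σ ∈ Z)
    (hd : ∀ i ∈ I, ∀ i' ∈ I, ∀ σ ∈ A i, ∀ σ' ∈ A i', c i - σ = c i' - σ' → i = i')
    (a b : ℝ) (m : ℕ)
    (hm : ∀ σ ∈ Ioo a b, ∃ K : Finset ι, K ⊆ I ∧ m ≤ K.card ∧ ∀ i ∈ K, σ ∈ A i) :
    (m : ENNReal) * ENNReal.ofReal (b - a) ≤ volume Z := by
  classical
  have hB : ∀ i ∈ I, MeasurableSet ((fun y => c i - y) ⁻¹' A i) := fun i hi =>
    (measurable_const.sub measurable_id) (hA i hi)
  have e1 : ∀ i ∈ I, volume (A i) = volume ((fun y => c i - y) ⁻¹' A i) := fun i hi =>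
    ((Measure.measurePreserving_sub_left volume (c i)).measure_preimage
      (hA i hi).nullMeasurableSet).symm
  have e2 : ∑ i ∈ I, volume ((fun y => c i - y) ⁻¹' A i) ≤ volume Z := by
    rw [← measure_biUnion_finset _ hB]
    · apply measure_mono
      intro y hy
      simp only [mem_iUnion, mem_preimage] at hy
      obtain ⟨i, hi, hy⟩ := hy
      have := hZ i hi _ hy
      rwa [sub_sub_cancel] at this
    · intro i hi i' hi' hne
      refine Set.disjoint_left.mpr fun y h1 h2 => hne ?_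
      exact hd i hi i' hi' _ h1 _ h2 (by ring)
  have e3 : (m : ENNReal) * ENNReal.ofReal (b - a) ≤ ∑ i ∈ I, volume (A i) := by
    rw [← Real.volume_Ioo, ← lintegral_indicator_const measurableSet_Ioo]
    have e4 : ∑ i ∈ I, volume (A i) = ∫⁻ σ, ∑ i ∈ I, (A i).indicator (fun _ => (1 : ENNReal)) σ := by
      rw [lintegral_finsetSum]
      · refine Finset.sum_congr rfl fun i hi => ?_
        rw [lintegral_indicator_const (hA i hi), one_mul]
      · intro i hi
        exact measurable_const.indicator (hA i hi)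
    rw [e4]
    refine lintegral_mono fun σ => ?_
    by_cases hσ : σ ∈ Ioo a b
    · obtain ⟨K, hK, hmK, hK2⟩ := hm σ hσ
      rw [indicator_of_mem hσ]
      calc (m : ENNReal) ≤ (K.card : ENNReal) := by exact_mod_cast hmK
        _ = ∑ i ∈ K, (A i).indicator (fun _ => (1 : ENNReal)) σ := by
          rw [Finset.sum_congr rfl (fun i hi => indicator_of_mem (hK2 i hi) _)]
          simp
        _ ≤ _ := Finset.sum_le_sum_of_subset hK
    · rw [indicator_of_notMem hσ]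
      exact zero_le
  exact e3.trans ((Finset.sum_congr rfl e1).le.trans e2)

/-- two windows are equivalent under the action -/
def EW (x : Y) (s : H) (b : ℝ) (s' : H) (b' l : ℝ) : Prop := ∃ k : H, W x k s b s' b' l

theorem EW.symm {s s' : H} {b b' l : ℝ} (h : EW x s b s' b' l) : EW x s' b' s b l :=
  let ⟨_, hk⟩ := h; ⟨_, hk.symm⟩

theorem EW.trans {s s' s'' : H} {b b' b'' l : ℝ} (h : EW x s b s' b' l) (h' : EW x s' b' s'' b'' l) :
    EW x s b s'' b'' l :=
  let ⟨_, hk⟩ := h; let ⟨_, hk'⟩ := h'; ⟨_, hk.trans hk'⟩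

theorem EW.sub' {s s' : H} {b b' l c c' m : ℝ} (h : EW x s b s' b' l) (h0 : b ≤ c) (hm : 0 ≤ m)
    (h1 : c + m ≤ b + l) (hc : c' - c = b' - b) : EW x s c s' c' m :=
  let ⟨_, hk⟩ := h; ⟨_, hk.sub' h0 hm h1 hc⟩

theorem EW.mono {s s' : H} {b b' l m : ℝ} (h : EW x s b s' b' l) (hm : 0 ≤ m) (h1 : m ≤ l) :
    EW x s b s' b' m := h.sub' le_rfl hm (by linarith) rfl

theorem EW.bounds {s s' : H} {b b' l : ℝ} (h : EW x s b s' b' l) :
    0 ≤ l ∧ 0 ≤ b ∧ b + l ≤ len x s ∧ 0 ≤ b' ∧ b' + l ≤ len x s' :=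
  let ⟨_, h1, h2, h3, h4, h5, _⟩ := h; ⟨h1, h2, h3, h4, h5⟩

theorem measurableSet_EW [Countable H] (s s' : H) {f g m : ℝ → ℝ} (hf : Continuous f)
    (hg : Continuous g) (hm : Continuous m) :
    MeasurableSet {σ | EW x s (f σ) s' (g σ) (m σ)} := by
  have : {σ | EW x s (f σ) s' (g σ) (m σ)} = ⋃ k : H, {σ | W x k s (f σ) s' (g σ) (m σ)} := by
    ext σ; simp [EW]
  rw [this]
  refine MeasurableSet.iUnion fun k => IsClosed.measurableSet ?_
  have c1 := continuous_ga x s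
  have c2 := continuous_ga x s'
  have c3 : Continuous (fun y : Y => k • y) := (isometry_smul Y k).continuous
  unfold W
  refine (isClosed_le continuous_const hm).inter ((isClosed_le continuous_const hf).inter
    ((isClosed_le (hf.add hm) continuous_const).inter ((isClosed_le continuous_const hg).inter
    ((isClosed_le (hg.add hm) continuous_const).inter
    ((isClosed_eq (c3.comp (c1.comp hf)) (c2.comp hg)).inter
    (isClosed_eq (c3.comp (c1.comp (hf.add hm))) (c2.comp (hg.add hm))))))))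

/-- `t` is an occurrence of the window of length `σ` that ends at `j` -/
def Oc (x : Y) (j t : H × ℝ) (σ : ℝ) : Prop := EW x j.1 (j.2 - σ) t.1 (t.2 - σ) σ

/-- `t` is an occurrence of that window prolonged a little past `j` -/
def Oc' (x : Y) (j t : H × ℝ) (σ : ℝ) : Prop :=
  0 ≤ σ ∧ ∃ ε, 0 < ε ∧ EW x j.1 (j.2 - σ) t.1 (t.2 - σ) (σ + ε)

theorem Oc'.oc {j t : H × ℝ} {σ : ℝ} (h : Oc' x j t σ) : Oc x j t σ := by
  obtain ⟨h0, ε, hε, h⟩ := h
  exact h.mono h0 (by linarith)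

theorem Oc.down {j t : H × ℝ} {σ τ : ℝ} (h : Oc x j t σ) (h0 : 0 ≤ τ) (h1 : τ ≤ σ) : Oc x j t τ :=
  EW.sub' h (by linarith) h0 (by linarith) (by ring)

theorem measurableSet_oc [Countable H] (j t : H × ℝ) : MeasurableSet {σ | Oc x j t σ} :=
  measurableSet_EW j.1 t.1 (continuous_const.sub continuous_id) (continuous_const.sub continuous_id)
    continuous_id

theorem measurableSet_oc' (j t : H × ℝ) : MeasurableSet {σ | Oc' x j t σ} := by
  refine OrdConnected.measurableSet ⟨?_⟩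
  rintro σ1 ⟨h1, -⟩ σ2 ⟨-, ε, hε, h2⟩ σ ⟨h3, h4⟩
  exact ⟨by linarith, ε, hε, h2.sub' (by linarith) (by linarith) (by linarith) (by ring)⟩

theorem turnEq_of_oc' {j j' t : H × ℝ} {σ : ℝ} (hσ : 0 < σ) (h : Oc' x j t σ) (h' : Oc' x j' t σ) :
    TurnEq x j j' := by
  obtain ⟨-, ε, hε, h⟩ := h
  obtain ⟨-, ε', hε', h'⟩ := h'
  have m1 := min_le_left σ (min ε ε')
  have m2 := (min_le_right σ (min ε ε')).trans (min_le_left ε ε')
  have m3 := (min_le_right σ (min ε ε')).trans (min_le_right ε ε')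
  have m4 : 0 < min σ (min ε ε') := lt_min hσ (lt_min hε hε')
  generalize min σ (min ε ε') = δ at *
  obtain ⟨k, hk⟩ := ((h.mono (m := σ + δ) (by linarith) (by linarith)).trans
    (h'.mono (m := σ + δ) (by linarith) (by linarith)).symm).sub' (c := j.2 - δ) (c' := j'.2 - δ)
    (m := 2 * δ) (by linarith) (by linarith) (by linarith) (by ring)
  exact ⟨k, δ, m4, hk⟩

/-- the arcs can be laid out disjointly on one line -/
theorem exists_off (x : Y) (S : Finset H) : ∃ off : H → ℝ, ∀ s ∈ S, ∀ s' ∈ S, ∀ c c' : ℝ,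
    0 ≤ c → c ≤ len x s → 0 ≤ c' → c' ≤ len x s' → off s + c = off s' + c' → s = s' := by
  classical
  set M : ℝ := 1 + ∑ s ∈ S, len x s with hM
  have hlt : ∀ s ∈ S, len x s < M := by
    intro s hs
    have := Finset.single_le_sum (f := fun s => len x s) (fun s _ => len_nonneg x s) hs
    linarith
  have hM0 : 0 ≤ M := by
    have := Finset.sum_nonneg (s := S) (f := fun s => len x s) (fun s _ => len_nonneg x s)
    linarith
  let enc : H → ℕ := fun s => if h : s ∈ S then (S.equivFin ⟨s, h⟩ : ℕ) else 0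
  have henc : ∀ s ∈ S, ∀ s' ∈ S, enc s = enc s' → s = s' := by
    intro s hs s' hs' h
    simp only [enc, dif_pos hs, dif_pos hs'] at h
    have := S.equivFin.injective (Fin.ext h)
    exact congrArg Subtype.val this
  have key : ∀ s ∈ S, ∀ s' : H, ∀ c c' : ℝ, c ≤ len x s → 0 ≤ c' → enc s < enc s' →
      M * enc s + c < M * enc s' + c' := by
    intro s hs s' c c' h1 h2 h3
    have h4 : (enc s : ℝ) + 1 ≤ enc s' := by exact_mod_cast h3
    have h5 := mul_le_mul_of_nonneg_left h4 hM0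
    have := hlt s hs
    linarith
  refine ⟨fun s => M * enc s, fun s hs s' hs' c c' h1 h2 h3 h4 h => henc s hs s' hs' ?_⟩
  rcases lt_trichotomy (enc s) (enc s') with h5 | h5 | h5
  · exact absurd h (key s hs s' c c' h2 h3 h5).ne
  · exact h5
  · exact absurd h.symm (key s' hs' s c' c h4 h1 h5).ne

/-- `t1` is the least prolonged occurrence, and some plain occurrence comes earlier -/
def NF (x : Y) (off : H → ℝ) (T : Finset (H × ℝ)) (j t1 : H × ℝ) (σ : ℝ) : Prop :=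
  Oc' x j t1 σ ∧ (∀ v ∈ T, Oc' x j v σ → off t1.1 + t1.2 ≤ off v.1 + v.2) ∧
    ∃ v ∈ T, Oc x j v σ ∧ off v.1 + v.2 < off t1.1 + t1.2

/-- equal, or related by a window of length `r` -/
def RW (x : Y) (r : ℝ) (s : H) (b : ℝ) (s' : H) (b' : ℝ) : Prop :=
  (s = s' ∧ b = b') ∨ EW x s b s' b' r

theorem RW.symm {r b b' : ℝ} {s s' : H} (h : RW x r s b s' b') : RW x r s' b' s b :=
  h.imp (fun h => ⟨h.1.symm, h.2.symm⟩) EW.symm

theorem RW.trans {r b b' b'' : ℝ} {s s' s'' : H} (h : RW x r s b s' b') (h' : RW x r s' b' s'' b'') :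
    RW x r s b s'' b'' := by
  rcases h with ⟨rfl, rfl⟩ | h
  · exact h'
  · rcases h' with ⟨rfl, rfl⟩ | h'
    · exact Or.inr h
    · exact Or.inr (h.trans h')

theorem EW.rw {r a b b' l : ℝ} {u s s' : H} (h : EW x u a s b l) (h' : RW x r s b s' b')
    (hl : l ≤ r) : EW x u a s' b' l := by
  rcases h' with ⟨rfl, rfl⟩ | h'
  · exact h
  · exact h.trans (h'.mono h.bounds.1 hl)

theorem measurableSet_nf [Countable H] (off : H → ℝ) (T : Finset (H × ℝ)) (j t1 : H × ℝ) :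
    MeasurableSet {σ | NF x off T j t1 σ} := by
  have e : {σ | NF x off T j t1 σ} = {σ | Oc' x j t1 σ} ∩
      ((⋂ v ∈ T, ({σ | Oc' x j v σ}ᶜ ∪ {_σ | off t1.1 + t1.2 ≤ off v.1 + v.2})) ∩
        ⋃ v ∈ T, ({σ | Oc x j v σ} ∩ {_σ | off v.1 + v.2 < off t1.1 + t1.2})) := by
    ext σ
    simp only [NF, mem_ofPred_eq, mem_inter_iff, mem_iInter, mem_iUnion, mem_union, mem_compl_iff,
      exists_prop, imp_iff_not_or]
  rw [e]
  refine (measurableSet_oc' j t1).inter (MeasurableSet.inter ?_ ?_)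
  · exact T.measurableSet_biInter fun v _ =>
      (measurableSet_oc' j v).compl.union (MeasurableSet.const _)
  · exact T.measurableSet_biUnion fun v _ => (measurableSet_oc j v).inter (MeasurableSet.const _)

theorem measurableSet_rw [Countable H] (r : ℝ) (t1 t : H × ℝ) :
    MeasurableSet {σ | RW x r t1.1 (t1.2 - σ) t.1 (t.2 - σ)} := by
  have e : {σ | RW x r t1.1 (t1.2 - σ) t.1 (t.2 - σ)} = {_σ | t1.1 = t.1 ∧ t1.2 = t.2} ∪
      {σ | EW x t1.1 (t1.2 - σ) t.1 (t.2 - σ) r} := by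
    ext σ
    simp only [RW, mem_ofPred_eq, mem_union, sub_left_inj]
  rw [e]
  exact (MeasurableSet.const _).union (measurableSet_EW t1.1 t.1 (continuous_const.sub continuous_id)
    (continuous_const.sub continuous_id) continuous_const)

/-- two events with related representatives happen at the same time -/
theorem NF.not_lt {off : H → ℝ} {T : Finset (H × ℝ)} {j j' t1 t1' : H × ℝ} {σ σ' r : ℝ}
    (hT : ∀ v : H × ℝ, ∀ w ∈ T, v.1 = w.1 → Oc x j v σ → v ∈ T)
    (hT' : ∀ v : H × ℝ, ∀ w ∈ T, v.1 = w.1 → Oc x j' v σ' → v ∈ T) (ht1 : t1 ∈ T)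
    (h : NF x off T j t1 σ) (h' : NF x off T j' t1' σ')
    (hr : RW x r t1.1 (t1.2 - σ) t1'.1 (t1'.2 - σ')) (hσ' : σ' < r) : ¬ σ < σ' := by
  intro hlt
  obtain ⟨⟨h0, ε, hε, h1⟩, h2, -⟩ := h
  obtain ⟨⟨h0', ε', hε', h1'⟩, h2', v, hv, h3', h4'⟩ := h'
  have m1 := min_le_left ε' (r - σ')
  have m2 := min_le_right ε' (r - σ')
  have m3 : 0 < min ε' (r - σ') := lt_min hε' (by linarith)
  generalize min ε' (r - σ') = δ' at m1 m2 m3
  have n1 := min_le_left ε (σ' - σ)
  have n2 := min_le_right ε (σ' - σ)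
  have n3 : 0 < min ε (σ' - σ) := lt_min hε (by linarith)
  generalize min ε (σ' - σ) = δ at n1 n2 n3
  have a1 : EW x j'.1 (j'.2 - σ') t1.1 (t1.2 - σ) (σ' + δ') :=
    (h1'.mono (by linarith) (by linarith)).rw hr.symm (by linarith)
  have a2 : Oc' x j' (t1.1, t1.2 - σ + σ') σ' :=
    ⟨h0', δ', m3, by simpa only [add_sub_cancel_right] using a1⟩
  have a3 := h2' _ (hT' (t1.1, t1.2 - σ + σ') t1 ht1 rfl a2.oc) a2
  have a4 : EW x j.1 (j.2 - σ) v.1 (v.2 - σ') (σ + δ) :=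
    (h1.mono (by linarith) (by linarith)).trans
      (((a1.mono h0' (by linarith)).symm.trans h3').mono (by linarith) (by linarith))
  have a5 : Oc' x j (v.1, v.2 - σ' + σ) σ :=
    ⟨h0, δ, n3, by simpa only [add_sub_cancel_right] using a4⟩
  have a6 := h2 _ (hT (v.1, v.2 - σ' + σ) v hv rfl a5.oc) a5
  simp only at a3 a6
  linarith

theorem mt_core (hy : Hyp x S) {ρ : ℕ} (hA : NoFree x S ρ) : ∃ C : ℕ, ∀ J P : Finset (H × ℝ),
    (∀ j ∈ J, j.1 ∈ S ∧ 0 < j.2 ∧ j.2 < len x j.1) →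
    (∀ j ∈ J, ∀ j' ∈ J, TurnEq x j j' → j = j') → (∀ j ∈ J, ∃ p ∈ P, BackEq x j p) →
    J.card ≤ P.card + C := by
  classical
  have : Countable H := countable_of_gen hy.gen
  obtain ⟨off, hoff⟩ := exists_off x S
  refine ⟨2 * ∑ s ∈ S, (finite_sing x S ρ s).toFinset.card, fun J P hJ hturn hback => ?_⟩
  rcases J.eq_empty_or_nonempty with rfl | hne
  · simp
  have hb : ∀ j : H × ℝ, ∃ (p : H × ℝ) (ε : ℝ), j ∈ J →
      p ∈ P ∧ 0 < ε ∧ EW x j.1 (j.2 - ε) p.1 (p.2 - ε) ε := by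
    intro j
    by_cases hj : j ∈ J
    · obtain ⟨p, hp, k, ε, hε, hw⟩ := hback j hj
      exact ⟨p, ε, fun _ => ⟨hp, hε, k, hw⟩⟩
    · exact ⟨j, 0, fun h => absurd h hj⟩
  choose p ε hp using hb
  obtain ⟨j0, hj0, hmin⟩ := J.exists_min_image ε hne
  have hr : 0 < ε j0 := (hp j0 hj0).2.1
  generalize ε j0 = r at hr hmin
  have hpo : ∀ j ∈ J, ∀ σ, 0 ≤ σ → σ ≤ r → Oc x j (p j) σ := fun j hj σ h0 h1 =>
    Oc.down (σ := ε j) (hp j hj).2.2 h0 (h1.trans (hmin j hj))
  have hfin : {t : H × ℝ | t.1 ∈ S ∧ ∃ j ∈ J, Oc x j t (r / 2)}.Finite := by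
    refine (J.finite_toSet.biUnion (fun j _ => (finite_occ hy j.1 (j.2 - r / 2) (r / 2)
      (by linarith)).image (fun q => (q.1, q.2 + r / 2)))).subset ?_
    rintro t ⟨ht, j, hj, h⟩
    simp only [mem_iUnion]
    exact ⟨j, hj, (t.1, t.2 - r / 2), ⟨ht, h⟩, by simp⟩
  obtain ⟨T, hT1, hT2⟩ : ∃ T : Finset (H × ℝ), (∀ t ∈ T, t.1 ∈ S) ∧
      ∀ j ∈ J, ∀ σ, r / 2 < σ → ∀ t : H × ℝ, t.1 ∈ S → Oc x j t σ → t ∈ T := by
    refine ⟨hfin.toFinset, fun t ht => (hfin.mem_toFinset.mp ht).1, fun j hj σ hσ t ht h => ?_⟩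
    exact hfin.mem_toFinset.mpr ⟨ht, j, hj, h.down (by linarith) hσ.le⟩
  let Z : Set ℝ := ⋃ s ∈ S, ⋃ z ∈ (finite_sing x S ρ s).toFinset, Icc (off s + z - r) (off s + z)
  let A : (H × ℝ) × (H × ℝ) → Set ℝ := fun i => Ioo (r / 2) r ∩
    ((⋃ t1 ∈ T, {σ | NF x off T i.1 t1 σ} ∩ {σ | RW x r t1.1 (t1.2 - σ) i.2.1 (i.2.2 - σ)}) ∩
      (fun σ => off i.2.1 + i.2.2 - σ) ⁻¹' Z)
  have hAm : ∀ i σ, σ ∈ A i ↔ (r / 2 < σ ∧ σ < r) ∧ (∃ t1 ∈ T, NF x off T i.1 t1 σ ∧
      RW x r t1.1 (t1.2 - σ) i.2.1 (i.2.2 - σ)) ∧ off i.2.1 + i.2.2 - σ ∈ Z := by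
    intro i σ
    simp only [A, mem_inter_iff, mem_Ioo, mem_iUnion, mem_ofPred_eq, mem_preimage, exists_prop]
  have hZm : MeasurableSet Z :=
    S.measurableSet_biUnion fun s _ => Finset.measurableSet_biUnion _ fun z _ => measurableSet_Icc
  have hZv : volume Z ≤ ((∑ s ∈ S, (finite_sing x S ρ s).toFinset.card : ℕ) : ENNReal) *
      ENNReal.ofReal r := by
    refine (measure_biUnion_finset_le _ _).trans ?_
    rw [Nat.cast_sum, Finset.sum_mul]
    refine Finset.sum_le_sum fun s _ => (measure_biUnion_finset_le _ _).trans ?_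
    simp only [Real.volume_Icc, sub_sub_cancel]
    rw [Finset.sum_const, nsmul_eq_mul]
  have main := mt_measure (J ×ˢ T) A (by
      intro i _
      refine measurableSet_Ioo.inter (MeasurableSet.inter ?_ ?_)
      · exact T.measurableSet_biUnion fun t1 _ =>
          (measurableSet_nf off T i.1 t1).inter (measurableSet_rw r t1 i.2)
      · exact (measurable_const.sub measurable_id) hZm)
    (fun i => off i.2.1 + i.2.2) Z (fun i _ σ hσ => ((hAm i σ).mp hσ).2.2) (by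
      rintro ⟨j, t⟩ hi ⟨j', t'⟩ hi' σ hσ σ' hσ' e
      obtain ⟨hj, ht⟩ := Finset.mem_product.mp hi
      obtain ⟨hj', ht'⟩ := Finset.mem_product.mp hi'
      obtain ⟨⟨s1, s2⟩, ⟨t1, ht1, hn, hw⟩, -⟩ := (hAm _ σ).mp hσ
      obtain ⟨⟨s1', s2'⟩, ⟨t1', ht1', hn', hw'⟩, -⟩ := (hAm _ σ').mp hσ'
      simp only at hj ht hj' ht' hn hw hn' hw' e
      have b1 := (EW.rw hn.1.oc hw s2.le).bounds
      have b2 := (EW.rw hn'.1.oc hw' s2'.le).bounds
      have e1 : t.1 = t'.1 := hoff _ (hT1 t ht) _ (hT1 t' ht') (t.2 - σ) (t'.2 - σ') b1.2.2.2.1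
        (by linarith [b1.2.2.2.2, b1.1]) b2.2.2.2.1 (by linarith [b2.2.2.2.2, b2.1]) (by linarith)
      have e2 : t.2 - σ = t'.2 - σ' := by rw [e1] at e; linarith
      have hw2 : RW x r t1.1 (t1.2 - σ) t1'.1 (t1'.2 - σ') :=
        hw.trans (by rw [e1, e2]; exact hw'.symm)
      have c1 : ∀ v : H × ℝ, ∀ w ∈ T, v.1 = w.1 → Oc x j v σ → v ∈ T :=
        fun v w hw e h => hT2 j hj σ s1 v (e ▸ hT1 w hw) h
      have c2 : ∀ v : H × ℝ, ∀ w ∈ T, v.1 = w.1 → Oc x j' v σ' → v ∈ T :=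
        fun v w hw e h => hT2 j' hj' σ' s1' v (e ▸ hT1 w hw) h
      have e3 : σ = σ' := le_antisymm (not_lt.mp (NF.not_lt c2 c1 ht1' hn' hn hw2.symm s2))
        (not_lt.mp (NF.not_lt c1 c2 ht1 hn hn' hw2 s2'))
      subst e3
      have e4 : j = j' := by
        refine hturn j hj j' hj' (turnEq_of_oc' (t := t1') (σ := σ) (by linarith) ?_ hn'.1)
        obtain ⟨h0, δ, hδ, h1⟩ := hn.1
        have m1 := min_le_left δ (r - σ)
        have m2 := min_le_right δ (r - σ)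
        have m3 : 0 < min δ (r - σ) := lt_min hδ (by linarith)
        exact ⟨h0, _, m3, (h1.mono (by linarith) (by linarith)).rw hw2 (by linarith)⟩
      rw [e4, Prod.ext e1 (by linarith : t.2 = t'.2)])
    (r / 2) r (J.card - P.card) (by
      rintro σ ⟨s1, s2⟩
      have h0 : 0 < σ := by linarith
      have rep : ∀ j ∈ J, ∃ t1 ∈ T, Oc' x j t1 σ ∧
          ∀ v ∈ T, Oc' x j v σ → off t1.1 + t1.2 ≤ off v.1 + v.2 := by
        intro j hj
        have hjj : Oc' x j j σ := by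
          have b := (hpo j hj σ h0.le s2.le).bounds
          obtain ⟨-, -, h3⟩ := hJ j hj
          exact ⟨h0.le, len x j.1 - j.2, by linarith, 1,
            W.refl (by linarith) b.2.1 (by linarith)⟩
        obtain ⟨t1, ht1, hm⟩ := (T.filter (fun v => Oc' x j v σ)).exists_min_image
          (fun v => off v.1 + v.2) ⟨j, Finset.mem_filter.mpr
            ⟨hT2 j hj σ s1 j (hJ j hj).1 hjj.oc, hjj⟩⟩
        obtain ⟨h1, h2⟩ := Finset.mem_filter.mp ht1
        exact ⟨t1, h1, h2, fun v hv h => hm v (Finset.mem_filter.mpr ⟨hv, h⟩)⟩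
      have tgt : ∀ j ∈ J, ∀ t1 ∈ T, NF x off T j t1 σ → ∃ t ∈ T, σ ∈ A (j, t) := by
        intro j hj t1 ht1 hn
        have b := hn.1.oc.bounds
        by_cases hc : t1.2 - σ + r ≤ len x t1.1
        · obtain ⟨k, s', b', hs', hw, z, hz, z1, z2⟩ := hA r hr t1.1 (hT1 t1 ht1) _ b.2.2.2.1 hc
          have hw' : RW x r t1.1 (t1.2 - σ) s' (b' + σ - σ) :=
            Or.inr ⟨k, by rwa [add_sub_cancel_right]⟩
          refine ⟨(s', b' + σ), hT2 j hj σ s1 _ hs' (EW.rw hn.1.oc hw' s2.le),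
            (hAm _ σ).mpr ⟨⟨s1, s2⟩, ⟨t1, ht1, hn, hw'⟩, ?_⟩⟩
          simp only [Z, mem_iUnion, mem_Icc, exists_prop]
          exact ⟨s', hs', z, (Finite.mem_toFinset _).mpr hz, by linarith, by linarith⟩
        · refine ⟨t1, ht1, (hAm _ σ).mpr ⟨⟨s1, s2⟩, ⟨t1, ht1, hn, Or.inl ⟨rfl, rfl⟩⟩, ?_⟩⟩
          simp only [Z, mem_iUnion, mem_Icc, exists_prop]
          exact ⟨t1.1, hT1 t1 ht1, len x t1.1, (Finite.mem_toFinset _).mpr (len_mem_sing x S ρ _),
            by linarith, by linarith [b.2.2.2.2]⟩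
      let K := (J ×ˢ T).filter (fun i => σ ∈ A i)
      refine ⟨K, Finset.filter_subset _ _, ?_, fun i hi => (Finset.mem_filter.mp hi).2⟩
      have fst : ∀ j ∈ J \ K.image Prod.fst, ∃ t1 ∈ T, Oc' x j t1 σ ∧
          ∀ v ∈ T, Oc x j v σ → off t1.1 + t1.2 ≤ off v.1 + v.2 := by
        intro j hj
        obtain ⟨hj, hj2⟩ := Finset.mem_sdiff.mp hj
        obtain ⟨t1, ht1, h1, h2⟩ := rep j hj
        refine ⟨t1, ht1, h1, fun v hv h => not_lt.mp fun hlt => hj2 ?_⟩
        obtain ⟨t, ht, h3⟩ := tgt j hj t1 ht1 ⟨h1, h2, v, hv, h, hlt⟩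
        exact Finset.mem_image.mpr ⟨(j, t), Finset.mem_filter.mpr
          ⟨Finset.mem_product.mpr ⟨hj, ht⟩, h3⟩, rfl⟩
      have inj : (J \ K.image Prod.fst).card ≤ P.card := by
        refine Finset.card_le_card_of_injOn p (fun j hj => ?_) (fun j hj j' hj' e => ?_)
        · exact (hp j (Finset.mem_sdiff.mp hj).1).1
        · obtain ⟨t1, ht1, h1, h2⟩ := fst j hj
          obtain ⟨t1', ht1', h1', h2'⟩ := fst j' hj'
          have hj1 := (Finset.mem_sdiff.mp hj).1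
          have hj1' := (Finset.mem_sdiff.mp hj').1
          have q := hpo j hj1 σ h0.le s2.le
          have q' := hpo j' hj1' σ h0.le s2.le
          rw [← e] at q'
          have q2 : Oc x j j' σ := EW.trans q (EW.symm q')
          have l1 := h2 t1' ht1' (EW.trans q2 h1'.oc)
          have l2 := h2' t1 ht1 (EW.trans (EW.symm q2) h1.oc)
          have b1 := h1.oc.bounds
          have b2 := h1'.oc.bounds
          have e1 : t1.1 = t1'.1 := hoff _ (hT1 _ ht1) _ (hT1 _ ht1') t1.2 t1'.2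
            (by linarith [b1.2.2.2.1]) (by linarith [b1.2.2.2.2]) (by linarith [b2.2.2.2.1])
            (by linarith [b2.2.2.2.2]) (le_antisymm l1 l2)
          have e2 : t1 = t1' := Prod.ext e1 (by rw [e1] at l1 l2; linarith)
          exact hturn j hj1 j' hj1' (turnEq_of_oc' h0 h1 (e2 ▸ h1'))
      have c1 := Finset.le_card_sdiff (K.image Prod.fst) J
      have c2 := Finset.card_image_le (s := K) (f := Prod.fst)
      omega)
  have fin := main.trans hZv
  rw [show r - r / 2 = r / 2 by ring, show r = 2 * (r / 2) by ring,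
    ENNReal.ofReal_mul (p := 2) (by norm_num), show 2 * (r / 2) / 2 = r / 2 by ring, ← mul_assoc,
    ENNReal.mul_le_mul_iff_left (by simpa using hr) ENNReal.ofReal_ne_top] at fin
  have fin2 : J.card - P.card ≤ (∑ s ∈ S, (finite_sing x S ρ s).toFinset.card) * 2 := by
    rw [ENNReal.ofReal_ofNat] at fin
    exact_mod_cast fin
  omega

end Pool.Agent.MP_e97151_al

end

-- part MP_e97151_al.Flips
section

/-! Finitely many classes of non-simple turns, finitely many conjugacy classes of flips. -/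

set_option autoImplicit false
set_option linter.unusedSectionVars false

namespace Pool.Agent.MP_e97151_al

variable {H Y : Type} [Group H] [MetricSpace Y] [MulAction H Y] [IsIsometricSMul H Y] [RT Y]
variable {x : Y} {S : Finset H}

/-- representatives for a symmetric and transitive relation -/
theorem exists_rep {α : Type} (I : Set α) (T : α → α → Prop) (Tsymm : ∀ a b, T a b → T b a)
    (Ttrans : ∀ a b c, T a b → T b c → T a c) :
    ∃ rep : α → α, (∀ a ∈ I, T a a → rep a ∈ I ∧ T a (rep a)) ∧ ∀ a b, T a b → rep a = rep b := by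
  refine ⟨fun a => @Classical.epsilon α ⟨a⟩ (fun b => b ∈ I ∧ T a b), ?_, ?_⟩
  · intro a ha haa
    exact Classical.epsilon_spec (p := fun b => b ∈ I ∧ T a b) ⟨a, ha, haa⟩
  · intro a b hab
    have : (fun c => c ∈ I ∧ T a c) = (fun c => c ∈ I ∧ T b c) := by
      funext c
      exact propext ⟨fun h => ⟨h.1, Ttrans _ _ _ (Tsymm _ _ hab) h.2⟩,
        fun h => ⟨h.1, Ttrans _ _ _ hab h.2⟩⟩
    show @Classical.epsilon α ⟨a⟩ (fun c => c ∈ I ∧ T a c) =
      @Classical.epsilon α ⟨b⟩ (fun c => c ∈ I ∧ T b c)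
    rw [this]

/-- the abstract counting argument -/
theorem abs_turns {α : Type} (I : Set α) (E : Finset α) (T B : α → α → Prop)
    (Trefl : ∀ a ∈ I, T a a) (Tsymm : ∀ a b, T a b → T b a)
    (Ttrans : ∀ a b c, T a b → T b c → T a c) (TB : ∀ a b, T a b → B a b)
    (Bsymm : ∀ a b, B a b → B b a) (Btrans : ∀ a b c, B a b → B b c → B a c) (C : ℕ)
    (hC : ∀ J P : Finset α, (∀ j ∈ J, j ∈ I) → (∀ j ∈ J, ∀ j' ∈ J, T j j' → j = j') →
      (∀ j ∈ J, ∃ p ∈ P, B j p) → J.card ≤ P.card + C) :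
    ∃ J : Finset α, ∀ a ∈ I, ((∃ e ∈ E, B a e) ∨ ∃ b ∈ I, B a b ∧ ¬ T a b) → ∃ j ∈ J, T a j := by
  classical
  obtain ⟨rep, hr1, hr2⟩ := exists_rep I T Tsymm Ttrans
  obtain ⟨brep, hb1, hb2⟩ := exists_rep I B Bsymm Btrans
  let R : Set α := {r | ∃ a ∈ I, ((∃ e ∈ E, B a e) ∨ ∃ b ∈ I, B a b ∧ ¬ T a b) ∧ rep a = r}
  have hRI : ∀ r ∈ R, r ∈ I := by
    rintro r ⟨a, ha, -, rfl⟩
    exact (hr1 a ha (Trefl a ha)).1
  have hRT : ∀ r ∈ R, ∀ r' ∈ R, T r r' → r = r' := by
    rintro r ⟨a, ha, -, rfl⟩ r' ⟨a', ha', -, rfl⟩ h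
    apply hr2
    exact Ttrans _ _ _ (Ttrans _ _ _ (hr1 a ha (Trefl a ha)).2 h)
      (Tsymm _ _ (hr1 a' ha' (Trefl a' ha')).2)
  have hpart : ∀ r, ∃ r', r ∈ R → r' ∈ R ∧ ((∃ e ∈ E, B r e) ∨ (B r r' ∧ r' ≠ r)) ∧
      ((∃ e ∈ E, B r' e) ∨ (B r r' ∧ r' ≠ r)) := by
    intro r
    by_cases hr : r ∈ R
    swap
    · exact ⟨r, fun h => absurd h hr⟩
    obtain ⟨a, ha, hbad, rfl⟩ := hr
    have h1 := (hr1 a ha (Trefl a ha)).2
    rcases hbad with ⟨e, he, hae⟩ | ⟨b, hb, hab, hnt⟩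
    · have : ∃ e ∈ E, B (rep a) e := ⟨e, he, Btrans _ _ _ (TB _ _ (Tsymm _ _ h1)) hae⟩
      exact ⟨rep a, fun h => ⟨h, Or.inl this, Or.inl this⟩⟩
    · have h2 := (hr1 b hb (Trefl b hb)).2
      have h3 : B (rep a) (rep b) ∧ rep b ≠ rep a := by
        refine ⟨Btrans _ _ _ (TB _ _ (Tsymm _ _ h1)) (Btrans _ _ _ hab (TB _ _ h2)), fun e => hnt ?_⟩
        rw [e] at h2
        exact Ttrans _ _ _ h1 (Tsymm _ _ h2)
      exact ⟨rep b, fun _ => ⟨⟨b, hb, Or.inr ⟨a, ha, Bsymm _ _ hab, fun h => hnt (Tsymm _ _ h)⟩, rfl⟩,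
        Or.inr h3, Or.inr h3⟩⟩
  choose pa hpa using hpart
  have hfin : R.Finite := by
    by_contra hinf
    obtain ⟨J0, hJ0, hcard⟩ := Set.Infinite.exists_subset_card_eq hinf (2 * (E.card + C) + 1)
    let J : Finset α := J0 ∪ J0.image pa
    have hJR : ∀ j ∈ J, j ∈ R := by
      intro j hj
      rcases Finset.mem_union.mp hj with h | h
      · exact hJ0 h
      · obtain ⟨j0, h0, rfl⟩ := Finset.mem_image.mp h
        exact (hpa j0 (hJ0 h0)).1
    have hJp : ∀ j ∈ J, (∃ e ∈ E, B j e) ∨ ∃ j' ∈ J, B j j' ∧ j' ≠ j := by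
      intro j hj
      rcases Finset.mem_union.mp hj with h | h
      · rcases (hpa j (hJ0 h)).2.1 with h1 | h1
        · exact Or.inl h1
        · exact Or.inr ⟨pa j, Finset.mem_union_right _ (Finset.mem_image_of_mem _ h), h1⟩
      · obtain ⟨j0, h0, rfl⟩ := Finset.mem_image.mp h
        rcases (hpa j0 (hJ0 h0)).2.2 with h1 | h1
        · exact Or.inl h1
        · exact Or.inr ⟨j0, Finset.mem_union_left _ h0, Bsymm _ _ h1.1, h1.2.symm⟩
    let J1 : Finset α := J.filter (fun j => ¬ ∃ e ∈ E, B j e)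
    have h2 : 2 * (J1.image brep).card ≤ J1.card := by
      apply Finset.mul_card_image_le_card
      intro b hb
      obtain ⟨j, hj, rfl⟩ := Finset.mem_image.mp hb
      obtain ⟨hjJ, hjE⟩ := Finset.mem_filter.mp hj
      rcases hJp j hjJ with h | ⟨j', hj', hB, hne⟩
      · exact absurd h hjE
      · have hj1 : j' ∈ J1 := Finset.mem_filter.mpr ⟨hj', fun ⟨e, he, h⟩ =>
          hjE ⟨e, he, Btrans _ _ _ hB h⟩⟩
        exact Finset.one_lt_card.mpr ⟨j, Finset.mem_filter.mpr ⟨hj, rfl⟩, j',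
          Finset.mem_filter.mpr ⟨hj1, (hb2 _ _ hB).symm⟩, hne.symm⟩
    have h3 := hC J (E ∪ J1.image brep) (fun j hj => hRI j (hJR j hj))
      (fun j hj j' hj' => hRT j (hJR j hj) j' (hJR j' hj')) (by
        intro j hj
        by_cases hE : ∃ e ∈ E, B j e
        · obtain ⟨e, he, h⟩ := hE
          exact ⟨e, Finset.mem_union_left _ he, h⟩
        · have hI := hRI j (hJR j hj)
          exact ⟨brep j, Finset.mem_union_right _
            (Finset.mem_image_of_mem _ (Finset.mem_filter.mpr ⟨hj, hE⟩)),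
            (hb1 j hI (TB _ _ (Trefl j hI))).2⟩)
    have h4 : (E ∪ J1.image brep).card ≤ E.card + (J1.image brep).card := Finset.card_union_le _ _
    have h5 : J1.card ≤ J.card := Finset.card_filter_le _ _
    have h6 : J0.card ≤ J.card := Finset.card_le_card Finset.subset_union_left
    omega
  refine ⟨hfin.toFinset, fun a ha hbad => ⟨rep a, ?_, (hr1 a ha (Trefl a ha)).2⟩⟩
  exact hfin.mem_toFinset.mpr ⟨a, ha, hbad, rfl⟩

theorem turnEq_refl {j : H × ℝ} (h0 : 0 < j.2) (h1 : j.2 < len x j.1) : TurnEq x j j := by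
  have a1 := min_le_left j.2 (len x j.1 - j.2)
  have a2 := min_le_right j.2 (len x j.1 - j.2)
  have a3 : 0 < min j.2 (len x j.1 - j.2) := lt_min h0 (by linarith)
  exact ⟨1, _, a3, W.refl (by linarith) (by linarith) (by linarith)⟩

theorem turnEq_symm {j j' : H × ℝ} (h : TurnEq x j j') : TurnEq x j' j := by
  obtain ⟨k, ε, hε, h⟩ := h
  exact ⟨k⁻¹, ε, hε, h.symm⟩

theorem turnEq_trans {j j' j'' : H × ℝ} (h : TurnEq x j j') (h' : TurnEq x j' j'') :
    TurnEq x j j'' := by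
  obtain ⟨k, ε, hε, h⟩ := h
  obtain ⟨k', ε', hε', h'⟩ := h'
  have a1 := min_le_left ε ε'
  have a2 := min_le_right ε ε'
  have a3 : 0 < min ε ε' := lt_min hε hε'
  exact ⟨k' * k, min ε ε', a3,
    (h.sub' (c' := j'.2 - min ε ε') (by linarith) (by linarith) (by linarith) (by ring)).trans
      (h'.sub' (by linarith) (by linarith) (by linarith) (by ring))⟩

theorem turnEq_backEq {j j' : H × ℝ} (h : TurnEq x j j') : BackEq x j j' := by
  obtain ⟨k, ε, hε, h⟩ := h
  exact ⟨k, ε, hε, h.sub' le_rfl hε.le (by linarith) rfl⟩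

theorem backEq_symm {j j' : H × ℝ} (h : BackEq x j j') : BackEq x j' j := by
  obtain ⟨k, ε, hε, h⟩ := h
  exact ⟨k⁻¹, ε, hε, h.symm⟩

theorem backEq_trans {j j' j'' : H × ℝ} (h : BackEq x j j') (h' : BackEq x j' j'') :
    BackEq x j j'' := by
  obtain ⟨k, ε, hε, h⟩ := h
  obtain ⟨k', ε', hε', h'⟩ := h'
  have a1 := min_le_left ε ε'
  have a2 := min_le_right ε ε'
  have a3 : 0 < min ε ε' := lt_min hε hε'
  exact ⟨k' * k, min ε ε', a3,
    (h.sub' (c' := j'.2 - min ε ε') (by linarith) (by linarith) (by linarith) (by ring)).trans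
      (h'.sub' (by linarith) (by linarith) (by linarith) (by ring))⟩

theorem not_fs_cases (harc : ArcTriv H Y) {s : H} {t : ℝ} (h : ¬ FS x S s t) :
    ∃ s' ∈ S, ∃ t', 0 < t' ∧ t' ≤ len x s' ∧ BackEq x (s, t) (s', t') ∧
      ¬ TurnEq x (s, t) (s', t') := by
  unfold FS at h
  push Not at h
  obtain ⟨k, s', t', ε, hs', hε, hw, hn⟩ := h
  have b1 : 0 ≤ t' - ε := hw.2.2.2.1
  have b2 : t' - ε + ε ≤ len x s' := hw.2.2.2.2.1
  refine ⟨s', hs', t', by linarith, by linarith, ⟨k, ε, hε, hw⟩, ?_⟩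
  rintro ⟨k', δ, hδ, hw'⟩
  dsimp only at hw'
  have a1 := min_le_left ε δ
  have a2 := min_le_right ε δ
  have a3 : 0 < min ε δ := lt_min hε hδ
  have e : k = k' := W.uniq harc a3
    (hw.sub' (c := t - min ε δ) (c' := t' - min ε δ) (by linarith) a3.le (by linarith) (by ring))
    (hw'.sub' (by linarith) a3.le (by linarith) (by ring))
  subst e
  exact hn δ hδ (hw'.sub' (by linarith) hδ.le (by linarith) (by ring))

theorem flip_uniq (harc : ArcTriv H Y) {s h h' : H} {t : ℝ} (h1 : Flip x s t h)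
    (h2 : Flip x s t h') : h = h' := by
  obtain ⟨ε, hε, h1⟩ := h1
  obtain ⟨ε', hε', h2⟩ := h2
  have a1 := min_le_left ε ε'
  have a2 := min_le_right ε ε'
  have a3 : 0 < min ε ε' := lt_min hε hε'
  exact mul_left_cancel (W.uniq harc a3
    (h1.sub' le_rfl a3.le (by linarith) rfl) (h2.sub' le_rfl a3.le (by linarith) rfl))

theorem flip_ne_one {s h : H} {t : ℝ} (h1 : Flip x s t h) : h ≠ 1 := by
  rintro rfl
  obtain ⟨ε, hε, -, h0, h2, -, h3, -, e⟩ := h1
  rw [len_inv] at h3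
  rw [mul_one, show len x s - t + ε = len x s - (t - ε) by ring, ga_inv] at e
  have := ga_inj (by linarith) h2 (by linarith) (by linarith) (smul_left_cancel _ e)
  linarith

theorem flip_turn {s s' h : H} {t t' : ℝ} (h1 : Flip x s t h) (h2 : TurnEq x (s, t) (s', t')) :
    ∃ k : H, Flip x s' t' (k * h * k⁻¹) := by
  obtain ⟨ε, hε, h1⟩ := h1
  obtain ⟨k, δ, hδ, h2⟩ := h2
  dsimp only at h2
  have a1 := min_le_left ε δ
  have a2 := min_le_right ε δ
  have a3 : 0 < min ε δ := lt_min hε hδ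
  have w1 : W x k s t s' t' (min ε δ) := h2.sub' (by linarith) a3.le (by linarith) (by ring)
  have w2 : W x (s⁻¹ * h) s t s⁻¹ (len x s - t) (min ε δ) :=
    h1.sub' le_rfl a3.le (by linarith) rfl
  have w3 : W x k s (t - min ε δ) s' (t' - min ε δ) (min ε δ) :=
    h2.sub' (by linarith) a3.le (by linarith) (by ring)
  have w4 := w3.rev
  rw [show len x s - min ε δ - (t - min ε δ) = len x s - t by ring,
    show len x s' - min ε δ - (t' - min ε δ) = len x s' - t' by ring] at w4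
  have w5 := (w1.symm.trans w2).trans w4
  refine ⟨k, min ε δ, a3, ?_⟩
  rwa [show s'⁻¹ * k * s * (s⁻¹ * h * k⁻¹) = s'⁻¹ * (k * h * k⁻¹) by group] at w5

theorem flip_rev {s h : H} {t : ℝ} (h1 : Flip x s t h) :
    Flip x s⁻¹ (len x s - t) (s⁻¹ * h⁻¹ * s) := by
  obtain ⟨ε, hε, h1⟩ := h1
  refine ⟨ε, hε, ?_⟩
  have w := h1.symm
  rw [inv_inv, len_inv, show len x s - (len x s - t) = t by ring,
    show s * (s⁻¹ * h⁻¹ * s) = (s⁻¹ * h)⁻¹ by group]
  exact w

/-- HINT. `TurnEq` is an equivalence relation on interior positions, `BackEq` on positions with `0 < t ≤ len`, and `TurnEq → BackEq`.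
If `¬ FS s t` then `(s,t)` is `BackEq` to an end `(s', len s')` or to an interior position that is not `TurnEq` to it (`W.uniq`). If the claim fails
there are arbitrarily large finite families `J0` of pairwise inequivalent interior non-`FS` positions. Enlarge `J0` to `J` by adding partners (one representative per
`TurnEq` class; pass to quotient types or take a maximal inequivalent subfamily), and take for `P` one representative per `BackEq` class met by `J`: classes without an end contain at least two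
elements of `J`, so `|P| ≤ |S| + |J| / 2` and `|J0| ≤ |J| ≤ 2 (|S| + C)`. -/
theorem finite_turns (hy : Hyp x S) (C : ℕ) (hC : ∀ J P : Finset (H × ℝ),
    (∀ j ∈ J, j.1 ∈ S ∧ 0 < j.2 ∧ j.2 < len x j.1) →
    (∀ j ∈ J, ∀ j' ∈ J, TurnEq x j j' → j = j') → (∀ j ∈ J, ∃ p ∈ P, BackEq x j p) →
    J.card ≤ P.card + C) :
    ∃ J : Finset (H × ℝ), ∀ s ∈ S, ∀ t : ℝ, 0 < t → t < len x s → ¬ FS x S s t →
      ∃ j ∈ J, TurnEq x (s, t) j := by
  classical
  obtain ⟨J, hJ⟩ := abs_turns {j : H × ℝ | j.1 ∈ S ∧ 0 < j.2 ∧ j.2 < len x j.1}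
    (S.image fun s => (s, len x s)) (TurnEq x) (BackEq x)
    (fun a ha => turnEq_refl ha.2.1 ha.2.2) (fun _ _ => turnEq_symm) (fun _ _ _ => turnEq_trans)
    (fun _ _ => turnEq_backEq) (fun _ _ => backEq_symm) (fun _ _ _ => backEq_trans) C hC
  refine ⟨J, fun s hs t h0 h1 hn => hJ (s, t) ⟨hs, h0, h1⟩ ?_⟩
  obtain ⟨s', hs', t', h2, h3, hb, hnt⟩ := not_fs_cases hy.arc hn
  rcases h3.eq_or_lt with e | h3
  · subst e
    exact Or.inl ⟨_, Finset.mem_image_of_mem _ hs', hb⟩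
  · exact Or.inr ⟨(s', t'), ⟨hs', h2, h3⟩, hb, hnt⟩

/-- HINT. A flip at a given position is unique (`W.uniq`) and `≠ 1` (`ga_inv`, `ga_inj`). If `TurnEq (s,t) (s',t')` via `k` then `k h k⁻¹` is a flip at `(s',t')`
(`W.rev`, `W.trans`). A flip `h` at `(s,t)` gives the flip `s⁻¹ h⁻¹ s` at `(s⁻¹, len - t)`. Take for `F` the flips at the points of `J` and their inverses. -/
theorem finite_flips (hy : Hyp x S) : ∃ F : Set H, F.Finite ∧ (1 : H) ∉ F ∧
    ∀ s ∈ S, ∀ t : ℝ, 0 < t → t < len x s → ¬ Simple x S s t → ∀ h, Flip x s t h →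
      ∃ f ∈ F, IsConj f h := by
  obtain ⟨ρ, hA⟩ := exists_noFree hy
  obtain ⟨C, hC⟩ := mt_core hy hA
  obtain ⟨J, hJ⟩ := finite_turns hy C hC
  have hF : (⋃ j ∈ J, {h | Flip x j.1 j.2 h}).Finite :=
    J.finite_toSet.biUnion fun j _ =>
      Set.Subsingleton.finite fun a ha b hb => flip_uniq hy.arc ha hb
  refine ⟨(⋃ j ∈ J, {h | Flip x j.1 j.2 h}) ∪ (⋃ j ∈ J, {h | Flip x j.1 j.2 h})⁻¹,
    hF.union hF.inv, ?_, ?_⟩
  · rintro (h | h)
    · obtain ⟨j, -, h⟩ := Set.mem_iUnion₂.mp h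
      exact flip_ne_one h rfl
    · obtain ⟨j, -, h⟩ := Set.mem_iUnion₂.mp (Set.mem_inv.mp h)
      exact flip_ne_one h inv_one
  · intro s hs t h0 h1 hn h hf
    by_cases hfs : FS x S s t
    · have hn' : ¬ FS x S s⁻¹ (len x s - t) := fun h => hn ⟨hfs, h⟩
      obtain ⟨j, hj, ht⟩ := hJ s⁻¹ (hy.symm s hs) (len x s - t) (by linarith)
        (by rw [len_inv]; linarith) hn'
      obtain ⟨k, hk⟩ := flip_turn (s' := j.1) (t' := j.2) (flip_rev hf) ht
      refine ⟨(k * (s⁻¹ * h⁻¹ * s) * k⁻¹)⁻¹, Or.inr (Set.mem_inv.mpr ?_), ?_⟩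
      · rw [inv_inv]
        exact Set.mem_iUnion₂.mpr ⟨j, hj, hk⟩
      · exact isConj_iff.mpr ⟨s * k⁻¹, by group⟩
    · obtain ⟨j, hj, ht⟩ := hJ s hs t h0 h1 hfs
      obtain ⟨k, hk⟩ := flip_turn (s' := j.1) (t' := j.2) hf ht
      exact ⟨k * h * k⁻¹, Or.inl (Set.mem_iUnion₂.mpr ⟨j, hj, hk⟩), isConj_iff.mpr ⟨k⁻¹, by group⟩⟩

end Pool.Agent.MP_e97151_al

end
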