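import Pool.Agent.MP_e97151_al.Mg.Y2
import Pool.Agent.MP_e97151_al.Mg.CC3
import Pool.Agent.MP_e97151_al.Mg.Flips
import Pool.Agent.MP_e97151_al.Vmod
import Pool.Agent.MP_e97151_al.Free
import Pool.Agent.MP_e97151_al.Twist
import Pool.Agent.MP_e97151_al.Ends

-- part MP_e97151_al.Chis
section

/-! Chiswell's construction: an R-tree from a Lyndon length function. -/

set_option autoImplicit false

namespace Pool.Agent.MP_e97151_al

/-- a Lyndon length function with real values -/
structure LF (H : Type) [Group H] where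
  L : H → ℝ
  h1 : L 1 = 0
  hinv : ∀ h, L h⁻¹ = L h
  hu : ∀ g h k, min (L g + L h - L (g⁻¹ * h)) (L h + L k - L (h⁻¹ * k)) ≤
      L g + L k - L (g⁻¹ * k)

namespace LF

variable {H : Type} [Group H] (F : LF H)

/-- the overlap of two group elements -/
noncomputable def c (g h : H) : ℝ := (F.L g + F.L h - F.L (g⁻¹ * h)) / 2

theorem c_comm (g h : H) : F.c g h = F.c h g := by
  have : F.L (g⁻¹ * h) = F.L (h⁻¹ * g) := by rw [← F.hinv]; simp
  unfold c; rw [this]; ring

theorem c_self (g : H) : F.c g g = F.L g := by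
  unfold c; rw [inv_mul_cancel, F.h1]; ring

theorem c_one (g : H) : F.c 1 g = 0 := by
  unfold c; rw [inv_one, one_mul, F.h1]; ring

theorem c_ultra (g h k : H) : min (F.c g h) (F.c h k) ≤ F.c g k := by
  have := F.hu g h k
  unfold c
  rw [min_le_iff] at this ⊢
  rcases this with h | h
  · left; linarith
  · right; linarith

theorem c_nonneg (g h : H) : 0 ≤ F.c g h := by
  have := F.c_ultra g 1 h
  rwa [F.c_comm g 1, F.c_one, F.c_one, min_self] at this

theorem c_le_left (g h : H) : F.c g h ≤ F.L g := by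
  have := F.c_nonneg g⁻¹ (g⁻¹ * h)
  unfold c at *
  rw [inv_inv, mul_inv_cancel_left, F.hinv] at this
  linarith

theorem c_le_right (g h : H) : F.c g h ≤ F.L h := by
  rw [F.c_comm]; exact F.c_le_left h g

theorem L_nonneg (g : H) : 0 ≤ F.L g := by
  rw [← F.c_self]; exact F.c_nonneg g g

/-- points of the segments attached to group elements -/
structure Pt where
  g : H
  t : ℝ
  h0 : 0 ≤ t
  h1 : t ≤ F.L g

variable {F}

/-- the Gromov product at the base point -/
noncomputable def m (p q : F.Pt) : ℝ := min (min p.t q.t) (F.c p.g q.g)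

theorem m_comm (p q : F.Pt) : m p q = m q p := by
  unfold m; rw [min_comm p.t, F.c_comm]

theorem m_le_left (p q : F.Pt) : m p q ≤ p.t := (min_le_left _ _).trans (min_le_left _ _)

theorem m_le_right (p q : F.Pt) : m p q ≤ q.t := (min_le_left _ _).trans (min_le_right _ _)

theorem m_le_c (p q : F.Pt) : m p q ≤ F.c p.g q.g := min_le_right _ _

theorem m_nonneg (p q : F.Pt) : 0 ≤ m p q := le_min (le_min p.h0 q.h0) (F.c_nonneg _ _)

theorem m_self (p : F.Pt) : m p p = p.t := by
  unfold m; rw [min_self, F.c_self, min_eq_left p.h1]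

theorem m_ultra (p q r : F.Pt) : min (m p q) (m q r) ≤ m p r :=
  le_min (le_min ((min_le_left _ _).trans (m_le_left p q)) ((min_le_right _ _).trans (m_le_right q r)))
    ((min_le_min (m_le_c p q) (m_le_c q r)).trans (F.c_ultra _ _ _))

noncomputable instance : PseudoMetricSpace F.Pt where
  dist p q := p.t + q.t - 2 * m p q
  dist_self p := by rw [m_self]; ring
  dist_comm p q := by rw [m_comm]; ring
  dist_triangle p q r := by
    have h1 := m_ultra p q r
    have h2 := m_le_right p q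
    have h3 := m_le_left q r
    rcases min_le_iff.1 h1 with h | h <;> linarith

theorem dist_def (p q : F.Pt) : dist p q = p.t + q.t - 2 * m p q := rfl

theorem four (a b c d : F.Pt) :
    dist a b + dist c d ≤ max (dist a c + dist b d) (dist a d + dist b c) := by
  have h1 := min_le_iff.1 (m_ultra a c b)
  have h2 := min_le_iff.1 (m_ultra a d b)
  have h3 := min_le_iff.1 (m_ultra c a d)
  have h4 := min_le_iff.1 (m_ultra c b d)
  rw [m_comm c b] at h1 h4
  rw [m_comm d b] at h2
  rw [m_comm c a] at h3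
  by_contra hc
  rw [not_le, max_lt_iff] at hc
  obtain ⟨e1, e2⟩ := hc
  simp only [dist_def] at e1 e2
  rcases h1 with h1 | h1 <;> rcases h2 with h2 | h2 <;> rcases h3 with h3 | h3 <;>
    rcases h4 with h4 | h4 <;> linarith

theorem down (p q : F.Pt) {s : ℝ} (h0 : 0 ≤ s) (h1 : s ≤ p.t - m p q) :
    ∃ r : F.Pt, dist p r = s ∧ dist r q = dist p q - s := by
  have h2 := m_nonneg p q
  have h3 := p.h1
  refine ⟨⟨p.g, p.t - s, by linarith, by linarith⟩, ?_, ?_⟩
  · rw [dist_def]
    unfold m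
    simp only
    rw [F.c_self, min_eq_right (show p.t - s ≤ p.t by linarith), min_eq_left (by linarith)]
    ring
  · have e : min (min (p.t - s) q.t) (F.c p.g q.g) = m p q := by
      apply le_antisymm
      · exact min_le_min (min_le_min (by linarith) le_rfl) le_rfl
      · exact le_min (le_min (by linarith) (m_le_right p q)) (m_le_c p q)
    rw [dist_def, dist_def]
    change p.t - s + q.t - 2 * min (min (p.t - s) q.t) (F.c p.g q.g) = _
    rw [e]; ring

theorem mid (p q : F.Pt) {t : ℝ} (h0 : 0 ≤ t) (h1 : t ≤ dist p q) :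
    ∃ r : F.Pt, dist p r = t ∧ dist r q = dist p q - t := by
  rcases le_total t (p.t - m p q) with h | h
  · exact down p q h0 h
  · obtain ⟨r, e1, e2⟩ := down q p (s := dist p q - t) (by linarith)
      (by rw [dist_def, m_comm q p]; linarith)
    refine ⟨r, ?_, ?_⟩
    · rw [dist_comm, e2, dist_comm q p]; ring
    · rw [dist_comm, e1]

variable (F)

/-- the tree -/
abbrev Y : Type := SeparationQuotient F.Pt

instance : RT F.Y where
  four a b c d := by
    obtain ⟨a, rfl⟩ := SeparationQuotient.surjective_mk a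
    obtain ⟨b, rfl⟩ := SeparationQuotient.surjective_mk b
    obtain ⟨c, rfl⟩ := SeparationQuotient.surjective_mk c
    obtain ⟨d, rfl⟩ := SeparationQuotient.surjective_mk d
    simp only [SeparationQuotient.dist_mk]
    exact four a b c d
  mid a b t h0 h1 := by
    obtain ⟨a, rfl⟩ := SeparationQuotient.surjective_mk a
    obtain ⟨b, rfl⟩ := SeparationQuotient.surjective_mk b
    rw [SeparationQuotient.dist_mk] at h1
    obtain ⟨r, e1, e2⟩ := mid a b h0 h1
    refine ⟨SeparationQuotient.mk r, ?_, ?_⟩ <;> simp only [SeparationQuotient.dist_mk]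
    · exact e1
    · exact e2

/-- the orbit of the base point -/
noncomputable def o (h : H) : F.Y := SeparationQuotient.mk ⟨h, F.L h, F.L_nonneg h, le_rfl⟩

theorem dist_o (g h : H) : dist (F.o g) (F.o h) = F.L (g⁻¹ * h) := by
  unfold o
  rw [SeparationQuotient.dist_mk, dist_def]
  unfold m
  simp only
  rw [min_eq_right (le_min (F.c_le_left g h) (F.c_le_right g h))]
  unfold c; ring

theorem dist_o_mul (h g : H) : dist (F.o h) (F.o (h * g)) = F.L g := by
  rw [dist_o, inv_mul_cancel_left]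

theorem dist_o_mul_mul (h g g' : H) : dist (F.o (h * g)) (F.o (h * g')) = F.L (g⁻¹ * g') := by
  rw [dist_o]; congr 1; group

variable {F}

theorem mk_eq_geo (p : F.Pt) : SeparationQuotient.mk p = geo (F.o 1) (F.o p.g) p.t := by
  apply eq_geo_of_dist
  · unfold o
    rw [SeparationQuotient.dist_mk, dist_def]
    unfold m
    simp only
    rw [F.c_one, F.h1, min_eq_left p.h0, min_self]; ring
  · rw [dist_o, inv_one, one_mul]
    unfold o
    rw [SeparationQuotient.dist_mk, dist_def]
    unfold m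
    simp only
    rw [F.c_self, min_eq_left p.h1, min_eq_left p.h1]; ring

/-- the action on representatives -/
noncomputable def act (h : H) (p : F.Pt) : F.Y := geo (F.o h) (F.o (h * p.g)) p.t

theorem act_one (p : F.Pt) : act 1 p = SeparationQuotient.mk p := by
  rw [act, one_mul, mk_eq_geo]

theorem dist_act_aux (h : H) (p q : F.Pt) : dist (act h p) (act h q) =
    max (q.t - p.t) (max (F.L p.g - q.t) (F.L (q.g⁻¹ * p.g) - F.L q.g + q.t) - F.L p.g + p.t) := by
  have hp : p.t ≤ dist (F.o h) (F.o (h * p.g)) := by rw [dist_o_mul]; exact p.h1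
  have hq : q.t ≤ dist (F.o h) (F.o (h * q.g)) := by rw [dist_o_mul]; exact q.h1
  unfold act
  rw [dist_geo p.h0 hp, dist_geo_left q.h0 hq, dist_comm (F.o (h * p.g)), dist_geo q.h0 hq,
    dist_o_mul, dist_o_mul, dist_o_mul_mul]

theorem dist_act (h : H) (p q : F.Pt) : dist (act h p) (act h q) = dist p q := by
  rw [dist_act_aux, ← dist_act_aux 1, act_one, act_one, SeparationQuotient.dist_mk]

/-- the action on the tree -/
noncomputable def sm (h : H) : F.Y → F.Y :=
  SeparationQuotient.lift (act h) fun p q hpq =>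
    dist_eq_zero.1 (by rw [dist_act]; exact Metric.inseparable_iff.1 hpq)

theorem sm_mk (h : H) (p : F.Pt) : sm h (SeparationQuotient.mk p) = act h p :=
  SeparationQuotient.lift_mk _ _

theorem dist_sm (h : H) (y z : F.Y) : dist (sm h y) (sm h z) = dist y z := by
  obtain ⟨p, rfl⟩ := SeparationQuotient.surjective_mk y
  obtain ⟨q, rfl⟩ := SeparationQuotient.surjective_mk z
  rw [sm_mk, sm_mk, dist_act, SeparationQuotient.dist_mk]

theorem sm_o (h g : H) : sm h (F.o g) = F.o (h * g) := by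
  have e : sm h (F.o g) = geo (F.o h) (F.o (h * g)) (F.L g) := sm_mk h _
  rw [e, ← F.dist_o_mul h g, geo_dist]

theorem sm_geo (h : H) (a b : F.Y) (t : ℝ) : sm h (geo a b t) = geo (sm h a) (sm h b) t := by
  have hb : Btw (sm h a) (sm h (geo a b t)) (sm h b) := by
    have := btw_geo a b t
    unfold Btw at *
    simpa only [dist_sm] using this
  apply hb.unique (btw_geo _ _ t)
  rw [dist_sm, (geo_spec a b t).1, (geo_spec _ _ t).1, dist_sm]

noncomputable instance : MulAction H F.Y where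
  smul := sm
  one_smul y := by
    obtain ⟨p, rfl⟩ := SeparationQuotient.surjective_mk y
    exact (sm_mk 1 p).trans (act_one p)
  mul_smul h k y := by
    obtain ⟨p, rfl⟩ := SeparationQuotient.surjective_mk y
    change sm (h * k) _ = sm h (sm k _)
    rw [sm_mk, sm_mk, act, act, sm_geo, sm_o, sm_o, mul_assoc]

theorem smul_def (h : H) (y : F.Y) : h • y = sm h y := rfl

instance : IsIsometricSMul H F.Y where
  isometry_smul h := Isometry.of_dist_eq (dist_sm h)

end LF

/-- Chiswell's theorem: a real Lyndon length function comes from an action on an R-tree. -/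
theorem chiswell {H : Type} [Group H] (L : H → ℝ) (h1 : L 1 = 0) (hinv : ∀ h, L h⁻¹ = L h)
    (hu : ∀ g h k, min (L g + L h - L (g⁻¹ * h)) (L h + L k - L (h⁻¹ * k)) ≤
      L g + L k - L (g⁻¹ * k)) :
    ∃ A : TAct H, (∀ h : H, dist A.x (h • A.x) = L h) ∧ ∀ y : A.Y, ∃ g : H, Btw A.x y (g • A.x) := by
  let F : LF H := ⟨L, h1, hinv, hu⟩
  refine ⟨TAct.mk F.Y (F.o 1), fun h => ?_, fun y => ?_⟩
  · change dist (F.o 1) (LF.sm h (F.o 1)) = F.L h
    rw [LF.sm_o, F.dist_o, inv_one, one_mul, mul_one]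
  · obtain ⟨p, rfl⟩ := SeparationQuotient.surjective_mk y
    refine ⟨p.g, ?_⟩
    change Btw (F.o 1) (SeparationQuotient.mk p) (LF.sm p.g (F.o 1))
    rw [LF.sm_o, mul_one, LF.mk_eq_geo]
    exact btw_geo _ _ _

end Pool.Agent.MP_e97151_al

end

-- part MP_e97151_al.Lim1
section

/-! The rescaled ultralimit of a sequence of actions on trees. -/

set_option autoImplicit false

namespace Pool.Agent.MP_e97151_al

open Filter Topology

theorem lim1_word {H Y : Type} [Group H] [MetricSpace Y] [MulAction H Y] [IsIsometricSMul H Y]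
    (x : Y) (m : ℝ) (l : List H) (hl : ∀ a ∈ l, dist x (a • x) ≤ m) :
    dist x (l.prod • x) ≤ l.length * m := by
  induction l with
  | nil => simp
  | cons a l ih =>
    have h1 := hl a (by simp)
    have h2 := ih fun b hb => hl b (by simp [hb])
    have h3 := dist_triangle x (a • x) (a • l.prod • x)
    rw [dist_smul] at h3
    rw [List.prod_cons, mul_smul, List.length_cons]
    push_cast
    linarith

theorem lim1_dist {H Y : Type} [Group H] [MetricSpace Y] [MulAction H Y] [IsIsometricSMul H Y]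
    (x : Y) (g h : H) : dist (g • x) (h • x) = dist x ((g⁻¹ * h) • x) := by
  rw [mul_smul, dist_inv_smul]

theorem lim1_dist' {H Y : Type} [Group H] [MetricSpace Y] [MulAction H Y] [IsIsometricSMul H Y]
    (x y : Y) (g h : H) : dist (g • x) (h • y) = dist y ((h⁻¹ * g) • x) := by
  rw [mul_smul, dist_inv_smul, dist_comm]

theorem lim1_ultra {H Y : Type} [Group H] [MetricSpace Y] [MulAction H Y] [IsIsometricSMul H Y]
    [RT Y] (x : Y) (g h k : H) :
    min (dist x (g • x) + dist x (h • x) - dist x ((g⁻¹ * h) • x))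
      (dist x (h • x) + dist x (k • x) - dist x ((h⁻¹ * k) • x)) ≤
      dist x (g • x) + dist x (k • x) - dist x ((g⁻¹ * k) • x) := by
  have h1 := gp_ultra x (g • x) (h • x) (k • x)
  unfold gp at h1
  rw [lim1_dist, lim1_dist, lim1_dist, min_le_iff] at h1
  rw [min_le_iff]
  rcases h1 with h1 | h1
  · left; linarith
  · right; linarith

/-- HINT. `lam i` = maximum over `s ∈ S` of `dist x (s x)` in `A i` (tends to infinity along `U`). For `h` a word of
length `n`, `dist x (h x) / lam i ∈ [0,n]`, so `L h` := ultralimit exists (compactness of `Icc`,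
`IsCompact.ultrafilter_le_nhds`). `L` satisfies the hypotheses of `chiswell` (limits of `gp_ultra`).
For `y` choose `g` with `Btw x y (g x)`, `t = dist x y`, and put `ap i y = geo x (g x) (t * lam i)` (the clamped
parameter `max 0 (min (t lam) (dist x (g x)))` divided by `lam i` tends to `t`). Both in `A i` and in the limit
`Btw.dist_eq` (twice) writes `dist y (h y')` as max/sums of the parameters and of distances between orbit
points. Some `s ∈ S` realises the maximum for `U`-most `i`, so `L s = 1`. -/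
theorem limit_app {H : Type} [Group H] (S : Finset H) (hgen : Gen S) (A : ℕ → TAct H)
    (U : Ultrafilter ℕ)
    (hunb : ∀ B : ℝ, ∀ᶠ i in (U : Filter ℕ), ∃ s ∈ S, B < dist (A i).x (s • (A i).x)) :
    ∃ (B : TAct H) (lam : ℕ → ℝ) (ap : ∀ i, B.Y → (A i).Y), Hull H B.x ∧
      (∀ᶠ i in (U : Filter ℕ), 0 < lam i) ∧
      (∀ (y y' : B.Y) (h : H), Tendsto (fun i => dist (ap i y) (h • ap i y') / lam i) (U : Filter ℕ)
        (𝓝 (dist y (h • y')))) ∧
      (∀ (h : H) (b : ℝ), (∀ i, dist (A i).x (h • (A i).x) ≤ b) → h • B.x = B.x) ∧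
      ∃ s ∈ S, s • B.x ≠ B.x := by
  have hne : S.Nonempty := by
    obtain ⟨i, s, hs, -⟩ := (hunb 0).exists
    exact ⟨s, hs⟩
  let lam : ℕ → ℝ := fun i => S.sup' hne fun s => dist (A i).x (s • (A i).x)
  have hle : ∀ i, ∀ s ∈ S, dist (A i).x (s • (A i).x) ≤ lam i := fun i s hs =>
    Finset.le_sup' (fun s => dist (A i).x (s • (A i).x)) hs
  have hex : ∀ i, ∃ s ∈ S, lam i = dist (A i).x (s • (A i).x) := fun i =>
    Finset.exists_mem_eq_sup' hne _
  have h0 : ∀ i, 0 ≤ lam i := fun i => by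
    obtain ⟨s, -, hs⟩ := hex i
    rw [hs]; exact dist_nonneg
  have hbig : ∀ b : ℝ, ∀ᶠ i in (U : Filter ℕ), b < lam i := fun b =>
    (hunb b).mono fun i ⟨s, hs, h⟩ => h.trans_le (hle i s hs)
  have hinf : Tendsto lam (U : Filter ℕ) atTop :=
    tendsto_atTop.2 fun b => (hbig b).mono fun _ h => h.le
  have hL : ∀ h : H, ∃ r : ℝ,
      Tendsto (fun i => dist (A i).x (h • (A i).x) / lam i) (U : Filter ℕ) (𝓝 r) := by
    intro h
    obtain ⟨l, hl, rfl⟩ := hgen h
    obtain ⟨r, -, hr⟩ := (isCompact_Icc (a := (0 : ℝ)) (b := l.length)).ultrafilter_le_nhds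
      (U.map fun i => dist (A i).x (l.prod • (A i).x) / lam i) (by
        rw [le_principal_iff, Ultrafilter.coe_map, mem_map]
        refine univ_mem' fun i => ⟨div_nonneg dist_nonneg (h0 i), ?_⟩
        exact div_le_of_le_mul₀ (h0 i) (Nat.cast_nonneg _)
          (lim1_word _ _ l fun a ha => hle i a (hl a ha)))
    exact ⟨r, hr⟩
  choose L hL using hL
  obtain ⟨B, hB, hull⟩ := chiswell L
    (tendsto_nhds_unique (hL 1) (by simp))
    (fun h => tendsto_nhds_unique (hL h⁻¹) (by
      simpa only [dist_inv_smul, dist_comm (h • _)] using hL h))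
    (fun g h k => by
      refine le_of_tendsto_of_tendsto'
        ((((hL g).add (hL h)).sub (hL (g⁻¹ * h))).min (((hL h).add (hL k)).sub (hL (h⁻¹ * k))))
        (((hL g).add (hL k)).sub (hL (g⁻¹ * k))) fun i => ?_
      simp only [← add_div, ← sub_div]
      rw [min_div_div_right (h0 i)]
      exact div_le_div_of_nonneg_right (lim1_ultra _ g h k) (h0 i))
  choose g hg using hull
  let ap : ∀ i, B.Y → (A i).Y := fun i y =>
    geo (A i).x (g y • (A i).x) (dist B.x y * lam i)
  have hT : ∀ a b : H, Tendsto (fun i => dist (a • (A i).x) (b • (A i).x) / lam i)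
      (U : Filter ℕ) (𝓝 (dist (a • B.x) (b • B.x))) := by
    intro a b
    simp only [lim1_dist, hB]
    exact hL _
  have hP : ∀ y, Tendsto (fun i => dist (A i).x (ap i y) / lam i) (U : Filter ℕ)
      (𝓝 (dist B.x y)) := by
    intro y
    have h1 : Tendsto (fun i => max 0 (min (dist B.x y) (dist (A i).x (g y • (A i).x) / lam i)))
        (U : Filter ℕ) (𝓝 (max 0 (min (dist B.x y) (L (g y))))) :=
      tendsto_const_nhds.max (tendsto_const_nhds.min (hL _))
    rw [← hB, min_eq_left (hg y).le_left, max_eq_right dist_nonneg] at h1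
    refine h1.congr' ((hbig 0).mono fun i hi => ?_)
    simp only [ap]
    rw [(geo_spec _ _ _).1, ← max_div_div_right hi.le, ← min_div_div_right hi.le, zero_div,
      mul_div_cancel_right₀ _ hi.ne']
  have hQ : ∀ y, Tendsto (fun i => dist (ap i y) (g y • (A i).x) / lam i) (U : Filter ℕ)
      (𝓝 (dist y (g y • B.x))) := by
    intro y
    have h1 := (hL (g y)).sub (hP y)
    have h2 : L (g y) - dist B.x y = dist y (g y • B.x) := by
      have := hg y
      unfold Btw at this
      rw [← hB]; linarith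
    rw [h2] at h1
    refine h1.congr fun i => ?_
    have := btw_geo (A i).x (g y • (A i).x) (dist B.x y * lam i)
    unfold Btw at this
    rw [← sub_div, ← this]
    simp only [ap, add_sub_cancel_left]
  have hR : ∀ (y k : B.Y) (z : ∀ i, (A i).Y),
      (∀ a : H, Tendsto (fun i => dist (a • (A i).x) (z i) / lam i) (U : Filter ℕ)
        (𝓝 (dist (a • B.x) k))) →
      Tendsto (fun i => dist (ap i y) (z i) / lam i) (U : Filter ℕ) (𝓝 (dist y k)) := by
    intro y k z hz
    have h1 := hz 1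
    simp only [one_smul] at h1
    rw [(hg y).dist_eq k]
    refine ((h1.sub (hP y)).max ((hz (g y)).sub (hQ y))).congr fun i => ?_
    rw [(btw_geo (A i).x (g y • (A i).x) (dist B.x y * lam i)).dist_eq (z i), ← sub_div,
      ← sub_div, max_div_div_right (h0 i)]
  refine ⟨B, lam, ap, fun y => ⟨g y, hg y⟩, hbig 0, fun y y' h => ?_, fun h b hb => ?_, ?_⟩
  · refine hR y _ _ fun a => ?_
    simp only [lim1_dist']
    exact hR y' _ _ fun c => hT c _
  · have h1 : Tendsto (fun i => dist (A i).x (h • (A i).x) / lam i) (U : Filter ℕ) (𝓝 0) :=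
      squeeze_zero (fun i => div_nonneg dist_nonneg (h0 i))
        (fun i => div_le_div_of_nonneg_right (hb i) (h0 i)) (tendsto_const_nhds.div_atTop hinf)
    exact (dist_eq_zero.1 ((hB h).trans (tendsto_nhds_unique (hL h) h1))).symm
  · obtain ⟨s, hs, h1⟩ := (Ultrafilter.eventually_exists_mem_iff (f := U) S.finite_toSet
      (P := fun s i => lam i = dist (A i).x (s • (A i).x))).1 (Eventually.of_forall hex)
    refine ⟨s, hs, fun h => ?_⟩
    have h2 : Tendsto (fun i => dist (A i).x (s • (A i).x) / lam i) (U : Filter ℕ) (𝓝 1) :=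
      tendsto_const_nhds.congr' ((h1.and (hbig 0)).mono fun i hi => by
        simp only
        rw [← hi.1, div_self hi.2.ne'])
    have h3 := (hB s).trans (tendsto_nhds_unique (hL s) h2)
    rw [h, dist_self] at h3
    exact zero_ne_one h3

end Pool.Agent.MP_e97151_al

end

-- part MP_e97151_al.Cent
section

/-! Centralisers of hyperbolic elements act on the axis by integral translations. -/

set_option autoImplicit false

namespace Pool.Agent.MP_e97151_al

variable {H Y : Type} [Group H] [MetricSpace Y] [MulAction H Y] [IsIsometricSMul H Y] [RT Y]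

theorem line_btw {ℓ : ℝ → Y} (hl : ∀ s t, dist (ℓ s) (ℓ t) = |s - t|) {a s b : ℝ} (h1 : a ≤ s)
    (h2 : s ≤ b) : Btw (ℓ a) (ℓ s) (ℓ b) := by
  unfold Btw
  rw [hl, hl, hl, abs_of_nonpos (by linarith), abs_of_nonpos (by linarith),
    abs_of_nonpos (by linarith)]
  ring

theorem line_inj {ℓ : ℝ → Y} (hl : ∀ s t, dist (ℓ s) (ℓ t) = |s - t|) {s t : ℝ} (h : ℓ s = ℓ t) :
    s = t := by
  have := hl s t
  rw [h, dist_self] at this
  have := abs_eq_zero.mp this.symm
  linarith

/-- projection of a point to a line -/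
theorem line_proj {ℓ : ℝ → Y} (hl : ∀ s t, dist (ℓ s) (ℓ t) = |s - t|) (x : Y) (ρ : ℝ)
    (hρ : 0 ≤ ρ) : ∃ t0, ∀ s, |s - t0| ≤ ρ → Btw (ℓ s) (ℓ t0) x := by
  set D := dist (ℓ 0) x with hD
  have hD0 : 0 ≤ D := dist_nonneg
  set R := D + ρ with hR
  have hd : dist (ℓ (-R)) (ℓ R) = 2 * R := by
    rw [hl, abs_of_nonpos (by linarith)]; ring
  have g0 := gp_nonneg (ℓ (-R)) (ℓ R) x
  have g1 := gp_le_left (ℓ (-R)) (ℓ R) x
  rw [hd] at g1
  have hm : ℓ (gp (ℓ (-R)) (ℓ R) x - R) = med (ℓ (-R)) (ℓ R) x := by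
    apply (line_btw hl (by linarith) (by linarith)).unique (btw_med1 _ _ _)
    rw [dist_med, hl, abs_of_nonpos (by linarith)]; ring
  refine ⟨gp (ℓ (-R)) (ℓ R) x - R, fun s hs => ?_⟩
  have h0 : Btw (ℓ 0) (ℓ (gp (ℓ (-R)) (ℓ R) x - R)) x := by
    rw [hm]; exact (line_btw hl (by linarith) (by linarith)).btw_med x
  have h1 := h0.le_left
  rw [hl, ← hD] at h1
  rw [abs_le] at h1 hs
  rw [hm]
  exact (line_btw hl (by linarith) (by linarith)).btw_med x

/-- displacement of a point under an element translating a line -/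
theorem line_disp {ℓ : ℝ → Y} (hl : ∀ s t, dist (ℓ s) (ℓ t) = |s - t|) {c : H} {θ : ℝ}
    (hc : ∀ t, c • ℓ t = ℓ (t + θ)) (hθ : θ ≠ 0) {x : Y} {t0 : ℝ}
    (h : ∀ s, |s - t0| ≤ |θ| → Btw (ℓ s) (ℓ t0) x) :
    dist x (c • x) = 2 * dist (ℓ t0) x + |θ| := by
  have h1 : Btw x (ℓ t0) (ℓ (t0 + θ)) := (h _ (by simp)).symm
  have h2 : Btw (ℓ t0) (ℓ (t0 + θ)) (c • x) := by
    have := (h (t0 - θ) (by simp)).smul c
    rwa [hc, hc, sub_add_cancel] at this
  have hne : ℓ t0 ≠ ℓ (t0 + θ) := fun e => hθ (by have := line_inj hl e; linarith)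
  have h3 := (h1.concat h2 hne).1
  unfold Btw at h2 h3
  have e1 : dist (ℓ (t0 + θ)) (c • x) = dist (ℓ t0) x := by rw [← hc, dist_smul]
  have e2 : dist (ℓ t0) (ℓ (t0 + θ)) = |θ| := by rw [hl]; simp
  rw [dist_comm x (ℓ t0)] at h3
  linarith

theorem line_int {ℓ : ℝ → Y} (hl : ∀ s t, dist (ℓ s) (ℓ t) = |s - t|) {c : H} {θ : ℝ}
    (hc : ∀ t, c • ℓ t = ℓ (t + θ)) (x : Y) (hint : ∀ h : H, ∃ n : ℤ, dist x (h • x) = n) :
    ∃ n : ℤ, θ = n := by
  by_cases hθ : θ = 0
  · exact ⟨0, by simp [hθ]⟩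
  obtain ⟨t0, ht0⟩ := line_proj hl x (2 * |θ|) (by positivity)
  have hc2 : ∀ t, (c * c) • ℓ t = ℓ (t + 2 * θ) := by
    intro t; rw [mul_smul, hc, hc]; congr 1; ring
  have a2 : |2 * θ| = 2 * |θ| := by rw [abs_mul]; simp
  have e1 := line_disp hl hc hθ (x := x) (t0 := t0)
    (fun s hs => ht0 s (by linarith [abs_nonneg θ]))
  have e2 := line_disp hl hc2 (by positivity) (x := x) (t0 := t0)
    (fun s hs => ht0 s (by linarith))
  obtain ⟨n, hn⟩ := hint c
  obtain ⟨m, hm⟩ := hint (c * c)
  have e : |θ| = ((m - n : ℤ) : ℝ) := by push_cast; linarith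
  rcases abs_choice θ with h | h
  · exact ⟨m - n, by rw [← e, h]⟩
  · exact ⟨-(m - n), by rw [Int.cast_neg, ← e, h, neg_neg]⟩

/-- the axis of a hyperbolic element -/
theorem exists_axis (w : H) (y : Y) (hy : dist y ((w * w) • y) = 2 * dist y (w • y))
    (hy0 : w • y ≠ y) :
    ∃ ℓ : ℝ → Y, ℓ 0 = y ∧ (∀ s t, dist (ℓ s) (ℓ t) = |s - t|) ∧
      ∀ c, Commute c w → ∃ θ : ℝ, ∀ t, c • ℓ t = ℓ (t + θ) := by
  set τ := dist y (w • y) with hτ
  have τ0 : 0 < τ := dist_pos.mpr hy0.symm
  have hp : ∀ n m : ℤ, dist (w ^ n • y) (w ^ m • y) = |(n : ℝ) - m| * τ := by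
    intro n m
    rw [← dist_inv_smul, ← mul_smul, ← zpow_neg, ← zpow_add, dist_zpow_smul hy, abs_sub_comm]
    push_cast
    congr 2; ring
  let S : ℕ → ℝ → Y := fun N t => geo (w ^ (-(N : ℤ)) • y) (w ^ (N : ℤ) • y) (t + N * τ)
  have hd : ∀ N : ℕ, dist (w ^ (-(N : ℤ)) • y) (w ^ (N : ℤ) • y) = 2 * (N * τ) := by
    intro N
    rw [hp]; push_cast
    rw [abs_of_nonpos (by have : (0 : ℝ) ≤ N := Nat.cast_nonneg N; linarith)]; ring
  have hpt : ∀ (M : ℕ) (n : ℤ), |(n : ℝ)| ≤ M →
      w ^ n • y = geo (w ^ (-(M : ℤ)) • y) (w ^ (M : ℤ) • y) (n * τ + M * τ) := by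
    intro M n hn
    rw [abs_le] at hn
    apply eq_geo_of_dist
    · rw [hp]; push_cast
      rw [abs_of_nonpos (by linarith)]; ring
    · rw [hp, hd]; push_cast
      rw [abs_of_nonpos (by linarith)]; ring
  have hS : ∀ (N M : ℕ) (t : ℝ), N ≤ M → |t| ≤ N * τ → S N t = S M t := by
    intro N M t hNM ht
    have hNM' : (N : ℝ) ≤ M := by exact_mod_cast hNM
    have hN0 : (0 : ℝ) ≤ N := Nat.cast_nonneg N
    have hm : (N : ℝ) * τ ≤ M * τ := mul_le_mul_of_nonneg_right hNM' τ0.le
    rw [abs_le] at ht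
    show geo _ _ _ = geo _ _ _
    rw [hpt M (-(N : ℤ)) (by push_cast; rw [abs_neg, abs_of_nonneg hN0]; exact hNM'),
      hpt M (N : ℤ) (by push_cast; rw [abs_of_nonneg hN0]; exact hNM'),
      geo_sub (by push_cast; linarith) (by rw [hd]; push_cast; linarith) (by linarith)
        (by push_cast; linarith)]
    congr 1; push_cast; ring
  have hbig : ∀ r : ℝ, ∃ N : ℕ, r < N * τ := by
    intro r
    obtain ⟨N, hN⟩ := exists_nat_gt (r / τ)
    exact ⟨N, by rwa [div_lt_iff₀ τ0] at hN⟩
  choose ν hν using hbig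
  let ℓ : ℝ → Y := fun t => S (ν |t|) t
  have hℓ : ∀ (N : ℕ) (t : ℝ), |t| ≤ N * τ → ℓ t = S N t := by
    intro N t ht
    show S _ t = S N t
    rw [hS _ (max (ν |t|) N) t (le_max_left _ _) (hν _).le, hS N _ t (le_max_right _ _) ht]
  have hl : ∀ s t, dist (ℓ s) (ℓ t) = |s - t| := by
    intro s t
    have h := hν (max |s| |t|)
    have h1 : |s| ≤ ν (max |s| |t|) * τ := le_trans (le_max_left _ _) h.le
    have h2 : |t| ≤ ν (max |s| |t|) * τ := le_trans (le_max_right _ _) h.le
    rw [hℓ _ s h1, hℓ _ t h2]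
    rw [abs_le] at h1 h2
    show dist (geo _ _ _) (geo _ _ _) = _
    rw [dist_geo_geo (by linarith) (by rw [hd]; linarith) (by linarith) (by rw [hd]; linarith)]
    congr 1; ring
  refine ⟨ℓ, ?_, hl, ?_⟩
  · rw [hℓ 0 0 (by simp)]
    show geo _ _ _ = _
    simp [geo_zero]
  · intro c hc
    set η := dist y (c • y) with hη
    have η0 : 0 ≤ η := dist_nonneg
    have hmove : ∀ n : ℤ, dist (w ^ n • y) (c • w ^ n • y) ≤ η := by
      intro n
      rw [← mul_smul, (hc.zpow_right n).eq, mul_smul, dist_smul]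
    have key : ∀ N : ℕ, η < N * τ → ∃ θ : ℝ, ∀ t, |t| + η ≤ N * τ → c • ℓ t = ℓ (t + θ) := by
      intro N hN
      refine ⟨dist (w ^ (-(N : ℤ)) • y) (c • w ^ (N : ℤ) • y) -
        dist (w ^ (-(N : ℤ)) • y) (w ^ (N : ℤ) • y), fun t ht => ?_⟩
      have t1 := le_abs_self t
      have t2 := neg_abs_le t
      obtain ⟨e, b⟩ := smul_geo_near (t := t + N * τ) (hmove (-(N : ℤ))) (hmove N)
        (by rw [hd]; linarith) (by linarith) (by rw [hd]; linarith)
      rw [hℓ N t (by linarith), hℓ N _ (le_trans (abs_add_le _ _) (by linarith))]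
      show c • geo _ _ _ = geo _ _ _
      rw [e]
      congr 1; ring
    obtain ⟨θ, hθ⟩ := key (ν η) (hν η)
    refine ⟨θ, fun t => ?_⟩
    have h1 := hν (|t| + η)
    have h2 := abs_nonneg t
    obtain ⟨θ', hθ'⟩ := key (ν (|t| + η)) (by linarith)
    have e1 := hθ 0 (by simpa using (hν η).le)
    have e2 := hθ' 0 (by rw [abs_zero]; linarith)
    have e : θ = θ' := by
      have := line_inj hl (e1.symm.trans e2); linarith
    rw [e]; exact hθ' t h1.le

/-- HINT. `τ = dist y (w y) > 0`, `p n = w ^ n • y` for `n : ℤ`, `dist (p n) (p m) = |n - m| τ` (`dist_zpow_smul`).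
Define the line `ℓ t = geo (p (-N)) (p N) (t + N τ)` for any `N` with `|t| ≤ N τ` (independent of `N` by
`geo_sub`), `dist (ℓ s) (ℓ t) = |s - t|`, `ℓ 0 = y`. If `c` commutes with `w` it moves `p (-N)` and `p N` by
`η = dist y (c y)`, so `smul_geo_near` gives `θ` with `c • ℓ t = ℓ (t + θ)` for all `t` (the value does not depend on
`N`: evaluate at `t = 0`). So `θ` is additive, `θ c = 0 ↔ c ∈ K`, `dist y (c y) = |θ c|`. Integrality for `θ ≠ 0`:
for large `n` apply `smul_geo_near` to `c` and the segment `[x, c ^ n x]`: a middle point `q` has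
`dist q (c q) = |θ'|`, `dist q (c c q) = 2 |θ'|` with `θ' = dist x (c ^ (n+1) x) - dist x (c ^ n x)` an integer; by
`dist_pow_smul` at `q` and at `y`, `m |θ'|` and `m |θ|` differ by at most `2 dist q y` for all `m`. -/
theorem cent (x : Y) (K : Subgroup H)
    (harc : ∀ (h : H) (a b : Y), a ≠ b → h • a = a → h • b = b → h ∈ K)
    (hK : ∀ k ∈ K, ∀ y : Y, k • y = y) (hint : ∀ h : H, ∃ n : ℤ, dist x (h • x) = n)
    (w : H) (y : Y) (hy : dist y ((w * w) • y) = 2 * dist y (w • y)) (hy0 : w • y ≠ y) :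
    ∃ κ : H → ℤ, (∀ c d, Commute c w → Commute d w → κ (c * d) = κ c + κ d) ∧
      ∀ c, Commute c w → (κ c = 0 ↔ c ∈ K) ∧ dist y (c • y) = |(κ c : ℝ)| := by
  obtain ⟨ℓ, h0, hl, hc⟩ := exists_axis w y hy hy0
  have hc' : ∀ c : H, ∃ n : ℤ, Commute c w → ∀ t, c • ℓ t = ℓ (t + n) := by
    intro c
    by_cases h : Commute c w
    · obtain ⟨θ, hθ⟩ := hc c h
      obtain ⟨n, rfl⟩ := line_int hl hθ x hint
      exact ⟨n, fun _ => hθ⟩
    · exact ⟨0, fun h' => absurd h' h⟩
  choose κ hκ using hc'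
  refine ⟨κ, fun c d hcw hdw => ?_, fun c hcw => ⟨⟨fun h => ?_, fun h => ?_⟩, ?_⟩⟩
  · have e1 := hκ (c * d) (hcw.mul_left hdw) 0
    rw [mul_smul, hκ d hdw, hκ c hcw] at e1
    have e2 := line_inj hl e1
    have e3 : ((κ (c * d) : ℤ) : ℝ) = ((κ c + κ d : ℤ) : ℝ) := by push_cast; linarith
    exact_mod_cast e3
  · refine harc c (ℓ 0) (ℓ 1) (fun e => by have := line_inj hl e; linarith) ?_ ?_
    · rw [hκ c hcw, h]; simp
    · rw [hκ c hcw, h]; simp
  · have e1 := hκ c hcw 0
    rw [hK c h] at e1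
    have e2 := line_inj hl e1
    have e3 : ((κ c : ℤ) : ℝ) = ((0 : ℤ) : ℝ) := by push_cast; linarith
    exact_mod_cast e3
  · rw [← h0, hκ c hcw, hl]; simp

end Pool.Agent.MP_e97151_al

end

-- part MP_e97151_al.Lim2
section

/-! The axioms of the limit tree. -/

set_option autoImplicit false

namespace Pool.Agent.MP_e97151_al

open Filter Topology

theorem lim2_zpow {H : Type} [Group H] {w : H} {κ : H → ℤ}
    (hκ : ∀ c d, Commute c w → Commute d w → κ (c * d) = κ c + κ d) {c : H} (hc : Commute c w)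
    (n : ℤ) : κ (c ^ n) = n * κ c := by
  have h1 : κ 1 = 0 := by
    have := hκ 1 1 (Commute.one_left w) (Commute.one_left w)
    rw [mul_one] at this
    omega
  have h2 : ∀ m : ℤ, κ (c ^ (m + 1)) = κ (c ^ m) + κ c := fun m => by
    rw [zpow_add_one, hκ _ _ (hc.zpow_left m) hc]
  induction n using Int.induction_on with
  | zero => simpa using h1
  | succ n ih => rw [h2, ih]; ring
  | pred n ih =>
    have := h2 (-(n : ℤ) - 1)
    rw [sub_add_cancel, ih] at this
    linarith

theorem lim2_rel {H : Type} [Group H] {w : H} {κ : H → ℤ}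
    (hκ : ∀ c d, Commute c w → Commute d w → κ (c * d) = κ c + κ d) {c : H} (hc : Commute c w)
    (m n : ℤ) : κ (c ^ m * w ^ n) = m * κ c + n * κ w := by
  rw [hκ _ _ (hc.zpow_left m) ((Commute.refl w).zpow_left n), lim2_zpow hκ hc,
    lim2_zpow hκ (Commute.refl w)]

/-- the data given by an element that moves the ends of a long segment a little -/
def Lim2Good {H Y : Type} [Group H] [MetricSpace Y] [MulAction H Y] (K : Subgroup H) (w : H)
    (a b : Y) (κ : H → ℤ) : Prop :=
  (∀ c d, Commute c w → Commute d w → κ (c * d) = κ c + κ d) ∧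
    (∀ c, Commute c w → (κ c = 0 ↔ c ∈ K) ∧
      dist a (c • a) ≤ 4 * max (dist a (w • a)) (dist b (w • b)) + |(κ c : ℝ)|) ∧
    κ w ≠ 0 ∧ |(κ w : ℝ)| ≤ max (dist a (w • a)) (dist b (w • b))

theorem lim2_good {H Y : Type} [Group H] [MetricSpace Y] [MulAction H Y] [IsIsometricSMul H Y]
    [RT Y] (x : Y) (K : Subgroup H)
    (harc : ∀ (h : H) (a b : Y), a ≠ b → h • a = a → h • b = b → h ∈ K)
    (hK : ∀ k ∈ K, ∀ y : Y, k • y = y) (hint : ∀ h : H, ∃ n : ℤ, dist x (h • x) = n)
    {w : H} (hw : w ∉ K) {a b : Y}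
    (hD : 10 * max (dist a (w • a)) (dist b (w • b)) < dist a b) : ∃ κ, Lim2Good K w a b κ := by
  unfold Lim2Good
  have ha := le_max_left (dist a (w • a)) (dist b (w • b))
  have hb := le_max_right (dist a (w • a)) (dist b (w • b))
  generalize max (dist a (w • a)) (dist b (w • b)) = η at *
  have h0 : 0 ≤ η := dist_nonneg.trans ha
  obtain ⟨e1, b1⟩ := smul_geo_near (t := 2 * η) ha hb (by linarith) (by linarith) (by linarith)
  have b2 := abs_le.1 b1
  obtain ⟨e2, -⟩ := smul_geo_near (t := 2 * η + (dist a (w • b) - dist a b)) ha hb (by linarith)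
    (by linarith) (by linarith)
  obtain ⟨e3, -⟩ := smul_geo_near (t := dist a b - 2 * η) ha hb (by linarith) (by linarith)
    (by linarith)
  generalize dist a (w • b) - dist a b = θ at *
  have d1 : dist (geo a b (2 * η)) (w • geo a b (2 * η)) = |θ| := by
    rw [e1, dist_geo_geo (by linarith) (by linarith) (by linarith) (by linarith), abs_sub_comm,
      add_sub_cancel_left]
  have d2 : dist (geo a b (2 * η)) ((w * w) • geo a b (2 * η)) = 2 * |θ| := by
    rw [mul_smul, e1, e2, dist_geo_geo (by linarith) (by linarith) (by linarith) (by linarith),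
      show 2 * η - (2 * η + θ + θ) = -(2 * θ) by ring, abs_neg, abs_mul, abs_two]
  have hθ : θ ≠ 0 := by
    rintro rfl
    rw [add_zero] at e1 e3
    refine hw (harc w _ _ (fun h => ?_) e1 e3)
    have := geo_inj (by linarith) (by linarith) (by linarith) (by linarith) h
    linarith
  obtain ⟨κ, h1, h2⟩ := cent x K harc hK hint w (geo a b (2 * η)) (by rw [d1, d2]) (fun h => by
    rw [h, dist_self] at d1
    exact hθ (abs_eq_zero.1 d1.symm))
  refine ⟨κ, h1, fun c hc => ⟨(h2 c hc).1, ?_⟩, fun h => hw ((h2 w (Commute.refl w)).1.1 h), ?_⟩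
  · have d3 : dist a (geo a b (2 * η)) = 2 * η := dist_geo_left (by linarith) (by linarith)
    have d4 := dist_triangle4 a (geo a b (2 * η)) (c • geo a b (2 * η)) (c • a)
    rw [dist_smul, dist_comm _ a, d3, (h2 c hc).2] at d4
    linarith
  · rw [← (h2 w (Commute.refl w)).2, d1]
    exact b1

theorem lim2_lt {U : Filter ℕ} {lam f g : ℕ → ℝ} {x y : ℝ} (hlam : ∀ᶠ i in U, 0 < lam i)
    (hf : Tendsto (fun i => f i / lam i) U (𝓝 x)) (hg : Tendsto (fun i => g i / lam i) U (𝓝 y))
    (h : x < y) : ∀ᶠ i in U, f i < g i :=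
  ((hf.eventually_lt hg h).and hlam).mono fun _ hi => (div_lt_div_iff_of_pos_right hi.2).1 hi.1

theorem lim2_max {U : Filter ℕ} {lam f g : ℕ → ℝ} {x y : ℝ} (hlam : ∀ᶠ i in U, 0 < lam i)
    (hf : Tendsto (fun i => f i / lam i) U (𝓝 x)) (hg : Tendsto (fun i => g i / lam i) U (𝓝 y)) :
    Tendsto (fun i => max (f i) (g i) / lam i) U (𝓝 (max x y)) :=
  (hf.max hg).congr' (hlam.mono fun _ hi => max_div_div_right hi.le _ _)

theorem lim2_mul {U : Filter ℕ} {lam f : ℕ → ℝ} {x : ℝ} (c : ℝ)
    (hf : Tendsto (fun i => f i / lam i) U (𝓝 x)) :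
    Tendsto (fun i => c * f i / lam i) U (𝓝 (c * x)) :=
  (hf.const_mul c).congr fun _ => (mul_div_assoc _ _ _).symm

/-- HINT. Since `K` is antitone with trivial intersection and `U ≤ atTop`: an element in `K i` for `U`-most `i`
is trivial, a nontrivial one is outside `K i` for `U`-most `i`.
`Ax1`: `comm_arc` in `A i` with `η i` the max of the four displacements.
Main step: if `w ≠ 1`, `dist a (w a) ≤ η`, `dist b (w b) ≤ η`, `10 η < dist a b`, then for `U`-most `i`, with
`η i` the max of the displacements of `ap i a`, `ap i b`, the point `y i = geo (ap i a) (ap i b) (2 η i)` satisfies the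
hypotheses of `cent` (`smul_geo_near` twice; the translation is nonzero since `w ∉ K i`); get `κ i`.
For `c` commuting with `w`, `c ^ (κ i w) * (w ^ (κ i c))⁻¹ ∈ K i`. Fix one good index `i0`. If `κ i0 c = 0`, then for
good `i ≥ i0`, `w ^ (κ i c) ∈ K i0`, so `κ i c * κ i0 w = 0`, so `c ∈ K i`; hence `c = 1`: this is `Cyc`.
`AxC`: with `A = κ i0 w ≠ 0`, `B = κ i0 c` one has `c ^ A = w ^ B`, so `|A| |κ i c| = |B| |κ i w| ≤ |B| η i` and
`dist (ap i a) (c • ap i a) ≤ 4 η i + |κ i c|`, which is `o(lam i)`. -/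
theorem limit_axioms {H : Type} [Group H] (A : ℕ → TAct H) (K : ℕ → Subgroup H) (hanti : Antitone K)
    (hbot : ∀ h : H, (∀ i, h ∈ K i) → h = 1)
    (harc : ∀ i (h : H) (a b : (A i).Y), a ≠ b → h • a = a → h • b = b → h ∈ K i)
    (hK : ∀ i, ∀ k ∈ K i, ∀ y : (A i).Y, k • y = y)
    (hint : ∀ i (h : H), ∃ n : ℤ, dist (A i).x (h • (A i).x) = n)
    (U : Ultrafilter ℕ) (hU : (U : Filter ℕ) ≤ atTop)
    (B : TAct H) (lam : ℕ → ℝ) (ap : ∀ i, B.Y → (A i).Y)
    (hlam : ∀ᶠ i in (U : Filter ℕ), 0 < lam i)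
    (happ : ∀ (y y' : B.Y) (h : H), Tendsto (fun i => dist (ap i y) (h • ap i y') / lam i)
      (U : Filter ℕ) (𝓝 (dist y (h • y')))) :
    Ax1 H B.Y ∧ AxC H B.Y ∧ Cyc H B.Y := by
  have hK1 : ∀ h : H, (∀ᶠ i in (U : Filter ℕ), h ∈ K i) → h = 1 := fun h hh =>
    hbot h fun j => by
      obtain ⟨i, h1, h2⟩ := (hh.and (hU (eventually_ge_atTop j))).exists
      exact hanti h2 h1
  have hd : ∀ a b : B.Y, Tendsto (fun i => dist (ap i a) (ap i b) / lam i) (U : Filter ℕ)
      (𝓝 (dist a b)) := fun a b => by simpa only [one_smul] using happ a b 1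
  have hη : ∀ (w : H) (a b : B.Y), Tendsto (fun i =>
      max (dist (ap i a) (w • ap i a)) (dist (ap i b) (w • ap i b)) / lam i) (U : Filter ℕ)
      (𝓝 (max (dist a (w • a)) (dist b (w • b)))) := fun w a b =>
    lim2_max hlam (happ a a w) (happ b b w)
  have main : ∀ (w : H) (a b : B.Y), w ≠ 1 →
      10 * max (dist a (w • a)) (dist b (w • b)) < dist a b →
      ∃ (κ : ℕ → H → ℤ) (j : ℕ), (∀ᶠ i in (U : Filter ℕ), Lim2Good (K i) w (ap i a) (ap i b) (κ i)) ∧
        Lim2Good (K j) w (ap j a) (ap j b) (κ j) ∧ ∀ c, Commute c w → κ j c = 0 → c = 1 := by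
    intro w a b hw hD
    have h1 : ∀ᶠ i in (U : Filter ℕ), w ∉ K i :=
      Ultrafilter.eventually_not.2 fun h => hw (hK1 w h)
    obtain ⟨κ, hκ⟩ := ((h1.and (lim2_lt hlam (lim2_mul 10 (hη w a b)) (hd a b) hD)).mono
      fun i hi => lim2_good (A i).x (K i) (harc i) (hK i) (hint i) hi.1 hi.2).choice
    obtain ⟨j, hj⟩ := hκ.exists
    refine ⟨κ, j, hκ, hj, fun c hc h0 => hK1 c ?_⟩
    refine (hκ.and (hU (eventually_ge_atTop j))).mono fun i hi => ?_
    have hc' : Commute (c ^ κ i w * w ^ (-κ i c)) w :=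
      (hc.zpow_left _).mul_left ((Commute.refl w).zpow_left _)
    have h2 := (hi.1.2.1 _ hc').1.1 (by rw [lim2_rel hi.1.1 hc]; ring)
    have h3 := (hj.2.1 _ hc').1.2 (hanti hi.2 h2)
    rw [lim2_rel hj.1 hc, h0, mul_zero, zero_add, mul_eq_zero, neg_eq_zero] at h3
    exact (hi.1.2.1 c hc).1.1 (h3.resolve_right hj.2.2.1)
  refine ⟨?_, ?_, ?_⟩
  · intro u w a b hab hua hub hwa hwb
    have h1 := lim2_lt hlam (lim2_mul 4 (lim2_max hlam (hη u a b) (hη w a b))) (hd a b) (by
      simpa [hua, hub, hwa, hwb] using hab)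
    have h2 := hK1 ((w * u)⁻¹ * (u * w)) (h1.mono fun i hi => by
      obtain ⟨p, q, hpq, hp, hq⟩ := comm_arc ((le_max_left _ _).trans (le_max_left _ _))
        ((le_max_right _ _).trans (le_max_left _ _)) ((le_max_left _ _).trans (le_max_right _ _))
        ((le_max_right _ _).trans (le_max_right _ _)) hi
      exact harc i _ p q hpq hp hq)
    exact (inv_mul_eq_one.1 h2).symm
  · intro w c a b hw hab hwa hwb hc
    obtain ⟨κ, j, hκ, hj, hc1⟩ := main w a b hw (by simpa [hwa, hwb] using hab)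
    have hc' : Commute (c ^ κ j w * w ^ (-κ j c)) w :=
      (hc.zpow_left _).mul_left ((Commute.refl w).zpow_left _)
    have h1 := hc1 _ hc' (by rw [lim2_rel hj.1 hc]; ring)
    have h2 := le_of_tendsto_of_tendsto (happ a a c) (lim2_mul (4 + |(κ j c : ℝ)|) (hη w a b))
      ((hκ.and hlam).mono fun i hi => by
        refine div_le_div_of_nonneg_right ?_ hi.2.le
        have h3 := (hi.1.2.1 _ hc').1.2 (by rw [h1]; exact one_mem _)
        rw [lim2_rel hi.1.1 hc] at h3
        have h4 : (κ j w : ℝ) * κ i c = κ j c * κ i w := by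
          exact_mod_cast (by linarith : κ j w * κ i c = κ j c * κ i w)
        have h5 : (1 : ℝ) ≤ |(κ j w : ℝ)| := by exact_mod_cast Int.one_le_abs hj.2.2.1
        have h6 := congrArg abs h4
        rw [abs_mul, abs_mul] at h6
        have h7 := (hi.1.2.1 c hc).2
        have h8 := mul_le_mul_of_nonneg_left hi.1.2.2.2 (abs_nonneg (κ j c : ℝ))
        have h9 := mul_le_mul_of_nonneg_right h5 (abs_nonneg (κ i c : ℝ))
        linarith)
    rw [hwa, hwb, dist_self, dist_self, max_self, mul_zero] at h2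
    exact (dist_le_zero.1 h2).symm
  · intro w a b η hw ha hb hD
    obtain ⟨κ, j, -, hj, hc1⟩ := main w a b hw (by linarith [max_le ha hb])
    exact ⟨κ j, hj.1, hc1⟩

end Pool.Agent.MP_e97151_al

end

-- part MP_e97151_al.Core
section

/-! The core argument: lengths cannot be unbounded. -/

set_option autoImplicit false
set_option linter.unusedSectionVars false

namespace Pool.Agent.MP_e97151_al

open Filter

theorem core {H Y : Type} [Group H] [MetricSpace Y] [MulAction H Y] [IsIsometricSMul H Y] [RT Y]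
    {x : Y} {S : Finset H} (hy : Hyp x S) (hT : ∃ s ∈ S, s • x ≠ x) : False := by
  obtain ⟨F, hF, h1, hfl⟩ := finite_flips hy
  obtain ⟨N, hN, hN', hav⟩ := hy.rf.avoid hF
  refine euler hy hT N ?_
  intro s hs t h0 h2 hns h hflip hmem
  obtain ⟨f, hf, hc⟩ := hfl s hs t h0 h2 hns h hflip
  obtain ⟨c, rfl⟩ := isConj_iff.mp hc
  have : f ∈ N := by simpa [mul_assoc] using hN.conj_mem _ hmem c⁻¹
  exact h1 (hav f hf this ▸ hf)

/-- lengths of the generators are bounded along the ultrafilter -/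
theorem bounded_lengths {H : Type} [Group H] (S : Finset H) (hS : ∀ s ∈ S, s⁻¹ ∈ S) (hgen : Gen S)
    (hrf : RF H) (A : ℕ → TAct H) (K : ℕ → Subgroup H) (hanti : Antitone K)
    (hbot : ∀ h : H, (∀ i, h ∈ K i) → h = 1)
    (harc : ∀ i (h : H) (a b : (A i).Y), a ≠ b → h • a = a → h • b = b → h ∈ K i)
    (hK : ∀ i, ∀ k ∈ K i, ∀ y : (A i).Y, k • y = y)
    (hint : ∀ i (h : H), ∃ n : ℤ, dist (A i).x (h • (A i).x) = n)
    (hd : ∀ (Γ : Type) [Group Γ] [Finite Γ] (α β : H →* Γ),
      (∀ s ∈ S, (∃ b : ℝ, ∀ i, dist (A i).x (s • (A i).x) ≤ b) → α s = β s) → α = β)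
    (U : Ultrafilter ℕ) (hU : (U : Filter ℕ) ≤ atTop) :
    ∃ B : ℝ, ∀ᶠ i in (U : Filter ℕ), ∀ s ∈ S, dist (A i).x (s • (A i).x) ≤ B := by
  by_contra hcon
  push Not at hcon
  have hunb : ∀ B : ℝ, ∀ᶠ i in (U : Filter ℕ), ∃ s ∈ S, B < dist (A i).x (s • (A i).x) := hcon
  obtain ⟨B, lam, ap, hh, hlam, happ, hfix, hT⟩ := limit_app S hgen A U hunb
  obtain ⟨h1, hC, hcyc⟩ := limit_axioms A K hanti hbot harc hK hint U hU B lam ap hlam happ
  have hd' : Dens B.x S := fun Γ _ _ α β h =>
    hd Γ α β fun s hs ⟨b, hb⟩ => h s hs (hfix s b hb)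
  exact core ⟨hS, hgen, hrf, hd', arcTriv_of_axioms B.x S hgen hrf hd' hh h1 hC hcyc, hcyc⟩ hT

end Pool.Agent.MP_e97151_al

end

-- part MP_e97151_al.Arc
section

/-! The tree of a `ZLen` has trivial arc stabilisers. -/

set_option autoImplicit false

namespace Pool.Agent.MP_e97151_al

theorem fix_of_le {H Y : Type} [Group H] [MetricSpace Y] [MulAction H Y] [IsIsometricSMul H Y]
    [RT Y] {v : H} {u p m : Y} (hm : v • m = m) (hp : Btw u p m)
    (h : dist u (v • u) ≤ 2 * dist u p) : v • p = p := by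
  have e1 := hp.dist_eq (v • u)
  have e2 : dist m (v • u) = dist u m := by
    conv_lhs => rw [← hm]
    rw [dist_smul, dist_comm]
  have hp' := hp
  unfold Btw at hp'
  rw [e2, max_eq_right (by linarith)] at e1
  have h1 : Btw (v • u) p m := by
    unfold Btw; rw [dist_comm (v • u) p, dist_comm (v • u) m]; linarith
  have h2 : Btw (v • u) (v • p) m := by
    have := hp.smul v
    rwa [hm] at this
  apply h2.unique h1
  rw [dist_smul, dist_comm (v • u) p]; linarith

theorem zlen_arc {V Y : Type} [Group V] [MetricSpace Y] [MulAction V Y] [IsIsometricSMul V Y]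
    [RT Y] {z : V} {L : V → ℕ} (hz : ZLen z L) {x : Y} (hL : ∀ v : V, dist x (v • x) = L v)
    {v g : V} {m a : Y} (hm : v • m = m) (ha : v • a = a) (hne : m ≠ a) (h1 : Btw x m a)
    (h2 : Btw x a (g • x)) : v = 1 := by
  have hd : ∀ u w : V, dist (u • x) (w • x) = L (u⁻¹ * w) := by
    intro u w; rw [← hL, mul_smul, dist_inv_smul]
  obtain ⟨h3, h4⟩ := h2.trans_left h1
  have h1v : Btw (v • x) m a := by have := h1.smul v; rwa [hm, ha] at this
  have h4v : Btw m a ((v * g) • x) := by have := h4.smul v; rwa [hm, ha, ← mul_smul] at this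
  have c1 := (h1v.concat h4 hne).1
  have c2 := (h1.concat h4v hne).1
  have dm : dist (v • x) m = dist x m := by
    conv_lhs => rw [← hm]
    rw [dist_smul]
  have dm' : dist m ((v * g) • x) = dist m (g • x) := by
    conv_lhs => rw [← hm, mul_smul]
    rw [dist_smul]
  have da' : dist a ((v * g) • x) = dist a (g • x) := by
    conv_lhs => rw [← ha, mul_smul]
    rw [dist_smul]
  have pos : 0 < dist m a := dist_pos.mpr hne
  have h1' := h1
  have h2' := h2
  have h3' := h3
  unfold Btw at c1 c2 h1' h2' h3'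
  have hg := hL g
  have E1 : L (g⁻¹ * v) = L g := by
    have : (L (g⁻¹ * v) : ℝ) = L g := by rw [← hd, dist_comm]; linarith
    exact_mod_cast this
  have E2 : L (v * g) = L g := by
    have : (L (v * g) : ℝ) = L g := by rw [← hL]; linarith
    exact_mod_cast this
  obtain ⟨r, hr⟩ : Even (L v) := by
    have := hz.par g v
    rw [E1] at this
    obtain ⟨k, hk⟩ := this
    exact ⟨k - L g, by omega⟩
  obtain ⟨r', hr'⟩ : Even (L (g⁻¹ * (v * g))) := by
    have := hz.par g (v * g)
    rw [E2] at this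
    obtain ⟨k, hk⟩ := this
    exact ⟨k - L g, by omega⟩
  have t0 : 0 ≤ dist x m := dist_nonneg
  have j1 := Nat.floor_le t0
  have j2 := Nat.lt_floor_add_one (dist x m)
  set j := ⌊dist x m⌋₊ with hj
  have n1 : 0 ≤ dist a (g • x) := dist_nonneg
  have jg : j < L g := by
    have : (j : ℝ) < L g := by linarith
    exact_mod_cast this
  have hrj : r ≤ j := by
    have t := dist_triangle x m (v • x)
    rw [dist_comm m, dm, hL, hr] at t
    push_cast at t
    have : (r : ℝ) < ((j + 1 : ℕ) : ℝ) := by push_cast; linarith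
    have : r < j + 1 := by exact_mod_cast this
    omega
  have hrj' : r' + (j + 1) ≤ L g := by
    have t := dist_triangle (g • x) a ((v * g) • x)
    rw [da', hd g (v * g), hr', dist_comm (g • x) a] at t
    push_cast at t
    have : ((r' + j : ℕ) : ℝ) < L g := by push_cast; linarith
    have : r' + j < L g := by exact_mod_cast this
    omega
  obtain ⟨k, k1, k2, k3, k4⟩ := hz.edge g j jg
  have k1' : dist x (k • x) = j := by rw [hL, k1]
  have k2' : dist x ((k * z) • x) = j + 1 := by rw [hL, k2]; push_cast; ring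
  have k3' : dist (k • x) (g • x) + j = L g := by rw [hd]; exact_mod_cast k3
  have k4' : dist ((k * z) • x) (g • x) + (j + 1) = L g := by rw [hd]; exact_mod_cast k4
  have b1 : Btw x (k • x) (g • x) := by unfold Btw; linarith
  have b2 : Btw x ((k * z) • x) (g • x) := by unfold Btw; linarith
  have f1 : v • k • x = k • x := by
    refine fix_of_le hm (b1.order h3 (by linarith)).1 ?_
    have : (r : ℝ) ≤ j := by exact_mod_cast hrj
    rw [hL v, hr, k1']; push_cast; linarith
  have f2 : v • (k * z) • x = (k * z) • x := by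
    refine fix_of_le hm (h3.order b2 (by linarith)).2.symm ?_
    have : ((r' + (j + 1) : ℕ) : ℝ) ≤ L g := by exact_mod_cast hrj'
    rw [← mul_smul, hd g (v * g), hr', dist_comm (g • x)]
    push_cast at this ⊢
    linarith
  have u1 : L (k⁻¹ * (v * k)) = 0 := by
    have : (L (k⁻¹ * (v * k)) : ℝ) = 0 := by rw [← hd, mul_smul, f1, dist_self]
    exact_mod_cast this
  have u2 : L (z⁻¹ * (k⁻¹ * (v * k)) * z) = 0 := by
    have : (L ((k * z)⁻¹ * (v * (k * z))) : ℝ) = 0 := by rw [← hd, mul_smul v, f2, dist_self]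
    have e : (k * z)⁻¹ * (v * (k * z)) = z⁻¹ * (k⁻¹ * (v * k)) * z := by group
    rw [e] at this
    exact_mod_cast this
  have := hz.rigid _ u1 u2
  calc v = k * (k⁻¹ * (v * k)) * k⁻¹ := by group
    _ = 1 := by rw [this]; group

/-- HINT. Use `chiswell`. If `v` fixes `a ≠ b` it fixes `m = med x a b` (`fix_btw`) and one of `a`, `b`, say `a`,
differs from `m`; so `v` fixes `geo x (g x) t` for `t ∈ [t1,t2]`, `t1 < t2`. Let `j = ⌊t1⌋₊ < L g`. By `par` the
projections `gp x (g x) (v x)` and `gp x (g x) (v g x)` are integers, the first is `≤ t1` and the second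
`≥ t2`, so they are `≤ j` and `≥ j+1`; hence `v` fixes `geo x (g x) j` and `geo x (g x) (j+1)`, which are `k x` and
`k z x` for `k` from `edge`; then `rigid` applies to `k⁻¹ v k`. -/
theorem zlen_tree {V : Type} [Group V] {z : V} {L : V → ℕ} (hz : ZLen z L) :
    ∃ A : TAct V, (∀ v : V, dist A.x (v • A.x) = L v) ∧
      ∀ (v : V) (a b : A.Y), a ≠ b → v • a = a → v • b = b → v = 1 := by
  obtain ⟨A, hA, hcov⟩ := chiswell (fun v : V => (L v : ℝ)) (by simp [hz.one])
    (fun h => by simp [hz.inv]) hz.ultra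
  refine ⟨A, hA, fun v a b hab ha hb => ?_⟩
  have hm : v • med A.x a b = med A.x a b := fix_btw ha hb (btw_med2 _ _ _)
  by_cases h : med A.x a b = a
  · obtain ⟨g, hg⟩ := hcov b
    exact zlen_arc hz hA hm hb (by rw [h]; exact hab) (btw_med3 _ _ _) hg
  · obtain ⟨g, hg⟩ := hcov a
    exact zlen_arc hz hA hm ha h (btw_med1 _ _ _) hg

/-- HINT. In the tree, `L (z v) = dist (z x) (v x) = L v ± 1` (parity). If the types of `v` and `v s` differ the
four point condition shows that `x` and `z x` lie on `[v x, v s x]`, i.e. `v⁻¹ x` and `v⁻¹ z x` are the points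
`geo x (s x) a`, `geo x (s x) (a ∓ 1)` with `a = L v`. So `v ↦ (L v, L (z v))` is injective on the set of such
`v` with values `(j, j+1)` or `(j+1, j)`, `j < L s`. -/
theorem zlen_type {V : Type} [Group V] {z : V} {L : V → ℕ} (hz : ZLen z L) (hz2 : z * z = 1) (s : V) :
    ∃ F : Finset V, F.card ≤ 2 * L s ∧
      ∀ v, ¬ (L (z * v) < L v ↔ L (z * (v * s)) < L (v * s)) → v ∈ F := by
  classical
  obtain ⟨A, hL, harc⟩ := zlen_tree hz
  have zi : z⁻¹ = z := inv_eq_of_mul_eq_one_right hz2
  have hd : ∀ u w : V, dist (u • A.x) (w • A.x) = L (u⁻¹ * w) := by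
    intro u w; rw [← hL, mul_smul, dist_inv_smul]
  have hz1 : dist A.x (z • A.x) = 1 := by rw [hL, hz.lz]; simp
  have hzv : ∀ v : V, dist (z • A.x) (v • A.x) = L (z * v) := by intro v; rw [hd, zi]
  have pm : ∀ v : V, L (z * v) + 1 = L v ∨ L (z * v) = L v + 1 := by
    intro v
    have p := hz.par z v
    rw [zi, hz.lz] at p
    obtain ⟨k, hk⟩ := p
    have t1 := dist_triangle A.x (z • A.x) (v • A.x)
    have t2 := dist_triangle (z • A.x) A.x (v • A.x)
    rw [hz1, hzv, hL] at t1
    rw [dist_comm _ A.x, hz1, hzv, hL] at t2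
    have t1' : L v ≤ 1 + L (z * v) := by exact_mod_cast t1
    have t2' : L (z * v) ≤ 1 + L v := by exact_mod_cast t2
    omega
  have key : ∀ v : V, ¬ (L (z * v) < L v ↔ L (z * (v * s)) < L (v * s)) →
      L v + L (v * s) = L s ∧ L (z * v) + L (z * (v * s)) = L s := by
    intro v hv
    have hs : dist (v • A.x) ((v * s) • A.x) = L s := by rw [mul_smul, dist_smul, hL]
    have q1 := RT.four A.x (v • A.x) (z • A.x) ((v * s) • A.x)
    have q2 := RT.four A.x ((v * s) • A.x) (z • A.x) (v • A.x)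
    have t := dist_triangle (v • A.x) A.x ((v * s) • A.x)
    rw [hz1, hs, hzv, dist_comm (v • A.x) (z • A.x), hzv, hL, hL] at q1
    rw [hz1, dist_comm ((v * s) • A.x) (v • A.x), hs, hzv, dist_comm ((v * s) • A.x) (z • A.x),
      hzv, hL, hL] at q2
    rw [hs, dist_comm, hL, hL] at t
    have q1' : L v + L (z * (v * s)) ≤ max (1 + L s) (L (v * s) + L (z * v)) := by
      exact_mod_cast q1
    have q2' : L (v * s) + L (z * v) ≤ max (1 + L s) (L v + L (z * (v * s))) := by
      exact_mod_cast q2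
    have t' : L s ≤ L v + L (v * s) := by exact_mod_cast t
    have := pm v
    have := pm (v * s)
    omega
  let T : Set V := {v | ¬ (L (z * v) < L v ↔ L (z * (v * s)) < L (v * s))}
  let ψ : V → ℕ := fun v => if L (z * v) < L v then 2 * L (z * v) + 1 else 2 * L v
  have hmap : ∀ v ∈ T, ψ v ∈ Finset.range (2 * L s) := by
    intro v hv
    have h1 := key v hv
    have h2 := pm v
    have h3 := pm (v * s)
    have h4 : ¬ (L (z * v) < L v ↔ L (z * (v * s)) < L (v * s)) := hv
    rw [Finset.mem_range]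
    show (if L (z * v) < L v then 2 * L (z * v) + 1 else 2 * L v) < 2 * L s
    split_ifs <;> omega
  have hgeo : ∀ v ∈ T, v⁻¹ • A.x = geo A.x (s • A.x) (L v) ∧
      v⁻¹ • z • A.x = geo A.x (s • A.x) (L (z * v)) := by
    intro v hv
    obtain ⟨h1, h2⟩ := key v hv
    have h1' : (L v : ℝ) + L (v * s) = L s := by exact_mod_cast h1
    have h2' : (L (z * v) : ℝ) + L (z * (v * s)) = L s := by exact_mod_cast h2
    constructor
    · apply eq_geo_of_dist
      · rw [hL, hz.inv]
      · rw [hd, inv_inv, hL]; linarith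
    · apply eq_geo_of_dist
      · rw [dist_inv_smul, dist_comm, hzv]
      · rw [dist_comm, dist_inv_smul, ← mul_smul, dist_comm, hzv, hL]; linarith
  have hinj : Set.InjOn ψ T := by
    intro v hv u hu e
    have h2 := pm v
    have h3 := pm u
    have e' : (if L (z * v) < L v then 2 * L (z * v) + 1 else 2 * L v) =
        (if L (z * u) < L u then 2 * L (z * u) + 1 else 2 * L u) := e
    have e2 : L v = L u ∧ L (z * v) = L (z * u) := by split_ifs at e' <;> omega
    obtain ⟨a1, a2⟩ := hgeo v hv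
    obtain ⟨b1, b2⟩ := hgeo u hu
    rw [e2.1, ← b1] at a1
    rw [e2.2, ← b2] at a2
    have := harc (u * v⁻¹) A.x (z • A.x) (dist_pos.mp (by rw [hz1]; exact one_pos))
      (by rw [mul_smul, a1, smul_inv_smul]) (by rw [mul_smul, a2, smul_inv_smul])
    exact (mul_inv_eq_one.mp this).symm
  have hT : T.Finite := Set.Finite.of_injOn (fun v hv => Finset.mem_coe.mpr (hmap v hv)) hinj
    (Finset.finite_toSet _)
  refine ⟨hT.toFinset, ?_, fun v hv => hT.mem_toFinset.mpr hv⟩
  have := Finset.card_le_card_of_injOn (s := hT.toFinset) (t := Finset.range (2 * L s)) ψ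
    (fun v hv => hmap v (hT.mem_toFinset.mp hv)) (by rw [hT.coe_toFinset]; exact hinj)
  simpa using this

end Pool.Agent.MP_e97151_al

end

-- part MP_e97151_al.Seq
section

/-! From the twisted homomorphisms to an almost invariant set of the big group. -/

set_option autoImplicit false

namespace Pool.Agent.MP_e97151_al

open Filter

/-- pull back of an action along a homomorphism -/
@[reducible] def TAct.comap {H V : Type} [Group H] [Group V] (A : TAct V) (π : H →* V) : TAct H :=
  @TAct.mk H _ A.Y A.met (MulAction.compHom A.Y π)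
    (@IsIsometricSMul.mk H A.Y _ (MulAction.compHom A.Y π).toSMul
      (fun h => isometry_smul A.Y (π h))) A.rt A.x

theorem exists_chain {H : Type} [Group H] [Countable H] (hrf : RF H) :
    ∃ N : ℕ → Subgroup H, (∀ i, (N i).Normal) ∧ (∀ i, (N i).FiniteIndex) ∧ Antitone N ∧
      ∀ h : H, (∀ i, h ∈ N i) → h = 1 := by
  obtain ⟨f, hf⟩ := exists_surjective_nat H
  have h1 : ∀ n : ℕ, ∃ M : Subgroup H, M.Normal ∧ M.FiniteIndex ∧ (f n ∈ M → f n = 1) := by
    intro n
    obtain ⟨M, a, b, c⟩ := hrf.avoid (Set.finite_singleton (f n))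
    exact ⟨M, a, b, c _ rfl⟩
  choose M hM1 hM2 hM3 using h1
  have aux : ∀ A B : Subgroup H, A.Normal → A.FiniteIndex → B.Normal → B.FiniteIndex →
      (A ⊓ B).Normal ∧ (A ⊓ B).FiniteIndex := fun A B _ _ _ _ => ⟨inferInstance, inferInstance⟩
  let N : ℕ → Subgroup H := fun n => Nat.rec (M 0) (fun i K => K ⊓ M (i + 1)) n
  have hN : ∀ i, (N i).Normal ∧ (N i).FiniteIndex ∧ N i ≤ M i := by
    intro i
    induction i with
    | zero => exact ⟨hM1 0, hM2 0, le_rfl⟩
    | succ i ih =>
      obtain ⟨a, b⟩ := aux (N i) (M (i + 1)) ih.1 ih.2.1 (hM1 (i + 1)) (hM2 (i + 1))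
      exact ⟨a, b, inf_le_right⟩
  refine ⟨N, fun i => (hN i).1, fun i => (hN i).2.1,
    antitone_nat_of_succ_le fun i => inf_le_left, ?_⟩
  intro h hh
  obtain ⟨n, rfl⟩ := hf h
  exact hM3 n ((hN n).2.2 (hh n))

theorem ai_of_twist {G H : Type} [Group G] [Group H] (u : G →* H) (hu : GP u)
    (hinj : Function.Injective u) (hG : Group.FG G) (hH : Group.FG H) (hrf : RF H)
    (Z : Set G) (l : G → List G) (hZ : Z.Infinite) (hZc : Zᶜ.Infinite) (hnd : ∀ g, (l g).Nodup)
    (hhead : ∀ g, g ∈ Z ↔ (l g).head? = some 1)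
    (htw : ∀ (Γ : Type) [Group Γ] (q : G →* Γ) (z : Γ), z * z = 1 →
      ∃ φ : G →* Γ, ∀ g, φ g = ((l g).map (fun k => q k * z * (q k)⁻¹)).prod * q g) : AI H := by
  classical
  obtain ⟨SG, hSG⟩ := hG.out
  obtain ⟨S, hSG', hS, hgen⟩ := exists_symm_gens hH (SG.image u)
  have : Countable H := countable_of_gen hgen
  obtain ⟨N, hN1, hN2, hanti, hbot⟩ := exists_chain hrf
  have hφ : ∀ i, ∃ φ : G →* VV (H ⧸ N i), ∀ g, φ g =
      (((l g).map (fun k => ((u k : H) : H ⧸ N i))).map
        (fun k => Monoid.Coprod.inl k * zz _ * (Monoid.Coprod.inl k)⁻¹)).prod *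
        Monoid.Coprod.inl ((u g : H) : H ⧸ N i) := by
    intro i
    obtain ⟨φ, h⟩ := htw (VV (H ⧸ N i))
      (Monoid.Coprod.inl.comp ((QuotientGroup.mk' (N i)).comp u)) (zz _) (zz_mul_self _)
    exact ⟨φ, fun g => by rw [h g, List.map_map]; rfl⟩
  choose φ hφ using hφ
  have hπ : ∀ i, ∃ π : H →* VV (H ⧸ N i), π.comp u = φ i := fun i =>
    (inC_VV (H ⧸ N i)).2 G H u hH hu (φ i)
  choose π hπ using hπ
  have hπ' : ∀ i g, π i (u g) = φ i g := fun i g => by rw [← hπ i]; rfl
  choose L hL hLle hLty using fun i => exists_zlen (H ⧸ N i)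
  choose A hA hAarc using fun i => zlen_tree (hL i)
  -- kernels
  have hker : ∀ i, (π i).ker ≤ N i := by
    intro i h hh
    let pr : VV (H ⧸ N i) →* H ⧸ N i := Monoid.Coprod.lift (MonoidHom.id _) 1
    have e : pr.comp (π i) = QuotientGroup.mk' (N i) := by
      apply (hu (H ⧸ N i)).1
      ext g
      simp only [MonoidHom.comp_apply, hπ', hφ, map_mul, map_list_prod, List.map_map]
      have : ∀ k ∈ l g, ((pr : VV (H ⧸ N i) → H ⧸ N i) ∘
          (fun k => Monoid.Coprod.inl k * zz _ * (Monoid.Coprod.inl k)⁻¹) ∘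
          fun k => ((u k : H) : H ⧸ N i)) k = (fun _ => 1) k := by
        intro k _
        simp [pr, zz]
      rw [List.map_congr_left this]
      simp [pr]
    have := congrArg (fun f : H →* H ⧸ N i => f h) e
    simp only [MonoidHom.comp_apply, MonoidHom.mem_ker.mp hh, map_one] at this
    exact (QuotientGroup.eq_one_iff h).mp this.symm
  have hKanti : Antitone (fun i => (π i).ker) := by
    intro i j hij h hh
    let r : VV (H ⧸ N j) →* VV (H ⧸ N i) := Monoid.Coprod.map
      (QuotientGroup.map (N j) (N i) (MonoidHom.id H) (fun g hg => hanti hij hg)) (MonoidHom.id _)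
    have e : r.comp (π j) = π i := by
      apply hu.uniq (inC_VV (H ⧸ N i)).1
      ext g
      simp only [MonoidHom.comp_apply, hπ', hφ, map_mul, map_list_prod, List.map_map]
      congr 1
    show π i h = 1
    rw [← e, MonoidHom.comp_apply, MonoidHom.mem_ker.mp hh, map_one]
  have hU : ((hyperfilter ℕ : Ultrafilter ℕ) : Filter ℕ) ≤ atTop := by
    rw [← Nat.cofinite_eq_atTop]; exact hyperfilter_le_cofinite
  obtain ⟨B, hB⟩ := bounded_lengths S hS hgen hrf (fun i => (A i).comap (π i)) (fun i => (π i).ker)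
    hKanti (fun h hh => hbot h fun i => hker i (hh i))
    (fun i h a b hab ha hb => hAarc i (π i h) a b hab ha hb)
    (fun i k hk y => by
      show π i k • y = y
      rw [MonoidHom.mem_ker.mp hk, one_smul])
    (fun i h => ⟨L i (π i h), by
      show dist (A i).x (π i h • (A i).x) = _
      rw [hA]; simp⟩)
    (fun Γ _ _ α β h => by
      apply (hu Γ).1
      show α.comp u = β.comp u
      apply MonoidHom.eq_of_eqOn_dense hSG
      intro g hg
      refine h (u g) (hSG' _ (Finset.mem_image_of_mem u hg)) ⟨(l g).length, fun i => ?_⟩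
      show dist (A i).x (π i (u g) • (A i).x) ≤ _
      rw [hA, hπ', hφ]
      have := hLle i ((l g).map (fun k => ((u k : H) : H ⧸ N i))) ((u g : H) : H ⧸ N i)
      rw [List.length_map] at this
      exact_mod_cast this) (hyperfilter ℕ) hU
  have hev : ∀ h : H, h ≠ 1 → ∀ᶠ i in ((hyperfilter ℕ : Ultrafilter ℕ) : Filter ℕ), h ∉ N i := by
    intro h hh
    have : ∃ i, h ∉ N i := by
      by_contra hc
      push Not at hc
      exact hh (hbot h hc)
    obtain ⟨i, hi⟩ := this
    exact hU (mem_of_superset (mem_atTop i) fun j hj hm => hi (hanti hj hm))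
  let Yh : Set H := {h | ∀ᶠ i in ((hyperfilter ℕ : Ultrafilter ℕ) : Filter ℕ),
    L i (zz _ * π i h) < L i (π i h)}
  have hY : ∀ g : G, u g ∈ Yh ↔ g ∈ Z := by
    intro g
    have h1 : ∀ᶠ i in ((hyperfilter ℕ : Ultrafilter ℕ) : Filter ℕ),
        ∀ a ∈ (1 :: l g).toFinset, ∀ b ∈ (1 :: l g).toFinset,
          ((u a : H) : H ⧸ N i) = (u b : H) → a = b := by
      rw [Filter.eventually_all_finset]
      intro a _
      rw [Filter.eventually_all_finset]
      intro b _
      by_cases hab : a = b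
      · exact Eventually.of_forall fun _ _ => hab
      · refine (hev ((u a)⁻¹ * u b) ?_).mono fun i hi e => absurd (QuotientGroup.eq.mp e) hi
        intro e
        exact hab (hinj (inv_mul_eq_one.mp e))
    have h2 : ∀ᶠ i in ((hyperfilter ℕ : Ultrafilter ℕ) : Filter ℕ),
        (L i (zz _ * π i (u g)) < L i (π i (u g)) ↔ g ∈ Z) := by
      refine h1.mono fun i hi => ?_
      rw [hπ', hφ, hLty, hhead]
      · cases hl : l g with
        | nil => simp
        | cons a t =>
          simp only [List.map_cons, List.head?_cons, Option.some.injEq]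
          constructor
          · intro e
            exact hi a (by simp [hl]) 1 (by simp) (by rw [e, map_one]; rfl)
          · rintro rfl
            rw [map_one]; rfl
      · apply List.Pairwise.isChain
        exact List.Nodup.map_on (fun a ha b hb e => hi a (by simp [ha]) b (by simp [hb]) e) (hnd g)
    constructor
    · intro h
      exact ((h.and h2).exists).elim fun i hi => hi.2.mp hi.1
    · intro h
      exact h2.mono fun i hi => hi.mpr h
  refine ⟨Yh, ?_, ?_, aInv_of_gens (S := (S : Set H)) ?_ ?_⟩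
  · exact (hZ.image hinj.injOn).mono (by rintro _ ⟨g, hg, rfl⟩; exact (hY g).mpr hg)
  · exact (hZc.image hinj.injOn).mono (by rintro _ ⟨g, hg, rfl⟩ h; exact hg ((hY g).mp h))
  · rw [eq_top_iff]
    intro g _
    obtain ⟨w, hw, rfl⟩ := hgen g
    exact Subgroup.list_prod_mem _ fun a ha => Subgroup.subset_closure (hw a ha)
  · intro s hs
    by_contra hinf
    obtain ⟨T, hT, hcard⟩ := Set.Infinite.exists_subset_card_eq hinf (2 * ⌈B⌉₊ + 1)
    have h1 : ∀ᶠ i in ((hyperfilter ℕ : Ultrafilter ℕ) : Filter ℕ), ∀ a ∈ T, ∀ b ∈ T,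
        π i a = π i b → a = b := by
      rw [Filter.eventually_all_finset]
      intro a _
      rw [Filter.eventually_all_finset]
      intro b _
      by_cases hab : a = b
      · exact Eventually.of_forall fun _ _ => hab
      · refine (hev (a⁻¹ * b) (fun e => hab (inv_mul_eq_one.mp e))).mono fun i hi e => ?_
        exact absurd (hker i (by rw [MonoidHom.mem_ker, map_mul, map_inv, e, inv_mul_cancel])) hi
    have h2 : ∀ᶠ i in ((hyperfilter ℕ : Ultrafilter ℕ) : Filter ℕ), ∀ a ∈ T,
        ¬ (L i (zz _ * π i a) < L i (π i a) ↔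
          L i (zz _ * (π i a * π i s)) < L i (π i a * π i s)) := by
      rw [Filter.eventually_all_finset]
      intro a ha
      have h3 : ¬ (a ∈ Yh ↔ a * s ∈ Yh) := hT ha
      by_cases h4 : a ∈ Yh
      · have h5 : a * s ∉ Yh := fun h => h3 ⟨fun _ => h, fun _ => h4⟩
        have h6 := Ultrafilter.eventually_not.mpr h5
        refine (Filter.Eventually.and h4 h6).mono fun i hi e => hi.2 ?_
        rw [map_mul]; exact e.mp hi.1
      · have h5 : a * s ∈ Yh := by
          by_contra h
          exact h3 ⟨fun h' => absurd h' h4, fun h' => absurd h' h⟩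
        have h6 := Ultrafilter.eventually_not.mpr h4
        refine (Filter.Eventually.and h5 h6).mono fun i hi e => hi.2 (e.mpr ?_)
        rw [← map_mul]; exact hi.1
    obtain ⟨i, hi1, hi2, hi3⟩ := (h1.and (h2.and hB)).exists
    obtain ⟨F, hF1, hF2⟩ := zlen_type (hL i) (zz_mul_self _) (π i s)
    have h3 : T.card ≤ F.card :=
      Finset.card_le_card_of_injOn (π i) (fun a ha => hF2 _ (hi2 a ha))
        (fun a ha b hb e => hi1 a ha b hb e)
    have h4 : (L i (π i s) : ℝ) ≤ B := by
      rw [← hA]; exact hi3 s hs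
    have h5 : L i (π i s) ≤ ⌈B⌉₊ := by
      exact_mod_cast le_trans h4 (Nat.le_ceil B)
    omega

end Pool.Agent.MP_e97151_al

end

-- part MP_e97151_al.Main
section

/-! Having an infinite coinfinite almost invariant set passes up along Grothendieck pairs. -/

set_option autoImplicit false

namespace Pool.Agent.MP_e97151_al

theorem ai_up {G H : Type} [Group G] [Group H] (hG : Group.FG G) (hH : Group.FG H) (hrG : RF G)
    (hrH : RF H) (u : G →* H) (hinj : Function.Injective u) (hu : GP u) (h : AI G) : AI H := by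
  obtain ⟨G0, h1, h2, Z, l, hZ, hZc, hnd, hhead, htw⟩ := exists_twist hG hrG h
  obtain ⟨H0, h3, h4, -, u0, hu0, hgp⟩ := hu.sub G0
  have hinj0 : Function.Injective u0 := by
    intro a b e
    apply Subtype.ext
    apply hinj
    rw [← hu0, ← hu0, e]
  exact ai_of_finiteIndex H0 (ai_of_twist u0 hgp hinj0 (Subgroup.fg_of_index_ne_zero G0)
    (Subgroup.fg_of_index_ne_zero H0) (hrH.of_injective H0.subtype Subtype.val_injective)
    Z l hZ hZc hnd hhead htw)

end Pool.Agent.MP_e97151_al

end
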