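import Pool.Agent.MP_e97151_al.Mg.Main

/-! An isomorphism of profinite completions gives a Grothendieck pair. -/

set_option autoImplicit false

namespace Pool.Agent.MP_e97151_al

open CategoryTheory

theorem gp_of_isIso {G H : Type} [Group G] [Group H] (u : G →* H)
    (h : IsIso (ProfiniteGrp.profiniteCompletion.map (GrpCat.ofHom u))) : GP u := by
  intro Q _ _
  let P : ProfiniteGrp := ProfiniteGrp.ofFiniteGrp (FiniteGrp.of Q)
  let adj := ProfiniteGrp.ProfiniteCompletion.adjunction.{0}
  have hb : Function.Bijective (fun f : ProfiniteGrp.profiniteCompletion.obj (GrpCat.of H) ⟶ P =>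
      ProfiniteGrp.profiniteCompletion.map (GrpCat.ofHom u) ≫ f) := by
    constructor
    · intro f g e
      exact (cancel_epi _).mp e
    · intro g
      exact ⟨inv (ProfiniteGrp.profiniteCompletion.map (GrpCat.ofHom u)) ≫ g, by simp⟩
  have hc : Function.Bijective (fun f : GrpCat.of H ⟶ (forget₂ ProfiniteGrp GrpCat).obj P =>
      GrpCat.ofHom u ≫ f) := by
    have e : (fun f : GrpCat.of H ⟶ (forget₂ ProfiniteGrp GrpCat).obj P => GrpCat.ofHom u ≫ f) =
        (adj.homEquiv (GrpCat.of G) P) ∘
          (fun f : ProfiniteGrp.profiniteCompletion.obj (GrpCat.of H) ⟶ P =>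
            ProfiniteGrp.profiniteCompletion.map (GrpCat.ofHom u) ≫ f) ∘
          (adj.homEquiv (GrpCat.of H) P).symm := by
      funext f
      simp only [Function.comp]
      rw [adj.homEquiv_naturality_left, Equiv.apply_symm_apply]
    rw [e]
    exact (Equiv.bijective _).comp (hb.comp (Equiv.bijective _))
  constructor
  · intro φ ψ e
    have : (GrpCat.ofHom φ : GrpCat.of H ⟶ (forget₂ ProfiniteGrp GrpCat).obj P) = GrpCat.ofHom ψ := by
      apply hc.1
      apply GrpCat.hom_ext
      exact e
    exact congrArg GrpCat.Hom.hom this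
  · intro φ
    obtain ⟨f, hf⟩ := hc.2 (GrpCat.ofHom φ)
    exact ⟨f.hom, congrArg GrpCat.Hom.hom hf⟩

theorem rf_of_residuallyFinite (G : Type) [Group G] [Group.ResiduallyFinite G] : RF G := by
  intro g hg
  obtain ⟨N, hN⟩ := Group.exists_finiteIndexNormalSubgroup_notMem g hg
  exact ⟨N.toSubgroup, inferInstance, inferInstance, hN⟩

theorem cayley_eq {G : Type} [Group G] (S : Finset G) :
    SimpleGraph.mulCayley (S : Set G) = SimpleGraph.fromRel (fun x y : G => ∃ s ∈ S, y = x * s) := by
  ext a b
  simp [SimpleGraph.mulCayley, eq_comm]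

end Pool.Agent.MP_e97151_al
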